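import Mathlib.Analysis.Real.Pi.Bounds
import Mathlib.Analysis.Real.Pi.Leibniz
import Mathlib.Analysis.SpecialFunctions.Log.Monotone
import Mathlib.Data.Finset.NatDivisors
import Mathlib.Data.Set.Card.Arithmetic
import Mathlib.FieldTheory.Finite.Extension
import Mathlib.NumberTheory.AbelSummation
import Mathlib.NumberTheory.Basic
import Mathlib.NumberTheory.Bertrand
import Mathlib.NumberTheory.Chebyshev
import Mathlib.NumberTheory.Harmonic.Bounds
import Mathlib.NumberTheory.JacobiSum.Basic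
import Mathlib.NumberTheory.LSeries.DirichletContinuation
import Mathlib.NumberTheory.LSeries.HurwitzZetaValues
import Mathlib.NumberTheory.LSeries.PrimesInAP
import Mathlib.NumberTheory.LegendreSymbol.JacobiSymbol
import Mathlib.NumberTheory.SumTwoSquares
import Mathlib.Tactic

set_option autoImplicit false

open Finset

namespace Pool.Agent.Lib.MP_0e0027_nt

variable {q : ℕ} [NeZero q]

/-- Kloosterman sum modulo `q`. -/
noncomputable def Kl (u v : ZMod q) : ℂ :=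
  ∑ a : (ZMod q)ˣ, ZMod.stdAddChar (u * (a : ZMod q) + v * ((a⁻¹ : (ZMod q)ˣ) : ZMod q))

/-- number of annihilators of `s` -/
def zc (s : ZMod q) : ℕ := (univ.filter (fun a : ZMod q ↦ s * a = 0)).card

theorem sum_psi (b : ZMod q) :
    ∑ x : ZMod q, (ZMod.stdAddChar (x * b) : ℂ) = if b = 0 then (q : ℂ) else 0 := by
  have h := AddChar.sum_mulShift b (ZMod.isPrimitive_stdAddChar q)
  rw [h]
  simp [ZMod.card]

theorem conj_psi (x : ZMod q) :
    (starRingEnd ℂ) (ZMod.stdAddChar x) = ZMod.stdAddChar (-x) := by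
  rw [ZMod.stdAddChar_apply, ZMod.stdAddChar_apply, ← Circle.coe_inv_eq_conj, AddChar.map_neg_eq_inv]

/-- first linear form -/
def l1 (a b c d : (ZMod q)ˣ) : ZMod q := (a : ZMod q) + (b : ZMod q) - (c : ZMod q) - (d : ZMod q)

/-- second linear form, in the inverses -/
def l2 (a b c d : (ZMod q)ˣ) : ZMod q := l1 a⁻¹ b⁻¹ c⁻¹ d⁻¹

/-- quadruples of units counted by the fourth moment -/
def E4 (q : ℕ) [NeZero q] : ℕ :=
  ∑ a : (ZMod q)ˣ, ∑ b : (ZMod q)ˣ, ∑ c : (ZMod q)ˣ, ∑ d : (ZMod q)ˣ,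
    if l1 a b c d = 0 ∧ l2 a b c d = 0 then 1 else 0

theorem norm4 (u v : ZMod q) : ((‖Kl u v‖ ^ 4 : ℝ) : ℂ) =
      ∑ a : (ZMod q)ˣ, ∑ b : (ZMod q)ˣ, ∑ c : (ZMod q)ˣ, ∑ d : (ZMod q)ˣ,
        (ZMod.stdAddChar (u * l1 a b c d) : ℂ) * ZMod.stdAddChar (v * l2 a b c d) := by
  have h1 : ((‖Kl u v‖ ^ 4 : ℝ) : ℂ) =
      (starRingEnd ℂ) (Kl u v) * ((starRingEnd ℂ) (Kl u v) * (Kl u v * Kl u v)) := by
    have h2 : Kl u v * (starRingEnd ℂ) (Kl u v) = ((‖Kl u v‖ ^ 2 : ℝ) : ℂ) := by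
      rw [Complex.mul_conj, Complex.normSq_eq_norm_sq]
    calc ((‖Kl u v‖ ^ 4 : ℝ) : ℂ) = ((‖Kl u v‖ ^ 2 : ℝ) : ℂ) * ((‖Kl u v‖ ^ 2 : ℝ) : ℂ) := by
          push_cast; ring
      _ = _ := by rw [← h2]; ring
  rw [h1]
  have h3 : (starRingEnd ℂ) (Kl u v) = ∑ a : (ZMod q)ˣ,
      (ZMod.stdAddChar (-(u * (a : ZMod q) + v * ((a⁻¹ : (ZMod q)ˣ) : ZMod q))) : ℂ) := by
    unfold Kl
    rw [map_sum]
    exact sum_congr rfl (fun a _ ↦ conj_psi _)
  rw [h3]
  unfold Kl
  simp only [sum_mul, mul_sum]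
  refine sum_congr rfl (fun a _ ↦ sum_congr rfl (fun b _ ↦ sum_congr rfl (fun c _ ↦
    sum_congr rfl (fun d _ ↦ ?_))))
  rw [← AddChar.map_add_eq_mul, ← AddChar.map_add_eq_mul, ← AddChar.map_add_eq_mul,
    ← AddChar.map_add_eq_mul]
  congr 1
  simp only [l2, l1]
  ring

theorem moment4 : ∑ u : ZMod q, ∑ v : ZMod q, ‖Kl u v‖ ^ 4 = (q : ℝ) ^ 2 * E4 q := by
  have key : ((∑ u : ZMod q, ∑ v : ZMod q, ‖Kl u v‖ ^ 4 : ℝ) : ℂ) = (q : ℂ) ^ 2 * E4 q := by
    push_cast
    have : ∀ u v : ZMod q, (‖Kl u v‖ : ℂ) ^ 4 = ((‖Kl u v‖ ^ 4 : ℝ) : ℂ) := by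
      intro u v; push_cast; rfl
    simp only [this, norm4]
    -- swap sums
    have h1 : ∀ u : ZMod q, ∑ v : ZMod q, ∑ a : (ZMod q)ˣ, ∑ b : (ZMod q)ˣ, ∑ c : (ZMod q)ˣ,
        ∑ d : (ZMod q)ˣ, (ZMod.stdAddChar (u * l1 a b c d) : ℂ) * ZMod.stdAddChar (v * l2 a b c d) =
        ∑ a : (ZMod q)ˣ, ∑ b : (ZMod q)ˣ, ∑ c : (ZMod q)ˣ,
        ∑ d : (ZMod q)ˣ, (ZMod.stdAddChar (u * l1 a b c d) : ℂ) *
          (if l2 a b c d = 0 then (q : ℂ) else 0) := by
      intro u
      rw [sum_comm]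
      refine sum_congr rfl (fun a _ ↦ ?_)
      rw [sum_comm]
      refine sum_congr rfl (fun b _ ↦ ?_)
      rw [sum_comm]
      refine sum_congr rfl (fun c _ ↦ ?_)
      rw [sum_comm]
      refine sum_congr rfl (fun d _ ↦ ?_)
      rw [← mul_sum, sum_psi]
    simp only [h1]
    rw [sum_comm]
    unfold E4
    push_cast
    rw [mul_sum]
    refine sum_congr rfl (fun a _ ↦ ?_)
    rw [sum_comm, mul_sum]
    refine sum_congr rfl (fun b _ ↦ ?_)
    rw [sum_comm, mul_sum]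
    refine sum_congr rfl (fun c _ ↦ ?_)
    rw [sum_comm, mul_sum]
    refine sum_congr rfl (fun d _ ↦ ?_)
    rw [← sum_mul, sum_psi]
    by_cases h1 : l1 a b c d = 0 <;> by_cases h2 : l2 a b c d = 0 <;> simp [h1, h2] <;> ring
  have : ((∑ u : ZMod q, ∑ v : ZMod q, ‖Kl u v‖ ^ 4 : ℝ) : ℂ) = (((q : ℝ) ^ 2 * E4 q : ℝ) : ℂ) := by
    rw [key]; push_cast; rfl
  exact_mod_cast this

end Pool.Agent.Lib.MP_0e0027_nt

namespace Pool.Agent.Lib.MP_0e0027_nt

variable {q : ℕ} [NeZero q]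

theorem E4_eq_card : E4 q = (univ.filter (fun t : (ZMod q)ˣ × (ZMod q)ˣ × (ZMod q)ˣ × (ZMod q)ˣ ↦
    l1 t.1 t.2.1 t.2.2.1 t.2.2.2 = 0 ∧ l2 t.1 t.2.1 t.2.2.1 t.2.2.2 = 0)).card := by
  rw [card_filter]
  simp only [Fintype.sum_prod_type]
  rfl

theorem E4_le_Z3 (hq : Odd q) : E4 q ≤
    (univ.filter (fun s : ZMod q × ZMod q × ZMod q ↦ s.1 * s.2.1 * s.2.2 = 0)).card := by
  rw [E4_eq_card]
  have h2 : IsUnit (2 : ZMod q) := by
    have : IsUnit ((2 : ℕ) : ZMod q) := by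
      rw [ZMod.isUnit_iff_coprime]
      exact (Nat.coprime_two_left.mpr hq)
    exact_mod_cast this
  apply card_le_card_of_injOn (fun t ↦ ((t.1 : ZMod q) + (t.2.1 : ZMod q),
    (t.2.2.1 : ZMod q) - (t.1 : ZMod q), (t.2.1 : ZMod q) - (t.2.2.1 : ZMod q)))
  · intro t ht
    obtain ⟨a, b, c, d⟩ := t
    simp only [coe_filter, mem_univ, true_and, Set.mem_ofPred_eq] at ht ⊢
    obtain ⟨h1, h3⟩ := ht
    simp only [l1, l2] at h1 h3
    have e1 : (d : ZMod q) = a + b - c := by linear_combination -h1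
    have ha : (a : ZMod q) * ((a⁻¹ : (ZMod q)ˣ) : ZMod q) = 1 := a.mul_inv
    have hb : (b : ZMod q) * ((b⁻¹ : (ZMod q)ˣ) : ZMod q) = 1 := b.mul_inv
    have hc : (c : ZMod q) * ((c⁻¹ : (ZMod q)ˣ) : ZMod q) = 1 := c.mul_inv
    have hd : (d : ZMod q) * ((d⁻¹ : (ZMod q)ˣ) : ZMod q) = 1 := d.mul_inv
    -- (a + b) c d = (c + d) a b
    have h4 : ((a : ZMod q) + b) * (c * d) = (c + d) * (a * b) := by
      have h5 : (a : ZMod q) * b * c * d * (((a⁻¹ : (ZMod q)ˣ) : ZMod q) + ((b⁻¹ : (ZMod q)ˣ) : ZMod q)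
        - ((c⁻¹ : (ZMod q)ˣ) : ZMod q) - ((d⁻¹ : (ZMod q)ˣ) : ZMod q)) = 0 := by
        rw [h3, mul_zero]
      linear_combination h5 - (b : ZMod q) * c * d * ha - (a : ZMod q) * c * d * hb
        + (a : ZMod q) * b * d * hc + (a : ZMod q) * b * c * hd
    have h6 : (c : ZMod q) + d = a + b := by linear_combination -h1
    rw [h6] at h4
    rw [e1] at h4
    linear_combination h4
  · intro t ht t' ht' h
    obtain ⟨a, b, c, d⟩ := t
    obtain ⟨a', b', c', d'⟩ := t'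
    simp only [coe_filter, mem_univ, true_and, Set.mem_ofPred_eq] at ht ht'
    simp only [Prod.mk.injEq] at h
    obtain ⟨h3, h4, h5⟩ := h
    have e1 := ht.1
    have e2 := ht'.1
    simp only [l1] at e1 e2
    have hb : (b : ZMod q) = b' := by
      have : (2 : ZMod q) * b = 2 * b' := by linear_combination h3 + h4 + h5
      exact h2.mul_left_cancel this
    have ha : (a : ZMod q) = a' := by linear_combination h3 - hb
    have hc : (c : ZMod q) = c' := by linear_combination h4 + ha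
    have hd : (d : ZMod q) = d' := by linear_combination -e1 + e2 + ha + hb - hc
    rw [Units.ext ha, Units.ext hb, Units.ext hc, Units.ext hd]

theorem zc_mul (s t : ZMod q) : zc (s * t) ≤ zc s * zc t := by
  unfold zc
  rw [mul_comm (card _) (card _)]
  refine le_trans (card_le_mul_card_image (f := fun x ↦ t * x) _
    ((univ.filter (fun a : ZMod q ↦ t * a = 0)).card) ?_) ?_
  · intro b hb
    rw [mem_image] at hb
    obtain ⟨x, hx, rfl⟩ := hb
    apply card_le_card_of_injOn (fun y ↦ y - x)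
    · intro y hy
      simp only [coe_filter, mem_filter, mem_univ, true_and, Set.mem_ofPred_eq] at hy ⊢
      linear_combination hy.2
    · intro y _ y' _ h
      simp only at h
      linear_combination h
  · apply Nat.mul_le_mul_left
    apply card_le_card
    intro y hy
    rw [mem_image] at hy
    obtain ⟨x, hx, rfl⟩ := hy
    simp only [mem_filter, mem_univ, true_and] at hx ⊢
    linear_combination hx

theorem Z3_le : (univ.filter (fun s : ZMod q × ZMod q × ZMod q ↦ s.1 * s.2.1 * s.2.2 = 0)).card ≤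
    (∑ s : ZMod q, zc s) ^ 2 := by
  rw [card_filter]
  simp only [Fintype.sum_prod_type]
  have h1 : ∀ x y : ZMod q, (∑ z : ZMod q, if x * y * z = 0 then 1 else 0) = zc (x * y) := by
    intro x y
    unfold zc
    rw [card_filter]
  simp only [h1]
  rw [sq, sum_mul_sum]
  exact sum_le_sum (fun x _ ↦ sum_le_sum (fun y _ ↦ zc_mul x y))

theorem sum_zc_le : ∑ s : ZMod q, zc s ≤ q * (Nat.divisors q).card := by
  have hq0 : q ≠ 0 := NeZero.ne q
  have h1 : ∑ s : ZMod q, zc s = (univ.filter (fun s : ZMod q × ZMod q ↦ s.1 * s.2 = 0)).card := by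
    rw [card_filter]
    simp only [Fintype.sum_prod_type]
    apply sum_congr rfl
    intro x _
    unfold zc
    rw [card_filter]
  rw [h1]
  have h2 : (univ.filter (fun s : ZMod q × ZMod q ↦ s.1 * s.2 = 0)) ⊆
      (Nat.divisors q).biUnion (fun g ↦
        (univ.filter (fun x : ZMod q ↦ g ∣ x.val)) ×ˢ
        (univ.filter (fun x : ZMod q ↦ (q / g) ∣ x.val))) := by
    intro s hs
    obtain ⟨x, y⟩ := s
    simp only [mem_filter, mem_univ, true_and] at hs
    rw [mem_biUnion]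
    refine ⟨Nat.gcd x.val q, ?_, ?_⟩
    · rw [Nat.mem_divisors]
      exact ⟨Nat.gcd_dvd_right _ _, hq0⟩
    · rw [mem_product]
      simp only [mem_filter, mem_univ, true_and]
      refine ⟨Nat.gcd_dvd_left _ _, ?_⟩
      have h3 : q ∣ x.val * y.val := by
        have : ((x.val * y.val : ℕ) : ZMod q) = 0 := by
          push_cast
          rw [ZMod.natCast_zmod_val, ZMod.natCast_zmod_val]
          exact hs
        exact (ZMod.natCast_eq_zero_iff _ _).mp this
      have hg : 0 < Nat.gcd x.val q := Nat.gcd_pos_of_pos_right _ (Nat.pos_of_ne_zero hq0)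
      have h4 : q / Nat.gcd x.val q ∣ (x.val / Nat.gcd x.val q) * y.val := by
        have h5 : q / Nat.gcd x.val q * Nat.gcd x.val q ∣
            (x.val / Nat.gcd x.val q) * y.val * Nat.gcd x.val q := by
          rw [Nat.div_mul_cancel (Nat.gcd_dvd_right _ _), mul_right_comm,
            Nat.div_mul_cancel (Nat.gcd_dvd_left _ _)]
          exact h3
        exact Nat.dvd_of_mul_dvd_mul_right hg h5
      have h6 : Nat.Coprime (q / Nat.gcd x.val q) (x.val / Nat.gcd x.val q) := by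
        rw [Nat.coprime_comm]
        exact Nat.coprime_div_gcd_div_gcd hg
      exact h6.dvd_of_dvd_mul_left h4
  refine le_trans (card_le_card h2) (le_trans card_biUnion_le ?_)
  have h3 : ∀ g ∈ Nat.divisors q, ((univ.filter (fun x : ZMod q ↦ g ∣ x.val)) ×ˢ
        (univ.filter (fun x : ZMod q ↦ (q / g) ∣ x.val))).card ≤ q := by
    intro g hg
    have hgd := Nat.dvd_of_mem_divisors hg
    have hcount : ∀ k : ℕ, k ∣ q → (univ.filter (fun x : ZMod q ↦ k ∣ x.val)).card ≤ q / k := by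
      intro k hk
      have hk0 : 0 < k := Nat.pos_of_dvd_of_pos hk (Nat.pos_of_ne_zero hq0)
      have : (univ.filter (fun x : ZMod q ↦ k ∣ x.val)).card ≤ (range (q / k)).card := by
        apply card_le_card_of_injOn (fun x ↦ x.val / k)
        · intro x hx
          simp only [coe_filter, mem_univ, true_and, Set.mem_ofPred_eq, coe_range, Set.mem_Iio] at hx ⊢
          apply Nat.div_lt_of_lt_mul
          rw [Nat.mul_div_cancel' hk]
          exact ZMod.val_lt x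
        · intro x hx y hy h
          simp only [coe_filter, mem_univ, true_and, Set.mem_ofPred_eq] at hx hy
          simp only at h
          apply ZMod.val_injective q
          rw [← Nat.div_mul_cancel hx, ← Nat.div_mul_cancel hy, h]
      simpa using this
    rw [card_product]
    calc _ ≤ (q / g) * (q / (q / g)) := Nat.mul_le_mul (hcount g hgd) (hcount _ (Nat.div_dvd_of_dvd hgd))
      _ = (q / g) * g := by rw [Nat.div_div_self hgd hq0]
      _ = q := Nat.div_mul_cancel hgd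
  calc _ ≤ ∑ _g ∈ Nat.divisors q, q := sum_le_sum h3
    _ = q * (Nat.divisors q).card := by rw [sum_const, smul_eq_mul, mul_comm]

theorem E4_le (hq : Odd q) : E4 q ≤ (q * (Nat.divisors q).card) ^ 2 :=
  le_trans (E4_le_Z3 hq) (le_trans Z3_le (Nat.pow_le_pow_left sum_zc_le 2))

end Pool.Agent.Lib.MP_0e0027_nt

namespace Pool.Agent.Lib.MP_0e0027_nt

variable {q : ℕ} [NeZero q]

theorem Kl_unit (u v : ZMod q) (l : (ZMod q)ˣ) :
    Kl ((l : ZMod q) * u) (((l⁻¹ : (ZMod q)ˣ) : ZMod q) * v) = Kl u v := by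
  unfold Kl
  apply Fintype.sum_equiv (Equiv.mulLeft l)
  intro a
  congr 1
  simp only [Equiv.coe_mulLeft, Units.val_mul, mul_inv_rev]
  ring

theorem zc_le_gcd (A : ℕ) : zc (A : ZMod q) ≤ Nat.gcd A q := by
  have hq0 : q ≠ 0 := NeZero.ne q
  have hg : 0 < Nat.gcd A q := Nat.gcd_pos_of_pos_right _ (Nat.pos_of_ne_zero hq0)
  unfold zc
  have hk : q / Nat.gcd A q ∣ q := Nat.div_dvd_of_dvd (Nat.gcd_dvd_right _ _)
  have hk0 : 0 < q / Nat.gcd A q := Nat.pos_of_dvd_of_pos hk (Nat.pos_of_ne_zero hq0)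
  have h1 : ∀ x : ZMod q, (A : ZMod q) * x = 0 → q / Nat.gcd A q ∣ x.val := by
    intro x hx
    have h3 : q ∣ A * x.val := by
      have : ((A * x.val : ℕ) : ZMod q) = 0 := by
        push_cast
        rw [ZMod.natCast_zmod_val]
        exact hx
      exact (ZMod.natCast_eq_zero_iff _ _).mp this
    have h4 : q / Nat.gcd A q ∣ (A / Nat.gcd A q) * x.val := by
      have h5 : q / Nat.gcd A q * Nat.gcd A q ∣ (A / Nat.gcd A q) * x.val * Nat.gcd A q := by
        rw [Nat.div_mul_cancel (Nat.gcd_dvd_right _ _), mul_right_comm,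
          Nat.div_mul_cancel (Nat.gcd_dvd_left _ _)]
        exact h3
      exact Nat.dvd_of_mul_dvd_mul_right hg h5
    have h6 : Nat.Coprime (q / Nat.gcd A q) (A / Nat.gcd A q) := by
      rw [Nat.coprime_comm]
      exact Nat.coprime_div_gcd_div_gcd hg
    exact h6.dvd_of_dvd_mul_left h4
  have h2 : (univ.filter (fun a : ZMod q ↦ (A : ZMod q) * a = 0)).card ≤
      (range (Nat.gcd A q)).card := by
    apply card_le_card_of_injOn (fun x ↦ x.val / (q / Nat.gcd A q))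
    · intro x hx
      simp only [coe_filter, mem_univ, true_and, Set.mem_ofPred_eq, coe_range, Set.mem_Iio] at hx ⊢
      apply Nat.div_lt_of_lt_mul
      rw [Nat.div_mul_cancel (Nat.gcd_dvd_right _ _)]
      exact ZMod.val_lt x
    · intro x hx y hy h
      simp only [coe_filter, mem_univ, true_and, Set.mem_ofPred_eq] at hx hy
      simp only at h
      apply ZMod.val_injective q
      rw [← Nat.div_mul_cancel (h1 x hx), ← Nat.div_mul_cancel (h1 y hy), h]
  simpa using h2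

/-- number of `l` with `l u = u'` is at most the number of annihilators -/
theorem card_mul_eq_le (u u' : ZMod q) :
    (univ.filter (fun l : (ZMod q)ˣ ↦ (l : ZMod q) * u = u')).card ≤ zc u := by
  unfold zc
  rcases (univ.filter (fun l : (ZMod q)ˣ ↦ (l : ZMod q) * u = u')).eq_empty_or_nonempty with h | h
  · rw [h]; simp
  · obtain ⟨l0, hl0⟩ := h
    simp only [mem_filter, mem_univ, true_and] at hl0
    apply card_le_card_of_injOn (fun l : (ZMod q)ˣ ↦ (l : ZMod q) - (l0 : ZMod q))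
    · intro l hl
      simp only [coe_filter, mem_univ, true_and, Set.mem_ofPred_eq] at hl ⊢
      linear_combination hl - hl0
    · intro l _ l' _ h
      simp only at h
      apply Units.ext
      linear_combination h

theorem Kl_four_mul_totient (u v : ZMod q) :
    ‖Kl u v‖ ^ 4 * (Nat.totient q : ℝ) ≤ zc u * ((q : ℝ) ^ 2 * E4 q) := by
  have h1 : ∑ l : (ZMod q)ˣ, ‖Kl ((l : ZMod q) * u) (((l⁻¹ : (ZMod q)ˣ) : ZMod q) * v)‖ ^ 4 =
      ‖Kl u v‖ ^ 4 * (Nat.totient q : ℝ) := by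
    simp only [Kl_unit]
    rw [sum_const, card_univ, ZMod.card_units_eq_totient, nsmul_eq_mul, mul_comm]
  rw [← h1, ← moment4]
  -- group by the value (l u, l⁻¹ v)
  have h2 : ∑ l : (ZMod q)ˣ, ‖Kl ((l : ZMod q) * u) (((l⁻¹ : (ZMod q)ˣ) : ZMod q) * v)‖ ^ 4 =
      ∑ a : ZMod q, ∑ b : ZMod q, ((univ.filter (fun l : (ZMod q)ˣ ↦ (l : ZMod q) * u = a ∧
        ((l⁻¹ : (ZMod q)ˣ) : ZMod q) * v = b)).card : ℝ) * ‖Kl a b‖ ^ 4 := by
    have h3 : ∀ l : (ZMod q)ˣ, ‖Kl ((l : ZMod q) * u) (((l⁻¹ : (ZMod q)ˣ) : ZMod q) * v)‖ ^ 4 =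
        ∑ a : ZMod q, ∑ b : ZMod q, if ((l : ZMod q) * u = a ∧
        ((l⁻¹ : (ZMod q)ˣ) : ZMod q) * v = b) then ‖Kl a b‖ ^ 4 else 0 := by
      intro l
      simp only [ite_and, sum_ite_irrel, sum_const_zero]
      simp
    simp only [h3]
    rw [sum_comm]
    refine sum_congr rfl (fun a _ ↦ ?_)
    rw [sum_comm]
    refine sum_congr rfl (fun b _ ↦ ?_)
    rw [← sum_filter, sum_const, nsmul_eq_mul]
  rw [h2, mul_sum]
  refine sum_le_sum (fun a _ ↦ ?_)
  rw [mul_sum]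
  refine sum_le_sum (fun b _ ↦ ?_)
  apply mul_le_mul_of_nonneg_right _ (by positivity)
  have h4 : (univ.filter (fun l : (ZMod q)ˣ ↦ (l : ZMod q) * u = a ∧
        ((l⁻¹ : (ZMod q)ˣ) : ZMod q) * v = b)).card ≤ zc u := by
    refine le_trans (card_le_card ?_) (card_mul_eq_le u a)
    intro l hl
    simp only [mem_filter, mem_univ, true_and] at hl ⊢
    exact hl.1
  exact_mod_cast h4

theorem le_totient_mul_card_divisors (q : ℕ) (hq0 : q ≠ 0) :
    q ≤ Nat.totient q * (Nat.divisors q).card := by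
  calc q = ∑ g ∈ Nat.divisors q, Nat.totient g := (Nat.sum_totient q).symm
    _ ≤ ∑ _g ∈ Nat.divisors q, Nat.totient q := by
      apply sum_le_sum
      intro g hg
      exact Nat.le_of_dvd (Nat.totient_pos.mpr (Nat.pos_of_ne_zero hq0))
        (Nat.totient_dvd_of_dvd (Nat.dvd_of_mem_divisors hg))
    _ = Nat.totient q * (Nat.divisors q).card := by rw [sum_const, smul_eq_mul, mul_comm]

/-- the Kloosterman bound (fourth moment) -/
theorem Kl_bound (hq : Odd q) (A : ℕ) (v : ZMod q) :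
    ‖Kl (A : ZMod q) v‖ ^ 4 ≤ (Nat.gcd A q : ℝ) * (q : ℝ) ^ 3 * ((Nat.divisors q).card : ℝ) ^ 3 := by
  have hq0 : q ≠ 0 := NeZero.ne q
  have h1 := Kl_four_mul_totient (A : ZMod q) v
  have h2 : (q : ℝ) ≤ (Nat.totient q : ℝ) * ((Nat.divisors q).card : ℝ) := by
    exact_mod_cast le_totient_mul_card_divisors q hq0
  have h3 : (E4 q : ℝ) ≤ ((q : ℝ) * ((Nat.divisors q).card : ℝ)) ^ 2 := by
    exact_mod_cast E4_le hq
  have h4 : (zc (A : ZMod q) : ℝ) ≤ (Nat.gcd A q : ℝ) := by exact_mod_cast zc_le_gcd A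
  have hqpos : (0 : ℝ) < q := by positivity
  set D : ℝ := ((Nat.divisors q).card : ℝ) with hD
  have hD0 : 0 ≤ D := by positivity
  set x := ‖Kl (A : ZMod q) v‖ ^ 4 with hx
  have hx0 : 0 ≤ x := by positivity
  have h5 : x * q ≤ ((Nat.gcd A q : ℝ) * (q : ℝ) ^ 3 * D ^ 3) * q := by
    calc x * q ≤ x * ((Nat.totient q : ℝ) * D) := mul_le_mul_of_nonneg_left h2 hx0
      _ = (x * (Nat.totient q : ℝ)) * D := by ring
      _ ≤ ((zc (A : ZMod q) : ℝ) * ((q : ℝ) ^ 2 * E4 q)) * D := mul_le_mul_of_nonneg_right h1 hD0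
      _ ≤ ((Nat.gcd A q : ℝ) * ((q : ℝ) ^ 2 * ((q : ℝ) * D) ^ 2)) * D := by gcongr
      _ = ((Nat.gcd A q : ℝ) * (q : ℝ) ^ 3 * D ^ 3) * q := by ring
  exact le_of_mul_le_mul_right h5 hqpos

end Pool.Agent.Lib.MP_0e0027_nt

namespace Pool.Agent.Lib.MP_0e0027_nt

variable {q : ℕ} [NeZero q]

/-- quadratic Gauss sum -/
noncomputable def Gs (t : ZMod q) : ℂ := ∑ x : ZMod q, ZMod.stdAddChar (t * x ^ 2)

theorem isUnit_two (hq : Odd q) : IsUnit (2 : ZMod q) := by
  have : IsUnit ((2 : ℕ) : ZMod q) := by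
    rw [ZMod.isUnit_iff_coprime]
    exact (Nat.coprime_two_left.mpr hq)
  exact_mod_cast this

theorem isUnit_four (hq : Odd q) : IsUnit (4 : ZMod q) := by
  have h := (isUnit_two hq).mul (isUnit_two hq)
  have : (2 : ZMod q) * 2 = 4 := by norm_num
  rwa [this] at h

/-- completing the square -/
theorem Gs_lin (t k i : ZMod q) (hi : 4 * t * i = 1) :
    ∑ x : ZMod q, (ZMod.stdAddChar (t * x ^ 2 + k * x) : ℂ) =
      ZMod.stdAddChar (-(i * k ^ 2)) * Gs t := by
  unfold Gs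
  rw [mul_sum]
  -- x = y - 2 i k
  apply Fintype.sum_equiv (Equiv.addRight (2 * i * k))
  intro x
  rw [← AddChar.map_add_eq_mul]
  congr 1
  simp only [Equiv.coe_addRight]
  linear_combination (-(k * x) - i * k ^ 2) * hi

/-- every unit modulo an odd number is a sum of two squares -/
theorem unit_eq_sq_add_sq (hq : Odd q) (b : ZMod q) (hb : IsUnit b) :
    ∃ s r : ZMod q, b = s ^ 2 + r ^ 2 := by
  have hq0 : q ≠ 0 := NeZero.ne q
  have hcop : Nat.Coprime q 4 := by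
    have h := Nat.coprime_two_left.mpr hq
    have : Nat.Coprime q (2 ^ 2) := Nat.Coprime.pow_right 2 h.symm
    simpa using this
  obtain ⟨c, hc1, hc2⟩ := Nat.chineseRemainder hcop b.val 1
  have hcq : Nat.Coprime c q := by
    rw [Nat.Coprime, hc1.gcd_eq]
    have : IsUnit ((b.val : ℕ) : ZMod q) := by
      rw [ZMod.natCast_zmod_val]; exact hb
    rw [ZMod.isUnit_iff_coprime] at this
    exact this
  have hc4 : Nat.Coprime c 4 := by
    rw [Nat.Coprime, hc2.gcd_eq]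
    norm_num
  have hc : Nat.Coprime c (q * 4) := Nat.Coprime.mul_right hcq hc4
  obtain ⟨p, -, hp, hpc⟩ := Nat.forall_exists_prime_gt_and_modEq 0 (q := q * 4) (a := c)
    (by positivity) hc
  have hpq : p ≡ b.val [MOD q] := (hpc.of_mul_right 4).trans hc1
  have hp4 : p ≡ 1 [MOD 4] := by
    have : p ≡ c [MOD 4] := by
      have h := hpc
      rw [mul_comm] at h
      exact h.of_mul_right q
    exact this.trans hc2
  have : Fact p.Prime := ⟨hp⟩
  have hp3 : p % 4 ≠ 3 := by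
    have : p % 4 = 1 % 4 := hp4
    omega
  obtain ⟨s, r, hsr⟩ := Nat.Prime.sq_add_sq hp3
  refine ⟨(s : ZMod q), (r : ZMod q), ?_⟩
  have h1 : ((p : ℕ) : ZMod q) = ((b.val : ℕ) : ZMod q) := (ZMod.natCast_eq_natCast_iff _ _ _).mpr hpq
  rw [ZMod.natCast_zmod_val] at h1
  rw [← h1, ← hsr]
  push_cast
  ring

theorem Gs_sq_eq (hq : Odd q) (b : ZMod q) (hb : IsUnit b) : Gs b ^ 2 = Gs (1 : ZMod q) ^ 2 := by
  obtain ⟨s, r, hsr⟩ := unit_eq_sq_add_sq hq b hb
  have h1 : ∀ t : ZMod q, Gs t ^ 2 = ∑ z : ZMod q × ZMod q,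
      (ZMod.stdAddChar (t * (z.1 ^ 2 + z.2 ^ 2)) : ℂ) := by
    intro t
    unfold Gs
    rw [sq, sum_mul_sum, Fintype.sum_prod_type]
    refine sum_congr rfl (fun x _ ↦ sum_congr rfl (fun y _ ↦ ?_))
    rw [← AddChar.map_add_eq_mul]
    congr 1
    ring
  rw [h1, h1]
  obtain ⟨i, hi⟩ := hb.exists_right_inv
  let e : (ZMod q × ZMod q) ≃ (ZMod q × ZMod q) :=
    { toFun := fun z ↦ (s * z.1 - r * z.2, r * z.1 + s * z.2)
      invFun := fun z ↦ (i * (s * z.1 + r * z.2), i * (-(r * z.1) + s * z.2))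
      left_inv := by
        intro z
        ext
        · simp only
          rw [hsr] at hi
          linear_combination z.1 * hi
        · simp only
          rw [hsr] at hi
          linear_combination z.2 * hi
      right_inv := by
        intro z
        ext
        · simp only
          rw [hsr] at hi
          linear_combination z.1 * hi
        · simp only
          rw [hsr] at hi
          linear_combination z.2 * hi }
  apply Fintype.sum_equiv e
  intro z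
  congr 1
  simp only [e, Equiv.coe_fn_mk]
  rw [hsr]
  ring

theorem conj_Gs (t : ZMod q) : (starRingEnd ℂ) (Gs t) = Gs (-t) := by
  unfold Gs
  rw [map_sum]
  refine sum_congr rfl (fun x _ ↦ ?_)
  rw [conj_psi]
  congr 1
  ring

theorem Gs_mul_conj (hq : Odd q) : Gs (1 : ZMod q) * (starRingEnd ℂ) (Gs (1 : ZMod q)) = q := by
  rw [conj_Gs]
  unfold Gs
  rw [sum_mul_sum]
  have h1 : ∀ x y : ZMod q, (ZMod.stdAddChar (1 * x ^ 2) : ℂ) * ZMod.stdAddChar (-1 * y ^ 2) =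
      ZMod.stdAddChar ((x - y) * (x + y)) := by
    intro x y
    rw [← AddChar.map_add_eq_mul]
    congr 1
    ring
  simp only [h1]
  -- substitute x = y + u
  have h2 : ∑ x : ZMod q, ∑ y : ZMod q, (ZMod.stdAddChar ((x - y) * (x + y)) : ℂ) =
      ∑ u : ZMod q, ∑ y : ZMod q, (ZMod.stdAddChar (u * (u + 2 * y)) : ℂ) := by
    rw [sum_comm]
    rw [sum_comm (f := fun u y ↦ (ZMod.stdAddChar (u * (u + 2 * y)) : ℂ))]
    refine sum_congr rfl (fun y _ ↦ ?_)
    apply Fintype.sum_equiv (Equiv.subRight y)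
    intro x
    congr 1
    simp only [Equiv.subRight_apply]
    ring
  rw [h2]
  have h3 : ∀ u : ZMod q, ∑ y : ZMod q, (ZMod.stdAddChar (u * (u + 2 * y)) : ℂ) =
      ZMod.stdAddChar (u * u) * (if u = 0 then (q : ℂ) else 0) := by
    intro u
    have h4 : ∀ y : ZMod q, (ZMod.stdAddChar (u * (u + 2 * y)) : ℂ) =
        ZMod.stdAddChar (u * u) * ZMod.stdAddChar (y * (2 * u)) := by
      intro y
      rw [← AddChar.map_add_eq_mul]
      congr 1
      ring
    simp only [h4]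
    rw [← mul_sum, sum_psi]
    congr 1
    have h5 : (2 * u = 0) ↔ u = 0 := by
      constructor
      · intro h
        have := (isUnit_two hq).mul_left_cancel (a := (2 : ZMod q)) (b := u) (c := 0)
          (by rw [h, mul_zero])
        exact this
      · intro h; rw [h, mul_zero]
    simp only [h5]
  simp only [h3]
  simp

end Pool.Agent.Lib.MP_0e0027_nt

namespace Pool.Agent.Lib.MP_0e0027_nt

variable {q : ℕ} [NeZero q]

theorem isIntegral_psi (x : ZMod q) : IsIntegral ℤ (ZMod.stdAddChar x : ℂ) := by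
  apply IsIntegral.of_pow (n := q) (Nat.pos_of_ne_zero (NeZero.ne q))
  rw [← AddChar.map_nsmul_eq_pow]
  have : q • x = 0 := by
    rw [nsmul_eq_mul, CharP.cast_eq_zero, zero_mul]
  rw [this, AddChar.map_zero_eq_one]
  exact isIntegral_one

theorem Gs_one_eq (hq : Odd q) : ∃ β : ℂ, IsIntegral ℤ β ∧ Gs (1 : ZMod q) = 1 + 2 * β := by
  refine ⟨∑ x ∈ univ.filter (fun x : ZMod q ↦ x ≠ 0 ∧ x.val * 2 < q), ZMod.stdAddChar (x ^ 2),
    ?_, ?_⟩
  · exact IsIntegral.sum _ (fun x _ ↦ isIntegral_psi _)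
  · unfold Gs
    simp only [one_mul]
    have h1 : ∑ x : ZMod q, (ZMod.stdAddChar (x ^ 2) : ℂ) =
        1 + ∑ x ∈ univ.filter (fun x : ZMod q ↦ x ≠ 0), (ZMod.stdAddChar (x ^ 2) : ℂ) := by
      rw [← sum_filter_add_sum_filter_not univ (fun x : ZMod q ↦ x = 0)]
      congr 1
      rw [filter_eq' univ (0 : ZMod q)]
      simp
    rw [h1]
    congr 1
    rw [← sum_filter_add_sum_filter_not (univ.filter (fun x : ZMod q ↦ x ≠ 0))
      (fun x : ZMod q ↦ x.val * 2 < q), filter_filter, filter_filter, two_mul]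
    congr 1
    apply sum_bij (fun x _ ↦ -x)
    · intro x hx
      simp only [mem_filter, mem_univ, true_and, ne_eq, neg_eq_zero] at hx ⊢
      refine ⟨hx.1, ?_⟩
      rw [ZMod.neg_val, if_neg hx.1]
      have h2 := ZMod.val_lt x
      have h3 := hx.2
      obtain ⟨k, hk⟩ := hq
      omega
    · intro x _ y _ h
      exact neg_injective h
    · intro x hx
      simp only [mem_filter, mem_univ, true_and, ne_eq] at hx
      refine ⟨-x, ?_, neg_neg x⟩
      simp only [mem_filter, mem_univ, true_and, ne_eq, neg_eq_zero]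
      refine ⟨hx.1, ?_⟩
      rw [ZMod.neg_val, if_neg hx.1]
      have h2 := ZMod.val_lt x
      have h3 := hx.2
      obtain ⟨k, hk⟩ := hq
      omega
    · intro x _
      rw [neg_sq]

theorem int_of_integral (r : ℚ) (h : IsIntegral ℤ ((r : ℚ) : ℂ)) : ∃ n : ℤ, (n : ℚ) = r := by
  have h1 : IsIntegral ℤ (algebraMap ℚ ℂ r) := h
  rw [isIntegral_algebraMap_iff (algebraMap ℚ ℂ).injective] at h1
  rw [IsIntegrallyClosed.isIntegral_iff] at h1
  obtain ⟨n, hn⟩ := h1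
  exact ⟨n, by simpa using hn⟩

/-- the square of the quadratic Gauss sum modulo an odd number -/
theorem Gs_one_sq (hq : Odd q) : Gs (1 : ZMod q) ^ 2 = ((ZMod.χ₄ (q : ZMod 4) : ℤ) : ℂ) * q := by
  obtain ⟨β, hβ, hG⟩ := Gs_one_eq hq
  set W : ℂ := Gs (1 : ZMod q) ^ 2 with hW
  have hmod := Gs_mul_conj (q := q) hq
  have hneg : IsUnit (-1 : ZMod q) := isUnit_one.neg
  have hconj : (starRingEnd ℂ) W = W := by
    rw [hW, map_pow, conj_Gs, Gs_sq_eq hq (-1) hneg]
  have hW2 : W ^ 2 = (q : ℂ) ^ 2 := by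
    calc W ^ 2 = W * (starRingEnd ℂ) W := by rw [hconj]; ring
      _ = (Gs (1 : ZMod q) * (starRingEnd ℂ) (Gs (1 : ZMod q))) ^ 2 := by
        rw [hW, map_pow]; ring
      _ = (q : ℂ) ^ 2 := by rw [hmod]
  have hW4 : (W - 1) / 4 = β + β ^ 2 := by
    rw [hW, hG]; ring
  have hint : IsIntegral ℤ ((W - 1) / 4) := by
    rw [hW4]; exact hβ.add (hβ.pow 2)
  rcases sq_eq_sq_iff_eq_or_eq_neg.mp hW2 with h | h
  · have h1 : (W - 1) / 4 = (((((q : ℚ) - 1) / 4 : ℚ)) : ℂ) := by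
      rw [h]; push_cast; rfl
    rw [h1] at hint
    obtain ⟨n, hn⟩ := int_of_integral _ hint
    have h2 : (4 * n + 1 : ℤ) = q := by
      have : (4 * n + 1 : ℚ) = q := by rw [hn]; ring
      exact_mod_cast this
    have h3 : q % 4 = 1 := by omega
    rw [ZMod.χ₄_nat_one_mod_four h3, h]
    simp
  · have h1 : (W - 1) / 4 = ((((-(q : ℚ) - 1) / 4 : ℚ)) : ℂ) := by
      rw [h]; push_cast; rfl
    rw [h1] at hint
    obtain ⟨n, hn⟩ := int_of_integral _ hint
    have h2 : (4 * n + 1 : ℤ) = -q := by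
      have : (4 * n + 1 : ℚ) = -q := by rw [hn]; ring
      exact_mod_cast this
    have h3 : q % 4 = 3 := by omega
    rw [ZMod.χ₄_nat_three_mod_four h3, h]
    simp

theorem Gs_sq (hq : Odd q) (b : ZMod q) (hb : IsUnit b) :
    Gs b ^ 2 = ((ZMod.χ₄ (q : ZMod 4) : ℤ) : ℂ) * q := by
  rw [Gs_sq_eq hq b hb, Gs_one_sq hq]

end Pool.Agent.Lib.MP_0e0027_nt

namespace Pool.Agent.Lib.MP_0e0027_nt

variable {q : ℕ} [NeZero q]

/-- Fourier coefficients of an interval of length `K`. -/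
noncomputable def gam (K : ℕ) (m : ZMod q) : ℂ :=
  ∑ u ∈ range K, ZMod.stdAddChar (-(m * (u : ZMod q)))

theorem gam_zero (K : ℕ) : gam K (0 : ZMod q) = K := by
  unfold gam
  simp

theorem psi_eq_exp (m : ZMod q) :
    (ZMod.stdAddChar m : ℂ) = Complex.exp (Complex.I * ((2 * Real.pi * m.val / q : ℝ) : ℂ)) := by
  have h := ZMod.stdAddChar_coe (N := q) (m.val : ℤ)
  rw [Int.cast_natCast, ZMod.natCast_zmod_val] at h
  rw [h]
  congr 1
  push_cast
  ring

theorem norm_one_sub_psi (m : ZMod q) (hm : m ≠ 0) :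
    2 * (1 / ((1 : ℝ) / m.val + 1 / (q - m.val))) / q * 2 ≤ ‖(ZMod.stdAddChar m : ℂ) - 1‖ := by
  have hq0 : (0 : ℝ) < q := by
    have := Nat.pos_of_ne_zero (NeZero.ne q); exact_mod_cast this
  set k : ℝ := (m.val : ℝ) with hk
  have hk0 : 0 < k := by
    have : 0 < m.val := Nat.pos_of_ne_zero (fun h ↦ hm ((ZMod.val_eq_zero m).mp h))
    rw [hk]; exact_mod_cast this
  have hkq : k < q := by
    rw [hk]; exact_mod_cast ZMod.val_lt m
  have hqk : 0 < q - k := by linarith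
  rw [psi_eq_exp, Complex.norm_exp_I_mul_ofReal_sub_one]
  have hhalf : 2 * Real.pi * k / q / 2 = Real.pi * (k / q) := by ring
  rw [hhalf]
  have hpi := Real.pi_pos
  have hharm : 1 / ((1 : ℝ) / k + 1 / (q - k)) = k * (q - k) / q := by
    field_simp
    ring
  rw [hharm]
  have hsin_nonneg : 0 ≤ Real.sin (Real.pi * (k / q)) := by
    apply Real.sin_nonneg_of_nonneg_of_le_pi
    · positivity
    · calc Real.pi * (k / q) ≤ Real.pi * 1 := by
            apply mul_le_mul_of_nonneg_left _ hpi.le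
            rw [div_le_one hq0]; exact hkq.le
        _ = Real.pi := mul_one _
  rw [Real.norm_eq_abs, abs_of_nonneg (by positivity)]
  have hmain : 2 * (k * (q - k) / q) / q ≤ Real.sin (Real.pi * (k / q)) := by
    rcases le_total (2 * k) q with h | h
    · have h1 : 2 / Real.pi * (Real.pi * (k / q)) ≤ Real.sin (Real.pi * (k / q)) := by
        apply Real.mul_le_sin (by positivity)
        rw [div_eq_mul_one_div Real.pi 2]
        apply mul_le_mul_of_nonneg_left _ hpi.le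
        rw [div_le_div_iff₀ hq0 (by norm_num)]
        linarith
      have h2 : 2 / Real.pi * (Real.pi * (k / q)) = 2 * k / q := by field_simp
      rw [h2] at h1
      refine le_trans ?_ h1
      rw [div_le_div_iff_of_pos_right hq0]
      have : k * (q - k) / q ≤ k := by
        rw [div_le_iff₀ hq0]; nlinarith
      linarith
    · have h1 : 2 / Real.pi * (Real.pi * ((q - k) / q)) ≤ Real.sin (Real.pi * ((q - k) / q)) := by
        apply Real.mul_le_sin (by positivity)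
        rw [div_eq_mul_one_div Real.pi 2]
        apply mul_le_mul_of_nonneg_left _ hpi.le
        rw [div_le_div_iff₀ hq0 (by norm_num)]
        linarith
      have h2 : 2 / Real.pi * (Real.pi * ((q - k) / q)) = 2 * (q - k) / q := by field_simp
      have h3 : Real.sin (Real.pi * ((q - k) / q)) = Real.sin (Real.pi * (k / q)) := by
        rw [← Real.sin_pi_sub]
        congr 1
        field_simp
        ring
      rw [h2, h3] at h1
      refine le_trans ?_ h1
      rw [div_le_div_iff_of_pos_right hq0]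
      have : k * (q - k) / q ≤ q - k := by
        rw [div_le_iff₀ hq0]; nlinarith
      linarith
  linarith

theorem gam_bound (K : ℕ) (m : ZMod q) (hm : m ≠ 0) :
    ‖gam K m‖ ≤ (q : ℝ) / 2 * ((1 : ℝ) / m.val + 1 / (q - m.val)) := by
  have hq0 : (0 : ℝ) < q := by
    have := Nat.pos_of_ne_zero (NeZero.ne q); exact_mod_cast this
  set k : ℝ := (m.val : ℝ) with hk
  have hk0 : 0 < k := by
    have : 0 < m.val := Nat.pos_of_ne_zero (fun h ↦ hm ((ZMod.val_eq_zero m).mp h))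
    rw [hk]; exact_mod_cast this
  have hkq : k < q := by
    rw [hk]; exact_mod_cast ZMod.val_lt m
  have hqk : 0 < q - k := by linarith
  set h : ℝ := (1 : ℝ) / k + 1 / (q - k) with hh
  have hh0 : 0 < h := by positivity
  set ζ : ℂ := ZMod.stdAddChar (-m) with hζ
  have hpow : gam K m = ∑ u ∈ range K, ζ ^ u := by
    unfold gam
    apply sum_congr rfl
    intro u _
    rw [hζ, ← AddChar.map_nsmul_eq_pow]
    congr 1
    rw [nsmul_eq_mul]
    ring
  have hlow := norm_one_sub_psi m hm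
  rw [← hk, ← hh] at hlow
  have hnorm1 : ‖ζ‖ = 1 := by
    rw [hζ, ZMod.stdAddChar_apply]; exact Circle.norm_coe _
  have hζ1 : ‖1 - ζ‖ = ‖(ZMod.stdAddChar m : ℂ) - 1‖ := by
    have h1 : (ZMod.stdAddChar m : ℂ) - 1 = ZMod.stdAddChar m * (1 - ζ) := by
      rw [hζ, mul_sub, mul_one, ← AddChar.map_add_eq_mul, add_neg_cancel, AddChar.map_zero_eq_one]
    rw [h1, norm_mul]
    have : ‖(ZMod.stdAddChar m : ℂ)‖ = 1 := by
      rw [ZMod.stdAddChar_apply]; exact Circle.norm_coe _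
    rw [this, one_mul]
  rw [← hζ1] at hlow
  have hgs : (1 - ζ) * ∑ u ∈ range K, ζ ^ u = 1 - ζ ^ K := mul_neg_geom_sum ζ K
  have h2 : ‖1 - ζ‖ * ‖gam K m‖ ≤ 2 := by
    rw [hpow, ← norm_mul, hgs]
    calc ‖1 - ζ ^ K‖ ≤ ‖(1 : ℂ)‖ + ‖ζ ^ K‖ := norm_sub_le _ _
      _ = 2 := by rw [norm_pow, hnorm1]; norm_num
  have hlow' : 4 / (h * q) ≤ ‖1 - ζ‖ := by
    refine le_trans (le_of_eq ?_) hlow
    field_simp
    norm_num
  have h3 : 4 / (h * q) * ‖gam K m‖ ≤ 2 :=
    le_trans (mul_le_mul_of_nonneg_right hlow' (norm_nonneg _)) h2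
  have h4 : ‖gam K m‖ ≤ 2 / (4 / (h * q)) := by
    rw [le_div_iff₀ (by positivity)]
    linarith
  refine le_trans h4 (le_of_eq ?_)
  field_simp
  norm_num

theorem sum_gam_le (K : ℕ) : ∑ m : ZMod q, ‖gam K m‖ ≤ K + q * (1 + Real.log q) := by
  have hq0 : (0 : ℝ) < q := by
    have := Nat.pos_of_ne_zero (NeZero.ne q); exact_mod_cast this
  have h1 : ∑ m : ZMod q, ‖gam K m‖ = ‖gam K (0 : ZMod q)‖ +
      ∑ m ∈ univ.erase (0 : ZMod q), ‖gam K m‖ := (add_sum_erase _ _ (mem_univ _)).symm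
  rw [h1, gam_zero]
  have h2 : ‖((K : ℕ) : ℂ)‖ = K := by simp
  rw [h2]
  have h3 : ∑ m ∈ univ.erase (0 : ZMod q), ‖gam K m‖ ≤
      ∑ m ∈ univ.erase (0 : ZMod q), (q : ℝ) / 2 * ((1 : ℝ) / m.val + 1 / (q - m.val)) := by
    apply sum_le_sum
    intro m hm
    exact gam_bound K m (ne_of_mem_erase hm)
  have h4 : ∑ m ∈ univ.erase (0 : ZMod q), (q : ℝ) / 2 * ((1 : ℝ) / m.val + 1 / (q - m.val)) =
      ∑ k ∈ Ioo 0 q, (q : ℝ) / 2 * ((1 : ℝ) / k + 1 / (q - k)) := by
    apply sum_bij (fun m _ ↦ m.val)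
    · intro m hm
      rw [mem_Ioo]
      refine ⟨Nat.pos_of_ne_zero (fun h ↦ (ne_of_mem_erase hm) ((ZMod.val_eq_zero m).mp h)),
        ZMod.val_lt m⟩
    · intro a _ b _ h
      exact ZMod.val_injective q h
    · intro k hk
      rw [mem_Ioo] at hk
      refine ⟨(k : ZMod q), ?_, ZMod.val_natCast_of_lt hk.2⟩
      rw [mem_erase]
      refine ⟨?_, mem_univ _⟩
      intro h
      rw [ZMod.natCast_eq_zero_iff] at h
      exact absurd (Nat.le_of_dvd hk.1 h) (by omega)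
    · intro m _
      rfl
  have h5 : ∑ k ∈ Ioo 0 q, (q : ℝ) / 2 * ((1 : ℝ) / k + 1 / (q - k)) =
      q * ∑ k ∈ Ioo 0 q, (1 : ℝ) / k := by
    have hrefl : ∑ k ∈ Ioo 0 q, (1 : ℝ) / (q - k) = ∑ k ∈ Ioo 0 q, (1 : ℝ) / k := by
      apply sum_bij (fun k _ ↦ q - k)
      · intro k hk
        rw [mem_Ioo] at hk ⊢
        omega
      · intro a ha b hb h
        rw [mem_Ioo] at ha hb
        omega
      · intro k hk
        rw [mem_Ioo] at hk
        exact ⟨q - k, by rw [mem_Ioo]; omega, by omega⟩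
      · intro k hk
        rw [mem_Ioo] at hk
        rw [Nat.cast_sub hk.2.le]
    rw [← mul_sum, sum_add_distrib, hrefl]
    ring
  have h6 : ∑ k ∈ Ioo 0 q, (1 : ℝ) / k ≤ 1 + Real.log q := by
    have h7 : ∑ k ∈ Ioo 0 q, (1 : ℝ) / k ≤ ∑ k ∈ Icc 1 q, (1 : ℝ) / k := by
      apply sum_le_sum_of_subset_of_nonneg
      · intro k hk
        rw [mem_Ioo] at hk
        rw [mem_Icc]
        omega
      · intro k _ _
        positivity
    have h8 : ∑ k ∈ Icc 1 q, (1 : ℝ) / k = ((harmonic q : ℚ) : ℝ) := by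
      rw [harmonic_eq_sum_Icc]
      push_cast
      simp only [one_div]
    rw [h8] at h7
    exact le_trans h7 (harmonic_le_one_add_log q)
  rw [h4, h5] at h3
  have h9 : (q : ℝ) * ∑ k ∈ Ioo 0 q, (1 : ℝ) / k ≤ q * (1 + Real.log q) :=
    mul_le_mul_of_nonneg_left h6 hq0.le
  linarith

end Pool.Agent.Lib.MP_0e0027_nt

namespace Pool.Agent.Lib.MP_0e0027_nt

variable {q : ℕ} [NeZero q]

/-- Fourier expansion of a sum over an interval -/
theorem sum_range_eq (K : ℕ) (F : ZMod q → ℂ) :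
    ∑ u ∈ range K, F (u : ZMod q) =
      (1 / (q : ℂ)) * ∑ m : ZMod q, gam K m * ∑ x : ZMod q, F x * ZMod.stdAddChar (m * x) := by
  have hq0 : (q : ℂ) ≠ 0 := by
    have := NeZero.ne q; exact_mod_cast this
  have h1 : ∑ m : ZMod q, gam K m * ∑ x : ZMod q, F x * ZMod.stdAddChar (m * x) =
      ∑ u ∈ range K, ∑ x : ZMod q, F x * ∑ m : ZMod q,
        (ZMod.stdAddChar (m * (x - (u : ZMod q))) : ℂ) := by
    have h0 : ∀ m : ZMod q, gam K m * ∑ x : ZMod q, F x * ZMod.stdAddChar (m * x) =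
        ∑ u ∈ range K, ∑ x : ZMod q, F x * (ZMod.stdAddChar (m * (x - (u : ZMod q))) : ℂ) := by
      intro m
      unfold gam
      rw [sum_mul_sum]
      refine sum_congr rfl (fun u _ ↦ sum_congr rfl (fun x _ ↦ ?_))
      have : (ZMod.stdAddChar (m * (x - (u : ZMod q))) : ℂ) =
          ZMod.stdAddChar (-(m * (u : ZMod q))) * ZMod.stdAddChar (m * x) := by
        rw [← AddChar.map_add_eq_mul]
        congr 1
        ring
      rw [this]
      ring
    rw [sum_congr rfl (fun m _ ↦ h0 m), sum_comm]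
    refine sum_congr rfl (fun u _ ↦ ?_)
    rw [sum_comm]
    refine sum_congr rfl (fun x _ ↦ ?_)
    rw [mul_sum]
  rw [h1]
  have h2 : ∀ u ∈ range K, ∑ x : ZMod q, F x * ∑ m : ZMod q,
        (ZMod.stdAddChar (m * (x - (u : ZMod q))) : ℂ) = F u * q := by
    intro u _
    have h3 : ∀ x : ZMod q, F x * ∑ m : ZMod q, (ZMod.stdAddChar (m * (x - (u : ZMod q))) : ℂ) =
        if x = (u : ZMod q) then F x * q else 0 := by
      intro x
      rw [sum_psi]
      simp only [sub_eq_zero]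
      split_ifs <;> simp
    simp only [h3]
    simp
  rw [sum_congr rfl h2, ← sum_mul]
  field_simp

theorem quad_sum (K : ℕ) (b X w wi i : ZMod q) (hb : 4 * b * i = 1) (hw : w * wi = 1) :
    ∑ u ∈ range K, (ZMod.stdAddChar (b * (X - w * (u : ZMod q)) ^ 2) : ℂ) =
      (1 / (q : ℂ)) * (∑ m : ZMod q, gam K m *
        (ZMod.stdAddChar (m * wi * X) * ZMod.stdAddChar (-(i * (m * wi) ^ 2)))) * Gs b := by
  rw [sum_range_eq K (fun x ↦ (ZMod.stdAddChar (b * (X - w * x) ^ 2) : ℂ)), mul_assoc, sum_mul]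
  congr 1
  refine sum_congr rfl (fun m _ ↦ ?_)
  rw [mul_assoc]
  congr 1
  have h1 : ∑ x : ZMod q, (ZMod.stdAddChar (b * (X - w * x) ^ 2) : ℂ) * ZMod.stdAddChar (m * x) =
      ∑ y : ZMod q, (ZMod.stdAddChar (m * wi * X) : ℂ) *
        ZMod.stdAddChar (b * y ^ 2 + (-(m * wi)) * y) := by
    let e : ZMod q ≃ ZMod q :=
      { toFun := fun x ↦ X - w * x
        invFun := fun y ↦ wi * (X - y)
        left_inv := by
          intro x
          simp only
          linear_combination x * hw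
        right_inv := by
          intro y
          simp only
          linear_combination (y - X) * hw }
    apply Fintype.sum_equiv e
    intro x
    rw [← AddChar.map_add_eq_mul, ← AddChar.map_add_eq_mul]
    congr 1
    simp only [e, Equiv.coe_fn_mk]
    linear_combination (-(m * x)) * hw
  rw [h1, ← mul_sum, Gs_lin b (-(m * wi)) i hb, ← mul_assoc]
  congr 3
  ring

/-- the two-dimensional sum of Ramanujan sums over a box -/
noncomputable def Phi (K : ℕ) (A B X Y w : ZMod q) : ℂ :=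
  ∑ u1 ∈ range K, ∑ u2 ∈ range K,
    Kl (A - B * ((X - w * (u1 : ZMod q)) ^ 2 + (Y - w * (u2 : ZMod q)) ^ 2)) 0

theorem Phi_eq (hq : Odd q) (K : ℕ) (A B X Y w c0 wi : ZMod q) (hB : 4 * B * c0 = 1)
    (hw : w * wi = 1) :
    Phi K A B X Y w = (((ZMod.χ₄ (q : ZMod 4) : ℤ) : ℂ) / q) * ∑ m1 : ZMod q, ∑ m2 : ZMod q,
      gam K m1 * gam K m2 * (ZMod.stdAddChar (wi * (m1 * X + m2 * Y)) *
        Kl A (c0 * wi ^ 2 * (m1 ^ 2 + m2 ^ 2))) := by
  have hq0 : (q : ℂ) ≠ 0 := by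
    have := NeZero.ne q; exact_mod_cast this
  have hBu : IsUnit B := by
    apply IsUnit.of_mul_eq_one (4 * c0)
    linear_combination hB
  -- expand
  have h1 : Phi K A B X Y w = ∑ a : (ZMod q)ˣ, (ZMod.stdAddChar (A * (a : ZMod q)) : ℂ) *
      ((∑ u1 ∈ range K, (ZMod.stdAddChar (-((a : ZMod q) * B) * (X - w * (u1 : ZMod q)) ^ 2) : ℂ)) *
      (∑ u2 ∈ range K, (ZMod.stdAddChar (-((a : ZMod q) * B) * (Y - w * (u2 : ZMod q)) ^ 2) : ℂ))) := by
    unfold Phi
    have h0 : ∀ u1 ∈ range K, ∀ u2 ∈ range K,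
        Kl (A - B * ((X - w * (u1 : ZMod q)) ^ 2 + (Y - w * (u2 : ZMod q)) ^ 2)) 0 =
        ∑ a : (ZMod q)ˣ, (ZMod.stdAddChar (A * (a : ZMod q)) : ℂ) *
          ((ZMod.stdAddChar (-((a : ZMod q) * B) * (X - w * (u1 : ZMod q)) ^ 2) : ℂ) *
          (ZMod.stdAddChar (-((a : ZMod q) * B) * (Y - w * (u2 : ZMod q)) ^ 2) : ℂ)) := by
      intro u1 _ u2 _
      unfold Kl
      refine sum_congr rfl (fun a _ ↦ ?_)
      rw [← AddChar.map_add_eq_mul, ← AddChar.map_add_eq_mul]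
      congr 1
      ring
    rw [sum_congr rfl (fun u1 hu1 ↦ sum_congr rfl (fun u2 hu2 ↦ h0 u1 hu1 u2 hu2))]
    rw [sum_congr rfl (fun u1 _ ↦ sum_comm), sum_comm]
    refine sum_congr rfl (fun a _ ↦ ?_)
    rw [sum_mul_sum, mul_sum]
    refine sum_congr rfl (fun u1 _ ↦ ?_)
    rw [mul_sum]
  have h2 : ∀ a : (ZMod q)ˣ, ∀ Z : ZMod q,
      ∑ u ∈ range K, (ZMod.stdAddChar (-((a : ZMod q) * B) * (Z - w * (u : ZMod q)) ^ 2) : ℂ) =
      (1 / (q : ℂ)) * (∑ m : ZMod q, gam K m * (ZMod.stdAddChar (m * wi * Z) *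
        ZMod.stdAddChar (((a⁻¹ : (ZMod q)ˣ) : ZMod q) * c0 * (m * wi) ^ 2))) *
        Gs (-((a : ZMod q) * B)) := by
    intro a Z
    have ha : (a : ZMod q) * ((a⁻¹ : (ZMod q)ˣ) : ZMod q) = 1 := a.mul_inv
    have hb : 4 * (-((a : ZMod q) * B)) * (-(((a⁻¹ : (ZMod q)ˣ) : ZMod q) * c0)) = 1 := by
      linear_combination hB + (4 * B * c0) * ha
    rw [quad_sum K _ Z w wi _ hb hw]
    congr 2
    refine sum_congr rfl (fun m _ ↦ ?_)
    congr 3
    ring
  have h3 : ∀ a : (ZMod q)ˣ, Gs (-((a : ZMod q) * B)) ^ 2 = ((ZMod.χ₄ (q : ZMod 4) : ℤ) : ℂ) * q :=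
    fun a ↦ Gs_sq hq _ ((a.isUnit.mul hBu).neg)
  rw [h1]
  have h4 : ∀ a : (ZMod q)ˣ, (ZMod.stdAddChar (A * (a : ZMod q)) : ℂ) *
      ((∑ u1 ∈ range K, (ZMod.stdAddChar (-((a : ZMod q) * B) * (X - w * (u1 : ZMod q)) ^ 2) : ℂ)) *
      (∑ u2 ∈ range K, (ZMod.stdAddChar (-((a : ZMod q) * B) * (Y - w * (u2 : ZMod q)) ^ 2) : ℂ))) =
      (((ZMod.χ₄ (q : ZMod 4) : ℤ) : ℂ) / q) * ∑ m1 : ZMod q, ∑ m2 : ZMod q,
      gam K m1 * gam K m2 * (ZMod.stdAddChar (wi * (m1 * X + m2 * Y)) *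
        ZMod.stdAddChar (A * (a : ZMod q) + c0 * wi ^ 2 * (m1 ^ 2 + m2 ^ 2) *
          ((a⁻¹ : (ZMod q)ˣ) : ZMod q))) := by
    intro a
    rw [h2 a X, h2 a Y]
    have h5 : ∀ (P Q g s : ℂ), s * ((1 / (q : ℂ) * P * g) * (1 / (q : ℂ) * Q * g)) =
        (1 / (q : ℂ)) ^ 2 * g ^ 2 * (s * (P * Q)) := by
      intro P Q g s; ring
    rw [h5, h3 a, sum_mul_sum, mul_sum]
    have h6 : (1 / (q : ℂ)) ^ 2 * (((ZMod.χ₄ (q : ZMod 4) : ℤ) : ℂ) * q) =
        ((ZMod.χ₄ (q : ZMod 4) : ℤ) : ℂ) / q := by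
      field_simp
    rw [h6]
    congr 1
    refine sum_congr rfl (fun m1 _ ↦ ?_)
    rw [mul_sum]
    refine sum_congr rfl (fun m2 _ ↦ ?_)
    have h7 : (ZMod.stdAddChar (wi * (m1 * X + m2 * Y)) : ℂ) *
        ZMod.stdAddChar (A * (a : ZMod q) + c0 * wi ^ 2 * (m1 ^ 2 + m2 ^ 2) *
          ((a⁻¹ : (ZMod q)ˣ) : ZMod q)) =
        ZMod.stdAddChar (A * (a : ZMod q)) * ((ZMod.stdAddChar (m1 * wi * X) *
          ZMod.stdAddChar (((a⁻¹ : (ZMod q)ˣ) : ZMod q) * c0 * (m1 * wi) ^ 2)) *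
          (ZMod.stdAddChar (m2 * wi * Y) *
          ZMod.stdAddChar (((a⁻¹ : (ZMod q)ˣ) : ZMod q) * c0 * (m2 * wi) ^ 2))) := by
      simp only [← AddChar.map_add_eq_mul]
      congr 1
      ring
    rw [h7]
    ring
  rw [sum_congr rfl (fun a _ ↦ h4 a), ← mul_sum]
  congr 1
  rw [sum_comm]
  refine sum_congr rfl (fun m1 _ ↦ ?_)
  rw [sum_comm]
  refine sum_congr rfl (fun m2 _ ↦ ?_)
  unfold Kl
  rw [mul_sum, mul_sum]

/-- The sum of Ramanujan sums over a box, with error term from the Kloosterman bound. -/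
theorem Phi_bound (hq : Odd q) (K : ℕ) (A B X Y w : ZMod q) (hB : IsUnit B) (hw : IsUnit w)
    (M : ℝ) (hM : ∀ v : ZMod q, ‖Kl A v‖ ≤ M) :
    ‖Phi K A B X Y w - (((ZMod.χ₄ (q : ZMod 4) : ℤ) : ℂ) / q) * ((K : ℂ) ^ 2 * Kl A 0)‖ ≤
      (1 / q) * (M * ((K + q * (1 + Real.log q)) ^ 2 - K ^ 2)) := by
  have hq0 : (0 : ℝ) < q := by
    have := Nat.pos_of_ne_zero (NeZero.ne q); exact_mod_cast this
  have h4u : IsUnit (4 * B) := (isUnit_four hq).mul hB
  obtain ⟨c0, hc0⟩ := h4u.exists_right_inv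
  obtain ⟨wi, hwi⟩ := hw.exists_right_inv
  rw [Phi_eq hq K A B X Y w c0 wi hc0 hwi, ← mul_sub, norm_mul]
  have hM0 : 0 ≤ M := le_trans (norm_nonneg _) (hM 0)
  have hχ : ‖(((ZMod.χ₄ (q : ZMod 4) : ℤ) : ℂ) / q)‖ ≤ 1 / q := by
    rw [norm_div]
    have h1 : ‖((q : ℕ) : ℂ)‖ = q := by simp
    rw [h1]
    apply div_le_div_of_nonneg_right _ hq0.le
    have h2 := (ZMod.isQuadratic_χ₄) (q : ZMod 4)
    rcases h2 with h | h | h <;> rw [h] <;> simp
  apply mul_le_mul hχ _ (norm_nonneg _) (by positivity)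
  set T : ZMod q × ZMod q → ℂ := fun z ↦ gam K z.1 * gam K z.2 *
    (ZMod.stdAddChar (wi * (z.1 * X + z.2 * Y)) * Kl A (c0 * wi ^ 2 * (z.1 ^ 2 + z.2 ^ 2))) with hT
  have h1 : ∑ m1 : ZMod q, ∑ m2 : ZMod q, gam K m1 * gam K m2 *
      (ZMod.stdAddChar (wi * (m1 * X + m2 * Y)) * Kl A (c0 * wi ^ 2 * (m1 ^ 2 + m2 ^ 2))) =
      ∑ z : ZMod q × ZMod q, T z := by
    rw [Fintype.sum_prod_type]
  have h2 : T 0 = (K : ℂ) ^ 2 * Kl A 0 := by
    simp only [hT, Prod.fst_zero, Prod.snd_zero, gam_zero]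
    rw [show wi * (0 * X + 0 * Y) = 0 by ring, AddChar.map_zero_eq_one,
      show c0 * wi ^ 2 * ((0 : ZMod q) ^ 2 + 0 ^ 2) = 0 by ring]
    ring
  rw [h1, ← h2, ← add_sum_erase univ T (mem_univ 0), add_sub_cancel_left]
  have h3 : ∀ z : ZMod q × ZMod q, ‖T z‖ ≤ ‖gam K z.1‖ * ‖gam K z.2‖ * M := by
    intro z
    simp only [hT]
    rw [norm_mul, norm_mul, norm_mul]
    have : ‖(ZMod.stdAddChar (wi * (z.1 * X + z.2 * Y)) : ℂ)‖ = 1 := by
      rw [ZMod.stdAddChar_apply]; exact Circle.norm_coe _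
    rw [this, one_mul]
    exact mul_le_mul_of_nonneg_left (hM _) (by positivity)
  have h4 : ‖∑ z ∈ univ.erase (0 : ZMod q × ZMod q), T z‖ ≤
      ∑ z ∈ univ.erase (0 : ZMod q × ZMod q), ‖gam K z.1‖ * ‖gam K z.2‖ * M :=
    le_trans (norm_sum_le _ _) (sum_le_sum (fun z _ ↦ h3 z))
  have h5 : ∑ z ∈ univ.erase (0 : ZMod q × ZMod q), ‖gam K z.1‖ * ‖gam K z.2‖ * M =
      ((∑ m : ZMod q, ‖gam K m‖) ^ 2 - K ^ 2) * M := by
    have h6 := add_sum_erase (univ : Finset (ZMod q × ZMod q))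
      (fun z ↦ ‖gam K z.1‖ * ‖gam K z.2‖ * M) (mem_univ 0)
    simp only [Prod.fst_zero, Prod.snd_zero, gam_zero] at h6
    have h7 : ∑ z : ZMod q × ZMod q, ‖gam K z.1‖ * ‖gam K z.2‖ * M =
        (∑ m : ZMod q, ‖gam K m‖) ^ 2 * M := by
      rw [← sum_mul, Fintype.sum_prod_type, sq, sum_mul_sum]
    have h8 : ‖((K : ℕ) : ℂ)‖ = K := by simp
    rw [h7, h8] at h6
    linarith
  rw [h5] at h4
  refine le_trans h4 ?_
  rw [mul_comm]
  apply mul_le_mul_of_nonneg_left _ hM0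
  have h9 := sum_gam_le (q := q) K
  have h10 : 0 ≤ ∑ m : ZMod q, ‖gam K m‖ := sum_nonneg (fun _ _ ↦ norm_nonneg _)
  have h11 : (∑ m : ZMod q, ‖gam K m‖) ^ 2 ≤ (K + q * (1 + Real.log q)) ^ 2 :=
    pow_le_pow_left₀ h10 h9 2
  linarith

end Pool.Agent.Lib.MP_0e0027_nt

namespace Pool.Agent.Lib.MP_0e0027_nt

/-- Ramanujan sum `c_q(k)`. -/
def rc (q : ℕ) (k : ℤ) : ℤ :=
  ∑ x ∈ q.divisorsAntidiagonal, ArithmeticFunction.moebius x.1 *
    (if (x.2 : ℤ) ∣ k then (x.2 : ℤ) else 0)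

theorem sum_rc (k : ℤ) (e : ℕ) (he : 0 < e) :
    ∑ q ∈ e.divisors, rc q k = if (e : ℤ) ∣ k then (e : ℤ) else 0 := by
  have h := (ArithmeticFunction.sum_eq_iff_sum_mul_moebius_eq (R := ℤ)
    (f := fun q ↦ rc q k) (g := fun e ↦ if (e : ℤ) ∣ k then (e : ℤ) else 0)).mpr
  apply h _ e he
  intro n hn
  simp only [rc, Int.cast_id]

theorem sum_moebius_gcd (m q : ℕ) (hq : 0 < q) :
    ∑ g ∈ q.divisors, (if g ∣ m then ArithmeticFunction.moebius g else 0) =
      if Nat.Coprime m q then (1 : ℤ) else 0 := by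
  rw [← sum_filter]
  have h1 : q.divisors.filter (fun g ↦ g ∣ m) = (Nat.gcd m q).divisors := by
    ext g
    rw [mem_filter, Nat.mem_divisors, Nat.mem_divisors, Nat.dvd_gcd_iff]
    have : Nat.gcd m q ≠ 0 := (Nat.gcd_pos_of_pos_right m hq).ne'
    constructor
    · rintro ⟨⟨h1, _⟩, h2⟩
      exact ⟨⟨h2, h1⟩, this⟩
    · rintro ⟨⟨h1, h2⟩, _⟩
      exact ⟨⟨h2, hq.ne'⟩, h1⟩
  rw [h1]
  have h2 := congrArg (fun f : ArithmeticFunction ℤ ↦ f (Nat.gcd m q))
    ArithmeticFunction.coe_zeta_mul_moebius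
  simp only [ArithmeticFunction.coe_zeta_mul_apply, ArithmeticFunction.one_apply] at h2
  rw [h2]

variable {q : ℕ} [NeZero q]

theorem sum_psi_mult (g : ℕ) (hg : g ∣ q) (k : ℤ) :
    ∑ x ∈ univ.filter (fun x : ZMod q ↦ g ∣ x.val), (ZMod.stdAddChar ((k : ZMod q) * x) : ℂ) =
      if ((q / g : ℕ) : ℤ) ∣ k then ((q / g : ℕ) : ℂ) else 0 := by
  have hq0 : 0 < q := Nat.pos_of_ne_zero (NeZero.ne q)
  have hg0 : 0 < g := Nat.pos_of_dvd_of_pos hg hq0
  set ζ : ℂ := ZMod.stdAddChar ((k : ZMod q) * (g : ZMod q)) with hζ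
  have hqg : (g * (q / g) : ℕ) = q := Nat.mul_div_cancel' hg
  have h1 : ∑ x ∈ univ.filter (fun x : ZMod q ↦ g ∣ x.val),
      (ZMod.stdAddChar ((k : ZMod q) * x) : ℂ) = ∑ y ∈ range (q / g), ζ ^ y := by
    symm
    apply sum_bij (fun y _ ↦ ((g * y : ℕ) : ZMod q))
    · intro y hy
      rw [mem_range] at hy
      rw [mem_filter]
      refine ⟨mem_univ _, ?_⟩
      rw [ZMod.val_natCast_of_lt]
      · exact dvd_mul_right _ _
      · calc g * y < g * (q / g) := Nat.mul_lt_mul_of_pos_left hy hg0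
          _ = q := hqg
    · intro y hy y' hy' h
      rw [mem_range] at hy hy'
      have h2 : g * y < q := by
        calc g * y < g * (q / g) := Nat.mul_lt_mul_of_pos_left hy hg0
          _ = q := hqg
      have h3 : g * y' < q := by
        calc g * y' < g * (q / g) := Nat.mul_lt_mul_of_pos_left hy' hg0
          _ = q := hqg
      have h4 := congrArg ZMod.val h
      rw [ZMod.val_natCast_of_lt h2, ZMod.val_natCast_of_lt h3] at h4
      exact Nat.eq_of_mul_eq_mul_left hg0 h4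
    · intro x hx
      rw [mem_filter] at hx
      obtain ⟨y, hy⟩ := hx.2
      refine ⟨y, ?_, ?_⟩
      · rw [mem_range]
        have h2 : g * y < g * (q / g) := by rw [hqg, ← hy]; exact ZMod.val_lt x
        exact lt_of_mul_lt_mul_left h2 (Nat.zero_le _)
      · rw [← hy, ZMod.natCast_zmod_val]
    · intro y hy
      rw [hζ, ← AddChar.map_nsmul_eq_pow]
      congr 1
      rw [nsmul_eq_mul]
      push_cast
      ring
  rw [h1]
  have hζq : ζ ^ (q / g) = 1 := by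
    rw [hζ, ← AddChar.map_nsmul_eq_pow]
    have : (q / g) • ((k : ZMod q) * (g : ZMod q)) = 0 := by
      rw [nsmul_eq_mul]
      have h2 : ((q / g : ℕ) : ZMod q) * ((k : ZMod q) * (g : ZMod q)) =
          (k : ZMod q) * ((g * (q / g) : ℕ) : ZMod q) := by
        push_cast; ring
      rw [h2, hqg, CharP.cast_eq_zero, mul_zero]
    rw [this, AddChar.map_zero_eq_one]
  have hiff : ζ = 1 ↔ ((q / g : ℕ) : ℤ) ∣ k := by
    rw [hζ]
    have h2 : (ZMod.stdAddChar ((k : ZMod q) * (g : ZMod q)) : ℂ) = 1 ↔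
        (k : ZMod q) * (g : ZMod q) = 0 := by
      rw [← AddChar.map_zero_eq_one (ZMod.stdAddChar (N := q))]
      exact ZMod.injective_stdAddChar.eq_iff
    rw [h2]
    have h3 : (k : ZMod q) * (g : ZMod q) = ((k * g : ℤ) : ZMod q) := by push_cast; ring
    rw [h3, ZMod.intCast_zmod_eq_zero_iff_dvd]
    have h4 : (q : ℤ) = ((q / g : ℕ) : ℤ) * (g : ℤ) := by
      rw [← Nat.cast_mul, Nat.div_mul_cancel hg]
    constructor
    · intro h5
      rw [h4] at h5
      exact Int.dvd_of_mul_dvd_mul_right (by exact_mod_cast hg0.ne') h5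
    · intro h5
      rw [h4]
      exact mul_dvd_mul_right h5 _
  by_cases h2 : ζ = 1
  · rw [if_pos (hiff.mp h2), h2]
    simp
  · rw [if_neg (fun h ↦ h2 (hiff.mpr h))]
    have h3 := mul_neg_geom_sum ζ (q / g)
    rw [hζq, sub_self] at h3
    rcases mul_eq_zero.mp h3 with h4 | h4
    · exact absurd (sub_eq_zero.mp h4).symm h2
    · exact h4

theorem Kl_zero_eq (k : ℤ) : Kl (k : ZMod q) 0 = ((rc q k : ℤ) : ℂ) := by
  have hq0 : 0 < q := Nat.pos_of_ne_zero (NeZero.ne q)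
  have h1 : Kl (k : ZMod q) 0 = ∑ x : ZMod q,
      (if Nat.Coprime x.val q then (ZMod.stdAddChar ((k : ZMod q) * x) : ℂ) else 0) := by
    unfold Kl
    rw [← sum_filter]
    apply sum_bij (fun (a : (ZMod q)ˣ) _ ↦ (a : ZMod q))
    · intro a _
      rw [mem_filter]
      refine ⟨mem_univ _, ?_⟩
      have := a.isUnit
      rw [← ZMod.natCast_zmod_val (a : ZMod q), ZMod.isUnit_iff_coprime] at this
      exact this
    · intro a _ b _ h
      exact Units.ext h
    · intro x hx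
      rw [mem_filter] at hx
      have hu : IsUnit x := by
        rw [← ZMod.natCast_zmod_val x, ZMod.isUnit_iff_coprime]
        exact hx.2
      exact ⟨hu.unit, mem_univ _, rfl⟩
    · intro a _
      rw [zero_mul, add_zero]
  rw [h1]
  have h2 : ∀ x : ZMod q, (if Nat.Coprime x.val q then
      (ZMod.stdAddChar ((k : ZMod q) * x) : ℂ) else 0) =
      ∑ g ∈ q.divisors, (if g ∣ x.val then
        ((ArithmeticFunction.moebius g : ℤ) : ℂ) * ZMod.stdAddChar ((k : ZMod q) * x) else 0) := by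
    intro x
    have h3 := sum_moebius_gcd x.val q hq0
    have h4 : (if Nat.Coprime x.val q then (ZMod.stdAddChar ((k : ZMod q) * x) : ℂ) else 0) =
        (((if Nat.Coprime x.val q then (1 : ℤ) else 0 : ℤ)) : ℂ) *
          ZMod.stdAddChar ((k : ZMod q) * x) := by
      split_ifs <;> simp
    rw [h4, ← h3, Int.cast_sum, sum_mul]
    refine sum_congr rfl (fun g _ ↦ ?_)
    split_ifs <;> simp
  simp only [h2]
  rw [sum_comm]
  have h5 : ∀ g ∈ q.divisors, ∑ x : ZMod q, (if g ∣ x.val then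
        ((ArithmeticFunction.moebius g : ℤ) : ℂ) * ZMod.stdAddChar ((k : ZMod q) * x) else 0) =
      ((ArithmeticFunction.moebius g : ℤ) : ℂ) *
        (if ((q / g : ℕ) : ℤ) ∣ k then ((q / g : ℕ) : ℂ) else 0) := by
    intro g hg
    rw [← sum_filter, ← mul_sum, sum_psi_mult g (Nat.dvd_of_mem_divisors hg) k]
  rw [sum_congr rfl h5]
  unfold rc
  rw [Nat.sum_divisorsAntidiagonal (f := fun a b ↦ ArithmeticFunction.moebius a *
    (if (b : ℤ) ∣ k then (b : ℤ) else 0)), Int.cast_sum]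
  refine sum_congr rfl (fun g _ ↦ ?_)
  split_ifs
  · rw [Int.cast_mul, Int.cast_natCast]
  · rw [Int.cast_mul, Int.cast_zero]

theorem abs_rc_le (k : ℤ) : |(rc q k : ℝ)| ≤ q := by
  have h1 : ‖Kl (k : ZMod q) 0‖ ≤ q := by
    unfold Kl
    refine le_trans (norm_sum_le _ _) ?_
    have h2 : ∀ a : (ZMod q)ˣ, ‖(ZMod.stdAddChar ((k : ZMod q) * (a : ZMod q) +
        0 * ((a⁻¹ : (ZMod q)ˣ) : ZMod q)) : ℂ)‖ = 1 := by
      intro a
      rw [ZMod.stdAddChar_apply]; exact Circle.norm_coe _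
    simp only [h2]
    rw [sum_const, card_univ, ZMod.card_units_eq_totient, nsmul_eq_mul, mul_one]
    exact_mod_cast Nat.totient_le q
  rw [Kl_zero_eq] at h1
  have h3 : ‖((rc q k : ℤ) : ℂ)‖ = |(rc q k : ℝ)| := by
    rw [← Complex.ofReal_intCast, Complex.norm_real, Real.norm_eq_abs]
  rwa [h3] at h1

end Pool.Agent.Lib.MP_0e0027_nt
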