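import Mathlib.Analysis.Real.Pi.Bounds
import Mathlib.Analysis.Real.Pi.Leibniz
import Mathlib.Analysis.SpecialFunctions.Log.Monotone
import Mathlib.Data.Finset.NatDivisors
import Mathlib.Data.Set.Card.Arithmetic
import Mathlib.FieldTheory.Finite.Extension
import Mathlib.NumberTheory.AbelSummation
import Mathlib.NumberTheory.Basic
import Mathlib.NumberTheory.Bertrand
import Mathlib.NumberTheory.Chebyshev
import Mathlib.NumberTheory.Harmonic.Bounds
import Mathlib.NumberTheory.JacobiSum.Basic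
import Mathlib.NumberTheory.LSeries.DirichletContinuation
import Mathlib.NumberTheory.LSeries.HurwitzZetaValues
import Mathlib.NumberTheory.LSeries.PrimesInAP
import Mathlib.NumberTheory.LegendreSymbol.JacobiSymbol
import Mathlib.NumberTheory.SumTwoSquares
import Mathlib.Tactic

set_option autoImplicit false

open Finset

namespace Pool.Agent.Lib.MP_0e0027_nt

/-- representations of `l` as a sum of two squares -/
noncomputable def r2set (l : ℕ) : Finset (ℤ × ℤ) :=
  ((Icc (-(l : ℤ)) l) ×ˢ (Icc (-(l : ℤ)) l)).filter (fun z ↦ z.1 ^ 2 + z.2 ^ 2 = (l : ℤ))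

theorem mem_r2set {l : ℕ} {z : ℤ × ℤ} : z ∈ r2set l ↔ z.1 ^ 2 + z.2 ^ 2 = (l : ℤ) := by
  unfold r2set
  rw [mem_filter, mem_product, mem_Icc, mem_Icc]
  constructor
  · rintro ⟨_, h⟩; exact h
  · intro h
    have h1 : ∀ x : ℤ, |x| ≤ x ^ 2 := by
      intro x
      rcases eq_or_ne x 0 with hx | hx
      · subst hx; simp
      · have := Int.one_le_abs hx
        rw [← sq_abs]; nlinarith
    have h2 := h1 z.1
    have h3 := h1 z.2
    have h4 : |z.1| ≤ l := by nlinarith [sq_nonneg z.2]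
    have h5 : |z.2| ≤ l := by nlinarith [sq_nonneg z.1]
    rw [abs_le] at h4 h5
    exact ⟨⟨h4, h5⟩, h⟩

theorem r2_two_mul (m : ℕ) : (r2set (2 * m)).card = (r2set m).card := by
  symm
  apply card_bij (fun z _ ↦ (z.1 + z.2, z.1 - z.2))
  · intro z hz
    rw [mem_r2set] at hz ⊢
    push_cast
    linear_combination 2 * hz
  · intro z _ z' _ h
    simp only [Prod.mk.injEq] at h
    ext
    · linarith [h.1, h.2]
    · linarith [h.1, h.2]
  · intro z hz
    rw [mem_r2set] at hz
    push_cast at hz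
    have h1 : (2 : ℤ) ∣ z.1 + z.2 := by
      have h2 : (2 : ℤ) ∣ (z.1 + z.2) ^ 2 := ⟨m + z.1 * z.2, by linear_combination hz⟩
      exact Int.prime_two.dvd_of_dvd_pow h2
    obtain ⟨x, hx⟩ := h1
    refine ⟨(x, x - z.2), ?_, ?_⟩
    · rw [mem_r2set]
      simp only
      have h3 : z.1 = 2 * x - z.2 := by linarith
      rw [h3] at hz
      linarith
    · ext
      · simp only; linarith
      · simp only; ring

theorem dvd_both_of_three {p : ℕ} (hp : p.Prime) (h3 : p % 4 = 3) {c d : ℤ}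
    (h : (p : ℤ) ∣ c ^ 2 + d ^ 2) : (p : ℤ) ∣ c ∧ (p : ℤ) ∣ d := by
  have : Fact p.Prime := ⟨hp⟩
  have hpI : Prime (p : ℤ) := Nat.prime_iff_prime_int.mp hp
  have key : ∀ c d : ℤ, (p : ℤ) ∣ c ^ 2 + d ^ 2 → (p : ℤ) ∣ d := by
    intro c d h
    by_contra hd
    have hd' : (d : ZMod p) ≠ 0 := by
      intro h0
      exact hd ((ZMod.intCast_zmod_eq_zero_iff_dvd d p).mp h0)
    have h1 : ((c ^ 2 + d ^ 2 : ℤ) : ZMod p) = 0 := (ZMod.intCast_zmod_eq_zero_iff_dvd _ p).mpr h
    push_cast at h1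
    have h2 : IsSquare (-1 : ZMod p) := by
      refine ⟨(c : ZMod p) / d, ?_⟩
      field_simp
      linear_combination -h1
    rw [ZMod.exists_sq_eq_neg_one_iff] at h2
    exact h2 h3
  exact ⟨key d c (by rw [add_comm]; exact h), key c d h⟩

theorem r2_three_not {p : ℕ} (hp : p.Prime) (h3 : p % 4 = 3) (m : ℕ) (hm : ¬ p ∣ m) :
    (r2set (p * m)).card = 0 := by
  rw [card_eq_zero, eq_empty_iff_forall_notMem]
  intro z hz
  rw [mem_r2set] at hz
  push_cast at hz
  have hpI : Prime (p : ℤ) := Nat.prime_iff_prime_int.mp hp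
  obtain ⟨⟨x, hx⟩, ⟨y, hy⟩⟩ := dvd_both_of_three hp h3 (c := z.1) (d := z.2) ⟨m, hz⟩
  apply hm
  have h1 : (p : ℤ) * (p * (x ^ 2 + y ^ 2)) = p * m := by
    rw [← hz, hx, hy]; ring
  have h2 := mul_left_cancel₀ hpI.ne_zero h1
  have h4 : (p : ℤ) ∣ m := ⟨_, h2.symm⟩
  exact_mod_cast h4

theorem r2_sq_mul_of_dvd {p : ℕ} (hp : p.Prime) (m : ℕ) :
    ((r2set (p ^ 2 * m)).filter (fun z ↦ (p : ℤ) ∣ z.1 ∧ (p : ℤ) ∣ z.2)).card =
      (r2set m).card := by
  have hp0 : (p : ℤ) ≠ 0 := by exact_mod_cast hp.ne_zero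
  symm
  apply card_bij (fun (z : ℤ × ℤ) _ ↦ ((p : ℤ) * z.1, (p : ℤ) * z.2))
  · intro z hz
    rw [mem_r2set] at hz
    rw [mem_filter, mem_r2set]
    refine ⟨?_, dvd_mul_right _ _, dvd_mul_right _ _⟩
    push_cast
    linear_combination (p : ℤ) ^ 2 * hz
  · intro z _ z' _ h
    simp only [Prod.mk.injEq, mul_eq_mul_left_iff, hp0, or_false] at h
    exact Prod.ext h.1 h.2
  · intro z hz
    rw [mem_filter, mem_r2set] at hz
    obtain ⟨h1, ⟨x, hx⟩, ⟨y, hy⟩⟩ := hz
    refine ⟨(x, y), ?_, ?_⟩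
    · rw [mem_r2set]
      push_cast at h1
      have h2 : (p : ℤ) ^ 2 * (x ^ 2 + y ^ 2) = (p : ℤ) ^ 2 * m := by
        rw [← h1, hx, hy]; ring
      exact mul_left_cancel₀ (pow_ne_zero 2 hp0) h2
    · ext
      · exact hx.symm
      · exact hy.symm

theorem r2_three_sq {p : ℕ} (hp : p.Prime) (h3 : p % 4 = 3) (m : ℕ) :
    (r2set (p ^ 2 * m)).card = (r2set m).card := by
  rw [← r2_sq_mul_of_dvd hp m]
  congr 1
  ext z
  rw [mem_filter]
  constructor
  · intro hz
    refine ⟨hz, ?_⟩
    rw [mem_r2set] at hz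
    push_cast at hz
    exact dvd_both_of_three hp h3 ⟨p * m, by rw [hz]; ring⟩
  · exact fun h ↦ h.1

theorem r2_one_half {p : ℕ} (hp : p.Prime) (a b : ℤ) (hab : a ^ 2 + b ^ 2 = p) (k : ℕ) :
    ((r2set (p * k)).filter (fun z ↦ (p : ℤ) ∣ z.1 * a + z.2 * b)).card = (r2set k).card := by
  have hp0 : (p : ℤ) ≠ 0 := by exact_mod_cast hp.ne_zero
  have hpI : Prime (p : ℤ) := Nat.prime_iff_prime_int.mp hp
  symm
  apply card_bij (fun z _ ↦ (z.1 * a - z.2 * b, z.1 * b + z.2 * a))
  · intro z hz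
    rw [mem_r2set] at hz
    rw [mem_filter, mem_r2set]
    refine ⟨?_, ?_⟩
    · push_cast
      linear_combination (a ^ 2 + b ^ 2) * hz + (k : ℤ) * hab
    · refine ⟨z.1, ?_⟩
      simp only
      linear_combination z.1 * hab
  · intro z _ z' _ h
    simp only [Prod.mk.injEq] at h
    obtain ⟨h1, h2⟩ := h
    have e1 : (p : ℤ) * z.1 = p * z'.1 := by
      rw [← hab]; linear_combination a * h1 + b * h2
    have e2 : (p : ℤ) * z.2 = p * z'.2 := by
      rw [← hab]; linear_combination a * h2 - b * h1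
    exact Prod.ext (mul_left_cancel₀ hp0 e1) (mul_left_cancel₀ hp0 e2)
  · intro z hz
    rw [mem_filter, mem_r2set] at hz
    obtain ⟨h1, ⟨x, hx⟩⟩ := hz
    push_cast at h1
    have h2 : (p : ℤ) ∣ z.2 * a - z.1 * b := by
      have h3 : (p : ℤ) ∣ (z.2 * a - z.1 * b) ^ 2 := by
        refine ⟨p * k - p * x ^ 2, ?_⟩
        have h4 : (z.1 * a + z.2 * b) ^ 2 + (z.2 * a - z.1 * b) ^ 2 = p * (p * k) := by
          rw [← h1, ← hab]; ring
        rw [hx] at h4
        linear_combination h4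
      exact hpI.dvd_of_dvd_pow h3
    obtain ⟨y, hy⟩ := h2
    refine ⟨(x, y), ?_, ?_⟩
    · rw [mem_r2set]
      have h4 : (z.1 * a + z.2 * b) ^ 2 + (z.2 * a - z.1 * b) ^ 2 = p * (p * k) := by
        rw [← h1, ← hab]; ring
      rw [hx, hy] at h4
      have h5 : (p : ℤ) ^ 2 * (x ^ 2 + y ^ 2) = (p : ℤ) ^ 2 * k := by linear_combination h4
      exact mul_left_cancel₀ (pow_ne_zero 2 hp0) h5
    · ext
      · simp only
        have : (p : ℤ) * (x * a - y * b) = p * z.1 := by
          have : (p : ℤ) * (x * a - y * b) = (p * x) * a - (p * y) * b := by ring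
          rw [this, ← hx, ← hy, ← hab]; ring
        exact mul_left_cancel₀ hp0 this
      · simp only
        have : (p : ℤ) * (x * b + y * a) = p * z.2 := by
          have : (p : ℤ) * (x * b + y * a) = (p * x) * b + (p * y) * a := by ring
          rw [this, ← hx, ← hy, ← hab]; ring
        exact mul_left_cancel₀ hp0 this

theorem r2_one_rec {p : ℕ} (hp : p.Prime) (h1 : p % 4 = 1) (k : ℕ) :
    (r2set (p * k)).card +
      ((r2set (p * k)).filter (fun z ↦ (p : ℤ) ∣ z.1 ∧ (p : ℤ) ∣ z.2)).card =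
      2 * (r2set k).card := by
  have : Fact p.Prime := ⟨hp⟩
  have hpI : Prime (p : ℤ) := Nat.prime_iff_prime_int.mp hp
  obtain ⟨a0, b0, hab0⟩ := Nat.Prime.sq_add_sq (p := p) (by omega)
  set a : ℤ := (a0 : ℤ) with ha
  set b : ℤ := (b0 : ℤ) with hb
  have hab : a ^ 2 + b ^ 2 = p := by rw [ha, hb]; exact_mod_cast hab0
  have hA := r2_one_half hp a b hab k
  have hB := r2_one_half hp a (-b) (by rw [neg_sq]; exact hab) k
  have hp2 : ¬ (p : ℤ) ∣ 2 := by
    intro h
    have : p ∣ 2 := by exact_mod_cast h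
    have := Nat.le_of_dvd (by norm_num) this
    have := hp.two_le
    omega
  have hpa : ¬ (p : ℤ) ∣ a := by
    intro h
    have hb2 : (p : ℤ) ∣ b ^ 2 := by
      have : b ^ 2 = p - a ^ 2 := by linarith
      rw [this]
      exact dvd_sub (dvd_refl _) (dvd_pow h (by norm_num))
    have hb1 := hpI.dvd_of_dvd_pow hb2
    obtain ⟨x, hx⟩ := h
    obtain ⟨y, hy⟩ := hb1
    have h2 : (p : ℤ) * (p * (x ^ 2 + y ^ 2)) = p * 1 := by
      rw [mul_one]; nth_rewrite 3 [← hab]; rw [hx, hy]; ring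
    have h3 := mul_left_cancel₀ hpI.ne_zero h2
    exact hpI.not_isUnit (IsUnit.of_mul_eq_one _ h3)
  have hpb : ¬ (p : ℤ) ∣ b := by
    intro h
    apply hpa
    have ha2 : (p : ℤ) ∣ a ^ 2 := by
      have : a ^ 2 = p - b ^ 2 := by linarith
      rw [this]
      exact dvd_sub (dvd_refl _) (dvd_pow h (by norm_num))
    exact hpI.dvd_of_dvd_pow ha2
  have hunion : (r2set (p * k)) = (r2set (p * k)).filter (fun z ↦ (p : ℤ) ∣ z.1 * a + z.2 * b) ∪
      (r2set (p * k)).filter (fun z ↦ (p : ℤ) ∣ z.1 * a + z.2 * (-b)) := by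
    ext z
    rw [mem_union, mem_filter, mem_filter]
    constructor
    · intro hz
      have hz' := hz
      rw [mem_r2set] at hz'
      push_cast at hz'
      have h2 : (p : ℤ) ∣ (z.1 * a + z.2 * b) * (z.1 * a + z.2 * (-b)) := by
        refine ⟨z.1 ^ 2 - b ^ 2 * k, ?_⟩
        linear_combination z.1 ^ 2 * hab - b ^ 2 * hz'
      rcases hpI.dvd_or_dvd h2 with h | h
      · exact Or.inl ⟨hz, h⟩
      · exact Or.inr ⟨hz, h⟩
    · rintro (h | h) <;> exact h.1
  have hinter : (r2set (p * k)).filter (fun z ↦ (p : ℤ) ∣ z.1 * a + z.2 * b) ∩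
      (r2set (p * k)).filter (fun z ↦ (p : ℤ) ∣ z.1 * a + z.2 * (-b)) =
      (r2set (p * k)).filter (fun z ↦ (p : ℤ) ∣ z.1 ∧ (p : ℤ) ∣ z.2) := by
    ext z
    rw [mem_inter, mem_filter, mem_filter, mem_filter]
    constructor
    · rintro ⟨⟨hz, h2⟩, ⟨_, h3⟩⟩
      refine ⟨hz, ?_, ?_⟩
      · have h4 : (p : ℤ) ∣ 2 * (z.1 * a) := by
          have := dvd_add h2 h3
          have e : z.1 * a + z.2 * b + (z.1 * a + z.2 * -b) = 2 * (z.1 * a) := by ring
          rwa [e] at this
        rcases hpI.dvd_or_dvd h4 with h | h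
        · exact absurd h hp2
        · rcases hpI.dvd_or_dvd h with h | h
          · exact h
          · exact absurd h hpa
      · have h4 : (p : ℤ) ∣ 2 * (z.2 * b) := by
          have := dvd_sub h2 h3
          have e : z.1 * a + z.2 * b - (z.1 * a + z.2 * -b) = 2 * (z.2 * b) := by ring
          rwa [e] at this
        rcases hpI.dvd_or_dvd h4 with h | h
        · exact absurd h hp2
        · rcases hpI.dvd_or_dvd h with h | h
          · exact h
          · exact absurd h hpb
    · rintro ⟨hz, h2, h3⟩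
      exact ⟨⟨hz, dvd_add (h2.mul_right _) (h3.mul_right _)⟩,
        ⟨hz, dvd_add (h2.mul_right _) (h3.mul_right _)⟩⟩
  have hcard := card_union_add_card_inter
    ((r2set (p * k)).filter (fun z ↦ (p : ℤ) ∣ z.1 * a + z.2 * b))
    ((r2set (p * k)).filter (fun z ↦ (p : ℤ) ∣ z.1 * a + z.2 * (-b)))
  rw [← hunion, hinter, hA, hB] at hcard
  rw [hcard]; ring

theorem r2_one_pow {p : ℕ} (hp : p.Prime) (h1 : p % 4 = 1) (m : ℕ) (hm : ¬ p ∣ m) (v : ℕ) :
    (r2set (p ^ v * m)).card = (v + 1) * (r2set m).card ∧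
    (r2set (p ^ (v + 1) * m)).card = (v + 2) * (r2set m).card := by
  induction v with
  | zero =>
    refine ⟨by simp, ?_⟩
    have h := r2_one_rec hp h1 m
    have hempty : (r2set (p * m)).filter (fun z ↦ (p : ℤ) ∣ z.1 ∧ (p : ℤ) ∣ z.2) = ∅ := by
      rw [eq_empty_iff_forall_notMem]
      intro z hz
      rw [mem_filter, mem_r2set] at hz
      obtain ⟨h2, ⟨x, hx⟩, ⟨y, hy⟩⟩ := hz
      push_cast at h2
      apply hm
      have hp0 : (p : ℤ) ≠ 0 := by exact_mod_cast hp.ne_zero
      have h3 : (p : ℤ) * (p * (x ^ 2 + y ^ 2)) = p * m := by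
        rw [← h2, hx, hy]; ring
      have h4 : (p : ℤ) ∣ m := ⟨_, (mul_left_cancel₀ hp0 h3).symm⟩
      exact_mod_cast h4
    rw [hempty, card_empty, add_zero] at h
    simpa using h
  | succ v ih =>
    refine ⟨ih.2, ?_⟩
    have h := r2_one_rec hp h1 (p ^ (v + 1) * m)
    have e1 : p * (p ^ (v + 1) * m) = p ^ 2 * (p ^ v * m) := by ring
    have e2 : p ^ (v + 1 + 1) * m = p * (p ^ (v + 1) * m) := by ring
    rw [e2]
    have h2 := r2_sq_mul_of_dvd hp (p ^ v * m)
    rw [← e1] at h2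
    rw [h2, ih.1, ih.2] at h
    have h3 : (v + 1 + 2) * (r2set m).card + (v + 1) * (r2set m).card =
        2 * ((v + 2) * (r2set m).card) := by ring
    omega

end Pool.Agent.Lib.MP_0e0027_nt

namespace Pool.Agent.Lib.MP_0e0027_nt

/-- the nontrivial character modulo 4 -/
def c4 (n : ℕ) : ℤ := ZMod.χ₄ (n : ZMod 4)

theorem c4_mul (m n : ℕ) : c4 (m * n) = c4 m * c4 n := by
  unfold c4; push_cast; rw [map_mul]

theorem c4_one : c4 1 = 1 := by unfold c4; simp

theorem c4_pow (m n : ℕ) : c4 (m ^ n) = c4 m ^ n := by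
  unfold c4; push_cast; rw [map_pow]

theorem c4_of_one {n : ℕ} (h : n % 4 = 1) : c4 n = 1 := ZMod.χ₄_nat_one_mod_four h

theorem c4_of_three {n : ℕ} (h : n % 4 = 3) : c4 n = -1 := ZMod.χ₄_nat_three_mod_four h

theorem c4_even {n : ℕ} (h : n % 2 = 0) : c4 n = 0 := by
  unfold c4; rw [ZMod.χ₄_nat_eq_if_mod_four, if_pos h]

theorem c4_sq_odd {n : ℕ} (h : n % 2 = 1) : c4 n * c4 n = 1 := by
  have : n % 4 = 1 ∨ n % 4 = 3 := by omega
  rcases this with h | h
  · rw [c4_of_one h]; norm_num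
  · rw [c4_of_three h]; norm_num

theorem abs_c4_le (n : ℕ) : |c4 n| ≤ 1 := by
  have : n % 2 = 0 ∨ n % 4 = 1 ∨ n % 4 = 3 := by omega
  rcases this with h | h | h
  · rw [c4_even h]; norm_num
  · rw [c4_of_one h]; norm_num
  · rw [c4_of_three h]; norm_num

/-- the divisor sum `∑_{e ∣ l} χ(e)` -/
def R2 (l : ℕ) : ℤ := ∑ e ∈ l.divisors, c4 e

/-- `χ` as an arithmetic function -/
def chiA : ArithmeticFunction ℤ := ⟨c4, by unfold c4; simp⟩

theorem chiA_apply (n : ℕ) : chiA n = c4 n := rfl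

theorem chiA_mult : chiA.IsMultiplicative := by
  refine ⟨c4_one, ?_⟩
  intro m n _
  exact c4_mul m n

theorem R2_eq (l : ℕ) : R2 l = (chiA * (ArithmeticFunction.zeta : ArithmeticFunction ℤ)) l := by
  rw [ArithmeticFunction.coe_mul_zeta_apply]
  rfl

theorem R2_mul {m n : ℕ} (h : Nat.Coprime m n) : R2 (m * n) = R2 m * R2 n := by
  rw [R2_eq, R2_eq, R2_eq]
  exact (chiA_mult.mul ArithmeticFunction.isMultiplicative_zeta.natCast).map_mul_of_coprime h

theorem R2_prime_pow {p : ℕ} (hp : p.Prime) (v : ℕ) :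
    R2 (p ^ v) = ∑ i ∈ range (v + 1), c4 p ^ i := by
  unfold R2
  rw [Nat.sum_divisors_prime_pow hp]
  exact sum_congr rfl (fun i _ ↦ c4_pow p i)

theorem R2_one : R2 1 = 1 := by
  unfold R2
  rw [Nat.divisors_one, sum_singleton, c4_one]

theorem r2_one : (r2set 1).card = 4 := by
  have : r2set 1 = {((1 : ℤ), (0 : ℤ)), (-1, 0), (0, 1), (0, -1)} := by
    ext z
    obtain ⟨x, y⟩ := z
    rw [mem_r2set]
    simp only [mem_insert, mem_singleton, Prod.mk.injEq]
    constructor
    · intro h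
      push_cast at h
      have hx1 : x ≤ 1 := by nlinarith [sq_nonneg y]
      have hx2 : -1 ≤ x := by nlinarith [sq_nonneg y]
      have hy1 : y ≤ 1 := by nlinarith [sq_nonneg x]
      have hy2 : -1 ≤ y := by nlinarith [sq_nonneg x]
      interval_cases x <;> interval_cases y <;> simp_all
    · rintro (⟨rfl, rfl⟩ | ⟨rfl, rfl⟩ | ⟨rfl, rfl⟩ | ⟨rfl, rfl⟩) <;> norm_num
  rw [this]
  decide

theorem r2_prime_pow_mul {p : ℕ} (hp : p.Prime) (m : ℕ) (hm : ¬ p ∣ m) (v : ℕ) :
    ((r2set (p ^ v * m)).card : ℤ) = R2 (p ^ v) * (r2set m).card := by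
  rw [R2_prime_pow hp]
  rcases hp.eq_two_or_odd with h2 | hodd
  · subst h2
    have h1 : ∀ v : ℕ, (r2set (2 ^ v * m)).card = (r2set m).card := by
      intro v
      induction v with
      | zero => simp
      | succ v ih => rw [← ih, pow_succ, mul_comm (2 ^ v) 2, mul_assoc, r2_two_mul]
    rw [h1, c4_even (by norm_num)]
    have h3 : ∑ i ∈ range (v + 1), (0 : ℤ) ^ i = 1 := by
      rw [sum_range_succ']
      simp
    rw [h3, one_mul]
  · have : p % 4 = 1 ∨ p % 4 = 3 := by omega
    rcases this with h | h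
    · rw [c4_of_one h, (r2_one_pow hp h m hm v).1]
      simp
    · rw [c4_of_three h]
      have h1 : ∀ k : ℕ, (r2set (p ^ (2 * k) * m)).card = (r2set m).card := by
        intro k
        induction k with
        | zero => simp
        | succ k ih =>
          rw [← ih]
          have : p ^ (2 * (k + 1)) * m = p ^ 2 * (p ^ (2 * k) * m) := by ring
          rw [this, r2_three_sq hp h]
      have h2 : ∀ k : ℕ, (r2set (p ^ (2 * k + 1) * m)).card = 0 := by
        intro k
        induction k with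
        | zero => simpa using r2_three_not hp h m hm
        | succ k ih =>
          rw [← ih]
          have : p ^ (2 * (k + 1) + 1) * m = p ^ 2 * (p ^ (2 * k + 1) * m) := by ring
          rw [this, r2_three_sq hp h]
      rcases Nat.even_or_odd' v with ⟨k, hk | hk⟩
      · subst hk
        rw [h1]
        have h3 : ∑ i ∈ range (2 * k + 1), (-1 : ℤ) ^ i = 1 := by
          rw [neg_one_geom_sum, if_neg]
          exact Nat.not_even_iff_odd.mpr ⟨k, rfl⟩
        rw [h3, one_mul]
      · subst hk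
        rw [h2]
        have h3 : ∑ i ∈ range (2 * k + 1 + 1), (-1 : ℤ) ^ i = 0 := by
          rw [neg_one_geom_sum, if_pos]
          exact ⟨k + 1, by ring⟩
        rw [h3, zero_mul]
        rfl

/-- Jacobi's two-square theorem -/
theorem r2_eq (l : ℕ) (hl : 0 < l) : ((r2set l).card : ℤ) = 4 * R2 l := by
  induction l using Nat.strong_induction_on with
  | _ l ih =>
    rcases Nat.lt_or_ge 1 l with h1 | h1
    · have hp := Nat.minFac_prime (by omega : l ≠ 1)
      set p := l.minFac with hpdef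
      obtain ⟨v, m, hm, hlm⟩ := Nat.exists_eq_pow_mul_and_not_dvd hl.ne' p hp.ne_one
      have hv : v ≠ 0 := by
        intro hv
        rw [hv, pow_zero, one_mul] at hlm
        apply hm
        rw [← hlm]
        exact Nat.minFac_dvd l
      have hm0 : 0 < m := by
        rcases Nat.eq_zero_or_pos m with h | h
        · rw [h, mul_zero] at hlm; omega
        · exact h
      have hpv : 1 < p ^ v := Nat.one_lt_pow hv hp.one_lt
      have hml : m < l := by rw [hlm]; nlinarith
      have ihm := ih m hml hm0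
      have hcop : Nat.Coprime (p ^ v) m := Nat.Coprime.pow_left v ((Nat.Prime.coprime_iff_not_dvd hp).mpr hm)
      rw [hlm, R2_mul hcop, r2_prime_pow_mul hp m hm, ihm]
      ring
    · have : l = 1 := by omega
      subst this
      rw [r2_one, R2_one]
      norm_num

/-- hyperbola method -/
theorem R2_hyperbola (l : ℕ) (hl : l % 4 = 1) :
    |R2 l - 2 * ∑ e ∈ l.divisors.filter (fun e ↦ e * e < l), c4 e| ≤
      if IsSquare l then 1 else 0 := by
  have hl0 : l ≠ 0 := by omega
  have h1 : R2 l = ∑ e ∈ l.divisors.filter (fun e ↦ e * e < l), c4 e +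
      ∑ e ∈ l.divisors.filter (fun e ↦ ¬ e * e < l), c4 e :=
    (sum_filter_add_sum_filter_not _ _ _).symm
  have h2 : ∑ e ∈ l.divisors.filter (fun e ↦ ¬ e * e < l), c4 e =
      ∑ e ∈ l.divisors.filter (fun e ↦ l < e * e), c4 e +
      ∑ e ∈ l.divisors.filter (fun e ↦ e * e = l), c4 e := by
    rw [← sum_union]
    · apply sum_congr _ (fun _ _ ↦ rfl)
      ext e
      simp only [mem_filter, mem_union, not_lt]
      constructor
      · rintro ⟨h, h'⟩
        rcases h'.lt_or_eq with h'' | h''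
        · exact Or.inl ⟨h, h''⟩
        · exact Or.inr ⟨h, h''.symm⟩
      · rintro (⟨h, h'⟩ | ⟨h, h'⟩)
        · exact ⟨h, h'.le⟩
        · exact ⟨h, h'.ge⟩
    · rw [disjoint_left]
      intro e he he'
      rw [mem_filter] at he he'
      omega
  have h3 : ∑ e ∈ l.divisors.filter (fun e ↦ l < e * e), c4 e =
      ∑ e ∈ l.divisors.filter (fun e ↦ e * e < l), c4 e := by
    apply sum_bij (fun e _ ↦ l / e)
    · intro e he
      rw [mem_filter, Nat.mem_divisors] at he ⊢
      obtain ⟨⟨hd, _⟩, hlt⟩ := he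
      refine ⟨⟨Nat.div_dvd_of_dvd hd, hl0⟩, ?_⟩
      obtain ⟨f, hf⟩ := hd
      have he0 : 0 < e := by
        rcases Nat.eq_zero_or_pos e with h | h
        · rw [h, zero_mul] at hf; exact absurd hf hl0
        · exact h
      rw [hf, Nat.mul_div_cancel_left _ he0]
      have hfe : f < e := by
        rw [hf] at hlt
        exact lt_of_mul_lt_mul_left hlt (Nat.zero_le _)
      have hf0 : 0 < f := by
        rcases Nat.eq_zero_or_pos f with h | h
        · rw [h, mul_zero] at hf; exact absurd hf hl0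
        · exact h
      exact Nat.mul_lt_mul_of_pos_right hfe hf0
    · intro e he e' he' h
      rw [mem_filter, Nat.mem_divisors] at he he'
      have := Nat.div_div_self he.1.1 hl0
      have h5 := Nat.div_div_self he'.1.1 hl0
      rw [← this, ← h5, h]
    · intro e he
      rw [mem_filter, Nat.mem_divisors] at he
      obtain ⟨⟨hd, _⟩, hlt⟩ := he
      refine ⟨l / e, ?_, Nat.div_div_self hd hl0⟩
      rw [mem_filter, Nat.mem_divisors]
      refine ⟨⟨Nat.div_dvd_of_dvd hd, hl0⟩, ?_⟩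
      obtain ⟨f, hf⟩ := hd
      have he0 : 0 < e := by
        rcases Nat.eq_zero_or_pos e with h | h
        · rw [h, zero_mul] at hf; exact absurd hf hl0
        · exact h
      rw [hf, Nat.mul_div_cancel_left _ he0]
      have hfe : e < f := by
        rw [hf] at hlt
        exact lt_of_mul_lt_mul_left hlt (Nat.zero_le _)
      exact Nat.mul_lt_mul_of_pos_right hfe (by omega)
    · intro e he
      rw [mem_filter, Nat.mem_divisors] at he
      obtain ⟨⟨hd, _⟩, _⟩ := he
      obtain ⟨f, hf⟩ := hd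
      have he0 : 0 < e := by
        rcases Nat.eq_zero_or_pos e with h | h
        · rw [h, zero_mul] at hf; exact absurd hf hl0
        · exact h
      rw [hf, Nat.mul_div_cancel_left _ he0]
      have hc : c4 e * c4 f = 1 := by
        rw [← c4_mul, ← hf]; exact c4_of_one hl
      have hodd : l % 2 = 1 := by omega
      have hfo : f % 2 = 1 := by
        rcases Nat.mod_two_eq_zero_or_one f with h | h
        · exfalso
          have : (e * f) % 2 = 0 := by rw [Nat.mul_mod, h, mul_zero, Nat.zero_mod]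
          rw [← hf] at this
          omega
        · exact h
      have hff := c4_sq_odd hfo
      calc c4 e = c4 e * (c4 f * c4 f) := by rw [hff, mul_one]
        _ = (c4 e * c4 f) * c4 f := by ring
        _ = c4 f := by rw [hc, one_mul]
  rw [h1, h2, h3]
  have h4 : ∑ e ∈ l.divisors.filter (fun e ↦ e * e < l), c4 e +
      (∑ e ∈ l.divisors.filter (fun e ↦ e * e < l), c4 e +
      ∑ e ∈ l.divisors.filter (fun e ↦ e * e = l), c4 e) -
      2 * ∑ e ∈ l.divisors.filter (fun e ↦ e * e < l), c4 e =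
      ∑ e ∈ l.divisors.filter (fun e ↦ e * e = l), c4 e := by ring
  rw [h4]
  split_ifs with hsq
  · obtain ⟨r, hr⟩ := hsq
    have h5 : l.divisors.filter (fun e ↦ e * e = l) = {r} := by
      ext e
      rw [mem_filter, mem_singleton, Nat.mem_divisors]
      constructor
      · rintro ⟨_, h⟩
        rw [hr] at h
        exact Nat.mul_self_inj.mp h
      · rintro rfl
        exact ⟨⟨⟨e, hr⟩, hl0⟩, hr.symm⟩
    rw [h5, sum_singleton]
    exact abs_c4_le r
  · have h5 : l.divisors.filter (fun e ↦ e * e = l) = ∅ := by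
      rw [eq_empty_iff_forall_notMem]
      intro e he
      rw [mem_filter] at he
      exact hsq ⟨e, he.2.symm⟩
    rw [h5, sum_empty, abs_zero]

theorem R2_two_mul {l : ℕ} (hl : l % 2 = 1) : R2 (2 * l) = R2 l := by
  have hcop : Nat.Coprime 2 l := by
    rw [Nat.coprime_two_left]
    exact Nat.odd_iff.mpr hl
  rw [R2_mul hcop]
  have : R2 2 = 1 := by
    have h := R2_prime_pow Nat.prime_two 1
    rw [pow_one] at h
    rw [h, sum_range_succ, sum_range_one, c4_even (by norm_num)]
    norm_num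
  rw [this, one_mul]

end Pool.Agent.Lib.MP_0e0027_nt

namespace Pool.Agent.Lib.MP_0e0027_nt

/-- the divisor bound -/
theorem divisor_bound (ε : ℝ) (hε : 0 < ε) : ∃ C : ℝ, 1 ≤ C ∧ ∀ n : ℕ, n ≠ 0 →
    ((Nat.divisors n).card : ℝ) ≤ C * (n : ℝ) ^ ε := by
  have hlog2 : 0 < Real.log 2 := Real.log_pos (by norm_num)
  set c : ℝ := 1 + 1 / (ε * Real.log 2) with hc
  have hc1 : 1 ≤ c := by
    have : 0 ≤ 1 / (ε * Real.log 2) := by positivity
    linarith
  obtain ⟨P0, hP0⟩ := exists_nat_ge ((2 : ℝ) ^ (1 / ε))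
  refine ⟨c ^ P0, one_le_pow₀ hc1, ?_⟩
  intro n hn
  rw [Nat.card_divisors hn]
  -- termwise bound
  have hterm : ∀ p ∈ n.primeFactors, ((n.factorization p + 1 : ℕ) : ℝ) ≤
      (if p < P0 then c else 1) * ((p : ℝ) ^ (n.factorization p)) ^ ε := by
    intro p hp
    have hpp := Nat.prime_of_mem_primeFactors hp
    set k := n.factorization p with hk
    have hp2 : (2 : ℝ) ≤ p := by exact_mod_cast hpp.two_le
    have hp0 : (0 : ℝ) < p := by linarith
    split_ifs with h
    · -- small prime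
      have h1 : ((2 : ℝ) ^ k) ^ ε ≤ ((p : ℝ) ^ k) ^ ε := by
        apply Real.rpow_le_rpow (by positivity) _ hε.le
        exact pow_le_pow_left₀ (by norm_num) hp2 k
      have h2 : 1 + k * (ε * Real.log 2) ≤ ((2 : ℝ) ^ k) ^ ε := by
        have h3 : ((2 : ℝ) ^ k) ^ ε = Real.exp (k * (ε * Real.log 2)) := by
          rw [Real.rpow_def_of_pos (by positivity), Real.log_pow]
          congr 1
          ring
        rw [h3]
        have := Real.add_one_le_exp (k * (ε * Real.log 2))
        linarith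
      have h3 : ((k + 1 : ℕ) : ℝ) ≤ c * (1 + k * (ε * Real.log 2)) := by
        rw [hc]
        have h4 : (1 + 1 / (ε * Real.log 2)) * (1 + k * (ε * Real.log 2)) =
            1 + k * (ε * Real.log 2) + 1 / (ε * Real.log 2) + k := by
          field_simp
          ring
        rw [h4]
        push_cast
        have h5 : 0 ≤ (k : ℝ) * (ε * Real.log 2) := by positivity
        have h6 : 0 ≤ 1 / (ε * Real.log 2) := by positivity
        linarith
      calc ((k + 1 : ℕ) : ℝ) ≤ c * (1 + k * (ε * Real.log 2)) := h3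
        _ ≤ c * ((p : ℝ) ^ k) ^ ε := by
          apply mul_le_mul_of_nonneg_left (le_trans h2 h1) (by linarith)
    · -- large prime
      push Not at h
      rw [one_mul]
      have h1 : (2 : ℝ) ^ (1 / ε) ≤ p := le_trans hP0 (by exact_mod_cast h)
      have h2 : (2 : ℝ) ≤ (p : ℝ) ^ ε := by
        calc (2 : ℝ) = ((2 : ℝ) ^ (1 / ε)) ^ ε := by
              rw [← Real.rpow_mul (by norm_num), one_div_mul_cancel hε.ne', Real.rpow_one]
          _ ≤ (p : ℝ) ^ ε := Real.rpow_le_rpow (by positivity) h1 hε.le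
      have h3 : ((p : ℝ) ^ k) ^ ε = ((p : ℝ) ^ ε) ^ k := by
        rw [← Real.rpow_natCast, ← Real.rpow_natCast, ← Real.rpow_mul hp0.le,
          ← Real.rpow_mul hp0.le, mul_comm]
      rw [h3]
      calc ((k + 1 : ℕ) : ℝ) ≤ (2 : ℝ) ^ k := by
            have : k + 1 ≤ 2 ^ k := Nat.lt_two_pow_self
            exact_mod_cast this
        _ ≤ ((p : ℝ) ^ ε) ^ k := pow_le_pow_left₀ (by norm_num) h2 k
  push_cast
  have h1 : ∏ p ∈ n.primeFactors, ((n.factorization p : ℝ) + 1) ≤
      ∏ p ∈ n.primeFactors, (if p < P0 then c else 1) * ((p : ℝ) ^ (n.factorization p)) ^ ε := by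
    apply prod_le_prod
    · intro p _
      positivity
    · intro p hp
      have := hterm p hp
      push_cast at this
      exact this
  refine le_trans h1 ?_
  rw [prod_mul_distrib]
  have h2 : ∏ p ∈ n.primeFactors, ((p : ℝ) ^ (n.factorization p)) ^ ε = (n : ℝ) ^ ε := by
    rw [Real.finsetProd_rpow _ _ (fun p _ ↦ by positivity)]
    congr 1
    have := Nat.prod_factorization_pow_eq_self hn
    rw [Finsupp.prod, Nat.support_factorization] at this
    exact_mod_cast congrArg (fun m : ℕ ↦ (m : ℝ)) this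
  rw [h2]
  apply mul_le_mul_of_nonneg_right _ (by positivity)
  rw [prod_ite, prod_const, prod_const_one, mul_one]
  apply pow_le_pow_right₀ hc1
  calc (n.primeFactors.filter (fun p ↦ p < P0)).card ≤ (range P0).card := by
        apply card_le_card
        intro p hp
        rw [mem_filter] at hp
        rw [mem_range]
        exact hp.2
    _ = P0 := card_range P0

end Pool.Agent.Lib.MP_0e0027_nt
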