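import Mathlib
import Pool.Agent.Lib.MP_0e0027_nt.Kloosterman
import Pool.Agent.Lib.MP_0e0027_nt.TwoSquares

set_option autoImplicit false

open Finset

namespace Pool.Agent.Lib.MP_0e0027_nt

/-- the character modulo 4 as a real number -/
noncomputable def chi (n : ℕ) : ℝ := ((ZMod.χ₄ (n : ZMod 4) : ℤ) : ℝ)

/-- the Kloosterman bound -/
noncomputable def Kb (A q : ℕ) : ℝ :=
  ((Nat.gcd A q : ℝ) * (q : ℝ) ^ 3 * ((Nat.divisors q).card : ℝ) ^ 3) ^ ((1 : ℝ) / 4)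

theorem Kb_nonneg (A q : ℕ) : 0 ≤ Kb A q := by unfold Kb; positivity

theorem Kl_le_Kb {q : ℕ} [NeZero q] (hq : Odd q) (A : ℕ) (v : ZMod q) :
    ‖Kl (A : ZMod q) v‖ ≤ Kb A q := by
  have h := Kl_bound hq A v
  unfold Kb
  have h0 : 0 ≤ ‖Kl (A : ZMod q) v‖ := norm_nonneg _
  calc ‖Kl (A : ZMod q) v‖ = (‖Kl (A : ZMod q) v‖ ^ 4) ^ ((1 : ℝ) / 4) := by
        rw [← Real.rpow_natCast, ← Real.rpow_mul h0]; norm_num
    _ ≤ _ := Real.rpow_le_rpow (by positivity) h (by norm_num)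

/-- error term for a single modulus -/
noncomputable def Er (A K q : ℕ) : ℝ :=
  (1 / (q : ℝ)) * (Kb A q * ((K + q * (1 + Real.log q)) ^ 2 - (K : ℝ) ^ 2))

theorem Er_nonneg (A K q : ℕ) : 0 ≤ Er A K q := by
  unfold Er
  have h1 := Kb_nonneg A q
  have h2 : 0 ≤ (q : ℝ) * (1 + Real.log q) := by
    rcases Nat.eq_zero_or_pos q with h | h
    · subst h; simp
    · have : 0 ≤ Real.log q := Real.log_nonneg (by exact_mod_cast h)
      positivity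
  have h3 : (K : ℝ) ^ 2 ≤ (K + q * (1 + Real.log q)) ^ 2 :=
    pow_le_pow_left₀ (by positivity) (by linarith) 2
  have h4 : 0 ≤ (K + q * (1 + Real.log q)) ^ 2 - (K : ℝ) ^ 2 := by linarith
  positivity

theorem ram_box (q : ℕ) (hq0 : 0 < q) (hq : Odd q) (K A B w : ℕ) (X Y : ℤ)
    (hB : Nat.Coprime B q) (hw : Nat.Coprime w q) :
    |(∑ u1 ∈ range K, ∑ u2 ∈ range K,
      (rc q ((A : ℤ) - B * ((X - w * (u1 : ℤ)) ^ 2 + (Y - w * (u2 : ℤ)) ^ 2)) : ℝ)) -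
      (chi q / q) * ((K : ℝ) ^ 2 * rc q A)| ≤ Er A K q := by
  have : NeZero q := ⟨hq0.ne'⟩
  have hBu : IsUnit (B : ZMod q) := by rw [ZMod.isUnit_iff_coprime]; exact hB
  have hwu : IsUnit (w : ZMod q) := by rw [ZMod.isUnit_iff_coprime]; exact hw
  have h := Phi_bound hq K (A : ZMod q) (B : ZMod q) (X : ZMod q) (Y : ZMod q) (w : ZMod q)
    hBu hwu (Kb A q) (fun v ↦ Kl_le_Kb hq A v)
  have h1 : Phi K (A : ZMod q) (B : ZMod q) (X : ZMod q) (Y : ZMod q) (w : ZMod q) =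
      ((∑ u1 ∈ range K, ∑ u2 ∈ range K,
      (rc q ((A : ℤ) - B * ((X - w * (u1 : ℤ)) ^ 2 + (Y - w * (u2 : ℤ)) ^ 2)) : ℝ) : ℝ) : ℂ) := by
    unfold Phi
    push_cast
    refine sum_congr rfl (fun u1 _ ↦ sum_congr rfl (fun u2 _ ↦ ?_))
    rw [← Kl_zero_eq]
    push_cast
    rfl
  have h2 : Kl (A : ZMod q) 0 = (((rc q A : ℤ) : ℝ) : ℂ) := by
    have := Kl_zero_eq (q := q) (A : ℤ)
    rw [Int.cast_natCast] at this
    rw [this]
    push_cast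
    rfl
  rw [h1, h2] at h
  have h3 : ((∑ u1 ∈ range K, ∑ u2 ∈ range K,
      (rc q ((A : ℤ) - B * ((X - w * (u1 : ℤ)) ^ 2 + (Y - w * (u2 : ℤ)) ^ 2)) : ℝ) : ℝ) : ℂ) -
      (((ZMod.χ₄ (q : ZMod 4) : ℤ) : ℂ) / q) * ((K : ℂ) ^ 2 * (((rc q A : ℤ) : ℝ) : ℂ)) =
      (((∑ u1 ∈ range K, ∑ u2 ∈ range K,
      (rc q ((A : ℤ) - B * ((X - w * (u1 : ℤ)) ^ 2 + (Y - w * (u2 : ℤ)) ^ 2)) : ℝ)) -
      (chi q / q) * ((K : ℝ) ^ 2 * rc q A) : ℝ) : ℂ) := by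
    unfold chi
    push_cast
    rfl
  rw [h3, Complex.norm_real, Real.norm_eq_abs] at h
  exact h

/-- local density -/
noncomputable def kap (A e : ℕ) : ℝ := (1 / (e : ℝ)) * ∑ q ∈ e.divisors, chi q / q * rc q A

/-- error term of the box count -/
noncomputable def Del (A K e : ℕ) : ℝ := (1 / (e : ℝ)) * ∑ q ∈ e.divisors, Er A K q

/-- number of points of a box in the congruence -/
def boxc (e K A B w : ℕ) (X Y : ℤ) : ℕ :=
  ((range K ×ˢ range K).filter (fun u ↦ (e : ℤ) ∣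
    (A : ℤ) - B * ((X - w * (u.1 : ℤ)) ^ 2 + (Y - w * (u.2 : ℤ)) ^ 2))).card

theorem box_bound (e : ℕ) (he0 : 0 < e) (he : Odd e) (K A B w : ℕ) (X Y : ℤ)
    (hB : Nat.Coprime B e) (hw : Nat.Coprime w e) :
    |(boxc e K A B w X Y : ℝ) - kap A e * (K : ℝ) ^ 2| ≤ Del A K e := by
  have he' : (0 : ℝ) < e := by exact_mod_cast he0
  have h1 : (e : ℝ) * (boxc e K A B w X Y : ℝ) = ∑ q ∈ e.divisors,
      ∑ u1 ∈ range K, ∑ u2 ∈ range K,
      (rc q ((A : ℤ) - B * ((X - w * (u1 : ℤ)) ^ 2 + (Y - w * (u2 : ℤ)) ^ 2)) : ℝ) := by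
    unfold boxc
    rw [card_filter, sum_product]
    push_cast
    rw [mul_sum, sum_comm]
    refine sum_congr rfl (fun u1 _ ↦ ?_)
    rw [mul_sum, sum_comm]
    refine sum_congr rfl (fun u2 _ ↦ ?_)
    have h2 := sum_rc ((A : ℤ) - B * ((X - w * (u1 : ℤ)) ^ 2 + (Y - w * (u2 : ℤ)) ^ 2)) e he0
    have h3 : ((∑ q ∈ e.divisors, rc q ((A : ℤ) - B * ((X - w * (u1 : ℤ)) ^ 2 +
      (Y - w * (u2 : ℤ)) ^ 2)) : ℤ) : ℝ) = ((if (e : ℤ) ∣ (A : ℤ) - B * ((X - w * (u1 : ℤ)) ^ 2 +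
      (Y - w * (u2 : ℤ)) ^ 2) then (e : ℤ) else 0 : ℤ) : ℝ) := by rw [h2]
    rw [Int.cast_sum] at h3
    rw [h3]
    split_ifs <;> simp
  have h4 : (e : ℝ) * (kap A e * (K : ℝ) ^ 2) =
      ∑ q ∈ e.divisors, (chi q / q) * ((K : ℝ) ^ 2 * rc q A) := by
    unfold kap
    rw [← mul_assoc, ← mul_assoc, mul_one_div_cancel he'.ne', one_mul, sum_mul]
    refine sum_congr rfl (fun q _ ↦ ?_)
    ring
  have h5 : |(e : ℝ) * ((boxc e K A B w X Y : ℝ) - kap A e * (K : ℝ) ^ 2)| ≤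
      ∑ q ∈ e.divisors, Er A K q := by
    rw [mul_sub, h1, h4, ← sum_sub_distrib]
    refine le_trans (abs_sum_le_sum_abs _ _) (sum_le_sum (fun q hq ↦ ?_))
    have hqe := Nat.dvd_of_mem_divisors hq
    exact ram_box q (Nat.pos_of_dvd_of_pos hqe he0) (he.of_dvd_nat hqe) K A B w X Y
      (hB.coprime_dvd_right hqe) (hw.coprime_dvd_right hqe)
  rw [abs_mul, abs_of_pos he'] at h5
  unfold Del
  rw [one_div, ← div_eq_inv_mul, le_div_iff₀ he', mul_comm]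
  exact h5

end Pool.Agent.Lib.MP_0e0027_nt

namespace Pool.Agent.Lib.MP_0e0027_nt

/-- Points of a residue class modulo `w` inside a disc. -/
noncomputable def Dset (B w : ℕ) (x0 y0 : ℤ) (T : ℝ) : Finset (ℤ × ℤ) :=
  ((Icc (-⌈T⌉) ⌈T⌉) ×ˢ (Icc (-⌈T⌉) ⌈T⌉)).filter (fun z ↦ (w : ℤ) ∣ z.1 - x0 ∧ (w : ℤ) ∣ z.2 - y0 ∧
    (B : ℝ) * ((z.1 : ℝ) ^ 2 + (z.2 : ℝ) ^ 2) < T)

theorem abs_le_sq_int (x : ℤ) : |(x : ℝ)| ≤ (x : ℝ) ^ 2 := by
  rcases eq_or_ne x 0 with h | h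
  · subst h; simp
  · have h1 : 1 ≤ |x| := Int.one_le_abs h
    have h2 : (1 : ℝ) ≤ |(x : ℝ)| := by exact_mod_cast h1
    rw [← sq_abs]
    nlinarith

theorem mem_Dset {B w : ℕ} (hB : 1 ≤ B) {x0 y0 : ℤ} {T : ℝ} {z : ℤ × ℤ} :
    z ∈ Dset B w x0 y0 T ↔ (w : ℤ) ∣ z.1 - x0 ∧ (w : ℤ) ∣ z.2 - y0 ∧
    (B : ℝ) * ((z.1 : ℝ) ^ 2 + (z.2 : ℝ) ^ 2) < T := by
  unfold Dset
  rw [mem_filter, mem_product, mem_Icc, mem_Icc]
  constructor
  · rintro ⟨_, h⟩; exact h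
  · rintro h
    refine ⟨?_, h⟩
    have hB' : (1 : ℝ) ≤ B := by exact_mod_cast hB
    have h1 : (z.1 : ℝ) ^ 2 + (z.2 : ℝ) ^ 2 ≤ (B : ℝ) * ((z.1 : ℝ) ^ 2 + (z.2 : ℝ) ^ 2) := by
      have : 0 ≤ (z.1 : ℝ) ^ 2 + (z.2 : ℝ) ^ 2 := by positivity
      nlinarith
    have h2 := abs_le_sq_int z.1
    have h3 := abs_le_sq_int z.2
    have h4 : |(z.1 : ℝ)| ≤ T := by nlinarith [sq_nonneg (z.2 : ℝ), h.2.2]
    have h5 : |(z.2 : ℝ)| ≤ T := by nlinarith [sq_nonneg (z.1 : ℝ), h.2.2]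
    have h6 : T ≤ ⌈T⌉ := Int.le_ceil T
    rw [abs_le] at h4 h5
    refine ⟨⟨?_, ?_⟩, ⟨?_, ?_⟩⟩
    · have : (-(⌈T⌉ : ℝ)) ≤ z.1 := by linarith
      exact_mod_cast this
    · have : (z.1 : ℝ) ≤ ⌈T⌉ := by linarith
      exact_mod_cast this
    · have : (-(⌈T⌉ : ℝ)) ≤ z.2 := by linarith
      exact_mod_cast this
    · have : (z.2 : ℝ) ≤ ⌈T⌉ := by linarith
      exact_mod_cast this

/-- the congruence condition -/
def Pc (e A B : ℕ) (z : ℤ × ℤ) : Prop := (e : ℤ) ∣ (A : ℤ) - B * (z.1 ^ 2 + z.2 ^ 2)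

instance (e A B : ℕ) : DecidablePred (Pc e A B) := fun z ↦ by unfold Pc; infer_instance

theorem norm_shift (B w K x y u v : ℝ) (hB : 0 ≤ B) (hw : 0 ≤ w) (hK : 0 ≤ K)
    (hu : u ^ 2 + v ^ 2 ≤ (2 * K) ^ 2) :
    B * ((x + w * u) ^ 2 + (y + w * v) ^ 2) ≤
      (Real.sqrt (B * (x ^ 2 + y ^ 2)) + 2 * Real.sqrt B * w * K) ^ 2 := by
  set r := Real.sqrt (x ^ 2 + y ^ 2) with hr
  have hr2 : r ^ 2 = x ^ 2 + y ^ 2 := Real.sq_sqrt (by positivity)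
  have hr0 : 0 ≤ r := Real.sqrt_nonneg _
  set s := Real.sqrt B with hs
  have hs2 : s ^ 2 = B := Real.sq_sqrt hB
  have hs0 : 0 ≤ s := Real.sqrt_nonneg _
  have h1 : Real.sqrt (B * (x ^ 2 + y ^ 2)) = s * r := by
    rw [Real.sqrt_mul hB]
  rw [h1]
  have h2 : x * u + y * v ≤ r * (2 * K) := by
    apply le_of_sq_le_sq _ (by positivity)
    have h6 : (x * u + y * v) ^ 2 ≤ (x ^ 2 + y ^ 2) * (u ^ 2 + v ^ 2) := by
      nlinarith [sq_nonneg (x * v - y * u)]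
    refine le_trans h6 ?_
    rw [mul_pow, hr2]
    exact mul_le_mul_of_nonneg_left hu (by positivity)
  have h3 : B * ((x + w * u) ^ 2 + (y + w * v) ^ 2) =
      s ^ 2 * r ^ 2 + 2 * (s ^ 2 * w) * (x * u + y * v) + s ^ 2 * w ^ 2 * (u ^ 2 + v ^ 2) := by
    rw [hs2, hr2]; ring
  rw [h3]
  have h4 : 2 * (s ^ 2 * w) * (x * u + y * v) ≤ 2 * (s ^ 2 * w) * (r * (2 * K)) :=
    mul_le_mul_of_nonneg_left h2 (by positivity)
  have h5 : s ^ 2 * w ^ 2 * (u ^ 2 + v ^ 2) ≤ s ^ 2 * w ^ 2 * (2 * K) ^ 2 :=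
    mul_le_mul_of_nonneg_left hu (by positivity)
  nlinarith

theorem range_sq_le {K : ℕ} {u : ℕ × ℕ} (hu : u ∈ range K ×ˢ range K) :
    ((u.1 : ℝ)) ^ 2 + ((u.2 : ℝ)) ^ 2 ≤ (2 * (K : ℝ)) ^ 2 := by
  rw [mem_product, mem_range, mem_range] at hu
  have h1 : (u.1 : ℝ) ≤ K := by exact_mod_cast hu.1.le
  have h2 : (u.2 : ℝ) ≤ K := by exact_mod_cast hu.2.le
  have h3 : (0 : ℝ) ≤ u.1 := by positivity
  have h4 : (0 : ℝ) ≤ u.2 := by positivity
  nlinarith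

/-- enlarged radius -/
noncomputable def Tp (B w K : ℕ) (T : ℝ) : ℝ := (Real.sqrt T + 2 * Real.sqrt B * w * K) ^ 2

/-- reduced radius -/
noncomputable def Tm (B w K : ℕ) (T : ℝ) : ℝ :=
  if 2 * Real.sqrt B * w * K ≤ Real.sqrt T then (Real.sqrt T - 2 * Real.sqrt B * w * K) ^ 2 else 0

theorem count_upper (e A B w K : ℕ) (hB : 1 ≤ B) (x0 y0 : ℤ) (T : ℝ) :
    K ^ 2 * ((Dset B w x0 y0 T).filter (Pc e A B)).card ≤
      ∑ z ∈ Dset B w x0 y0 (Tp B w K T), boxc e K A B w z.1 z.2 := by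
  have hB' : (1 : ℝ) ≤ B := by exact_mod_cast hB
  have h1 : K ^ 2 * ((Dset B w x0 y0 T).filter (Pc e A B)).card =
      (((Dset B w x0 y0 T).filter (Pc e A B)) ×ˢ (range K ×ˢ range K)).card := by
    rw [card_product, card_product, card_range]; ring
  have h2 : ∑ z ∈ Dset B w x0 y0 (Tp B w K T), boxc e K A B w z.1 z.2 =
      ((Dset B w x0 y0 (Tp B w K T)).sigma (fun z ↦ (range K ×ˢ range K).filter (fun u ↦ (e : ℤ) ∣
    (A : ℤ) - B * ((z.1 - w * (u.1 : ℤ)) ^ 2 + (z.2 - w * (u.2 : ℤ)) ^ 2)))).card := by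
    rw [card_sigma]; rfl
  rw [h1, h2]
  apply card_le_card_of_injOn (fun p ↦ ⟨(p.1.1 + w * (p.2.1 : ℤ), p.1.2 + w * (p.2.2 : ℤ)), p.2⟩)
  · rintro ⟨z, u⟩ hp
    rw [mem_coe, mem_product, mem_filter] at hp
    obtain ⟨⟨hz, hP⟩, hu⟩ := hp
    rw [mem_coe, mem_sigma]
    rw [mem_Dset hB] at hz ⊢
    simp only
    refine ⟨⟨?_, ?_, ?_⟩, ?_⟩
    · have := hz.1
      have h3 : z.1 + (w : ℤ) * (u.1 : ℤ) - x0 = (z.1 - x0) + (w : ℤ) * u.1 := by ring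
      rw [h3]; exact dvd_add this (dvd_mul_right _ _)
    · have := hz.2.1
      have h3 : z.2 + (w : ℤ) * (u.2 : ℤ) - y0 = (z.2 - y0) + (w : ℤ) * u.2 := by ring
      rw [h3]; exact dvd_add this (dvd_mul_right _ _)
    · have h3 := norm_shift (B : ℝ) (w : ℝ) (K : ℝ) (z.1 : ℝ) (z.2 : ℝ) (u.1 : ℝ) (u.2 : ℝ)
        (by positivity) (by positivity) (by positivity) (range_sq_le hu)
      push_cast
      refine lt_of_le_of_lt h3 ?_
      unfold Tp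
      have h4 : Real.sqrt (B * ((z.1 : ℝ) ^ 2 + (z.2 : ℝ) ^ 2)) < Real.sqrt T :=
        Real.sqrt_lt_sqrt (by positivity) hz.2.2
      have h5 : 0 ≤ Real.sqrt (B * ((z.1 : ℝ) ^ 2 + (z.2 : ℝ) ^ 2)) := Real.sqrt_nonneg _
      have h6 : 0 ≤ 2 * Real.sqrt B * w * K := by positivity
      apply pow_lt_pow_left₀ _ (by positivity) (by norm_num)
      linarith
    · rw [mem_filter]
      refine ⟨hu, ?_⟩
      unfold Pc at hP
      have h3 : z.1 + (w : ℤ) * (u.1 : ℤ) - w * (u.1 : ℤ) = z.1 := by ring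
      have h4 : z.2 + (w : ℤ) * (u.2 : ℤ) - w * (u.2 : ℤ) = z.2 := by ring
      rw [h3, h4]
      exact hP
  · rintro ⟨z, u⟩ _ ⟨z', u'⟩ _ h
    simp only [Sigma.mk.injEq, Prod.mk.injEq, heq_eq_eq] at h
    obtain ⟨⟨h3, h4⟩, h5⟩ := h
    subst h5
    ext
    · simp only; linarith
    · simp only; linarith
    · rfl
    · rfl

theorem count_lower (e A B w K : ℕ) (hB : 1 ≤ B) (x0 y0 : ℤ) (T : ℝ) :
    ∑ z ∈ Dset B w x0 y0 (Tm B w K T), boxc e K A B w z.1 z.2 ≤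
      K ^ 2 * ((Dset B w x0 y0 T).filter (Pc e A B)).card := by
  have hB' : (1 : ℝ) ≤ B := by exact_mod_cast hB
  have h1 : K ^ 2 * ((Dset B w x0 y0 T).filter (Pc e A B)).card =
      (((Dset B w x0 y0 T).filter (Pc e A B)) ×ˢ (range K ×ˢ range K)).card := by
    rw [card_product, card_product, card_range]; ring
  have h2 : ∑ z ∈ Dset B w x0 y0 (Tm B w K T), boxc e K A B w z.1 z.2 =
      ((Dset B w x0 y0 (Tm B w K T)).sigma (fun z ↦ (range K ×ˢ range K).filter (fun u ↦ (e : ℤ) ∣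
    (A : ℤ) - B * ((z.1 - w * (u.1 : ℤ)) ^ 2 + (z.2 - w * (u.2 : ℤ)) ^ 2)))).card := by
    rw [card_sigma]; rfl
  rw [h1, h2]
  apply card_le_card_of_injOn (fun p ↦ ((p.1.1 - w * (p.2.1 : ℤ), p.1.2 - w * (p.2.2 : ℤ)), p.2))
  · rintro ⟨z, u⟩ hp
    rw [mem_coe, mem_sigma] at hp
    obtain ⟨hz, hu⟩ := hp
    rw [mem_filter] at hu
    simp only at hz hu
    rw [mem_coe, mem_product, mem_filter]
    rw [mem_Dset hB] at hz ⊢
    simp only
    refine ⟨⟨⟨?_, ?_, ?_⟩, ?_⟩, hu.1⟩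
    · have := hz.1
      have h3 : z.1 - (w : ℤ) * (u.1 : ℤ) - x0 = (z.1 - x0) - (w : ℤ) * u.1 := by ring
      rw [h3]; exact dvd_sub this (dvd_mul_right _ _)
    · have := hz.2.1
      have h3 : z.2 - (w : ℤ) * (u.2 : ℤ) - y0 = (z.2 - y0) - (w : ℤ) * u.2 := by ring
      rw [h3]; exact dvd_sub this (dvd_mul_right _ _)
    · have h3 := norm_shift (B : ℝ) (w : ℝ) (K : ℝ) (z.1 : ℝ) (z.2 : ℝ) (-(u.1 : ℝ)) (-(u.2 : ℝ))
        (by positivity) (by positivity) (by positivity) (by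
          have := range_sq_le hu.1
          simpa using this)
      push_cast
      have h3' : (B : ℝ) * (((z.1 : ℝ) - w * u.1) ^ 2 + ((z.2 : ℝ) - w * u.2) ^ 2) ≤
          (Real.sqrt (B * ((z.1 : ℝ) ^ 2 + (z.2 : ℝ) ^ 2)) + 2 * Real.sqrt B * w * K) ^ 2 := by
        calc (B : ℝ) * (((z.1 : ℝ) - w * u.1) ^ 2 + ((z.2 : ℝ) - w * u.2) ^ 2) =
            (B : ℝ) * (((z.1 : ℝ) + w * -(u.1 : ℝ)) ^ 2 + ((z.2 : ℝ) + w * -(u.2 : ℝ)) ^ 2) := by
              ring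
          _ ≤ _ := h3
      refine lt_of_le_of_lt h3' ?_
      have hz3 := hz.2.2
      unfold Tm at hz3
      split_ifs at hz3 with hif
      · have h4 : Real.sqrt (B * ((z.1 : ℝ) ^ 2 + (z.2 : ℝ) ^ 2)) <
            Real.sqrt T - 2 * Real.sqrt B * w * K := by
          rw [← Real.sqrt_sq (by linarith : (0 : ℝ) ≤ Real.sqrt T - 2 * Real.sqrt B * w * K)]
          exact Real.sqrt_lt_sqrt (by positivity) hz3
        have h5 : 0 ≤ Real.sqrt (B * ((z.1 : ℝ) ^ 2 + (z.2 : ℝ) ^ 2)) := Real.sqrt_nonneg _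
        have h6 : 0 ≤ 2 * Real.sqrt B * w * K := by positivity
        have hT0 : 0 < T := by
          by_contra hcon
          push Not at hcon
          rw [Real.sqrt_eq_zero_of_nonpos hcon] at h4
          linarith
        calc (Real.sqrt (B * ((z.1 : ℝ) ^ 2 + (z.2 : ℝ) ^ 2)) + 2 * Real.sqrt B * w * K) ^ 2
            < (Real.sqrt T) ^ 2 := by
              apply pow_lt_pow_left₀ _ (by positivity) (by norm_num)
              linarith
          _ = T := Real.sq_sqrt hT0.le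
      · exfalso
        have : (0 : ℝ) ≤ (B : ℝ) * ((z.1 : ℝ) ^ 2 + (z.2 : ℝ) ^ 2) := by positivity
        linarith
    · unfold Pc
      exact hu.2
  · rintro ⟨z, u⟩ _ ⟨z', u'⟩ _ h
    simp only [Prod.mk.injEq] at h
    obtain ⟨⟨h3, h4⟩, h5⟩ := h
    subst h5
    have e1 : z.1 = z'.1 := by linarith
    have e2 : z.2 = z'.2 := by linarith
    have e3 : z = z' := Prod.ext e1 e2
    subst e3
    rfl

theorem Dset_mono {B w : ℕ} (hB : 1 ≤ B) {x0 y0 : ℤ} {T T' : ℝ} (h : T ≤ T') :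
    Dset B w x0 y0 T ⊆ Dset B w x0 y0 T' := by
  intro z hz
  rw [mem_Dset hB] at hz ⊢
  exact ⟨hz.1, hz.2.1, lt_of_lt_of_le hz.2.2 h⟩

theorem le_Tp {B w K : ℕ} {T : ℝ} (hT : 0 ≤ T) : T ≤ Tp B w K T := by
  unfold Tp
  have h1 : 0 ≤ 2 * Real.sqrt B * w * K := by positivity
  have h2 : 0 ≤ Real.sqrt T := Real.sqrt_nonneg _
  calc T = (Real.sqrt T) ^ 2 := (Real.sq_sqrt hT).symm
    _ ≤ _ := pow_le_pow_left₀ h2 (by linarith) 2

theorem Tm_le {B w K : ℕ} {T : ℝ} (hT : 0 ≤ T) : Tm B w K T ≤ T := by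
  unfold Tm
  split_ifs with h
  · have h1 : 0 ≤ 2 * Real.sqrt B * w * K := by positivity
    calc _ ≤ (Real.sqrt T) ^ 2 := pow_le_pow_left₀ (by linarith) (by linarith) 2
      _ = T := Real.sq_sqrt hT
  · exact hT

/-- counting points of a disc in a congruence -/
theorem disc_bound (e : ℕ) (he0 : 0 < e) (he : Odd e) (K A B w : ℕ) (hK : 0 < K) (hB1 : 1 ≤ B)
    (hB : Nat.Coprime B e) (hw : Nat.Coprime w e) (x0 y0 : ℤ) (T : ℝ) (hT : 0 ≤ T) :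
    |(((Dset B w x0 y0 T).filter (Pc e A B)).card : ℝ) - kap A e * (Dset B w x0 y0 T).card| ≤
      |kap A e| * (((Dset B w x0 y0 (Tp B w K T)).card : ℝ) -
        ((Dset B w x0 y0 (Tm B w K T)).card : ℝ)) +
      Del A K e / (K : ℝ) ^ 2 * (Dset B w x0 y0 (Tp B w K T)).card := by
  have hK' : (0 : ℝ) < K := by exact_mod_cast hK
  have hup : (K : ℝ) ^ 2 * (((Dset B w x0 y0 T).filter (Pc e A B)).card : ℝ) ≤
      ∑ z ∈ Dset B w x0 y0 (Tp B w K T), (boxc e K A B w z.1 z.2 : ℝ) := by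
    exact_mod_cast count_upper e A B w K hB1 x0 y0 T
  have hlo : ∑ z ∈ Dset B w x0 y0 (Tm B w K T), (boxc e K A B w z.1 z.2 : ℝ) ≤
      (K : ℝ) ^ 2 * (((Dset B w x0 y0 T).filter (Pc e A B)).card : ℝ) := by
    exact_mod_cast count_lower e A B w K hB1 x0 y0 T
  have hbox : ∀ z : ℤ × ℤ, |(boxc e K A B w z.1 z.2 : ℝ) - kap A e * (K : ℝ) ^ 2| ≤ Del A K e :=
    fun z ↦ box_bound e he0 he K A B w z.1 z.2 hB hw
  set Np : ℝ := ((Dset B w x0 y0 (Tp B w K T)).card : ℝ) with hNp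
  set Nm : ℝ := ((Dset B w x0 y0 (Tm B w K T)).card : ℝ) with hNm
  set N0 : ℝ := ((Dset B w x0 y0 T).card : ℝ) with hN0
  have hmono1 : N0 ≤ Np := by
    rw [hN0, hNp]; exact_mod_cast card_le_card (Dset_mono hB1 (le_Tp hT))
  have hmono2 : Nm ≤ N0 := by
    rw [hN0, hNm]; exact_mod_cast card_le_card (Dset_mono hB1 (Tm_le hT))
  have hNm0 : 0 ≤ Nm := by rw [hNm]; positivity
  have h1 : ∑ z ∈ Dset B w x0 y0 (Tp B w K T), (boxc e K A B w z.1 z.2 : ℝ) ≤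
      Np * (kap A e * (K : ℝ) ^ 2 + Del A K e) := by
    rw [hNp, ← nsmul_eq_mul]
    apply sum_le_card_nsmul
    intro z _
    have := (abs_le.mp (hbox z)).2
    linarith
  have h2 : Nm * (kap A e * (K : ℝ) ^ 2 - Del A K e) ≤
      ∑ z ∈ Dset B w x0 y0 (Tm B w K T), (boxc e K A B w z.1 z.2 : ℝ) := by
    rw [hNm, ← nsmul_eq_mul]
    apply card_nsmul_le_sum
    intro z _
    have := (abs_le.mp (hbox z)).1
    linarith
  set P : ℝ := (((Dset B w x0 y0 T).filter (Pc e A B)).card : ℝ) with hP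
  have hDel : 0 ≤ Del A K e := le_trans (abs_nonneg _) (hbox (0, 0))
  have hk1 := le_abs_self (kap A e)
  have hk2 := neg_abs_le (kap A e)
  have hk0 := abs_nonneg (kap A e)
  have hK2 : (0 : ℝ) < (K : ℝ) ^ 2 := by positivity
  have h3 : P ≤ Np * (kap A e + Del A K e / (K : ℝ) ^ 2) := by
    have h4 : (K : ℝ) ^ 2 * P ≤ (K : ℝ) ^ 2 * (Np * (kap A e + Del A K e / (K : ℝ) ^ 2)) := by
      calc (K : ℝ) ^ 2 * P ≤ Np * (kap A e * (K : ℝ) ^ 2 + Del A K e) := le_trans hup h1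
        _ = _ := by field_simp
    exact le_of_mul_le_mul_left h4 hK2
  have h5 : Nm * (kap A e - Del A K e / (K : ℝ) ^ 2) ≤ P := by
    have h4 : (K : ℝ) ^ 2 * (Nm * (kap A e - Del A K e / (K : ℝ) ^ 2)) ≤ (K : ℝ) ^ 2 * P := by
      calc _ = Nm * (kap A e * (K : ℝ) ^ 2 - Del A K e) := by field_simp
        _ ≤ _ := le_trans h2 hlo
    exact le_of_mul_le_mul_left h4 hK2
  have hD2 : 0 ≤ Del A K e / (K : ℝ) ^ 2 := by positivity
  rw [abs_le]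
  constructor
  · have h6 : kap A e * (N0 - Nm) ≤ |kap A e| * (Np - Nm) := by
      calc kap A e * (N0 - Nm) ≤ |kap A e| * (N0 - Nm) :=
            mul_le_mul_of_nonneg_right hk1 (by linarith)
        _ ≤ |kap A e| * (Np - Nm) := mul_le_mul_of_nonneg_left (by linarith) hk0
    have h7 : Nm * (Del A K e / (K : ℝ) ^ 2) ≤ Np * (Del A K e / (K : ℝ) ^ 2) :=
      mul_le_mul_of_nonneg_right (by linarith) hD2
    nlinarith
  · have h6 : kap A e * (Np - N0) ≤ |kap A e| * (Np - Nm) := by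
      calc kap A e * (Np - N0) ≤ |kap A e| * (Np - N0) :=
            mul_le_mul_of_nonneg_right hk1 (by linarith)
        _ ≤ |kap A e| * (Np - Nm) := mul_le_mul_of_nonneg_left (by linarith) hk0
    nlinarith

end Pool.Agent.Lib.MP_0e0027_nt

namespace Pool.Agent.Lib.MP_0e0027_nt

theorem card_Icc_symm (s : ℝ) (hs : 0 ≤ s) :
    ((Icc (-⌊s⌋) ⌊s⌋).card : ℝ) ≤ 2 * s + 1 := by
  have h0 : 0 ≤ ⌊s⌋ := Int.floor_nonneg.mpr hs
  rw [Int.card_Icc]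
  have h1 : ((⌊s⌋ + 1 - -⌊s⌋).toNat : ℤ) = 2 * ⌊s⌋ + 1 := by
    rw [Int.toNat_of_nonneg (by omega)]; ring
  have h2 : (((⌊s⌋ + 1 - -⌊s⌋).toNat : ℕ) : ℝ) = 2 * (⌊s⌋ : ℝ) + 1 := by
    exact_mod_cast h1
  rw [h2]
  have := Int.floor_le s
  linarith

theorem mem_Icc_of_sq_lt {x : ℤ} {s : ℝ} (hs : 0 ≤ s) (h : (x : ℝ) ^ 2 ≤ s ^ 2) :
    x ∈ Icc (-⌊s⌋) ⌊s⌋ := by
  have h1 : |(x : ℝ)| ≤ s := abs_le_of_sq_le_sq h hs
  rw [abs_le] at h1
  rw [mem_Icc]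
  constructor
  · have : -x ≤ ⌊s⌋ := by
      rw [Int.le_floor]; push_cast; linarith
    linarith
  · rw [Int.le_floor]; exact h1.2

/-- number of integers in a short interval -/
theorem card_Icc_ceil (s t : ℝ) (hst : s ≤ t) : ((Icc ⌈s⌉ ⌊t⌋).card : ℝ) ≤ t - s + 1 := by
  rw [Int.card_Icc]
  have h1 := Int.floor_le t
  have h2 := Int.le_ceil s
  by_cases h : 0 ≤ ⌊t⌋ + 1 - ⌈s⌉
  · have h3 : (((⌊t⌋ + 1 - ⌈s⌉).toNat : ℕ) : ℝ) = (⌊t⌋ : ℝ) + 1 - ⌈s⌉ := by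
      have : ((⌊t⌋ + 1 - ⌈s⌉).toNat : ℤ) = ⌊t⌋ + 1 - ⌈s⌉ := Int.toNat_of_nonneg h
      exact_mod_cast this
    rw [h3]; linarith
  · rw [Int.toNat_of_nonpos (by linarith)]
    push_cast
    linarith

/-- integers whose square lies in a given interval -/
theorem exists_cover_sq (α β : ℝ) (hαβ : α ≤ β) : ∃ S : Finset ℤ,
    (∀ y : ℤ, α ≤ (y : ℝ) ^ 2 → (y : ℝ) ^ 2 < β → y ∈ S) ∧
    (S.card : ℝ) ≤ 2 * (Real.sqrt (β - α) + 1) := by
  set s := Real.sqrt α with hs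
  set t := Real.sqrt β with ht
  have hst : s ≤ t := Real.sqrt_le_sqrt hαβ
  have hs0 : 0 ≤ s := Real.sqrt_nonneg _
  have ht0 : 0 ≤ t := Real.sqrt_nonneg _
  have hdiff : t - s ≤ Real.sqrt (β - α) := by
    apply Real.le_sqrt_of_sq_le
    by_cases hα : 0 ≤ α
    · have h1 : s ^ 2 = α := Real.sq_sqrt hα
      have h2 : t ^ 2 = β := Real.sq_sqrt (by linarith)
      nlinarith
    · have h1 : s = 0 := Real.sqrt_eq_zero_of_nonpos (by linarith)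
      rw [h1, sub_zero]
      by_cases hβ : 0 ≤ β
      · have h2 : t ^ 2 = β := Real.sq_sqrt hβ
        linarith
      · have h2 : t = 0 := Real.sqrt_eq_zero_of_nonpos (by linarith)
        rw [h2]; nlinarith
  refine ⟨Icc ⌈s⌉ ⌊t⌋ ∪ Icc (⌈-t⌉) (⌊-s⌋), ?_, ?_⟩
  · intro y h1 h2
    have hy1 : s ≤ |(y : ℝ)| := by
      rw [← Real.sqrt_sq_eq_abs]; exact Real.sqrt_le_sqrt h1
    have hy2 : |(y : ℝ)| ≤ t := by
      rw [← Real.sqrt_sq_eq_abs]; exact Real.sqrt_le_sqrt h2.le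
    rw [mem_union, mem_Icc, mem_Icc]
    rcases le_total 0 (y : ℝ) with h | h
    · left
      rw [abs_of_nonneg h] at hy1 hy2
      exact ⟨Int.ceil_le.mpr hy1, Int.le_floor.mpr hy2⟩
    · right
      rw [abs_of_nonpos h] at hy1 hy2
      exact ⟨Int.ceil_le.mpr (by linarith), Int.le_floor.mpr (by linarith)⟩
  · have h1 : ((Icc ⌈s⌉ ⌊t⌋ ∪ Icc (⌈-t⌉) (⌊-s⌋)).card : ℝ) ≤
        ((Icc ⌈s⌉ ⌊t⌋).card : ℝ) + ((Icc (⌈-t⌉) (⌊-s⌋)).card : ℝ) := by
      exact_mod_cast card_union_le _ _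
    have h2 := card_Icc_ceil s t hst
    have h3 := card_Icc_ceil (-t) (-s) (by linarith)
    linarith

theorem card_Dset_le {B w : ℕ} (hB : 1 ≤ B) (x0 y0 : ℤ) (T : ℝ) (hT : 0 ≤ T) :
    ((Dset B w x0 y0 T).card : ℝ) ≤ (2 * Real.sqrt (T / B) + 1) ^ 2 := by
  have hB' : (0 : ℝ) < B := by exact_mod_cast hB
  set s := Real.sqrt (T / B) with hs
  have hs0 : 0 ≤ s := Real.sqrt_nonneg _
  have hs2 : s ^ 2 = T / B := Real.sq_sqrt (by positivity)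
  have h1 : Dset B w x0 y0 T ⊆ (Icc (-⌊s⌋) ⌊s⌋) ×ˢ (Icc (-⌊s⌋) ⌊s⌋) := by
    intro z hz
    rw [mem_Dset hB] at hz
    have h2 : (z.1 : ℝ) ^ 2 + (z.2 : ℝ) ^ 2 < s ^ 2 := by
      rw [hs2, lt_div_iff₀ hB']; linarith [hz.2.2]
    rw [mem_product]
    exact ⟨mem_Icc_of_sq_lt hs0 (by nlinarith [sq_nonneg (z.2 : ℝ)]),
      mem_Icc_of_sq_lt hs0 (by nlinarith [sq_nonneg (z.1 : ℝ)])⟩
  have h2 := card_le_card h1
  rw [card_product] at h2
  have h3 := card_Icc_symm s hs0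
  have h4 : ((Dset B w x0 y0 T).card : ℝ) ≤
      ((Icc (-⌊s⌋) ⌊s⌋).card : ℝ) * ((Icc (-⌊s⌋) ⌊s⌋).card : ℝ) := by exact_mod_cast h2
  refine le_trans h4 ?_
  rw [sq]
  exact mul_le_mul h3 h3 (by positivity) (by linarith)

theorem card_annulus_le {B w : ℕ} (hB : 1 ≤ B) (x0 y0 : ℤ) (T1 T2 : ℝ) (h1 : 0 ≤ T1)
    (h2 : T1 ≤ T2) :
    ((Dset B w x0 y0 T2).card : ℝ) - ((Dset B w x0 y0 T1).card : ℝ) ≤
      (2 * Real.sqrt (T2 / B) + 1) * (2 * (Real.sqrt ((T2 - T1) / B) + 1)) := by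
  have hB' : (0 : ℝ) < B := by exact_mod_cast hB
  set s := Real.sqrt (T2 / B) with hs
  have hs0 : 0 ≤ s := Real.sqrt_nonneg _
  have hs2 : s ^ 2 = T2 / B := Real.sq_sqrt (by have : 0 ≤ T2 := by linarith
                                                positivity)
  have hsub := Dset_mono (w := w) (x0 := x0) (y0 := y0) hB h2
  have h3 : ((Dset B w x0 y0 T2).card : ℝ) - ((Dset B w x0 y0 T1).card : ℝ) =
      ((Dset B w x0 y0 T2 \ Dset B w x0 y0 T1).card : ℝ) := by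
    rw [card_sdiff_of_subset hsub, Nat.cast_sub (card_le_card hsub)]
  rw [h3]
  have hcov : ∀ x : ℤ, ∃ S : Finset ℤ,
    (∀ y : ℤ, T1 / B - (x : ℝ) ^ 2 ≤ (y : ℝ) ^ 2 → (y : ℝ) ^ 2 < T2 / B - (x : ℝ) ^ 2 → y ∈ S) ∧
    (S.card : ℝ) ≤ 2 * (Real.sqrt ((T2 - T1) / B) + 1) := by
    intro x
    obtain ⟨S, hS1, hS2⟩ := exists_cover_sq (T1 / B - (x : ℝ) ^ 2) (T2 / B - (x : ℝ) ^ 2)
      (by have := div_le_div_of_nonneg_right h2 hB'.le; linarith)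
    refine ⟨S, hS1, ?_⟩
    have h4 : T2 / B - (x : ℝ) ^ 2 - (T1 / B - (x : ℝ) ^ 2) = (T2 - T1) / B := by ring
    rw [h4] at hS2
    exact hS2
  choose S hS1 hS2 using hcov
  have h4 : Dset B w x0 y0 T2 \ Dset B w x0 y0 T1 ⊆
      (Icc (-⌊s⌋) ⌊s⌋).biUnion (fun x ↦ (S x).image (fun y ↦ (x, y))) := by
    intro z hz
    rw [mem_sdiff, mem_Dset hB, mem_Dset hB] at hz
    obtain ⟨hz1, hz2⟩ := hz
    have h5 : ¬ ((B : ℝ) * ((z.1 : ℝ) ^ 2 + (z.2 : ℝ) ^ 2) < T1) :=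
      fun h ↦ hz2 ⟨hz1.1, hz1.2.1, h⟩
    push Not at h5
    have h6 : (z.1 : ℝ) ^ 2 + (z.2 : ℝ) ^ 2 < T2 / B := by
      rw [lt_div_iff₀ hB']; linarith [hz1.2.2]
    have h7 : T1 / B ≤ (z.1 : ℝ) ^ 2 + (z.2 : ℝ) ^ 2 := by
      rw [div_le_iff₀ hB']; linarith
    rw [mem_biUnion]
    refine ⟨z.1, mem_Icc_of_sq_lt hs0 (by rw [hs2]; nlinarith [sq_nonneg (z.2 : ℝ)]), ?_⟩
    rw [mem_image]
    exact ⟨z.2, hS1 z.1 z.2 (by linarith) (by linarith), rfl⟩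
  have h5 := le_trans (card_le_card h4) card_biUnion_le
  have h6 : ((Dset B w x0 y0 T2 \ Dset B w x0 y0 T1).card : ℝ) ≤
      ∑ x ∈ Icc (-⌊s⌋) ⌊s⌋, (((S x).image (fun y ↦ (x, y))).card : ℝ) := by exact_mod_cast h5
  refine le_trans h6 ?_
  have h7 : ∑ x ∈ Icc (-⌊s⌋) ⌊s⌋, (((S x).image (fun y ↦ (x, y))).card : ℝ) ≤
      ((Icc (-⌊s⌋) ⌊s⌋).card : ℝ) * (2 * (Real.sqrt ((T2 - T1) / B) + 1)) := by
    rw [← nsmul_eq_mul]
    apply sum_le_card_nsmul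
    intro x _
    have : (((S x).image (fun y ↦ (x, y))).card : ℝ) ≤ ((S x).card : ℝ) := by
      exact_mod_cast card_image_le
    exact le_trans this (hS2 x)
  refine le_trans h7 ?_
  exact mul_le_mul_of_nonneg_right (card_Icc_symm s hs0) (by positivity)

end Pool.Agent.Lib.MP_0e0027_nt

namespace Pool.Agent.Lib.MP_0e0027_nt

/-- hypotheses on the residue class -/
structure Hyp (A B w ν : ℕ) (x0 y0 : ℤ) : Prop where
  hB : 1 ≤ B
  hw : 1 ≤ w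
  cop : Nat.Coprime A B
  nu : ν ≤ 1
  cls : ∀ z : ℤ × ℤ, (w : ℤ) ∣ z.1 - x0 → (w : ℤ) ∣ z.2 - y0 → ∀ l : ℕ, 0 < l →
    (A : ℤ) - B * (z.1 ^ 2 + z.2 ^ 2) = l → ∃ l' : ℕ, l = 2 ^ ν * l' ∧ l' % 4 = 1 ∧ Nat.Coprime l' w

/-- `A - B |z|^2` as a natural number -/
def lz (A B : ℕ) (z : ℤ × ℤ) : ℕ := ((A : ℤ) - B * (z.1 ^ 2 + z.2 ^ 2)).toNat

/-- the weighted count of representations -/
noncomputable def Nrep (A B w : ℕ) (x0 y0 : ℤ) : ℕ :=
  ∑ z ∈ Dset B w x0 y0 A, (r2set (lz A B z)).card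

/-- moduli -/
noncomputable def Eset (A B w ν : ℕ) : Finset ℕ :=
  (range (A + 1)).filter (fun e ↦ Odd e ∧ Nat.Coprime e w ∧ Nat.Coprime e B ∧ 2 ^ ν * e ^ 2 ≤ A)

/-- the odd part of `lz` is a square -/
def sqP (A B ν : ℕ) (z : ℤ × ℤ) : Prop := ∃ r : ℕ, lz A B z = 2 ^ ν * r ^ 2

noncomputable instance (A B ν : ℕ) : DecidablePred (sqP A B ν) := Classical.decPred _

theorem lz_cast {A B w : ℕ} (hB : 1 ≤ B) {x0 y0 : ℤ} {z : ℤ × ℤ} (hz : z ∈ Dset B w x0 y0 A) :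
    (A : ℤ) - B * (z.1 ^ 2 + z.2 ^ 2) = (lz A B z : ℤ) ∧ 0 < lz A B z := by
  rw [mem_Dset hB] at hz
  have h1 : (B : ℤ) * (z.1 ^ 2 + z.2 ^ 2) < A := by
    have := hz.2.2
    exact_mod_cast this
  have h2 : 0 < (A : ℤ) - B * (z.1 ^ 2 + z.2 ^ 2) := by linarith
  unfold lz
  have h3 := Int.toNat_of_nonneg h2.le
  refine ⟨h3.symm, ?_⟩
  omega

theorem S1 {A B w ν : ℕ} {x0 y0 : ℤ} (H : Hyp A B w ν x0 y0) :
    |(Nrep A B w x0 y0 : ℝ) - 8 * ∑ e ∈ Eset A B w ν, (c4 e : ℝ) *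
      ((Dset B w x0 y0 ((A : ℝ) - 2 ^ ν * (e : ℝ) ^ 2)).filter (Pc e A B)).card| ≤
    4 * ((Dset B w x0 y0 A).filter (sqP A B ν)).card := by
  have hB := H.hB
  set D := Dset B w x0 y0 (A : ℝ) with hD
  -- choose the odd part
  have hch : ∀ z : ℤ × ℤ, ∃ l' : ℕ, z ∈ D → (lz A B z = 2 ^ ν * l' ∧ l' % 4 = 1 ∧
      Nat.Coprime l' w) := by
    intro z
    by_cases hz : z ∈ D
    · obtain ⟨h1, h2⟩ := lz_cast hB hz
      rw [hD, mem_Dset hB] at hz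
      obtain ⟨l', hl'⟩ := H.cls z hz.1 hz.2.1 (lz A B z) h2 h1
      exact ⟨l', fun _ ↦ hl'⟩
    · exact ⟨0, fun h ↦ absurd h hz⟩
  choose L hL using hch
  have hR : ∀ z ∈ D, R2 (lz A B z) = R2 (L z) := by
    intro z hz
    obtain ⟨h1, h2, _⟩ := hL z hz
    rw [h1]
    have hν := H.nu
    interval_cases ν
    · simp
    · rw [pow_one]; exact R2_two_mul (by omega)
  have h1 : (Nrep A B w x0 y0 : ℤ) = ∑ z ∈ D, 4 * R2 (L z) := by
    unfold Nrep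
    push_cast
    refine sum_congr rfl (fun z hz ↦ ?_)
    rw [r2_eq _ (lz_cast hB hz).2, hR z hz]
  have h2 : |(Nrep A B w x0 y0 : ℤ) - 8 * ∑ z ∈ D,
      ∑ e ∈ (L z).divisors.filter (fun e ↦ e * e < L z), c4 e| ≤
      4 * (D.filter (sqP A B ν)).card := by
    have h3 : (Nrep A B w x0 y0 : ℤ) - 8 * ∑ z ∈ D,
      ∑ e ∈ (L z).divisors.filter (fun e ↦ e * e < L z), c4 e =
      ∑ z ∈ D, 4 * (R2 (L z) - 2 * ∑ e ∈ (L z).divisors.filter (fun e ↦ e * e < L z), c4 e) := by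
      rw [h1, mul_sum, ← sum_sub_distrib]
      refine sum_congr rfl (fun z _ ↦ ?_)
      ring
    rw [h3]
    refine le_trans (abs_sum_le_sum_abs _ _) ?_
    rw [card_filter]
    push_cast
    rw [mul_sum]
    apply sum_le_sum
    intro z hz
    obtain ⟨h4, h5, _⟩ := hL z hz
    rw [abs_mul]
    have h6 := R2_hyperbola (L z) h5
    have h7 : (|4| : ℤ) = 4 := by norm_num
    rw [h7]
    apply mul_le_mul_of_nonneg_left _ (by norm_num)
    refine le_trans h6 ?_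
    by_cases hsq : IsSquare (L z)
    · rw [if_pos hsq, if_pos]
      obtain ⟨r, hr⟩ := hsq
      exact ⟨r, by rw [h4, hr]; ring⟩
    · rw [if_neg hsq]
      split_ifs <;> norm_num
  -- interchange
  have h3 : ∑ z ∈ D, ∑ e ∈ (L z).divisors.filter (fun e ↦ e * e < L z), c4 e =
      ∑ e ∈ range (A + 1), c4 e *
        ((D.filter (fun z ↦ e ∣ L z ∧ e * e < L z)).card : ℤ) := by
    have h4 : ∀ z ∈ D, ∑ e ∈ (L z).divisors.filter (fun e ↦ e * e < L z), c4 e =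
        ∑ e ∈ range (A + 1), if (e ∣ L z ∧ e * e < L z) then c4 e else 0 := by
      intro z hz
      rw [← sum_filter]
      apply sum_congr _ (fun _ _ ↦ rfl)
      ext e
      rw [mem_filter, mem_filter, Nat.mem_divisors, mem_range]
      obtain ⟨h5, h6, _⟩ := hL z hz
      have hL0 : L z ≠ 0 := by intro h; rw [h] at h6; omega
      constructor
      · rintro ⟨⟨h7, _⟩, h8⟩
        refine ⟨?_, h7, h8⟩
        have h9 := Nat.le_of_dvd (Nat.pos_of_ne_zero hL0) h7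
        have h10 : L z ≤ lz A B z := by
          rw [h5]; exact Nat.le_mul_of_pos_left _ (by positivity)
        have h11 : (lz A B z : ℤ) ≤ A := by
          rw [← (lz_cast hB hz).1]
          have : 0 ≤ (B : ℤ) * (z.1 ^ 2 + z.2 ^ 2) := by positivity
          linarith
        have h12 : lz A B z ≤ A := by exact_mod_cast h11
        omega
      · rintro ⟨_, h7, h8⟩
        exact ⟨⟨h7, hL0⟩, h8⟩
    rw [sum_congr rfl h4, sum_comm]
    refine sum_congr rfl (fun e _ ↦ ?_)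
    rw [card_filter]
    push_cast
    rw [mul_sum]
    refine sum_congr rfl (fun z _ ↦ ?_)
    split_ifs <;> simp
  -- restrict to Eset
  have h4 : ∑ e ∈ range (A + 1), c4 e *
        ((D.filter (fun z ↦ e ∣ L z ∧ e * e < L z)).card : ℤ) =
      ∑ e ∈ Eset A B w ν, c4 e *
      (((Dset B w x0 y0 ((A : ℝ) - 2 ^ ν * (e : ℝ) ^ 2)).filter (Pc e A B)).card : ℤ) := by
    unfold Eset
    rw [sum_filter]
    apply sum_congr rfl
    intro e _
    -- for odd e, the two sets agree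
    have hset : Odd e → Nat.Coprime e w → Nat.Coprime e B → 
        D.filter (fun z ↦ e ∣ L z ∧ e * e < L z) =
        (Dset B w x0 y0 ((A : ℝ) - 2 ^ ν * (e : ℝ) ^ 2)).filter (Pc e A B) := by
      intro hodd _ _
      ext z
      rw [mem_filter, mem_filter]
      constructor
      · rintro ⟨hz, h5, h6⟩
        obtain ⟨h7, h8, _⟩ := hL z hz
        have h9 := (lz_cast hB hz).1
        have hz' := hz
        rw [hD, mem_Dset hB] at hz'
        refine ⟨?_, ?_⟩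
        · rw [mem_Dset hB]
          refine ⟨hz'.1, hz'.2.1, ?_⟩
          have h10 : (2 : ℤ) ^ ν * (e : ℤ) ^ 2 < (A : ℤ) - B * (z.1 ^ 2 + z.2 ^ 2) := by
            rw [h9, h7]
            push_cast
            apply mul_lt_mul_of_pos_left _ (by positivity)
            rw [sq]
            exact_mod_cast h6
          have h11 : (2 : ℝ) ^ ν * (e : ℝ) ^ 2 < (A : ℝ) - B * ((z.1 : ℝ) ^ 2 + (z.2 : ℝ) ^ 2) := by
            exact_mod_cast h10
          linarith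
        · unfold Pc
          rw [h9, h7]
          push_cast
          exact Dvd.dvd.mul_left (by exact_mod_cast h5) _
      · rintro ⟨hz, h5⟩
        rw [mem_Dset hB] at hz
        have hzD : z ∈ D := by
          rw [hD, mem_Dset hB]
          refine ⟨hz.1, hz.2.1, ?_⟩
          have : (0 : ℝ) ≤ 2 ^ ν * (e : ℝ) ^ 2 := by positivity
          linarith [hz.2.2]
        obtain ⟨h7, h8, _⟩ := hL z hzD
        have h9 := (lz_cast hB hzD).1
        refine ⟨hzD, ?_, ?_⟩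
        · unfold Pc at h5
          rw [h9, h7] at h5
          have h10 : e ∣ 2 ^ ν * L z := by exact_mod_cast h5
          have hc : Nat.Coprime e (2 ^ ν) := by
            apply Nat.Coprime.pow_right
            exact (Nat.coprime_two_right.mpr hodd)
          exact hc.dvd_of_dvd_mul_left h10
        · have h10 : (2 : ℝ) ^ ν * (e : ℝ) ^ 2 < (A : ℝ) - B * ((z.1 : ℝ) ^ 2 + (z.2 : ℝ) ^ 2) := by
            linarith [hz.2.2]
          have h11 : (2 : ℤ) ^ ν * (e : ℤ) ^ 2 < (A : ℤ) - B * (z.1 ^ 2 + z.2 ^ 2) := by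
            exact_mod_cast h10
          rw [h9, h7] at h11
          have h12 : 2 ^ ν * e ^ 2 < 2 ^ ν * L z := by exact_mod_cast h11
          have h13 := lt_of_mul_lt_mul_left h12 (Nat.zero_le _)
          rw [← sq]; exact h13
    by_cases hodd : Odd e
    · by_cases hcw : Nat.Coprime e w
      · by_cases hcB : Nat.Coprime e B
        · by_cases hle : 2 ^ ν * e ^ 2 ≤ A
          · rw [if_pos ⟨hodd, hcw, hcB, hle⟩, hset hodd hcw hcB]
          · rw [if_neg (fun h ↦ hle h.2.2.2)]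
            rw [hset hodd hcw hcB]
            have hempty : Dset B w x0 y0 ((A : ℝ) - 2 ^ ν * (e : ℝ) ^ 2) = ∅ := by
              rw [eq_empty_iff_forall_notMem]
              intro z hz
              rw [mem_Dset hB] at hz
              push Not at hle
              have h5 : (A : ℝ) < 2 ^ ν * (e : ℝ) ^ 2 := by exact_mod_cast hle
              have h6 : (0 : ℝ) ≤ (B : ℝ) * ((z.1 : ℝ) ^ 2 + (z.2 : ℝ) ^ 2) := by positivity
              linarith [hz.2.2]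
            rw [hempty]
            simp
        · rw [if_neg (fun h ↦ hcB h.2.2.1)]
          have hempty : D.filter (fun z ↦ e ∣ L z ∧ e * e < L z) = ∅ := by
            rw [eq_empty_iff_forall_notMem]
            intro z hz
            rw [mem_filter] at hz
            obtain ⟨hz, h5, _⟩ := hz
            obtain ⟨h7, _, _⟩ := hL z hz
            have h9 := (lz_cast hB hz).1
            -- a common prime
            obtain ⟨p, hp, hpe, hpB⟩ := Nat.Prime.not_coprime_iff_dvd.mp hcB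
            have h10 : (p : ℤ) ∣ (lz A B z : ℤ) := by
              rw [h7]
              have : p ∣ 2 ^ ν * L z := Dvd.dvd.mul_left (dvd_trans hpe h5) _
              exact_mod_cast this
            have h11 : (p : ℤ) ∣ (B : ℤ) * (z.1 ^ 2 + z.2 ^ 2) :=
              Dvd.dvd.mul_right (by exact_mod_cast hpB) _
            have h12 : (p : ℤ) ∣ A := by
              have : (A : ℤ) = (lz A B z : ℤ) + (B : ℤ) * (z.1 ^ 2 + z.2 ^ 2) := by
                rw [← h9]; ring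
              rw [this]
              exact dvd_add h10 h11
            have h13 : p ∣ A := by exact_mod_cast h12
            have h14 := Nat.dvd_gcd h13 hpB
            rw [H.cop.gcd_eq_one] at h14
            exact hp.one_lt.ne' (Nat.dvd_one.mp h14)
          rw [hempty]; simp
      · rw [if_neg (fun h ↦ hcw h.2.1)]
        have hempty : D.filter (fun z ↦ e ∣ L z ∧ e * e < L z) = ∅ := by
          rw [eq_empty_iff_forall_notMem]
          intro z hz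
          rw [mem_filter] at hz
          obtain ⟨hz, h5, _⟩ := hz
          obtain ⟨_, _, h8⟩ := hL z hz
          exact hcw (Nat.Coprime.coprime_dvd_left h5 h8)
        rw [hempty]; simp
    · rw [if_neg (fun h ↦ hodd h.1)]
      rw [c4_even (by rw [Nat.not_odd_iff_even] at hodd; exact Nat.even_iff.mp hodd)]
      ring
  rw [h3, h4] at h2
  have h5 : ((|(Nrep A B w x0 y0 : ℤ) - 8 * ∑ e ∈ Eset A B w ν, c4 e *
      (((Dset B w x0 y0 ((A : ℝ) - 2 ^ ν * (e : ℝ) ^ 2)).filter (Pc e A B)).card : ℤ)| : ℤ) : ℝ) ≤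
      ((4 * ((D.filter (sqP A B ν)).card : ℤ) : ℤ) : ℝ) := by
    exact_mod_cast h2
  push_cast at h5
  exact h5

end Pool.Agent.Lib.MP_0e0027_nt

namespace Pool.Agent.Lib.MP_0e0027_nt

/-- the main term -/
noncomputable def Smain (A B w ν : ℕ) (x0 y0 : ℤ) : ℝ :=
  ∑ e ∈ Eset A B w ν, (c4 e : ℝ) * (kap A e *
    ((Dset B w x0 y0 ((A : ℝ) - 2 ^ ν * (e : ℝ) ^ 2)).card : ℝ))

theorem mem_Eset {A B w ν e : ℕ} (he : e ∈ Eset A B w ν) :
    0 < e ∧ Odd e ∧ Nat.Coprime e w ∧ Nat.Coprime e B ∧ (2 : ℝ) ^ ν * (e : ℝ) ^ 2 ≤ A ∧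
      (e : ℝ) ^ 2 ≤ A := by
  unfold Eset at he
  rw [mem_filter] at he
  obtain ⟨_, h1, h2, h3, h4⟩ := he
  have h5 : (2 : ℝ) ^ ν * (e : ℝ) ^ 2 ≤ A := by exact_mod_cast h4
  refine ⟨h1.pos, h1, h2, h3, h5, ?_⟩
  have h6 : (1 : ℝ) ≤ 2 ^ ν := one_le_pow₀ (by norm_num)
  nlinarith [sq_nonneg (e : ℝ)]

theorem S2 {A B w ν : ℕ} {x0 y0 : ℤ} (H : Hyp A B w ν x0 y0) (K : ℕ) (hK : 0 < K) :
    |(Nrep A B w x0 y0 : ℝ) - 8 * Smain A B w ν x0 y0| ≤
    4 * ((Dset B w x0 y0 A).filter (sqP A B ν)).card +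
    8 * ∑ e ∈ Eset A B w ν,
      (|kap A e| * (((Dset B w x0 y0 (Tp B w K ((A : ℝ) - 2 ^ ν * (e : ℝ) ^ 2))).card : ℝ) -
        ((Dset B w x0 y0 (Tm B w K ((A : ℝ) - 2 ^ ν * (e : ℝ) ^ 2))).card : ℝ)) +
      Del A K e / (K : ℝ) ^ 2 *
        (Dset B w x0 y0 (Tp B w K ((A : ℝ) - 2 ^ ν * (e : ℝ) ^ 2))).card) := by
  have h1 := S1 H
  have h2 : |8 * ∑ e ∈ Eset A B w ν, (c4 e : ℝ) *
      ((Dset B w x0 y0 ((A : ℝ) - 2 ^ ν * (e : ℝ) ^ 2)).filter (Pc e A B)).card -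
      8 * Smain A B w ν x0 y0| ≤ 8 * ∑ e ∈ Eset A B w ν,
      (|kap A e| * (((Dset B w x0 y0 (Tp B w K ((A : ℝ) - 2 ^ ν * (e : ℝ) ^ 2))).card : ℝ) -
        ((Dset B w x0 y0 (Tm B w K ((A : ℝ) - 2 ^ ν * (e : ℝ) ^ 2))).card : ℝ)) +
      Del A K e / (K : ℝ) ^ 2 *
        (Dset B w x0 y0 (Tp B w K ((A : ℝ) - 2 ^ ν * (e : ℝ) ^ 2))).card) := by
    rw [← mul_sub, abs_mul, abs_of_pos (by norm_num : (0 : ℝ) < 8)]
    apply mul_le_mul_of_nonneg_left _ (by norm_num)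
    unfold Smain
    rw [← sum_sub_distrib]
    refine le_trans (abs_sum_le_sum_abs _ _) (sum_le_sum (fun e he ↦ ?_))
    obtain ⟨he0, hodd, hcw, hcB, hle, _⟩ := mem_Eset he
    rw [← mul_sub, abs_mul]
    have h3 := disc_bound e he0 hodd K A B w hK H.hB hcB.symm hcw.symm x0 y0
      ((A : ℝ) - 2 ^ ν * (e : ℝ) ^ 2) (by linarith)
    have h4 : |(c4 e : ℝ)| ≤ 1 := by exact_mod_cast abs_c4_le e
    calc |(c4 e : ℝ)| * |(((Dset B w x0 y0 ((A : ℝ) - 2 ^ ν * (e : ℝ) ^ 2)).filter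
          (Pc e A B)).card : ℝ) - kap A e * (Dset B w x0 y0 ((A : ℝ) - 2 ^ ν * (e : ℝ) ^ 2)).card|
        ≤ 1 * |(((Dset B w x0 y0 ((A : ℝ) - 2 ^ ν * (e : ℝ) ^ 2)).filter
          (Pc e A B)).card : ℝ) - kap A e * (Dset B w x0 y0 ((A : ℝ) - 2 ^ ν * (e : ℝ) ^ 2)).card| :=
          mul_le_mul_of_nonneg_right h4 (abs_nonneg _)
      _ ≤ _ := by rw [one_mul]; exact h3
  have h3 := abs_sub_le (Nrep A B w x0 y0 : ℝ) (8 * ∑ e ∈ Eset A B w ν, (c4 e : ℝ) *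
      ((Dset B w x0 y0 ((A : ℝ) - 2 ^ ν * (e : ℝ) ^ 2)).filter (Pc e A B)).card)
      (8 * Smain A B w ν x0 y0)
  linarith

theorem chi_abs_le (q : ℕ) : |chi q| ≤ 1 := by
  have h := abs_c4_le q
  unfold chi
  exact_mod_cast h

theorem kap_abs_le (A e : ℕ) : |kap A e| ≤ ((Nat.divisors e).card : ℝ) / e := by
  unfold kap
  have h0 : ((Nat.divisors e).card : ℝ) / e = 1 / (e : ℝ) * ((Nat.divisors e).card : ℝ) := by ring
  rw [abs_mul, abs_of_nonneg (by positivity : (0 : ℝ) ≤ 1 / (e : ℝ)), h0]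
  apply mul_le_mul_of_nonneg_left _ (by positivity)
  refine le_trans (abs_sum_le_sum_abs _ _) ?_
  have h1 : ∑ q ∈ e.divisors, |chi q / q * (rc q A : ℝ)| ≤ ∑ _q ∈ e.divisors, (1 : ℝ) := by
    apply sum_le_sum
    intro q hq
    have hq0 : 0 < q := Nat.pos_of_mem_divisors hq
    have : NeZero q := ⟨hq0.ne'⟩
    have hq' : (0 : ℝ) < q := by exact_mod_cast hq0
    have h2 := abs_rc_le (q := q) (A : ℤ)
    have h3 := chi_abs_le q
    rw [abs_mul, abs_div, abs_of_pos hq']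
    calc |chi q| / q * |(rc q (A : ℤ) : ℝ)| ≤ 1 / q * q := by gcongr
      _ = 1 := by field_simp
  refine le_trans h1 ?_
  simp

theorem Er_le {A K q : ℕ} (hq : 0 < q) :
    Er A K q ≤ ((Nat.gcd A q : ℝ)) ^ ((1 : ℝ) / 4) * (q : ℝ) ^ ((3 : ℝ) / 4) *
      ((Nat.divisors q).card : ℝ) * (1 + Real.log q) ^ 2 * (2 * K + q) := by
  have hq' : (1 : ℝ) ≤ q := by exact_mod_cast hq
  have hlog : 0 ≤ Real.log q := Real.log_nonneg hq'
  have hd : (1 : ℝ) ≤ ((Nat.divisors q).card : ℝ) := by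
    have : 0 < (Nat.divisors q).card := card_pos.mpr ⟨1, Nat.one_mem_divisors.mpr hq.ne'⟩
    exact_mod_cast this
  have hKb : Kb A q ≤ ((Nat.gcd A q : ℝ)) ^ ((1 : ℝ) / 4) * (q : ℝ) ^ ((3 : ℝ) / 4) *
      ((Nat.divisors q).card : ℝ) := by
    unfold Kb
    rw [Real.mul_rpow (by positivity) (by positivity), Real.mul_rpow (by positivity) (by positivity)]
    have h1 : ((q : ℝ) ^ 3) ^ ((1 : ℝ) / 4) = (q : ℝ) ^ ((3 : ℝ) / 4) := by
      rw [← Real.rpow_natCast, ← Real.rpow_mul (by positivity)]; norm_num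
    have h2 : (((Nat.divisors q).card : ℝ) ^ 3) ^ ((1 : ℝ) / 4) ≤ ((Nat.divisors q).card : ℝ) := by
      rw [← Real.rpow_natCast, ← Real.rpow_mul (by positivity)]
      calc ((Nat.divisors q).card : ℝ) ^ (((3 : ℕ) : ℝ) * (1 / 4)) ≤
            ((Nat.divisors q).card : ℝ) ^ (1 : ℝ) := Real.rpow_le_rpow_of_exponent_le hd (by norm_num)
        _ = _ := Real.rpow_one _
    rw [h1]
    exact mul_le_mul_of_nonneg_left h2 (by positivity)
  unfold Er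
  have h1 : (1 / (q : ℝ)) * (Kb A q * ((K + q * (1 + Real.log q)) ^ 2 - (K : ℝ) ^ 2)) =
      Kb A q * (2 * K * (1 + Real.log q) + q * (1 + Real.log q) ^ 2) := by
    field_simp
    ring
  rw [h1]
  have h2 : 2 * K * (1 + Real.log q) + q * (1 + Real.log q) ^ 2 ≤
      (1 + Real.log q) ^ 2 * (2 * K + q) := by
    have h3 : (1 + Real.log q) ≤ (1 + Real.log q) ^ 2 := by nlinarith
    have h4 : 2 * (K : ℝ) * (1 + Real.log q) ≤ 2 * K * (1 + Real.log q) ^ 2 :=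
      mul_le_mul_of_nonneg_left h3 (by positivity)
    linarith
  calc Kb A q * (2 * K * (1 + Real.log q) + q * (1 + Real.log q) ^ 2) ≤
      (((Nat.gcd A q : ℝ)) ^ ((1 : ℝ) / 4) * (q : ℝ) ^ ((3 : ℝ) / 4) *
      ((Nat.divisors q).card : ℝ)) * ((1 + Real.log q) ^ 2 * (2 * K + q)) := by
        apply mul_le_mul hKb h2 (by positivity) (by positivity)
    _ = _ := by ring

end Pool.Agent.Lib.MP_0e0027_nt
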