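import Mathlib
import Pool.Agent.Lib.MP_0e0027_nt.Discs

set_option autoImplicit false

open Finset

namespace Pool.Agent.Lib.MP_0e0027_nt

theorem sum_rpow_quarter (Q : ℕ) :
    ∑ q ∈ Icc 1 Q, ((q : ℝ)) ^ (-(1 : ℝ) / 4) ≤ 2 * (Q : ℝ) ^ ((3 : ℝ) / 4) := by
  induction Q with
  | zero => simp
  | succ Q ih =>
    rw [sum_Icc_succ_top (by omega)]
    have hx : (0 : ℝ) < (Q : ℝ) + 1 := by positivity
    have hQ : (0 : ℝ) ≤ (Q : ℝ) := by positivity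
    have h1 := Real.geom_mean_le_arith_mean2_weighted (by norm_num : (0 : ℝ) ≤ 3 / 4)
      (by norm_num : (0 : ℝ) ≤ 1 / 4) hQ hx.le (by norm_num)
    have h2 : (2 * (Q : ℝ) ^ ((3 : ℝ) / 4) + ((Q : ℝ) + 1) ^ (-(1 : ℝ) / 4)) *
        ((Q : ℝ) + 1) ^ ((1 : ℝ) / 4) ≤ (2 * ((Q : ℝ) + 1) ^ ((3 : ℝ) / 4)) *
        ((Q : ℝ) + 1) ^ ((1 : ℝ) / 4) := by
      have h3 : ((Q : ℝ) + 1) ^ (-(1 : ℝ) / 4) * ((Q : ℝ) + 1) ^ ((1 : ℝ) / 4) = 1 := by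
        rw [← Real.rpow_add hx]; norm_num
      have h4 : ((Q : ℝ) + 1) ^ ((3 : ℝ) / 4) * ((Q : ℝ) + 1) ^ ((1 : ℝ) / 4) = Q + 1 := by
        rw [← Real.rpow_add hx]; norm_num
      have h5 : (2 * (Q : ℝ) ^ ((3 : ℝ) / 4) + ((Q : ℝ) + 1) ^ (-(1 : ℝ) / 4)) *
        ((Q : ℝ) + 1) ^ ((1 : ℝ) / 4) = 2 * ((Q : ℝ) ^ ((3 : ℝ) / 4) *
          ((Q : ℝ) + 1) ^ ((1 : ℝ) / 4)) + ((Q : ℝ) + 1) ^ (-(1 : ℝ) / 4) *
            ((Q : ℝ) + 1) ^ ((1 : ℝ) / 4) := by ring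
      have h6 : (2 * ((Q : ℝ) + 1) ^ ((3 : ℝ) / 4)) * ((Q : ℝ) + 1) ^ ((1 : ℝ) / 4) =
        2 * (((Q : ℝ) + 1) ^ ((3 : ℝ) / 4) * ((Q : ℝ) + 1) ^ ((1 : ℝ) / 4)) := by ring
      rw [h5, h6, h3, h4]
      linarith
    have h7 := le_of_mul_le_mul_right h2 (Real.rpow_pos_of_pos hx _)
    push_cast
    linarith

theorem gcd_sum (A Q : ℕ) (hA : 0 < A) :
    ∑ q ∈ Icc 1 Q, ((Nat.gcd A q : ℝ) / q) ^ ((1 : ℝ) / 4) ≤
      (A.divisors.card : ℝ) * (2 * (Q : ℝ) ^ ((3 : ℝ) / 4)) := by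
  have h1 : ∑ q ∈ Icc 1 Q, ((Nat.gcd A q : ℝ) / q) ^ ((1 : ℝ) / 4) =
      ∑ x ∈ (Icc 1 Q).image (fun q ↦ (Nat.gcd A q, q / Nat.gcd A q)),
        ((x.2 : ℝ)) ^ (-(1 : ℝ) / 4) := by
    rw [sum_image]
    · refine sum_congr rfl (fun q hq ↦ ?_)
      rw [mem_Icc] at hq
      have hg : 0 < Nat.gcd A q := Nat.gcd_pos_of_pos_left _ hA
      have h2 : ((q / Nat.gcd A q : ℕ) : ℝ) = (q : ℝ) / (Nat.gcd A q : ℝ) :=
        Nat.cast_div (Nat.gcd_dvd_right A q) (by exact_mod_cast hg.ne')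
      simp only []
      rw [h2]
      have hq' : (0 : ℝ) < q := by exact_mod_cast (show 0 < q by omega)
      have hg' : (0 : ℝ) < (Nat.gcd A q : ℝ) := by exact_mod_cast hg
      have h3 : -(1 : ℝ) / 4 = -(1 / 4) := by norm_num
      rw [h3, Real.rpow_neg (by positivity), ← Real.inv_rpow (by positivity), inv_div]
    · intro q hq q' hq' h
      simp only [Prod.mk.injEq] at h
      have h2 := Nat.div_mul_cancel (Nat.gcd_dvd_right A q)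
      have h3 := Nat.div_mul_cancel (Nat.gcd_dvd_right A q')
      rw [← h2, ← h3, h.2, h.1]
  rw [h1]
  have h2 : (Icc 1 Q).image (fun q ↦ (Nat.gcd A q, q / Nat.gcd A q)) ⊆
      A.divisors ×ˢ Icc 1 Q := by
    intro x hx
    rw [mem_image] at hx
    obtain ⟨q, hq, rfl⟩ := hx
    rw [mem_Icc] at hq
    rw [mem_product, Nat.mem_divisors, mem_Icc]
    refine ⟨⟨Nat.gcd_dvd_left _ _, hA.ne'⟩, ?_, ?_⟩
    · exact Nat.div_pos (Nat.le_of_dvd (by omega) (Nat.gcd_dvd_right _ _))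
        (Nat.gcd_pos_of_pos_left _ hA)
    · exact le_trans (Nat.div_le_self _ _) hq.2
  refine le_trans (sum_le_sum_of_subset_of_nonneg h2 (fun x _ _ ↦ by positivity)) ?_
  rw [sum_product]
  simp only [sum_const, nsmul_eq_mul]
  exact mul_le_mul_of_nonneg_left (sum_rpow_quarter Q) (by positivity)

theorem sum_inv_mult (Q q : ℕ) (hq : 0 < q) :
    ∑ e ∈ (Icc 1 Q).filter (fun e ↦ q ∣ e), (1 : ℝ) / e ≤ 1 / q * (1 + Real.log Q) := by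
  have h0 : ∑ m ∈ Icc 1 Q, (1 : ℝ) / m ≤ 1 + Real.log Q := by
    have := harmonic_le_one_add_log Q
    rw [harmonic_eq_sum_Icc] at this
    push_cast at this
    simpa [one_div] using this
  have h1 : ∑ e ∈ (Icc 1 Q).filter (fun e ↦ q ∣ e), (1 : ℝ) / e =
      ∑ m ∈ ((Icc 1 Q).filter (fun e ↦ q ∣ e)).image (fun e ↦ e / q), (1 : ℝ) / q * (1 / m) := by
    rw [sum_image]
    · refine sum_congr rfl (fun e he ↦ ?_)
      rw [mem_filter, mem_Icc] at he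
      have hq' : (0 : ℝ) < q := by exact_mod_cast hq
      rw [Nat.cast_div he.2 hq'.ne']
      have he' : (0 : ℝ) < e := by exact_mod_cast (show 0 < e by omega)
      field_simp
    · intro e he e' he' h
      simp only [coe_filter, Set.mem_ofPred_eq, mem_Icc] at he he'
      simp only [] at h
      rw [← Nat.div_mul_cancel he.2, ← Nat.div_mul_cancel he'.2, h]
  rw [h1, ← mul_sum]
  apply mul_le_mul_of_nonneg_left _ (by positivity)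
  refine le_trans (sum_le_sum_of_subset_of_nonneg ?_ (fun x _ _ ↦ by positivity)) h0
  intro m hm
  rw [mem_image] at hm
  obtain ⟨e, he, rfl⟩ := hm
  rw [mem_filter, mem_Icc] at he
  rw [mem_Icc]
  exact ⟨Nat.div_pos (Nat.le_of_dvd (by omega) he.2) hq, le_trans (Nat.div_le_self _ _) he.1.2⟩

theorem sum_Del (A K Q : ℕ) :
    ∑ e ∈ Icc 1 Q, Del A K e ≤ (1 + Real.log Q) * ∑ q ∈ Icc 1 Q, Er A K q / q := by
  have h1 : ∑ e ∈ Icc 1 Q, Del A K e =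
      ∑ q ∈ Icc 1 Q, ∑ e ∈ Icc 1 Q, if q ∣ e then Er A K q * (1 / e) else 0 := by
    rw [sum_comm]
    refine sum_congr rfl (fun e he ↦ ?_)
    rw [mem_Icc] at he
    unfold Del
    rw [← sum_filter, mul_sum]
    have h2 : e.divisors = (Icc 1 Q).filter (fun q ↦ q ∣ e) := by
      ext q
      rw [Nat.mem_divisors, mem_filter, mem_Icc]
      constructor
      · rintro ⟨h, _⟩
        have := Nat.le_of_dvd (by omega) h
        have := Nat.pos_of_dvd_of_pos h (by omega)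
        exact ⟨⟨by omega, by omega⟩, h⟩
      · rintro ⟨_, h⟩
        exact ⟨h, by omega⟩
    rw [h2]
    refine sum_congr rfl (fun q _ ↦ by ring)
  rw [h1, mul_sum]
  apply sum_le_sum
  intro q hq
  rw [mem_Icc] at hq
  rw [← sum_filter, ← mul_sum]
  have h2 := sum_inv_mult Q q (by omega)
  calc Er A K q * ∑ e ∈ (Icc 1 Q).filter (fun e ↦ q ∣ e), (1 : ℝ) / e ≤
      Er A K q * (1 / q * (1 + Real.log Q)) := mul_le_mul_of_nonneg_left h2 (Er_nonneg _ _ _)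
    _ = _ := by ring

theorem one_add_log_le (x : ℝ) (hx : 1 ≤ x) :
    1 + Real.log x ≤ 1001 * x ^ ((1 : ℝ) / 1000) := by
  have h1 := Real.log_le_rpow_div (by linarith : (0 : ℝ) ≤ x) (by norm_num : (0 : ℝ) < 1 / 1000)
  have h2 : (1 : ℝ) ≤ x ^ ((1 : ℝ) / 1000) := Real.one_le_rpow hx (by norm_num)
  have h3 : x ^ ((1 : ℝ) / 1000) / (1 / 1000) = 1000 * x ^ ((1 : ℝ) / 1000) := by ring
  rw [h3] at h1
  linarith

end Pool.Agent.Lib.MP_0e0027_nt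

namespace Pool.Agent.Lib.MP_0e0027_nt

theorem Tp_aux {A B w K : ℕ} (ha : (1 : ℝ) ≤ A) (hBa : (B : ℝ) ≤ (A : ℝ) ^ ((1 : ℝ) / 100))
    (hK : (K : ℝ) ≤ 2 * (A : ℝ) ^ ((9 : ℝ) / 20)) :
    2 * Real.sqrt B * w * K ≤ 4 * w * (A : ℝ) ^ ((91 : ℝ) / 200) := by
  have ha0 : (0 : ℝ) < A := by linarith
  have h1 : Real.sqrt B ≤ (A : ℝ) ^ ((1 : ℝ) / 200) := by
    have h2 : (A : ℝ) ^ ((1 : ℝ) / 200) = Real.sqrt ((A : ℝ) ^ ((1 : ℝ) / 100)) := by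
      rw [Real.sqrt_eq_rpow, ← Real.rpow_mul ha0.le]; norm_num
    rw [h2]
    exact Real.sqrt_le_sqrt hBa
  calc 2 * Real.sqrt B * w * K ≤
      2 * (A : ℝ) ^ ((1 : ℝ) / 200) * w * (2 * (A : ℝ) ^ ((9 : ℝ) / 20)) := by gcongr
    _ = 4 * w * ((A : ℝ) ^ ((1 : ℝ) / 200) * (A : ℝ) ^ ((9 : ℝ) / 20)) := by ring
    _ = _ := by rw [← Real.rpow_add ha0]; norm_num

theorem sqrt_le_half {A : ℕ} {T : ℝ} (hTA : T ≤ A) :
    Real.sqrt T ≤ (A : ℝ) ^ ((1 : ℝ) / 2) := by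
  rw [← Real.sqrt_eq_rpow]
  exact Real.sqrt_le_sqrt hTA

theorem sqrt_Tp_le {A B w K : ℕ} (ha : (1 : ℝ) ≤ A)
    (hBa : (B : ℝ) ≤ (A : ℝ) ^ ((1 : ℝ) / 100))
    (hK : (K : ℝ) ≤ 2 * (A : ℝ) ^ ((9 : ℝ) / 20)) {T : ℝ} (hTA : T ≤ A) :
    Real.sqrt (Tp B w K T) ≤ (1 + 4 * w) * (A : ℝ) ^ ((1 : ℝ) / 2) := by
  have h1 := Tp_aux (w := w) ha hBa hK
  have h2 := sqrt_le_half hTA
  have h3 : 0 ≤ Real.sqrt T + 2 * Real.sqrt B * w * K := by positivity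
  unfold Tp
  rw [Real.sqrt_sq h3]
  have h4 : (A : ℝ) ^ ((91 : ℝ) / 200) ≤ (A : ℝ) ^ ((1 : ℝ) / 2) :=
    Real.rpow_le_rpow_of_exponent_le ha (by norm_num)
  have h5 : 4 * (w : ℝ) * (A : ℝ) ^ ((91 : ℝ) / 200) ≤ 4 * w * (A : ℝ) ^ ((1 : ℝ) / 2) :=
    mul_le_mul_of_nonneg_left h4 (by positivity)
  linarith

theorem sqrt_div_le {B : ℕ} (hB : 1 ≤ B) {T : ℝ} (hT : 0 ≤ T) :
    Real.sqrt (T / B) ≤ Real.sqrt T := by
  have hB' : (1 : ℝ) ≤ B := by exact_mod_cast hB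
  exact Real.sqrt_le_sqrt (div_le_self hT hB')

theorem card_Tp_le {A B w K : ℕ} (ha : (1 : ℝ) ≤ A) (hB : 1 ≤ B)
    (hBa : (B : ℝ) ≤ (A : ℝ) ^ ((1 : ℝ) / 100))
    (hK : (K : ℝ) ≤ 2 * (A : ℝ) ^ ((9 : ℝ) / 20)) (x0 y0 : ℤ) {T : ℝ} (hT : 0 ≤ T) (hTA : T ≤ A) :
    ((Dset B w x0 y0 (Tp B w K T)).card : ℝ) ≤ (3 + 8 * w) ^ 2 * A := by
  have hTp : 0 ≤ Tp B w K T := le_trans hT (le_Tp hT)
  have h1 := card_Dset_le (w := w) hB x0 y0 _ hTp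
  have h2 := sqrt_Tp_le (w := w) ha hBa hK hTA
  have h3 := sqrt_div_le hB hTp
  have h4 : (1 : ℝ) ≤ (A : ℝ) ^ ((1 : ℝ) / 2) := Real.one_le_rpow ha (by norm_num)
  have h5 : 2 * Real.sqrt (Tp B w K T / B) + 1 ≤ (3 + 8 * w) * (A : ℝ) ^ ((1 : ℝ) / 2) := by
    nlinarith
  calc ((Dset B w x0 y0 (Tp B w K T)).card : ℝ) ≤ (2 * Real.sqrt (Tp B w K T / B) + 1) ^ 2 := h1
    _ ≤ ((3 + 8 * w) * (A : ℝ) ^ ((1 : ℝ) / 2)) ^ 2 := pow_le_pow_left₀ (by positivity) h5 2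
    _ = (3 + 8 * w) ^ 2 * ((A : ℝ) ^ ((1 : ℝ) / 2)) ^ 2 := by ring
    _ = _ := by
      have ha0 : (0 : ℝ) ≤ A := by linarith
      rw [← Real.sqrt_eq_rpow, Real.sq_sqrt ha0]

theorem Tp_sub_Tm {A B w K : ℕ} (ha : (1 : ℝ) ≤ A) (hw : 1 ≤ w)
    (hBa : (B : ℝ) ≤ (A : ℝ) ^ ((1 : ℝ) / 100))
    (hK : (K : ℝ) ≤ 2 * (A : ℝ) ^ ((9 : ℝ) / 20)) {T : ℝ} (hTA : T ≤ A) :
    Tp B w K T - Tm B w K T ≤ 64 * (w : ℝ) ^ 2 * (A : ℝ) ^ ((191 : ℝ) / 200) := by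
  have ha0 : (0 : ℝ) < A := by linarith
  have hw' : (1 : ℝ) ≤ w := by exact_mod_cast hw
  have h1 := Tp_aux (w := w) ha hBa hK
  have h2 := sqrt_le_half hTA
  have h0 : 0 ≤ 2 * Real.sqrt B * w * K := by positivity
  have h00 : 0 ≤ Real.sqrt T := Real.sqrt_nonneg _
  unfold Tp Tm
  split_ifs with h
  · have h3 : (Real.sqrt T + 2 * Real.sqrt B * w * K) ^ 2 -
        (Real.sqrt T - 2 * Real.sqrt B * w * K) ^ 2 =
        4 * (Real.sqrt T * (2 * Real.sqrt B * w * K)) := by ring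
    rw [h3]
    have h4 : Real.sqrt T * (2 * Real.sqrt B * w * K) ≤
        (A : ℝ) ^ ((1 : ℝ) / 2) * (4 * w * (A : ℝ) ^ ((91 : ℝ) / 200)) :=
      mul_le_mul h2 h1 h0 (by positivity)
    have h5 : (A : ℝ) ^ ((1 : ℝ) / 2) * (4 * w * (A : ℝ) ^ ((91 : ℝ) / 200)) =
        4 * w * (A : ℝ) ^ ((191 : ℝ) / 200) := by
      have : (A : ℝ) ^ ((1 : ℝ) / 2) * (A : ℝ) ^ ((91 : ℝ) / 200) =
        (A : ℝ) ^ ((191 : ℝ) / 200) := by
        rw [← Real.rpow_add ha0]; norm_num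
      rw [← this]; ring
    rw [h5] at h4
    have h6 : (0 : ℝ) ≤ (A : ℝ) ^ ((191 : ℝ) / 200) := by positivity
    have h7 : (w : ℝ) ≤ w ^ 2 := by nlinarith
    nlinarith [mul_le_mul_of_nonneg_right h7 h6]
  · push Not at h
    have h3 : Real.sqrt T + 2 * Real.sqrt B * w * K ≤ 8 * w * (A : ℝ) ^ ((91 : ℝ) / 200) := by
      linarith
    have h4 : (Real.sqrt T + 2 * Real.sqrt B * w * K) ^ 2 ≤
      (8 * w * (A : ℝ) ^ ((91 : ℝ) / 200)) ^ 2 := pow_le_pow_left₀ (by positivity) h3 2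
    have h5 : (8 * w * (A : ℝ) ^ ((91 : ℝ) / 200)) ^ 2 =
        64 * (w : ℝ) ^ 2 * (A : ℝ) ^ ((91 : ℝ) / 100) := by
      have : ((A : ℝ) ^ ((91 : ℝ) / 200)) ^ 2 = (A : ℝ) ^ ((91 : ℝ) / 100) := by
        rw [← Real.rpow_natCast, ← Real.rpow_mul ha0.le]; norm_num
      rw [← this]; ring
    have h6 : (A : ℝ) ^ ((91 : ℝ) / 100) ≤ (A : ℝ) ^ ((191 : ℝ) / 200) :=
      Real.rpow_le_rpow_of_exponent_le ha (by norm_num)
    have h7 : 64 * (w : ℝ) ^ 2 * (A : ℝ) ^ ((91 : ℝ) / 100) ≤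
      64 * (w : ℝ) ^ 2 * (A : ℝ) ^ ((191 : ℝ) / 200) :=
      mul_le_mul_of_nonneg_left h6 (by positivity)
    linarith

theorem annulus_bound {A B w K : ℕ} (ha : (1 : ℝ) ≤ A) (hB : 1 ≤ B) (hw : 1 ≤ w)
    (hBa : (B : ℝ) ≤ (A : ℝ) ^ ((1 : ℝ) / 100))
    (hK : (K : ℝ) ≤ 2 * (A : ℝ) ^ ((9 : ℝ) / 20)) (x0 y0 : ℤ) {T : ℝ} (hT : 0 ≤ T) (hTA : T ≤ A) :
    ((Dset B w x0 y0 (Tp B w K T)).card : ℝ) - ((Dset B w x0 y0 (Tm B w K T)).card : ℝ) ≤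
      (3 + 8 * w) * (18 * w) * (A : ℝ) ^ ((391 : ℝ) / 400) := by
  have ha0 : (0 : ℝ) < A := by linarith
  have hw' : (1 : ℝ) ≤ w := by exact_mod_cast hw
  have hTp : 0 ≤ Tp B w K T := le_trans hT (le_Tp hT)
  have hTm : 0 ≤ Tm B w K T := by unfold Tm; split_ifs <;> positivity
  have hTT : Tm B w K T ≤ Tp B w K T := le_trans (Tm_le hT) (le_Tp hT)
  have h1 := card_annulus_le (w := w) hB x0 y0 (Tm B w K T) (Tp B w K T) hTm hTT
  have h2 := sqrt_Tp_le (w := w) ha hBa hK hTA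
  have h3 := sqrt_div_le hB hTp
  have h4 : (1 : ℝ) ≤ (A : ℝ) ^ ((1 : ℝ) / 2) := Real.one_le_rpow ha (by norm_num)
  have h5 : 2 * Real.sqrt (Tp B w K T / B) + 1 ≤ (3 + 8 * w) * (A : ℝ) ^ ((1 : ℝ) / 2) := by
    nlinarith
  have h6 := Tp_sub_Tm (w := w) ha hw hBa hK hTA
  have h7 := sqrt_div_le hB (by linarith : 0 ≤ Tp B w K T - Tm B w K T)
  have h8 : Real.sqrt (Tp B w K T - Tm B w K T) ≤ 8 * w * (A : ℝ) ^ ((191 : ℝ) / 400) := by
    have h9 : 64 * (w : ℝ) ^ 2 * (A : ℝ) ^ ((191 : ℝ) / 200) =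
        (8 * w * (A : ℝ) ^ ((191 : ℝ) / 400)) ^ 2 := by
      have : ((A : ℝ) ^ ((191 : ℝ) / 400)) ^ 2 = (A : ℝ) ^ ((191 : ℝ) / 200) := by
        rw [← Real.rpow_natCast, ← Real.rpow_mul ha0.le]; norm_num
      rw [← this]; ring
    rw [h9] at h6
    calc Real.sqrt (Tp B w K T - Tm B w K T) ≤ Real.sqrt ((8 * w * (A : ℝ) ^ ((191 : ℝ) / 400)) ^ 2) :=
          Real.sqrt_le_sqrt h6
      _ = _ := Real.sqrt_sq (by positivity)
  have h9 : (1 : ℝ) ≤ (A : ℝ) ^ ((191 : ℝ) / 400) := Real.one_le_rpow ha (by norm_num)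
  have h10 : 2 * (Real.sqrt ((Tp B w K T - Tm B w K T) / B) + 1) ≤
      18 * w * (A : ℝ) ^ ((191 : ℝ) / 400) := by
    have : (1 : ℝ) ≤ w * (A : ℝ) ^ ((191 : ℝ) / 400) := by nlinarith
    linarith
  calc _ ≤ _ := h1
    _ ≤ ((3 + 8 * w) * (A : ℝ) ^ ((1 : ℝ) / 2)) * (18 * w * (A : ℝ) ^ ((191 : ℝ) / 400)) :=
        mul_le_mul h5 h10 (by positivity) (by positivity)
    _ = (3 + 8 * w) * (18 * w) * ((A : ℝ) ^ ((1 : ℝ) / 2) * (A : ℝ) ^ ((191 : ℝ) / 400)) := by ring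
    _ = _ := by rw [← Real.rpow_add ha0]; norm_num

end Pool.Agent.Lib.MP_0e0027_nt

namespace Pool.Agent.Lib.MP_0e0027_nt

theorem r2_le_div (l : ℕ) (hl : 0 < l) : ((r2set l).card : ℝ) ≤ 4 * (l.divisors.card : ℝ) := by
  have h1 := r2_eq l hl
  have h2 : R2 l ≤ l.divisors.card := by
    unfold R2
    calc ∑ e ∈ l.divisors, c4 e ≤ ∑ _e ∈ l.divisors, (1 : ℤ) :=
          sum_le_sum (fun e _ ↦ le_trans (le_abs_self _) (abs_c4_le e))
      _ = _ := by simp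
  have h3 : ((r2set l).card : ℤ) ≤ 4 * (l.divisors.card : ℤ) := by rw [h1]; linarith
  exact_mod_cast h3

theorem sqP_card (C : ℝ) (hC : 1 ≤ C)
    (hdiv : ∀ n : ℕ, n ≠ 0 → ((Nat.divisors n).card : ℝ) ≤ C * (n : ℝ) ^ ((1 : ℝ) / 1000))
    {A B w ν : ℕ} (x0 y0 : ℤ) (hA : 1 ≤ A) (hB : 1 ≤ B) :
    (((Dset B w x0 y0 A).filter (sqP A B ν)).card : ℝ) ≤
      ((A : ℝ) ^ ((1 : ℝ) / 2) + 1) * (4 * C * (A : ℝ) ^ ((1 : ℝ) / 1000) + 1) := by
  classical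
  have ha : (1 : ℝ) ≤ A := by exact_mod_cast hA
  set D := Dset B w x0 y0 (A : ℝ) with hD
  have h1 : D.filter (sqP A B ν) ⊆ (range (Nat.sqrt A + 1)).biUnion
      (fun r ↦ D.filter (fun z ↦ lz A B z = 2 ^ ν * r ^ 2)) := by
    intro z hz
    rw [mem_filter] at hz
    obtain ⟨hz, r, hr⟩ := hz
    rw [mem_biUnion]
    refine ⟨r, ?_, ?_⟩
    · rw [mem_range]
      have h2 := (lz_cast hB hz).1
      have h3 : (lz A B z : ℤ) ≤ A := by
        rw [← h2]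
        have : 0 ≤ (B : ℤ) * (z.1 ^ 2 + z.2 ^ 2) := by positivity
        linarith
      have h4 : lz A B z ≤ A := by exact_mod_cast h3
      have h5 : r ^ 2 ≤ A := by
        calc r ^ 2 ≤ 2 ^ ν * r ^ 2 := Nat.le_mul_of_pos_left _ (by positivity)
          _ = lz A B z := hr.symm
          _ ≤ A := h4
      have h6 : r ≤ Nat.sqrt A := by
        rw [Nat.le_sqrt, ← sq]; exact h5
      omega
    · rw [mem_filter]; exact ⟨hz, hr⟩
  have h2 : ∀ r : ℕ, ((D.filter (fun z ↦ lz A B z = 2 ^ ν * r ^ 2)).card : ℝ) ≤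
      4 * C * (A : ℝ) ^ ((1 : ℝ) / 1000) + 1 := by
    intro r
    rcases (D.filter (fun z ↦ lz A B z = 2 ^ ν * r ^ 2)).eq_empty_or_nonempty with he | ⟨z0, hz0⟩
    · rw [he]; simp; positivity
    · rw [mem_filter] at hz0
      obtain ⟨hz0, hr0⟩ := hz0
      have h3 := (lz_cast hB hz0).1
      have hB' : (0 : ℤ) < B := by exact_mod_cast hB
      have hl0 : 0 ≤ z0.1 ^ 2 + z0.2 ^ 2 := by positivity
      obtain ⟨l, hl⟩ := Int.eq_ofNat_of_zero_le hl0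
      have h4 : ∀ z ∈ D.filter (fun z ↦ lz A B z = 2 ^ ν * r ^ 2), z.1 ^ 2 + z.2 ^ 2 = (l : ℤ) := by
        intro z hz
        rw [mem_filter] at hz
        have h5 := (lz_cast hB hz.1).1
        rw [hz.2] at h5
        rw [hr0] at h3
        have h6 : (B : ℤ) * (z.1 ^ 2 + z.2 ^ 2) = B * (z0.1 ^ 2 + z0.2 ^ 2) := by linarith
        have h7 := mul_left_cancel₀ hB'.ne' h6
        rw [h7, hl]
      have hlA : l ≤ A := by
        have h8 : (l : ℤ) ≤ A := by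
          rw [← hl]
          have h9 : (0 : ℤ) ≤ (lz A B z0 : ℤ) := by positivity
          have h10 : z0.1 ^ 2 + z0.2 ^ 2 ≤ (B : ℤ) * (z0.1 ^ 2 + z0.2 ^ 2) := by nlinarith
          linarith
        exact_mod_cast h8
      rcases Nat.eq_zero_or_pos l with hl00 | hlpos
      · have h5 : D.filter (fun z ↦ lz A B z = 2 ^ ν * r ^ 2) ⊆ {((0 : ℤ), (0 : ℤ))} := by
          intro z hz
          have h6 := h4 z hz
          rw [hl00] at h6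
          push_cast at h6
          have h7 : z.1 = 0 := by
            have : z.1 ^ 2 = 0 := by nlinarith [sq_nonneg z.1, sq_nonneg z.2]
            exact pow_eq_zero_iff (by norm_num) |>.mp this
          have h8 : z.2 = 0 := by
            have : z.2 ^ 2 = 0 := by nlinarith [sq_nonneg z.1, sq_nonneg z.2]
            exact pow_eq_zero_iff (by norm_num) |>.mp this
          rw [mem_singleton]
          exact Prod.ext h7 h8
        have h6 := card_le_card h5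
        rw [card_singleton] at h6
        have h7 : ((D.filter (fun z ↦ lz A B z = 2 ^ ν * r ^ 2)).card : ℝ) ≤ 1 := by exact_mod_cast h6
        have : 0 ≤ 4 * C * (A : ℝ) ^ ((1 : ℝ) / 1000) := by positivity
        linarith
      · have h5 : D.filter (fun z ↦ lz A B z = 2 ^ ν * r ^ 2) ⊆ r2set l := by
          intro z hz
          rw [mem_r2set]
          exact h4 z hz
        have h6 : ((D.filter (fun z ↦ lz A B z = 2 ^ ν * r ^ 2)).card : ℝ) ≤ (r2set l).card := by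
          exact_mod_cast card_le_card h5
        have h7 := r2_le_div l hlpos
        have h8 := hdiv l hlpos.ne'
        have h9 : (l : ℝ) ^ ((1 : ℝ) / 1000) ≤ (A : ℝ) ^ ((1 : ℝ) / 1000) :=
          Real.rpow_le_rpow (by positivity) (by exact_mod_cast hlA) (by norm_num)
        have h10 : C * (l : ℝ) ^ ((1 : ℝ) / 1000) ≤ C * (A : ℝ) ^ ((1 : ℝ) / 1000) :=
          mul_le_mul_of_nonneg_left h9 (by linarith)
        linarith
  have h3 : (((D.filter (sqP A B ν)).card : ℕ) : ℝ) ≤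
      ∑ r ∈ range (Nat.sqrt A + 1), ((D.filter (fun z ↦ lz A B z = 2 ^ ν * r ^ 2)).card : ℝ) := by
    exact_mod_cast le_trans (card_le_card h1) card_biUnion_le
  refine le_trans h3 ?_
  refine le_trans (sum_le_sum (fun r _ ↦ h2 r)) ?_
  rw [sum_const, card_range, nsmul_eq_mul]
  apply mul_le_mul_of_nonneg_right _ (by positivity)
  push_cast
  have h4 : (Nat.sqrt A : ℝ) ≤ (A : ℝ) ^ ((1 : ℝ) / 2) := by
    rw [← Real.sqrt_eq_rpow]
    exact Real.nat_sqrt_le_real_sqrt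
  linarith

theorem kap_sum (C : ℝ) (hC : 1 ≤ C)
    (hdiv : ∀ n : ℕ, n ≠ 0 → ((Nat.divisors n).card : ℝ) ≤ C * (n : ℝ) ^ ((1 : ℝ) / 1000))
    {A : ℕ} (hA : 1 ≤ A) (Q : ℕ) (hQ : Q ≤ A) :
    ∑ e ∈ Icc 1 Q, |kap A e| ≤ C * 1001 * ((A : ℝ) ^ ((1 : ℝ) / 1000)) ^ 2 := by
  have ha : (1 : ℝ) ≤ A := by exact_mod_cast hA
  set δ : ℝ := (A : ℝ) ^ ((1 : ℝ) / 1000) with hδ
  have hδ1 : 1 ≤ δ := Real.one_le_rpow ha (by norm_num)
  rcases Nat.eq_zero_or_pos Q with h0 | hQ0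
  · subst h0; simp; positivity
  have hlog : 1 + Real.log Q ≤ 1001 * δ := by
    have h1 : (1 : ℝ) ≤ Q := by exact_mod_cast hQ0
    refine le_trans (one_add_log_le Q h1) ?_
    apply mul_le_mul_of_nonneg_left _ (by norm_num)
    exact Real.rpow_le_rpow (by positivity) (by exact_mod_cast hQ) (by norm_num)
  have h0 : ∑ m ∈ Icc 1 Q, (1 : ℝ) / m ≤ 1 + Real.log Q := by
    have := harmonic_le_one_add_log Q
    rw [harmonic_eq_sum_Icc] at this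
    push_cast at this
    simpa [one_div] using this
  calc ∑ e ∈ Icc 1 Q, |kap A e| ≤ ∑ e ∈ Icc 1 Q, C * δ * (1 / (e : ℝ)) := by
        apply sum_le_sum
        intro e he
        rw [mem_Icc] at he
        have he0 : (0 : ℝ) < e := by exact_mod_cast (show 0 < e by omega)
        refine le_trans (kap_abs_le A e) ?_
        rw [div_eq_mul_one_div]
        apply mul_le_mul_of_nonneg_right _ (by positivity)
        refine le_trans (hdiv e (by omega)) ?_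
        apply mul_le_mul_of_nonneg_left _ (by linarith)
        exact Real.rpow_le_rpow (by positivity) (by exact_mod_cast (by omega : e ≤ A)) (by norm_num)
    _ = C * δ * ∑ e ∈ Icc 1 Q, (1 : ℝ) / e := by rw [mul_sum]
    _ ≤ C * δ * (1001 * δ) := by
        apply mul_le_mul_of_nonneg_left (le_trans h0 hlog) (by positivity)
    _ = _ := by ring

theorem Del_sum (C : ℝ) (hC : 1 ≤ C)
    (hdiv : ∀ n : ℕ, n ≠ 0 → ((Nat.divisors n).card : ℝ) ≤ C * (n : ℝ) ^ ((1 : ℝ) / 1000))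
    {A : ℕ} (hA : 1 ≤ A) (K : ℕ) (hK : (K : ℝ) ≤ 2 * (A : ℝ) ^ ((9 : ℝ) / 20)) :
    ∑ e ∈ Icc 1 (Nat.sqrt A), Del A K e ≤
      10 * C ^ 2 * 1001 ^ 3 * ((A : ℝ) ^ ((1 : ℝ) / 1000)) ^ 5 * (A : ℝ) ^ ((7 : ℝ) / 8) := by
  have ha : (1 : ℝ) ≤ A := by exact_mod_cast hA
  have ha0 : (0 : ℝ) < A := by linarith
  set δ : ℝ := (A : ℝ) ^ ((1 : ℝ) / 1000) with hδ
  have hδ1 : 1 ≤ δ := Real.one_le_rpow ha (by norm_num)
  set Q := Nat.sqrt A with hQdef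
  have hQA : Q ≤ A := Nat.sqrt_le_self A
  have hQ0 : 0 < Q := Nat.sqrt_pos.mpr hA
  have hQh : (Q : ℝ) ≤ (A : ℝ) ^ ((1 : ℝ) / 2) := by
    rw [← Real.sqrt_eq_rpow]
    exact Real.nat_sqrt_le_real_sqrt
  have hlog : ∀ q : ℕ, 0 < q → q ≤ Q → 1 + Real.log q ≤ 1001 * δ := by
    intro q hq0 hqQ
    have h1 : (1 : ℝ) ≤ q := by exact_mod_cast hq0
    refine le_trans (one_add_log_le q h1) ?_
    apply mul_le_mul_of_nonneg_left _ (by norm_num)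
    exact Real.rpow_le_rpow (by positivity) (by exact_mod_cast le_trans hqQ hQA) (by norm_num)
  have hEr : ∀ q ∈ Icc 1 Q, Er A K q / q ≤ ((Nat.gcd A q : ℝ) / q) ^ ((1 : ℝ) / 4) *
      (C * δ * (1001 * δ) ^ 2 * (5 * (A : ℝ) ^ ((1 : ℝ) / 2))) := by
    intro q hq
    rw [mem_Icc] at hq
    have hq0 : (0 : ℝ) < q := by exact_mod_cast (show 0 < q by omega)
    have hq1 : (1 : ℝ) ≤ q := by exact_mod_cast hq.1
    have h1 := Er_le (A := A) (K := K) (show 0 < q by omega)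
    have h2 : ((Nat.gcd A q : ℝ) / q) ^ ((1 : ℝ) / 4) =
        ((Nat.gcd A q : ℝ)) ^ ((1 : ℝ) / 4) * (q : ℝ) ^ ((3 : ℝ) / 4) / q := by
      rw [Real.div_rpow (by positivity) hq0.le]
      have h3 : (q : ℝ) = (q : ℝ) ^ ((3 : ℝ) / 4) * (q : ℝ) ^ ((1 : ℝ) / 4) := by
        rw [← Real.rpow_add hq0]; norm_num
      have h4 : (0 : ℝ) < (q : ℝ) ^ ((3 : ℝ) / 4) := by positivity
      have h5 : (0 : ℝ) < (q : ℝ) ^ ((1 : ℝ) / 4) := by positivity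
      rw [div_eq_div_iff h5.ne' hq0.ne']
      conv_lhs => rw [h3]
      ring
    rw [h2]
    have h3 : ((Nat.divisors q).card : ℝ) ≤ C * δ := by
      refine le_trans (hdiv q (by omega)) ?_
      apply mul_le_mul_of_nonneg_left _ (by linarith)
      exact Real.rpow_le_rpow (by positivity) (by exact_mod_cast (by omega : q ≤ A)) (by norm_num)
    have h4 : (1 + Real.log q) ^ 2 ≤ (1001 * δ) ^ 2 := by
      apply pow_le_pow_left₀ _ (hlog q (by omega) hq.2)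
      have := Real.log_nonneg hq1
      linarith
    have h5 : 2 * (K : ℝ) + q ≤ 5 * (A : ℝ) ^ ((1 : ℝ) / 2) := by
      have h6 : (A : ℝ) ^ ((9 : ℝ) / 20) ≤ (A : ℝ) ^ ((1 : ℝ) / 2) :=
        Real.rpow_le_rpow_of_exponent_le ha (by norm_num)
      have h7 : (q : ℝ) ≤ Q := by exact_mod_cast hq.2
      linarith
    have hl0 : 0 ≤ Real.log q := Real.log_nonneg hq1
    calc Er A K q / q ≤ (((Nat.gcd A q : ℝ)) ^ ((1 : ℝ) / 4) * (q : ℝ) ^ ((3 : ℝ) / 4) *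
      ((Nat.divisors q).card : ℝ) * (1 + Real.log q) ^ 2 * (2 * K + q)) / q := by
          apply div_le_div_of_nonneg_right h1 hq0.le
      _ = (((Nat.gcd A q : ℝ)) ^ ((1 : ℝ) / 4) * (q : ℝ) ^ ((3 : ℝ) / 4) / q) *
          (((Nat.divisors q).card : ℝ) * (1 + Real.log q) ^ 2 * (2 * K + q)) := by ring
      _ ≤ _ := by
          apply mul_le_mul_of_nonneg_left _ (by positivity)
          apply mul_le_mul (mul_le_mul h3 h4 (by positivity) (by positivity)) h5 (by positivity)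
            (by positivity)
  have h1 := sum_Del A K Q
  have h2 : ∑ q ∈ Icc 1 Q, Er A K q / q ≤ (C * δ * (2 * (A : ℝ) ^ ((3 : ℝ) / 8))) *
      (C * δ * (1001 * δ) ^ 2 * (5 * (A : ℝ) ^ ((1 : ℝ) / 2))) := by
    refine le_trans (sum_le_sum hEr) ?_
    rw [← sum_mul]
    apply mul_le_mul_of_nonneg_right _ (by positivity)
    refine le_trans (gcd_sum A Q hA) ?_
    apply mul_le_mul (hdiv A (by omega)) _ (by positivity) (by positivity)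
    apply mul_le_mul_of_nonneg_left _ (by norm_num)
    calc (Q : ℝ) ^ ((3 : ℝ) / 4) ≤ ((A : ℝ) ^ ((1 : ℝ) / 2)) ^ ((3 : ℝ) / 4) :=
          Real.rpow_le_rpow (by positivity) hQh (by norm_num)
      _ = _ := by rw [← Real.rpow_mul ha0.le]; norm_num
  have h3 : 0 ≤ ∑ q ∈ Icc 1 Q, Er A K q / q :=
    sum_nonneg (fun q _ ↦ div_nonneg (Er_nonneg _ _ _) (by positivity))
  have h4 : (A : ℝ) ^ ((3 : ℝ) / 8) * (A : ℝ) ^ ((1 : ℝ) / 2) = (A : ℝ) ^ ((7 : ℝ) / 8) := by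
    rw [← Real.rpow_add ha0]; norm_num
  calc ∑ e ∈ Icc 1 Q, Del A K e ≤ (1 + Real.log Q) * ∑ q ∈ Icc 1 Q, Er A K q / q := h1
    _ ≤ (1001 * δ) * ((C * δ * (2 * (A : ℝ) ^ ((3 : ℝ) / 8))) *
      (C * δ * (1001 * δ) ^ 2 * (5 * (A : ℝ) ^ ((1 : ℝ) / 2)))) :=
        mul_le_mul (hlog Q hQ0 le_rfl) h2 h3 (by positivity)
    _ = 10 * C ^ 2 * 1001 ^ 3 * δ ^ 5 * ((A : ℝ) ^ ((3 : ℝ) / 8) * (A : ℝ) ^ ((1 : ℝ) / 2)) := by ring
    _ = _ := by rw [h4]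

/-- the asymptotic formula with an unevaluated main term -/
theorem S3 (w : ℕ) (hw : 1 ≤ w) : ∃ C : ℝ, 0 < C ∧ ∀ (A B ν : ℕ) (x0 y0 : ℤ),
    Hyp A B w ν x0 y0 → (B : ℝ) ≤ (A : ℝ) ^ ((1 : ℝ) / 100) →
    |(Nrep A B w x0 y0 : ℝ) - 8 * Smain A B w ν x0 y0| ≤ C * (A : ℝ) ^ ((99 : ℝ) / 100) := by
  obtain ⟨C, hC, hdiv⟩ := divisor_bound (1 / 1000) (by norm_num)
  refine ⟨40 * C + 8 * ((C * 1001) * ((3 + 8 * w) * (18 * w)) +
    (3 + 8 * w) ^ 2 * (10 * C ^ 2 * 1001 ^ 3)), by positivity, ?_⟩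
  intro A B ν x0 y0 H hBA
  have hB := H.hB
  have hA : 1 ≤ A := by
    rcases Nat.eq_zero_or_pos A with h | h
    · subst h
      have h1 : (1 : ℝ) ≤ B := by exact_mod_cast hB
      rw [Nat.cast_zero, Real.zero_rpow (by norm_num)] at hBA
      linarith
    · exact h
  have ha : (1 : ℝ) ≤ A := by exact_mod_cast hA
  have ha0 : (0 : ℝ) < A := by linarith
  set δ : ℝ := (A : ℝ) ^ ((1 : ℝ) / 1000) with hδ
  have hδ1 : 1 ≤ δ := Real.one_le_rpow ha (by norm_num)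
  have h920 : (1 : ℝ) ≤ (A : ℝ) ^ ((9 : ℝ) / 20) := Real.one_le_rpow ha (by norm_num)
  set K := ⌈(A : ℝ) ^ ((9 : ℝ) / 20)⌉₊ with hKdef
  have hK1 : (A : ℝ) ^ ((9 : ℝ) / 20) ≤ K := Nat.le_ceil _
  have hK2 : (K : ℝ) ≤ 2 * (A : ℝ) ^ ((9 : ℝ) / 20) := by
    have := Nat.ceil_lt_add_one (by positivity : 0 ≤ (A : ℝ) ^ ((9 : ℝ) / 20))
    linarith
  have hK0 : 0 < K := by
    have : (0 : ℝ) < K := by linarith
    exact_mod_cast this
  have hKsq : (A : ℝ) ^ ((9 : ℝ) / 10) ≤ (K : ℝ) ^ 2 := by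
    calc (A : ℝ) ^ ((9 : ℝ) / 10) = ((A : ℝ) ^ ((9 : ℝ) / 20)) ^ 2 := by
          rw [← Real.rpow_natCast, ← Real.rpow_mul ha0.le]; norm_num
      _ ≤ _ := pow_le_pow_left₀ (by positivity) hK1 2
  have h1 := S2 H K hK0
  have h2 := sqP_card C hC hdiv (ν := ν) (w := w) x0 y0 hA hB
  -- the sum over moduli
  set an : ℝ := (3 + 8 * w) * (18 * w) * (A : ℝ) ^ ((391 : ℝ) / 400) with han
  have h3 : ∀ e ∈ Eset A B w ν,
      (|kap A e| * (((Dset B w x0 y0 (Tp B w K ((A : ℝ) - 2 ^ ν * (e : ℝ) ^ 2))).card : ℝ) -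
        ((Dset B w x0 y0 (Tm B w K ((A : ℝ) - 2 ^ ν * (e : ℝ) ^ 2))).card : ℝ)) +
      Del A K e / (K : ℝ) ^ 2 *
        (Dset B w x0 y0 (Tp B w K ((A : ℝ) - 2 ^ ν * (e : ℝ) ^ 2))).card) ≤
      |kap A e| * an + Del A K e * ((3 + 8 * w) ^ 2 * (A : ℝ) ^ ((1 : ℝ) / 10)) := by
    intro e he
    obtain ⟨he0, _, _, _, hle, _⟩ := mem_Eset he
    have hT0 : 0 ≤ (A : ℝ) - 2 ^ ν * (e : ℝ) ^ 2 := by linarith
    have hTA : (A : ℝ) - 2 ^ ν * (e : ℝ) ^ 2 ≤ A := by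
      have : (0 : ℝ) ≤ 2 ^ ν * (e : ℝ) ^ 2 := by positivity
      linarith
    have h4 := annulus_bound (w := w) ha hB hw hBA hK2 x0 y0 hT0 hTA
    have h5 := card_Tp_le (w := w) ha hB hBA hK2 x0 y0 hT0 hTA
    have hDel : 0 ≤ Del A K e := by
      unfold Del
      apply mul_nonneg (by positivity)
      exact sum_nonneg (fun q _ ↦ Er_nonneg _ _ _)
    apply add_le_add
    · exact mul_le_mul_of_nonneg_left h4 (abs_nonneg _)
    · have h6 : Del A K e / (K : ℝ) ^ 2 ≤ Del A K e / (A : ℝ) ^ ((9 : ℝ) / 10) :=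
        div_le_div_of_nonneg_left hDel (by positivity) hKsq
      calc Del A K e / (K : ℝ) ^ 2 *
          ((Dset B w x0 y0 (Tp B w K ((A : ℝ) - 2 ^ ν * (e : ℝ) ^ 2))).card : ℝ) ≤
          Del A K e / (A : ℝ) ^ ((9 : ℝ) / 10) * ((3 + 8 * w) ^ 2 * A) :=
            mul_le_mul h6 h5 (by positivity) (by positivity)
        _ = Del A K e * ((3 + 8 * w) ^ 2 * (A / (A : ℝ) ^ ((9 : ℝ) / 10))) := by ring
        _ = _ := by
          have : (A : ℝ) / (A : ℝ) ^ ((9 : ℝ) / 10) = (A : ℝ) ^ ((1 : ℝ) / 10) := by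
            have h7 : (A : ℝ) = (A : ℝ) ^ ((1 : ℝ) / 10) * (A : ℝ) ^ ((9 : ℝ) / 10) := by
              rw [← Real.rpow_add ha0]; norm_num
            have h8 : (0 : ℝ) < (A : ℝ) ^ ((9 : ℝ) / 10) := by positivity
            rw [div_eq_iff h8.ne']; exact h7
          rw [this]
  have hEs : Eset A B w ν ⊆ Icc 1 (Nat.sqrt A) := by
    intro e he
    obtain ⟨he0, _, _, _, _, hle⟩ := mem_Eset he
    rw [mem_Icc]
    refine ⟨he0, ?_⟩
    rw [Nat.le_sqrt, ← sq]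
    exact_mod_cast hle
  have hDelnn : ∀ e, 0 ≤ Del A K e := by
    intro e
    unfold Del
    apply mul_nonneg (by positivity)
    exact sum_nonneg (fun q _ ↦ Er_nonneg _ _ _)
  have h4 : ∑ e ∈ Eset A B w ν, |kap A e| ≤ C * 1001 * δ ^ 2 := by
    refine le_trans (sum_le_sum_of_subset_of_nonneg hEs (fun _ _ _ ↦ abs_nonneg _)) ?_
    exact kap_sum C hC hdiv hA _ (Nat.sqrt_le_self A)
  have h5 : ∑ e ∈ Eset A B w ν, Del A K e ≤
      10 * C ^ 2 * 1001 ^ 3 * δ ^ 5 * (A : ℝ) ^ ((7 : ℝ) / 8) := by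
    refine le_trans (sum_le_sum_of_subset_of_nonneg hEs (fun _ _ _ ↦ hDelnn _)) ?_
    exact Del_sum C hC hdiv hA K hK2
  have h6 : ∑ e ∈ Eset A B w ν,
      (|kap A e| * (((Dset B w x0 y0 (Tp B w K ((A : ℝ) - 2 ^ ν * (e : ℝ) ^ 2))).card : ℝ) -
        ((Dset B w x0 y0 (Tm B w K ((A : ℝ) - 2 ^ ν * (e : ℝ) ^ 2))).card : ℝ)) +
      Del A K e / (K : ℝ) ^ 2 *
        (Dset B w x0 y0 (Tp B w K ((A : ℝ) - 2 ^ ν * (e : ℝ) ^ 2))).card) ≤
      ((C * 1001) * ((3 + 8 * w) * (18 * w)) +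
    (3 + 8 * w) ^ 2 * (10 * C ^ 2 * 1001 ^ 3)) * (A : ℝ) ^ ((99 : ℝ) / 100) := by
    refine le_trans (sum_le_sum h3) ?_
    rw [sum_add_distrib, ← sum_mul, ← sum_mul]
    have h7 : (∑ e ∈ Eset A B w ν, |kap A e|) * an ≤
        (C * 1001) * ((3 + 8 * w) * (18 * w)) * (A : ℝ) ^ ((99 : ℝ) / 100) := by
      calc (∑ e ∈ Eset A B w ν, |kap A e|) * an ≤ (C * 1001 * δ ^ 2) * an :=
            mul_le_mul_of_nonneg_right h4 (by positivity)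
        _ = (C * 1001) * ((3 + 8 * w) * (18 * w)) * (δ ^ 2 * (A : ℝ) ^ ((391 : ℝ) / 400)) := by
            rw [han]; ring
        _ ≤ _ := by
            apply mul_le_mul_of_nonneg_left _ (by positivity)
            have h8 : δ ^ 2 * (A : ℝ) ^ ((391 : ℝ) / 400) =
                (A : ℝ) ^ ((1 : ℝ) / 1000 * 2 + 391 / 400) := by
              rw [Real.rpow_add ha0, Real.rpow_mul ha0.le, hδ]
              norm_cast
            rw [h8]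
            exact Real.rpow_le_rpow_of_exponent_le ha (by norm_num)
    have h8 : (∑ e ∈ Eset A B w ν, Del A K e) * ((3 + 8 * w) ^ 2 * (A : ℝ) ^ ((1 : ℝ) / 10)) ≤
        (3 + 8 * w) ^ 2 * (10 * C ^ 2 * 1001 ^ 3) * (A : ℝ) ^ ((99 : ℝ) / 100) := by
      calc (∑ e ∈ Eset A B w ν, Del A K e) * ((3 + 8 * w) ^ 2 * (A : ℝ) ^ ((1 : ℝ) / 10)) ≤
          (10 * C ^ 2 * 1001 ^ 3 * δ ^ 5 * (A : ℝ) ^ ((7 : ℝ) / 8)) *
            ((3 + 8 * w) ^ 2 * (A : ℝ) ^ ((1 : ℝ) / 10)) :=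
            mul_le_mul_of_nonneg_right h5 (by positivity)
        _ = (3 + 8 * w) ^ 2 * (10 * C ^ 2 * 1001 ^ 3) * (δ ^ 5 * (A : ℝ) ^ ((7 : ℝ) / 8) *
            (A : ℝ) ^ ((1 : ℝ) / 10)) := by ring
        _ ≤ _ := by
            apply mul_le_mul_of_nonneg_left _ (by positivity)
            have h9 : δ ^ 5 * (A : ℝ) ^ ((7 : ℝ) / 8) * (A : ℝ) ^ ((1 : ℝ) / 10) =
                (A : ℝ) ^ ((1 : ℝ) / 1000 * 5 + 7 / 8 + 1 / 10) := by
              rw [Real.rpow_add ha0, Real.rpow_add ha0, Real.rpow_mul ha0.le, hδ]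
              norm_cast
            rw [h9]
            exact Real.rpow_le_rpow_of_exponent_le ha (by norm_num)
    linarith
  have h7 : 4 * ((((Dset B w x0 y0 A).filter (sqP A B ν)).card : ℕ) : ℝ) ≤
      40 * C * (A : ℝ) ^ ((99 : ℝ) / 100) := by
    have h8 : (1 : ℝ) ≤ (A : ℝ) ^ ((1 : ℝ) / 2) := Real.one_le_rpow ha (by norm_num)
    have h9 : ((A : ℝ) ^ ((1 : ℝ) / 2) + 1) * (4 * C * (A : ℝ) ^ ((1 : ℝ) / 1000) + 1) ≤
        (2 * (A : ℝ) ^ ((1 : ℝ) / 2)) * (5 * C * δ) := by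
      apply mul_le_mul _ _ (by positivity) (by positivity)
      · linarith
      · have : 1 ≤ C * δ := by nlinarith
        rw [← hδ]
        linarith
    have h10 : (2 * (A : ℝ) ^ ((1 : ℝ) / 2)) * (5 * C * δ) ≤ 10 * C * (A : ℝ) ^ ((99 : ℝ) / 100) := by
      have h11 : (A : ℝ) ^ ((1 : ℝ) / 2) * δ ≤ (A : ℝ) ^ ((99 : ℝ) / 100) := by
        rw [hδ, ← Real.rpow_add ha0]
        exact Real.rpow_le_rpow_of_exponent_le ha (by norm_num)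
      calc (2 * (A : ℝ) ^ ((1 : ℝ) / 2)) * (5 * C * δ) = 10 * C * ((A : ℝ) ^ ((1 : ℝ) / 2) * δ) := by
            ring
        _ ≤ _ := mul_le_mul_of_nonneg_left h11 (by positivity)
    linarith
  have h8 : (0 : ℝ) ≤ (A : ℝ) ^ ((99 : ℝ) / 100) := by positivity
  linarith

end Pool.Agent.Lib.MP_0e0027_nt
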