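import Mathlib
import Pool.Agent.Lib.MP_0e0027_nt.Errors

set_option autoImplicit false

open Finset

namespace Pool.Agent.Lib.MP_0e0027_nt

/-- number of points of the class at level `e` -/
noncomputable def Ilev (A B w ν : ℕ) (x0 y0 : ℤ) (e : ℕ) : ℝ :=
  ((Dset B w x0 y0 ((A : ℝ) - 2 ^ ν * (e : ℝ) ^ 2)).card : ℝ)

/-- the character restricted to integers coprime to `G` -/
noncomputable def cG (G f : ℕ) : ℝ := if Nat.Coprime f G then chi f else 0

/-- inner sum of the main term -/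
noncomputable def Jsum (A B w ν : ℕ) (x0 y0 : ℤ) (k : ℕ) : ℝ :=
  ∑ f ∈ Icc 1 A, cG (w * B) f / f * Ilev A B w ν x0 y0 (k * f)

theorem Ilev_nonneg (A B w ν : ℕ) (x0 y0 : ℤ) (e : ℕ) : 0 ≤ Ilev A B w ν x0 y0 e := by
  unfold Ilev; positivity

theorem Ilev_zero_of {A B w ν : ℕ} (hB : 1 ≤ B) (x0 y0 : ℤ) {e : ℕ}
    (h : A < 2 ^ ν * e ^ 2) : Ilev A B w ν x0 y0 e = 0 := by
  unfold Ilev
  have hempty : Dset B w x0 y0 ((A : ℝ) - 2 ^ ν * (e : ℝ) ^ 2) = ∅ := by
    rw [eq_empty_iff_forall_notMem]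
    intro z hz
    rw [mem_Dset hB] at hz
    have h5 : (A : ℝ) < 2 ^ ν * (e : ℝ) ^ 2 := by exact_mod_cast h
    have h6 : (0 : ℝ) ≤ (B : ℝ) * ((z.1 : ℝ) ^ 2 + (z.2 : ℝ) ^ 2) := by positivity
    linarith [hz.2.2]
  rw [hempty]; simp

theorem Ilev_zero_of_lt {A B w ν : ℕ} (hB : 1 ≤ B) (x0 y0 : ℤ) {e : ℕ}
    (h : A < e) : Ilev A B w ν x0 y0 e = 0 := by
  apply Ilev_zero_of hB
  have h1 : 1 ≤ 2 ^ ν := Nat.one_le_two_pow
  calc A < e := h
    _ ≤ e ^ 2 := by nlinarith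
    _ ≤ 2 ^ ν * e ^ 2 := Nat.le_mul_of_pos_left _ (by positivity)

theorem Jsum_zero {A B w ν : ℕ} (hB : 1 ≤ B) (x0 y0 : ℤ) {k : ℕ} (h : A < k) :
    Jsum A B w ν x0 y0 k = 0 := by
  unfold Jsum
  apply sum_eq_zero
  intro f hf
  rw [mem_Icc] at hf
  rw [Ilev_zero_of_lt hB x0 y0, mul_zero]
  calc A < k := h
    _ ≤ k * f := Nat.le_mul_of_pos_right _ (by omega)

theorem sum_divisors_swap (A : ℕ) (F : ℕ → ℕ → ℝ) (hF : ∀ q f, A < q * f → F q f = 0) :
    ∑ e ∈ Icc 1 A, ∑ q ∈ e.divisors, F q (e / q) = ∑ q ∈ Icc 1 A, ∑ f ∈ Icc 1 A, F q f := by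
  have h1 : ∀ q ∈ Icc 1 A, ∀ f ∈ Icc 1 A, F q f =
      ∑ e ∈ Icc 1 A, if e = q * f then F q f else 0 := by
    intro q hq f hf
    rw [mem_Icc] at hq hf
    by_cases h : A < q * f
    · rw [hF q f h]
      simp
    · rw [sum_ite_eq' (Icc 1 A) (q * f), if_pos]
      rw [mem_Icc]
      exact ⟨Nat.mul_pos (by omega) (by omega), by omega⟩
  rw [sum_congr rfl (fun q hq ↦ sum_congr rfl (fun f hf ↦ h1 q hq f hf))]
  have h2 : ∑ q ∈ Icc 1 A, ∑ f ∈ Icc 1 A, ∑ e ∈ Icc 1 A, (if e = q * f then F q f else 0) =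
      ∑ e ∈ Icc 1 A, ∑ q ∈ Icc 1 A, ∑ f ∈ Icc 1 A, (if e = q * f then F q f else 0) := by
    rw [sum_congr rfl (fun q _ ↦ sum_comm), sum_comm]
  rw [h2]
  refine sum_congr rfl (fun e he ↦ ?_)
  rw [mem_Icc] at he
  have h3 : e.divisors = (Icc 1 A).filter (fun q ↦ q ∣ e) := by
    ext q
    rw [Nat.mem_divisors, mem_filter, mem_Icc]
    constructor
    · rintro ⟨h, _⟩
      have := Nat.le_of_dvd (by omega) h
      have := Nat.pos_of_dvd_of_pos h (by omega)
      exact ⟨⟨by omega, by omega⟩, h⟩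
    · rintro ⟨_, h⟩
      exact ⟨h, by omega⟩
  rw [h3, sum_filter]
  refine sum_congr rfl (fun q hq ↦ ?_)
  rw [mem_Icc] at hq
  by_cases hqe : q ∣ e
  · rw [if_pos hqe]
    obtain ⟨f, rfl⟩ := hqe
    have hq0 : 0 < q := by omega
    have hf0 : 0 < f := by
      rcases Nat.eq_zero_or_pos f with h | h
      · subst h; omega
      · exact h
    rw [Nat.mul_div_cancel_left f hq0]
    have h4 : ∀ f' : ℕ, (if q * f = q * f' then F q f' else 0) = if f' = f then F q f' else 0 := by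
      intro f'
      by_cases h : f' = f
      · subst h; simp
      · rw [if_neg h, if_neg]
        intro h'
        exact h (Nat.eq_of_mul_eq_mul_left hq0 h').symm
    rw [sum_congr rfl (fun f' _ ↦ h4 f'), sum_ite_eq' (Icc 1 A) f, if_pos]
    rw [mem_Icc]
    refine ⟨by omega, ?_⟩
    calc f ≤ q * f := Nat.le_mul_of_pos_left _ hq0
      _ ≤ A := he.2
  · rw [if_neg hqe]
    symm
    apply sum_eq_zero
    intro f _
    rw [if_neg]
    rintro rfl
    exact hqe (Dvd.intro f rfl)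

theorem chi_mul (m n : ℕ) : chi (m * n) = chi m * chi n := by
  have h := c4_mul m n
  unfold c4 at h
  unfold chi
  rw [h]; push_cast; ring

theorem chi_sq_odd {n : ℕ} (h : n % 2 = 1) : chi n * chi n = 1 := by
  have h1 := c4_sq_odd h
  unfold c4 at h1
  unfold chi
  exact_mod_cast h1

theorem c4_cast (n : ℕ) : (c4 n : ℝ) = chi n := rfl

theorem Smain_eq {A B w ν : ℕ} (hB : 1 ≤ B) (hw : 2 ∣ w) (x0 y0 : ℤ) :
    Smain A B w ν x0 y0 = ∑ d ∈ Icc 1 A, ∑ m ∈ Icc 1 A,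
      (if (d ∣ A ∧ Nat.Coprime d (w * B)) then 1 / (d : ℝ) else 0) *
      ((if Nat.Coprime m (w * B) then (ArithmeticFunction.moebius m : ℝ) / (m : ℝ) ^ 2 else 0) *
        Jsum A B w ν x0 y0 (d * m)) := by
  set G := w * B with hG
  have hodd : ∀ e : ℕ, Nat.Coprime e G → e % 2 = 1 := by
    intro e he
    have h2 : 2 ∣ G := Dvd.dvd.mul_right hw B
    by_contra hcon
    have h3 : 2 ∣ e := by omega
    have h4 := Nat.dvd_gcd h3 h2
    rw [he.gcd_eq_one] at h4
    omega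
  -- step 1: extend the range
  have h1 : Smain A B w ν x0 y0 = ∑ e ∈ Icc 1 A, if Nat.Coprime e G then
      chi e * (kap A e * Ilev A B w ν x0 y0 e) else 0 := by
    rw [← sum_filter]
    unfold Smain
    apply sum_subset_zero_on_sdiff
    · intro e he
      obtain ⟨he0, _, h2, h3, _, h4⟩ := mem_Eset he
      rw [mem_filter, mem_Icc]
      refine ⟨⟨he0, ?_⟩, Nat.Coprime.mul_right h2 h3⟩
      have h5 : e ^ 2 ≤ A := by exact_mod_cast h4
      nlinarith
    · intro e he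
      rw [mem_sdiff, mem_filter, mem_Icc] at he
      obtain ⟨⟨he1, he2⟩, he3⟩ := he
      have h4 : A < 2 ^ ν * e ^ 2 := by
        by_contra hcon
        push Not at hcon
        apply he3
        unfold Eset
        rw [mem_filter, mem_range]
        exact ⟨by omega, Nat.odd_iff.mpr (hodd e he2), Nat.Coprime.coprime_mul_right_right he2,
          Nat.Coprime.coprime_mul_left_right he2, hcon⟩
      rw [Ilev_zero_of hB x0 y0 h4]
      ring
    · intro e _
      rfl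
  -- step 2: unfold kap and swap
  have h2 : Smain A B w ν x0 y0 = ∑ q ∈ Icc 1 A, (if Nat.Coprime q G then
      (rc q A : ℝ) / (q : ℝ) ^ 2 * Jsum A B w ν x0 y0 q else 0) := by
    rw [h1]
    have h3 : ∀ e ∈ Icc 1 A, (if Nat.Coprime e G then
      chi e * (kap A e * Ilev A B w ν x0 y0 e) else 0) =
      ∑ q ∈ e.divisors, (fun q f : ℕ ↦ if Nat.Coprime (q * f) G then
        chi (q * f) * (1 / ((q * f : ℕ) : ℝ) * (chi q / q * rc q A) *
          Ilev A B w ν x0 y0 (q * f)) else 0) q (e / q) := by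
      intro e he
      rw [mem_Icc] at he
      by_cases hc : Nat.Coprime e G
      · rw [if_pos hc]
        unfold kap
        rw [mul_sum, sum_mul, mul_sum]
        refine sum_congr rfl (fun q hq ↦ ?_)
        have hqe : q * (e / q) = e := Nat.mul_div_cancel' (Nat.dvd_of_mem_divisors hq)
        simp only [hqe, if_pos hc]
      · rw [if_neg hc]
        symm
        apply sum_eq_zero
        intro q hq
        have hqe : q * (e / q) = e := Nat.mul_div_cancel' (Nat.dvd_of_mem_divisors hq)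
        simp only [hqe, if_neg hc]
    refine (sum_congr rfl h3).trans ((sum_divisors_swap A (fun q f : ℕ ↦ if Nat.Coprime (q * f) G then
        chi (q * f) * (1 / ((q * f : ℕ) : ℝ) * (chi q / q * rc q A) *
          Ilev A B w ν x0 y0 (q * f)) else 0) ?_).trans ?_)
    rotate_left
    · refine sum_congr rfl (fun q hq ↦ ?_)
      rw [mem_Icc] at hq
      have hq0 : (0 : ℝ) < q := by exact_mod_cast (show 0 < q by omega)
      by_cases hc : Nat.Coprime q G
      · rw [if_pos hc]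
        unfold Jsum
        rw [mul_sum]
        refine sum_congr rfl (fun f hf ↦ ?_)
        rw [mem_Icc] at hf
        have hf0 : (0 : ℝ) < f := by exact_mod_cast (show 0 < f by omega)
        unfold cG
        by_cases hcf : Nat.Coprime f G
        · rw [if_pos (Nat.Coprime.mul_left hc hcf), if_pos hcf, chi_mul]
          have h4 := chi_sq_odd (hodd q hc)
          push_cast
          have h5 : chi q * chi f * (1 / (↑q * ↑f) * (chi q / ↑q * (rc q ↑A : ℝ)) *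
              Ilev A B w ν x0 y0 (q * f)) = (chi q * chi q) * (chi f * (1 / (↑q * ↑f) *
                (1 / ↑q * (rc q ↑A : ℝ)) * Ilev A B w ν x0 y0 (q * f))) := by ring
          rw [h5, h4]
          field_simp
        · rw [if_neg (fun h ↦ hcf (Nat.Coprime.coprime_mul_left h)), if_neg hcf]
          simp
      · rw [if_neg hc]
        apply sum_eq_zero
        intro f _
        rw [if_neg (fun h ↦ hc (Nat.Coprime.coprime_mul_right h))]
    · intro q f h
      rw [Ilev_zero_of_lt hB x0 y0 h]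
      simp
  rw [h2]
  have h3 : ∀ q ∈ Icc 1 A, (if Nat.Coprime q G then
      (rc q A : ℝ) / (q : ℝ) ^ 2 * Jsum A B w ν x0 y0 q else 0) =
      ∑ m ∈ q.divisors, (fun m d : ℕ ↦ if Nat.Coprime (m * d) G then
        (ArithmeticFunction.moebius m : ℝ) * (if d ∣ A then (d : ℝ) else 0) /
          ((m * d : ℕ) : ℝ) ^ 2 * Jsum A B w ν x0 y0 (m * d) else 0) m (q / m) := by
    intro q hq
    rw [mem_Icc] at hq
    by_cases hc : Nat.Coprime q G
    · rw [if_pos hc]
      unfold rc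
      rw [Nat.sum_divisorsAntidiagonal (fun a b ↦ ArithmeticFunction.moebius a *
        (if ((b : ℕ) : ℤ) ∣ (A : ℤ) then ((b : ℕ) : ℤ) else 0))]
      push_cast
      rw [sum_div, sum_mul]
      refine sum_congr rfl (fun m hm ↦ ?_)
      have hmq : m * (q / m) = q := Nat.mul_div_cancel' (Nat.dvd_of_mem_divisors hm)
      simp only [hmq, if_pos hc]
      have h5 : ((q / m : ℕ) : ℤ) ∣ (A : ℤ) ↔ (q / m) ∣ A := by
        rw [Int.natCast_dvd_natCast]
      by_cases h4 : (q / m) ∣ A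
      · rw [if_pos h4]
        have h6 : ((q : ℤ) / (m : ℤ)) ∣ (A : ℤ) := by exact_mod_cast h4
        rw [if_pos h6]
        have h7 : (((q : ℤ) / (m : ℤ) : ℤ) : ℝ) = ((q / m : ℕ) : ℝ) := by
          norm_cast
        rw [h7, ← Nat.cast_mul, hmq]
      · rw [if_neg h4]
        have h6 : ¬ ((q : ℤ) / (m : ℤ)) ∣ (A : ℤ) := by exact_mod_cast h4
        rw [if_neg h6]
        simp
    · rw [if_neg hc]
      symm
      apply sum_eq_zero
      intro m hm
      have hmq : m * (q / m) = q := Nat.mul_div_cancel' (Nat.dvd_of_mem_divisors hm)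
      simp only [hmq, if_neg hc]
  refine (sum_congr rfl h3).trans ((sum_divisors_swap A (fun m d : ℕ ↦ if Nat.Coprime (m * d) G then
        (ArithmeticFunction.moebius m : ℝ) * (if d ∣ A then (d : ℝ) else 0) /
          ((m * d : ℕ) : ℝ) ^ 2 * Jsum A B w ν x0 y0 (m * d) else 0) ?_).trans ?_)
  rotate_left
  · rw [sum_comm]
    refine sum_congr rfl (fun d hd ↦ sum_congr rfl (fun m hm ↦ ?_))
    rw [mem_Icc] at hd hm
    have hd0 : (0 : ℝ) < d := by exact_mod_cast (show 0 < d by omega)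
    have hm0 : (0 : ℝ) < m := by exact_mod_cast (show 0 < m by omega)
    by_cases hcd : Nat.Coprime d G
    · by_cases hcm : Nat.Coprime m G
      · rw [if_pos (Nat.Coprime.mul_left hcm hcd), if_pos hcm]
        by_cases hdA : d ∣ A
        · rw [if_pos hdA, if_pos ⟨hdA, hcd⟩, mul_comm m d]
          push_cast
          field_simp
        · rw [if_neg hdA, if_neg (fun h ↦ hdA h.1)]
          simp
      · rw [if_neg (fun h ↦ hcm (Nat.Coprime.coprime_mul_right h)), if_neg hcm]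
        simp
    · rw [if_neg (fun h ↦ hcd (Nat.Coprime.coprime_mul_left h)), if_neg (fun h ↦ hcd h.2)]
      simp
  · intro m d h
    rw [Jsum_zero hB x0 y0 h]
    simp

end Pool.Agent.Lib.MP_0e0027_nt

namespace Pool.Agent.Lib.MP_0e0027_nt

theorem abel_bound (c X : ℕ → ℝ) (C : ℝ) (a b : ℕ) (hab : a ≤ b) (hX0 : 0 ≤ X b)
    (hX : ∀ f, a ≤ f → f < b → X (f + 1) ≤ X f) (hc : ∀ b', a ≤ b' → |∑ f ∈ Ico a b', c f| ≤ C) :
    |∑ f ∈ Ico a b, c f * X f| ≤ C * X a := by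
  have key : ∀ b, a ≤ b → (∀ f, a ≤ f → f < b → X (f + 1) ≤ X f) →
      |∑ f ∈ Ico a b, c f * X f - (∑ f ∈ Ico a b, c f) * X b| ≤ C * (X a - X b) := by
    intro b hab
    induction b, hab using Nat.le_induction with
    | base => intro _; simp
    | succ b hab ih =>
      intro hX
      have h1 := ih (fun f h1 h2 ↦ hX f h1 (by omega))
      have h2 := hX b hab (by omega)
      have h3 := hc (b + 1) (by omega)
      have h4 : ∑ f ∈ Ico a (b + 1), c f * X f - (∑ f ∈ Ico a (b + 1), c f) * X (b + 1) =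
          (∑ f ∈ Ico a b, c f * X f - (∑ f ∈ Ico a b, c f) * X b) +
          (∑ f ∈ Ico a (b + 1), c f) * (X b - X (b + 1)) := by
        rw [sum_Ico_succ_top hab, sum_Ico_succ_top hab]
        ring
      rw [h4]
      refine le_trans (abs_add_le _ _) ?_
      have h5 : |(∑ f ∈ Ico a (b + 1), c f) * (X b - X (b + 1))| ≤ C * (X b - X (b + 1)) := by
        rw [abs_mul, abs_of_nonneg (by linarith : 0 ≤ X b - X (b + 1))]
        exact mul_le_mul_of_nonneg_right h3 (by linarith)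
      linarith
  have h1 := key b hab hX
  have h2 := hc b hab
  have h3 : |(∑ f ∈ Ico a b, c f) * X b| ≤ C * X b := by
    rw [abs_mul, abs_of_nonneg hX0]
    exact mul_le_mul_of_nonneg_right h2 hX0
  have h4 : ∑ f ∈ Ico a b, c f * X f = (∑ f ∈ Ico a b, c f * X f - (∑ f ∈ Ico a b, c f) * X b) +
      (∑ f ∈ Ico a b, c f) * X b := by ring
  rw [h4]
  refine le_trans (abs_add_le _ _) ?_
  linarith

/-- sieved character -/
noncomputable def cS (S : Finset ℕ) (f : ℕ) : ℝ := if ∀ p ∈ S, ¬ p ∣ f then chi f else 0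

theorem chi_zero : chi 0 = 0 := by unfold chi; simp

theorem cS_zero (S : Finset ℕ) : cS S 0 = 0 := by
  unfold cS; split_ifs
  · exact chi_zero
  · rfl

theorem cS_empty (f : ℕ) : cS ∅ f = chi f := by unfold cS; simp

theorem cS_mul_prime {S : Finset ℕ} (hS : ∀ q ∈ S, q.Prime) {p : ℕ} (hp : p.Prime) (hpS : p ∉ S)
    (j : ℕ) : cS S (p * j) = chi p * cS S j := by
  unfold cS
  have h1 : (∀ q ∈ S, ¬ q ∣ p * j) ↔ (∀ q ∈ S, ¬ q ∣ j) := by
    constructor
    · intro h q hq hqj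
      exact h q hq (Dvd.dvd.mul_left hqj p)
    · intro h q hq hqj
      rcases (hS q hq).dvd_mul.mp hqj with h2 | h2
      · have := (Nat.prime_dvd_prime_iff_eq (hS q hq) hp).mp h2
        exact hpS (this ▸ hq)
      · exact h q hq h2
  by_cases h : ∀ q ∈ S, ¬ q ∣ j
  · rw [if_pos h, if_pos (h1.mpr h), chi_mul]
  · rw [if_neg h, if_neg (fun h' ↦ h (h1.mp h')), mul_zero]

theorem cS_insert_sum {S : Finset ℕ} (hS : ∀ q ∈ S, q.Prime) {p : ℕ} (hp : p.Prime) (hpS : p ∉ S)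
    (g : ℕ → ℝ) (N : ℕ) :
    ∑ f ∈ Icc 1 N, cS (insert p S) f * g f = ∑ f ∈ Icc 1 N, cS S f * g f -
      ∑ j ∈ Icc 1 (N / p), chi p * (cS S j * g (p * j)) := by
  have h1 : ∀ f, cS (insert p S) f * g f = cS S f * g f - (if p ∣ f then cS S f * g f else 0) := by
    intro f
    unfold cS
    by_cases hpf : p ∣ f
    · rw [if_neg, if_pos hpf]
      · ring
      · intro h
        exact h p (mem_insert_self _ _) hpf
    · rw [if_neg hpf, sub_zero]
      congr 1
      apply if_congr _ rfl rfl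
      constructor
      · intro h q hq; exact h q (mem_insert_of_mem hq)
      · intro h q hq
        rcases mem_insert.mp hq with h2 | h2
        · subst h2; exact hpf
        · exact h q h2
  rw [sum_congr rfl (fun f _ ↦ h1 f), sum_sub_distrib]
  congr 1
  rw [← sum_filter]
  have h2 : (Icc 1 N).filter (fun f ↦ p ∣ f) = (Icc 1 (N / p)).image (fun j ↦ p * j) := by
    ext f
    rw [mem_filter, mem_Icc, mem_image]
    constructor
    · rintro ⟨⟨h3, h4⟩, j, rfl⟩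
      refine ⟨j, ?_, rfl⟩
      rw [mem_Icc]
      refine ⟨?_, ?_⟩
      · rcases Nat.eq_zero_or_pos j with h | h
        · subst h; omega
        · exact h
      · rw [Nat.le_div_iff_mul_le hp.pos, mul_comm]; exact h4
    · rintro ⟨j, hj, rfl⟩
      rw [mem_Icc] at hj
      refine ⟨⟨Nat.mul_pos hp.pos (by omega), ?_⟩, Dvd.intro j rfl⟩
      have := hj.2
      rw [Nat.le_div_iff_mul_le hp.pos, mul_comm] at this
      exact this
  rw [h2, sum_image]
  · refine sum_congr rfl (fun j _ ↦ ?_)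
    rw [cS_mul_prime hS hp hpS]
    ring
  · intro j _ j' _ h
    exact Nat.eq_of_mul_eq_mul_left hp.pos h

theorem chi_val (n : ℕ) : chi n = if n % 4 = 1 then 1 else if n % 4 = 3 then -1 else 0 := by
  rw [← c4_cast]
  have : n % 4 = 0 ∨ n % 4 = 1 ∨ n % 4 = 2 ∨ n % 4 = 3 := by omega
  rcases this with h | h | h | h
  · rw [c4_even (by omega)]; simp [h]
  · rw [c4_of_one h]; simp [h]
  · rw [c4_even (by omega)]; simp [h]
  · rw [c4_of_three h]; simp [h]

theorem sum_chi (N : ℕ) : ∑ f ∈ Icc 1 N, chi f = if (N % 4 = 1 ∨ N % 4 = 2) then 1 else 0 := by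
  induction N with
  | zero => simp
  | succ N ih =>
    rw [sum_Icc_succ_top (by omega), ih, chi_val]
    have : N % 4 = 0 ∨ N % 4 = 1 ∨ N % 4 = 2 ∨ N % 4 = 3 := by omega
    rcases this with h | h | h | h
    · have h1 : (N + 1) % 4 = 1 := by omega
      simp [h, h1]
    · have h1 : (N + 1) % 4 = 2 := by omega
      simp [h, h1]
    · have h1 : (N + 1) % 4 = 3 := by omega
      simp [h, h1]
    · have h1 : (N + 1) % 4 = 0 := by omega
      simp [h, h1]

theorem abs_chi_le' (n : ℕ) : |chi n| ≤ 1 := by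
  rw [← c4_cast]; exact_mod_cast abs_c4_le n

theorem cS_partial (S : Finset ℕ) (hS : ∀ q ∈ S, q.Prime) (N : ℕ) :
    |∑ f ∈ Icc 1 N, cS S f| ≤ 2 ^ S.card := by
  induction S using Finset.induction_on generalizing N with
  | empty =>
    simp only [cS_empty]
    rw [sum_chi]
    split_ifs <;> simp
  | insert p S hp ih =>
    have hS' : ∀ q ∈ S, q.Prime := fun q hq ↦ hS q (mem_insert_of_mem hq)
    have h1 := cS_insert_sum hS' (hS p (mem_insert_self _ _)) hp (fun _ ↦ (1 : ℝ)) N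
    simp only [mul_one] at h1
    rw [h1, ← mul_sum, card_insert_of_notMem hp, pow_succ]
    refine le_trans (abs_sub _ _) ?_
    rw [abs_mul]
    have h2 := ih hS' N
    have h3 := ih hS' (N / p)
    have h4 := abs_chi_le' p
    have h5 : |chi p| * |∑ i ∈ Icc 1 (N / p), cS S i| ≤ 1 * 2 ^ S.card :=
      mul_le_mul h4 h3 (abs_nonneg _) (by norm_num)
    linarith

theorem cS_partial_Ico (S : Finset ℕ) (hS : ∀ q ∈ S, q.Prime) (a b : ℕ) (ha : 1 ≤ a) (hab : a ≤ b) :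
    |∑ f ∈ Ico a b, cS S f| ≤ 2 ^ (S.card + 1) := by
  have h1 : ∑ f ∈ Ico a b, cS S f = ∑ f ∈ Icc 1 (b - 1), cS S f - ∑ f ∈ Icc 1 (a - 1), cS S f := by
    have e1 : Icc 1 (b - 1) = Ico 1 b := by
      ext x; rw [mem_Icc, mem_Ico]; omega
    have e2 : Icc 1 (a - 1) = Ico 1 a := by
      ext x; rw [mem_Icc, mem_Ico]; omega
    rw [e1, e2, ← sum_Ico_consecutive _ ha hab]
    ring
  rw [h1, pow_succ]
  refine le_trans (abs_sub _ _) ?_
  have h2 := cS_partial S hS (b - 1)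
  have h3 := cS_partial S hS (a - 1)
  linarith

theorem cS_partial_one (S : Finset ℕ) (hS : ∀ q ∈ S, q.Prime) (b : ℕ) :
    |∑ f ∈ Ico 1 b, cS S f| ≤ 2 ^ S.card := by
  have e1 : Ico 1 b = Icc 1 (b - 1) := by
    ext x; rw [mem_Icc, mem_Ico]; omega
  rw [e1]
  exact cS_partial S hS _

/-- partial sums of the sieved `L`-series -/
noncomputable def HS (S : Finset ℕ) (N : ℕ) : ℝ := ∑ f ∈ Icc 1 N, cS S f / f

theorem HS_insert {S : Finset ℕ} (hS : ∀ q ∈ S, q.Prime) {p : ℕ} (hp : p.Prime) (hpS : p ∉ S)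
    (N : ℕ) : HS (insert p S) N = HS S N - chi p / p * HS S (N / p) := by
  unfold HS
  have h1 := cS_insert_sum hS hp hpS (fun f ↦ 1 / (f : ℝ)) N
  simp only [mul_one_div] at h1
  rw [h1, mul_sum]
  congr 1
  refine sum_congr rfl (fun j _ ↦ ?_)
  push_cast
  rw [mul_comm (p : ℝ) (j : ℝ), ← div_div]
  ring

theorem HS_empty_diff (N N' : ℕ) (h : N ≤ N') : |HS ∅ N' - HS ∅ N| ≤ 2 / ((N : ℝ) + 1) := by
  have h1 : HS ∅ N' - HS ∅ N = ∑ f ∈ Ico (N + 1) (N' + 1), cS ∅ f * (1 / (f : ℝ)) := by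
    unfold HS
    have e1 : Icc 1 N' = Ico 1 (N' + 1) := by ext x; rw [mem_Icc, mem_Ico]; omega
    have e2 : Icc 1 N = Ico 1 (N + 1) := by ext x; rw [mem_Icc, mem_Ico]; omega
    rw [e1, e2, ← sum_Ico_consecutive _ (by omega : 1 ≤ N + 1) (by omega : N + 1 ≤ N' + 1)]
    simp only [mul_one_div]
    ring
  rw [h1]
  have h2 := abel_bound (cS ∅) (fun f ↦ 1 / (f : ℝ)) 2 (N + 1) (N' + 1) (by omega) (by positivity)
    (fun f hf _ ↦ by
      apply one_div_le_one_div_of_le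
      · exact_mod_cast (show 0 < f by omega)
      · push_cast; linarith)
    (fun b' hb' ↦ by
      have := cS_partial_Ico ∅ (by simp) (N + 1) b' (by omega) hb'
      simpa using this)
  push_cast at h2
  rw [mul_one_div] at h2
  exact h2

theorem HS_empty_ge (N : ℕ) (hN : 1 ≤ N) : 2 / 3 ≤ HS ∅ N := by
  rcases Nat.lt_or_ge N 3 with h | h
  · interval_cases N
    · unfold HS; simp [cS_empty, chi_val]; norm_num
    · unfold HS
      rw [sum_Icc_succ_top (by omega)]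
      simp [cS_empty, chi_val]; norm_num
  · have h1 : HS ∅ N = HS ∅ 2 + ∑ f ∈ Ico 3 (N + 1), cS ∅ f * (1 / (f : ℝ)) := by
      unfold HS
      have e1 : Icc 1 N = Ico 1 (N + 1) := by ext x; rw [mem_Icc, mem_Ico]; omega
      have e2 : Icc 1 2 = Ico 1 3 := by ext x; rw [mem_Icc, mem_Ico]; omega
      rw [e1, e2, ← sum_Ico_consecutive _ (by omega : 1 ≤ 3) (by omega : 3 ≤ N + 1)]
      simp only [mul_one_div]
    have h2 : HS ∅ 2 = 1 := by
      unfold HS
      rw [sum_Icc_succ_top (by omega)]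
      simp [cS_empty, chi_val]
    have h3 := abel_bound (cS ∅) (fun f ↦ 1 / (f : ℝ)) 1 3 (N + 1) (by omega) (by positivity)
      (fun f hf _ ↦ by
        apply one_div_le_one_div_of_le
        · exact_mod_cast (show 0 < f by omega)
        · push_cast; linarith)
      (fun b' hb' ↦ by
        have h4 : ∑ f ∈ Ico 3 b', cS ∅ f = ∑ f ∈ Icc 1 (b' - 1), cS ∅ f - ∑ f ∈ Icc 1 2, cS ∅ f := by
          have e1 : Icc 1 (b' - 1) = Ico 1 b' := by ext x; rw [mem_Icc, mem_Ico]; omega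
          have e2 : Icc 1 2 = Ico 1 3 := by ext x; rw [mem_Icc, mem_Ico]; omega
          rw [e1, e2, ← sum_Ico_consecutive _ (by omega : 1 ≤ 3) hb']
          ring
        rw [h4]
        simp only [cS_empty]
        rw [sum_chi, sum_chi]
        split_ifs <;> norm_num)
    rw [h1, h2]
    rw [abs_le] at h3
    have h4 := h3.1
    push_cast at h4
    linarith

theorem exists_L (S : Finset ℕ) (hS : ∀ q ∈ S, q.Prime) :
    ∃ L : ℝ, (2 / 3) * ∏ p ∈ S, (1 - 1 / (p : ℝ)) ≤ L ∧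
      ∀ N : ℕ, |HS S N - L| ≤ 2 ^ (S.card + 1) / ((N : ℝ) + 1) := by
  induction S using Finset.induction_on with
  | empty =>
    have hc : CauchySeq (HS ∅) := by
      rw [Metric.cauchySeq_iff']
      intro ε hε
      obtain ⟨N, hN⟩ := exists_nat_gt (2 / ε)
      refine ⟨N, fun n hn ↦ ?_⟩
      rw [Real.dist_eq]
      refine lt_of_le_of_lt (HS_empty_diff N n hn) ?_
      rw [div_lt_iff₀ (by positivity)]
      rw [div_lt_iff₀ hε] at hN
      nlinarith
    obtain ⟨L, hL⟩ := cauchySeq_tendsto_of_complete hc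
    refine ⟨L, ?_, ?_⟩
    · rw [prod_empty, mul_one]
      apply ge_of_tendsto hL
      filter_upwards [Filter.eventually_ge_atTop 1] with N hN
      exact HS_empty_ge N hN
    · intro N
      have h1 : Filter.Tendsto (fun N' ↦ |HS ∅ N - HS ∅ N'|) Filter.atTop (nhds |HS ∅ N - L|) :=
        (tendsto_const_nhds.sub hL).abs
      apply le_of_tendsto h1
      filter_upwards [Filter.eventually_ge_atTop N] with N' hN'
      rw [abs_sub_comm]
      have := HS_empty_diff N N' hN'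
      simpa using this
  | insert p S hp ih =>
    have hS' : ∀ q ∈ S, q.Prime := fun q hq ↦ hS q (mem_insert_of_mem hq)
    have hpp : p.Prime := hS p (mem_insert_self _ _)
    obtain ⟨L, hL1, hL2⟩ := ih hS'
    have hp0 : (0 : ℝ) < p := by exact_mod_cast hpp.pos
    have hp1 : (1 : ℝ) ≤ p := by exact_mod_cast hpp.one_lt.le
    have hchi := abs_chi_le' p
    have hprod : 0 ≤ ∏ p ∈ S, (1 - 1 / (p : ℝ)) := by
      apply prod_nonneg
      intro q hq
      have h1 : (1 : ℝ) ≤ q := by exact_mod_cast (hS' q hq).one_lt.le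
      have h2 : 1 / (q : ℝ) ≤ 1 := by rw [div_le_one (by linarith)]; exact h1
      linarith
    have h0 : 0 ≤ 1 - 1 / (p : ℝ) := by
      have h2 : 1 / (p : ℝ) ≤ 1 := by rw [div_le_one (by linarith)]; exact hp1
      linarith
    refine ⟨L * (1 - chi p / p), ?_, ?_⟩
    · rw [prod_insert hp]
      have h1 : 1 - 1 / (p : ℝ) ≤ 1 - chi p / p := by
        have : chi p / p ≤ 1 / p := div_le_div_of_nonneg_right (le_trans (le_abs_self _) hchi) hp0.le
        linarith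
      have hL0 : 0 ≤ L := le_trans (by positivity) hL1
      calc 2 / 3 * ((1 - 1 / (p : ℝ)) * ∏ p ∈ S, (1 - 1 / (p : ℝ))) =
            (2 / 3 * ∏ p ∈ S, (1 - 1 / (p : ℝ))) * (1 - 1 / (p : ℝ)) := by ring
        _ ≤ L * (1 - 1 / (p : ℝ)) := mul_le_mul_of_nonneg_right hL1 h0
        _ ≤ L * (1 - chi p / p) := mul_le_mul_of_nonneg_left h1 hL0
    · intro N
      rw [HS_insert hS' hpp hp, card_insert_of_notMem hp]
      have h1 : HS S N - chi p / ↑p * HS S (N / p) - L * (1 - chi p / ↑p) =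
          (HS S N - L) - chi p / p * (HS S (N / p) - L) := by ring
      rw [h1]
      refine le_trans (abs_sub _ _) ?_
      have h2 := hL2 N
      have h3 := hL2 (N / p)
      have h4 : |chi p / p * (HS S (N / p) - L)| ≤ 2 ^ (S.card + 1) / ((N : ℝ) + 1) := by
        rw [abs_mul, abs_div, abs_of_pos hp0]
        calc |chi p| / p * |HS S (N / p) - L| ≤ 1 / p * (2 ^ (S.card + 1) / (((N / p : ℕ) : ℝ) + 1)) := by
              gcongr
          _ = 2 ^ (S.card + 1) / (p * (((N / p : ℕ) : ℝ) + 1)) := by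
              rw [div_mul_div_comm, one_mul]
          _ ≤ 2 ^ (S.card + 1) / ((N : ℝ) + 1) := by
              apply div_le_div_of_nonneg_left (by positivity) (by positivity)
              have h5 : N + 1 ≤ p * (N / p + 1) := by
                have h6 := Nat.div_add_mod N p
                have h7 := Nat.mod_lt N hpp.pos
                have h8 : p * (N / p + 1) = p * (N / p) + p := by ring
                omega
              exact_mod_cast h5
      have h5 : (2 : ℝ) ^ (S.card + 1 + 1) / ((N : ℝ) + 1) =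
        2 ^ (S.card + 1) / ((N : ℝ) + 1) + 2 ^ (S.card + 1) / ((N : ℝ) + 1) := by
        rw [pow_succ]; ring
      rw [h5]
      linarith

end Pool.Agent.Lib.MP_0e0027_nt

namespace Pool.Agent.Lib.MP_0e0027_nt

theorem cG_eq (G : ℕ) (hG : G ≠ 0) (f : ℕ) : cG G f = cS G.primeFactors f := by
  unfold cG cS
  apply if_congr _ rfl rfl
  constructor
  · intro h p hp hpf
    rw [Nat.mem_primeFactors] at hp
    exact Nat.Prime.not_coprime_iff_dvd.mpr ⟨p, hp.1, hpf, hp.2.1⟩ h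
  · intro h
    by_contra hcon
    obtain ⟨p, hp, h1, h2⟩ := Nat.Prime.not_coprime_iff_dvd.mp hcon
    exact h p (Nat.mem_primeFactors.mpr ⟨hp, h2, hG⟩) h1

theorem Ilev_mono {A B w ν : ℕ} (hB : 1 ≤ B) (x0 y0 : ℤ) {e e' : ℕ} (h : e ≤ e') :
    Ilev A B w ν x0 y0 e' ≤ Ilev A B w ν x0 y0 e := by
  unfold Ilev
  have h1 : Dset B w x0 y0 ((A : ℝ) - 2 ^ ν * (e' : ℝ) ^ 2) ⊆
      Dset B w x0 y0 ((A : ℝ) - 2 ^ ν * (e : ℝ) ^ 2) := by
    apply Dset_mono hB
    have h2 : (e : ℝ) ≤ e' := by exact_mod_cast h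
    have h3 : (e : ℝ) ^ 2 ≤ (e' : ℝ) ^ 2 := pow_le_pow_left₀ (by positivity) h2 2
    have h4 : (2 : ℝ) ^ ν * (e : ℝ) ^ 2 ≤ 2 ^ ν * (e' : ℝ) ^ 2 :=
      mul_le_mul_of_nonneg_left h3 (by positivity)
    linarith
  exact_mod_cast card_le_card h1

theorem Xmono {A B w ν : ℕ} (hB : 1 ≤ B) (x0 y0 : ℤ) (k f : ℕ) (hf : 1 ≤ f) :
    1 / ((f + 1 : ℕ) : ℝ) * Ilev A B w ν x0 y0 (k * (f + 1)) ≤
      1 / (f : ℝ) * Ilev A B w ν x0 y0 (k * f) := by
  have hf0 : (0 : ℝ) < f := by exact_mod_cast hf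
  apply mul_le_mul _ (Ilev_mono hB x0 y0 (Nat.mul_le_mul_left k (by omega)))
    (Ilev_nonneg _ _ _ _ _ _ _) (by positivity)
  apply one_div_le_one_div_of_le hf0
  push_cast; linarith

theorem Jsum_bound {A B w ν : ℕ} (hB : 1 ≤ B) (hw : 1 ≤ w) (x0 y0 : ℤ) (k : ℕ) :
    |Jsum A B w ν x0 y0 k| ≤ 2 ^ ((w * B).primeFactors.card) * Ilev A B w ν x0 y0 0 := by
  have hG : w * B ≠ 0 := by positivity
  unfold Jsum
  have e1 : Icc 1 A = Ico 1 (A + 1) := by ext x; rw [mem_Icc, mem_Ico]; omega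
  have h1 : ∑ f ∈ Icc 1 A, cG (w * B) f / f * Ilev A B w ν x0 y0 (k * f) =
      ∑ f ∈ Ico 1 (A + 1), cS (w * B).primeFactors f *
        (1 / (f : ℝ) * Ilev A B w ν x0 y0 (k * f)) := by
    rw [e1]
    refine sum_congr rfl (fun f _ ↦ ?_)
    rw [cG_eq _ hG]; ring
  rw [h1]
  have h2 := abel_bound (cS (w * B).primeFactors)
    (fun f ↦ 1 / (f : ℝ) * Ilev A B w ν x0 y0 (k * f)) (2 ^ ((w * B).primeFactors.card)) 1 (A + 1)
    (by omega) (mul_nonneg (by positivity) (Ilev_nonneg _ _ _ _ _ _ _))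
    (fun f hf _ ↦ Xmono hB x0 y0 k f hf)
    (fun b' _ ↦ cS_partial_one _ (fun q hq ↦ Nat.prime_of_mem_primeFactors hq) b')
  refine le_trans h2 ?_
  apply mul_le_mul_of_nonneg_left _ (by positivity)
  rw [Nat.cast_one, one_div_one, one_mul]
  exact Ilev_mono hB x0 y0 (Nat.zero_le _)

theorem Ilev_zero_le {A B w ν : ℕ} (hB : 1 ≤ B) (hBA : B ≤ A) (x0 y0 : ℤ) :
    Ilev A B w ν x0 y0 0 ≤ 9 * ((A : ℝ) / B) := by
  unfold Ilev
  have hB' : (0 : ℝ) < B := by exact_mod_cast hB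
  have h1 := card_Dset_le (w := w) hB x0 y0 (A : ℝ) (by positivity)
  have h2 : (A : ℝ) - 2 ^ ν * ((0 : ℕ) : ℝ) ^ 2 = A := by simp
  rw [h2]
  refine le_trans h1 ?_
  have h3 : (1 : ℝ) ≤ (A : ℝ) / B := by
    rw [le_div_iff₀ hB', one_mul]; exact_mod_cast hBA
  have h4 : 1 ≤ Real.sqrt ((A : ℝ) / B) := Real.one_le_sqrt.mpr h3
  have h5 := Real.sq_sqrt (by linarith : 0 ≤ (A : ℝ) / B)
  nlinarith

theorem Ilev_diff {n w ν : ℕ} (hn : 1 ≤ n) (hν : ν ≤ 1) (x0 y0 : ℤ) (e : ℕ) (he : 1 ≤ e) :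
    Ilev n 1 w ν x0 y0 0 - Ilev n 1 w ν x0 y0 e ≤ 18 * Real.sqrt n * e := by
  have hn' : (1 : ℝ) ≤ n := by exact_mod_cast hn
  have he' : (1 : ℝ) ≤ e := by exact_mod_cast he
  have hs : 1 ≤ Real.sqrt n := Real.one_le_sqrt.mpr hn'
  have hν2 : (2 : ℝ) ^ ν ≤ 4 := by
    calc (2 : ℝ) ^ ν ≤ 2 ^ 1 := pow_le_pow_right₀ (by norm_num) hν
      _ ≤ 4 := by norm_num
  by_cases h : (2 : ℝ) ^ ν * (e : ℝ) ^ 2 ≤ n
  · unfold Ilev
    have h2 : (n : ℝ) - 2 ^ ν * ((0 : ℕ) : ℝ) ^ 2 = n := by simp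
    rw [h2]
    have h3 := card_annulus_le (w := w) (B := 1) le_rfl x0 y0 ((n : ℝ) - 2 ^ ν * (e : ℝ) ^ 2) n
      (by linarith) (by have : (0 : ℝ) ≤ 2 ^ ν * (e : ℝ) ^ 2 := by positivity
                        linarith)
    refine le_trans h3 ?_
    have h4 : ((n : ℝ) - ((n : ℝ) - 2 ^ ν * (e : ℝ) ^ 2)) / ((1 : ℕ) : ℝ) = 2 ^ ν * (e : ℝ) ^ 2 := by
      push_cast; ring
    have h5 : (n : ℝ) / ((1 : ℕ) : ℝ) = n := by push_cast; ring
    rw [h4, h5]
    have h6 : Real.sqrt (2 ^ ν * (e : ℝ) ^ 2) ≤ 2 * e := by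
      apply Real.sqrt_le_iff.mpr
      constructor
      · positivity
      · have := mul_le_mul_of_nonneg_right hν2 (by positivity : (0 : ℝ) ≤ (e : ℝ) ^ 2)
        linarith
    calc (2 * Real.sqrt n + 1) * (2 * (Real.sqrt (2 ^ ν * (e : ℝ) ^ 2) + 1)) ≤
        (3 * Real.sqrt n) * (6 * e) := by
          apply mul_le_mul (by linarith) (by linarith) (by positivity) (by positivity)
      _ = _ := by ring
  · push Not at h
    have h1 := Ilev_zero_le (w := w) (ν := ν) (B := 1) le_rfl hn x0 y0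
    have h2 := Ilev_nonneg n 1 w ν x0 y0 e
    have h3 : (n : ℝ) / ((1 : ℕ) : ℝ) = n := by push_cast; ring
    rw [h3] at h1
    have h4 : Real.sqrt n ≤ 2 * e := by
      apply Real.sqrt_le_iff.mpr
      constructor
      · positivity
      · have := mul_le_mul_of_nonneg_right hν2 (by positivity : (0 : ℝ) ≤ (e : ℝ) ^ 2)
        linarith
    have h5 := Real.mul_self_sqrt (by linarith : (0 : ℝ) ≤ n)
    have h6 : Real.sqrt n * Real.sqrt n ≤ Real.sqrt n * (2 * e) :=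
      mul_le_mul_of_nonneg_left h4 (by linarith)
    linarith

theorem Jsum_approx {w : ℕ} (hw : 1 ≤ w) (L : ℝ)
    (hL : ∀ N : ℕ, |HS w.primeFactors N - L| ≤ 2 ^ (w.primeFactors.card + 1) / ((N : ℝ) + 1))
    {n ν : ℕ} (hn : 1 ≤ n) (hν : ν ≤ 1) (x0 y0 : ℤ) (k : ℕ) (hk : 1 ≤ k) :
    |Jsum n 1 w ν x0 y0 k - L * Ilev n 1 w ν x0 y0 0| ≤
      (18 + 36 * 2 ^ (w.primeFactors.card)) * (n : ℝ) ^ ((3 : ℝ) / 4) * k := by
  have hn' : (1 : ℝ) ≤ n := by exact_mod_cast hn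
  have hn0 : (0 : ℝ) < n := by linarith
  have hk' : (1 : ℝ) ≤ k := by exact_mod_cast hk
  set S := w.primeFactors with hS
  have hSp : ∀ q ∈ S, q.Prime := fun q hq ↦ Nat.prime_of_mem_primeFactors hq
  set F := ⌊(n : ℝ) ^ ((1 : ℝ) / 4)⌋₊ with hF
  have hF1 : (F : ℝ) ≤ (n : ℝ) ^ ((1 : ℝ) / 4) := Nat.floor_le (by positivity)
  have hF2 : (n : ℝ) ^ ((1 : ℝ) / 4) < F + 1 := Nat.lt_floor_add_one _
  have hFn : F ≤ n := by
    have h1 : (n : ℝ) ^ ((1 : ℝ) / 4) ≤ (n : ℝ) ^ (1 : ℝ) :=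
      Real.rpow_le_rpow_of_exponent_le hn' (by norm_num)
    rw [Real.rpow_one] at h1
    exact_mod_cast le_trans hF1 h1
  set V := Ilev n 1 w ν x0 y0 0 with hV
  have hV0 : 0 ≤ V := Ilev_nonneg _ _ _ _ _ _ _
  have hV9 : V ≤ 9 * n := by
    have h1 := Ilev_zero_le (w := w) (ν := ν) (B := 1) le_rfl hn x0 y0
    have h3 : (n : ℝ) / ((1 : ℕ) : ℝ) = n := by push_cast; ring
    rw [h3] at h1
    exact h1
  have hVF : V / ((F : ℝ) + 1) ≤ 9 * (n : ℝ) ^ ((3 : ℝ) / 4) := by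
    rw [div_le_iff₀ (by positivity)]
    calc V ≤ 9 * n := hV9
      _ = 9 * ((n : ℝ) ^ ((3 : ℝ) / 4) * (n : ℝ) ^ ((1 : ℝ) / 4)) := by
          rw [← Real.rpow_add hn0]; norm_num
      _ = 9 * (n : ℝ) ^ ((3 : ℝ) / 4) * (n : ℝ) ^ ((1 : ℝ) / 4) := by ring
      _ ≤ _ := mul_le_mul_of_nonneg_left hF2.le (by positivity)
  have hFs : (F : ℝ) * Real.sqrt n ≤ (n : ℝ) ^ ((3 : ℝ) / 4) := by
    calc (F : ℝ) * Real.sqrt n ≤ (n : ℝ) ^ ((1 : ℝ) / 4) * Real.sqrt n :=
          mul_le_mul_of_nonneg_right hF1 (Real.sqrt_nonneg _)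
      _ = _ := by rw [Real.sqrt_eq_rpow, ← Real.rpow_add hn0]; norm_num
  -- decomposition
  have h1 : Jsum n 1 w ν x0 y0 k =
      (∑ f ∈ Ico 1 (F + 1), cS S f / f * V - ∑ f ∈ Ico 1 (F + 1), cS S f / f *
        (V - Ilev n 1 w ν x0 y0 (k * f))) +
      ∑ f ∈ Ico (F + 1) (n + 1), cS S f * (1 / (f : ℝ) * Ilev n 1 w ν x0 y0 (k * f)) := by
    unfold Jsum
    have e1 : Icc 1 n = Ico 1 (n + 1) := by ext x; rw [mem_Icc, mem_Ico]; omega
    rw [e1, ← sum_Ico_consecutive _ (by omega : 1 ≤ F + 1) (by omega : F + 1 ≤ n + 1)]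
    congr 1
    · rw [← sum_sub_distrib]
      refine sum_congr rfl (fun f _ ↦ ?_)
      rw [mul_one, cG_eq _ (by omega : w ≠ 0)]
      ring
    · refine sum_congr rfl (fun f _ ↦ ?_)
      rw [mul_one, cG_eq _ (by omega : w ≠ 0)]
      ring
  have h2 : ∑ f ∈ Ico 1 (F + 1), cS S f / f * V = HS S F * V := by
    unfold HS
    have e1 : Icc 1 F = Ico 1 (F + 1) := by ext x; rw [mem_Icc, mem_Ico]; omega
    rw [e1, sum_mul]
  have h3 : |∑ f ∈ Ico 1 (F + 1), cS S f / f * (V - Ilev n 1 w ν x0 y0 (k * f))| ≤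
      18 * (n : ℝ) ^ ((3 : ℝ) / 4) * k := by
    refine le_trans (abs_sum_le_sum_abs _ _) ?_
    have h4 : ∀ f ∈ Ico 1 (F + 1), |cS S f / f * (V - Ilev n 1 w ν x0 y0 (k * f))| ≤
        18 * Real.sqrt n * k := by
      intro f hf
      rw [mem_Ico] at hf
      have hf0 : (0 : ℝ) < f := by exact_mod_cast (show 0 < f by omega)
      have h5 : |cS S f| ≤ 1 := by
        unfold cS
        split_ifs
        · exact abs_chi_le' f
        · simp
      have h6 := Ilev_diff (w := w) hn hν x0 y0 (k * f) (Nat.mul_pos (by omega) (by omega))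
      have h7 : 0 ≤ V - Ilev n 1 w ν x0 y0 (k * f) := by
        have := Ilev_mono (A := n) (B := 1) (w := w) (ν := ν) le_rfl x0 y0 (Nat.zero_le (k * f))
        linarith
      rw [abs_mul, abs_div, abs_of_pos hf0, abs_of_nonneg h7]
      calc |cS S f| / f * (V - Ilev n 1 w ν x0 y0 (k * f)) ≤
          1 / f * (18 * Real.sqrt n * ((k * f : ℕ) : ℝ)) := by gcongr
        _ = _ := by push_cast; field_simp
    refine le_trans (sum_le_sum h4) ?_
    rw [sum_const, Nat.card_Ico, nsmul_eq_mul, Nat.add_sub_cancel]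
    calc (F : ℝ) * (18 * Real.sqrt n * k) = 18 * ((F : ℝ) * Real.sqrt n) * k := by ring
      _ ≤ _ := by gcongr
  have h4 := abel_bound (cS S)
    (fun f ↦ 1 / (f : ℝ) * Ilev n 1 w ν x0 y0 (k * f)) (2 ^ (S.card + 1)) (F + 1) (n + 1)
    (by omega) (mul_nonneg (by positivity) (Ilev_nonneg _ _ _ _ _ _ _))
    (fun f hf _ ↦ Xmono le_rfl x0 y0 k f (by omega))
    (fun b' hb' ↦ cS_partial_Ico _ hSp (F + 1) b' (by omega) hb')
  have h5 : (2 : ℝ) ^ (S.card + 1) * (1 / ((F + 1 : ℕ) : ℝ) * Ilev n 1 w ν x0 y0 (k * (F + 1))) ≤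
      2 ^ (S.card + 1) * (9 * (n : ℝ) ^ ((3 : ℝ) / 4)) := by
    apply mul_le_mul_of_nonneg_left _ (by positivity)
    refine le_trans ?_ hVF
    have h51 : V / ((F : ℝ) + 1) = 1 / ((F + 1 : ℕ) : ℝ) * V := by push_cast; ring
    rw [h51]
    apply mul_le_mul_of_nonneg_left _ (by positivity)
    exact Ilev_mono (A := n) (B := 1) (w := w) (ν := ν) le_rfl x0 y0 (Nat.zero_le _)
  have h6 : |HS S F * V - L * V| ≤ 2 ^ (S.card + 1) * (9 * (n : ℝ) ^ ((3 : ℝ) / 4)) := by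
    rw [← sub_mul, abs_mul, abs_of_nonneg hV0]
    calc |HS S F - L| * V ≤ 2 ^ (S.card + 1) / ((F : ℝ) + 1) * V :=
          mul_le_mul_of_nonneg_right (hL F) hV0
      _ = 2 ^ (S.card + 1) * (V / ((F : ℝ) + 1)) := by ring
      _ ≤ _ := mul_le_mul_of_nonneg_left hVF (by positivity)
  have h7 : Jsum n 1 w ν x0 y0 k - L * V = (HS S F * V - L * V) -
      ∑ f ∈ Ico 1 (F + 1), cS S f / f * (V - Ilev n 1 w ν x0 y0 (k * f)) +
      ∑ f ∈ Ico (F + 1) (n + 1), cS S f * (1 / (f : ℝ) * Ilev n 1 w ν x0 y0 (k * f)) := by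
    rw [h1, h2]; ring
  rw [h7]
  refine le_trans (abs_add_le _ _) ?_
  have h8 := abs_sub (HS S F * V - L * V)
    (∑ f ∈ Ico 1 (F + 1), cS S f / f * (V - Ilev n 1 w ν x0 y0 (k * f)))
  have h9 : (2 : ℝ) ^ (S.card + 1) = 2 * 2 ^ S.card := by rw [pow_succ]; ring
  rw [h9] at h4 h5 h6
  have h10 : (0 : ℝ) ≤ 36 * 2 ^ S.card * (n : ℝ) ^ ((3 : ℝ) / 4) := by positivity
  have h11 : 36 * 2 ^ S.card * (n : ℝ) ^ ((3 : ℝ) / 4) ≤
      36 * 2 ^ S.card * (n : ℝ) ^ ((3 : ℝ) / 4) * k := le_mul_of_one_le_right h10 hk'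
  have h12 : (18 + 36 * (2 : ℝ) ^ S.card) * (n : ℝ) ^ ((3 : ℝ) / 4) * k =
    18 * (n : ℝ) ^ ((3 : ℝ) / 4) * k + 36 * 2 ^ S.card * (n : ℝ) ^ ((3 : ℝ) / 4) * k := by ring
  rw [h12]
  linarith

end Pool.Agent.Lib.MP_0e0027_nt

namespace Pool.Agent.Lib.MP_0e0027_nt

/-- sum of reciprocals of the divisors of `A` coprime to `G` -/
noncomputable def DD (G A : ℕ) : ℝ :=
  ∑ d ∈ A.divisors.filter (fun d ↦ Nat.Coprime d G), 1 / (d : ℝ)

theorem DD_nonneg (G A : ℕ) : 0 ≤ DD G A := by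
  unfold DD; exact sum_nonneg (fun _ _ ↦ by positivity)

theorem DD_le_card (G A : ℕ) : DD G A ≤ (A.divisors.card : ℝ) := by
  unfold DD
  calc ∑ d ∈ A.divisors.filter (fun d ↦ Nat.Coprime d G), 1 / (d : ℝ) ≤
      ∑ _d ∈ A.divisors.filter (fun d ↦ Nat.Coprime d G), (1 : ℝ) := by
        apply sum_le_sum
        intro d hd
        rw [mem_filter] at hd
        have h1 : 0 < d := Nat.pos_of_mem_divisors hd.1
        have h2 : (1 : ℝ) ≤ d := by exact_mod_cast h1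
        rw [div_le_one (by linarith)]; exact h2
    _ = ((A.divisors.filter (fun d ↦ Nat.Coprime d G)).card : ℝ) := by simp
    _ ≤ _ := by exact_mod_cast card_filter_le _ _

theorem DD_anti {G G' A : ℕ} (h : G ∣ G') : DD G' A ≤ DD G A := by
  unfold DD
  apply sum_le_sum_of_subset_of_nonneg
  · intro d hd
    rw [mem_filter] at hd ⊢
    exact ⟨hd.1, Nat.Coprime.coprime_dvd_right h hd.2⟩
  · intro _ _ _; positivity

theorem DD_mono {G A A' : ℕ} (h : A ∣ A') (hA' : A' ≠ 0) : DD G A ≤ DD G A' := by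
  unfold DD
  apply sum_le_sum_of_subset_of_nonneg
  · intro d hd
    rw [mem_filter] at hd ⊢
    exact ⟨Nat.divisors_subset_of_dvd hA' h hd.1, hd.2⟩
  · intro _ _ _; positivity

theorem sum_DD (G A : ℕ) (hA : 0 < A) (X : ℕ → ℝ) :
    ∑ d ∈ Icc 1 A, (if (d ∣ A ∧ Nat.Coprime d G) then 1 / (d : ℝ) else 0) * X d =
    ∑ d ∈ A.divisors.filter (fun d ↦ Nat.Coprime d G), 1 / (d : ℝ) * X d := by
  have h1 : A.divisors = (Icc 1 A).filter (fun d ↦ d ∣ A) := by
    ext d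
    rw [Nat.mem_divisors, mem_filter, mem_Icc]
    constructor
    · rintro ⟨h, _⟩
      have := Nat.le_of_dvd hA h
      have := Nat.pos_of_dvd_of_pos h hA
      exact ⟨⟨by omega, by omega⟩, h⟩
    · rintro ⟨_, h⟩
      exact ⟨h, by omega⟩
  rw [h1, filter_filter, sum_filter]
  refine sum_congr rfl (fun d _ ↦ ?_)
  split_ifs <;> simp

theorem sum_inv_sq_le (N : ℕ) : ∑ m ∈ Icc 1 N, 1 / (m : ℝ) ^ 2 ≤ 2 := by
  rcases Nat.eq_zero_or_pos N with h | h
  · subst h; simp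
  · have h1 := sum_Ioc_inv_sq_le_sub (α := ℝ) (k := 1) (n := N) (by norm_num) h
    have h2 : Icc 1 N = insert 1 (Ioc 1 N) := by
      ext x; rw [mem_insert, mem_Icc, mem_Ioc]; omega
    rw [h2, sum_insert (by simp)]
    simp only [one_div]
    have h3 : (0 : ℝ) ≤ ((N : ℝ))⁻¹ := by positivity
    push_cast at h1 ⊢
    linarith

theorem card_primeFactors_four_mul {B : ℕ} (hB : 1 ≤ B) (hB1 : B.primeFactors.card ≤ 1) :
    (4 * B).primeFactors.card ≤ 2 := by
  rw [Nat.primeFactors_mul (by norm_num) (by omega)]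
  have h4 : Nat.primeFactors 4 = {2} := by
    have : (4 : ℕ) = 2 ^ 2 := by norm_num
    rw [this, Nat.primeFactors_prime_pow (by norm_num) Nat.prime_two]
  rw [h4]
  refine le_trans (card_union_le _ _) ?_
  rw [card_singleton]
  omega

theorem Smain_upper {A B ν : ℕ} (hB : 1 ≤ B) (hBA : B ≤ A) (hB1 : B.primeFactors.card ≤ 1)
    (x0 y0 : ℤ) : Smain A B 4 ν x0 y0 ≤ 72 * ((A : ℝ) / B) * DD 2 A := by
  rw [Smain_eq hB (by norm_num) x0 y0]
  have hA : 0 < A := by omega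
  simp only [← mul_sum]
  rw [sum_DD (4 * B) A hA]
  set V := Ilev A B 4 ν x0 y0 0 with hV
  have hV0 : 0 ≤ V := Ilev_nonneg _ _ _ _ _ _ _
  have hV9 : V ≤ 9 * ((A : ℝ) / B) := Ilev_zero_le hB hBA x0 y0
  have hAB : 0 ≤ (A : ℝ) / B := by positivity
  have hJ : ∀ k, |Jsum A B 4 ν x0 y0 k| ≤ 36 * ((A : ℝ) / B) := by
    intro k
    refine le_trans (Jsum_bound hB (by norm_num) x0 y0 k) ?_
    have h1 : (2 : ℝ) ^ ((4 * B).primeFactors.card) ≤ 2 ^ 2 :=
      pow_le_pow_right₀ (by norm_num) (card_primeFactors_four_mul hB hB1)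
    calc (2 : ℝ) ^ ((4 * B).primeFactors.card) * V ≤ 2 ^ 2 * (9 * ((A : ℝ) / B)) :=
          mul_le_mul h1 hV9 hV0 (by positivity)
      _ = _ := by ring
  have hin : ∀ d, ∑ m ∈ Icc 1 A, (if Nat.Coprime m (4 * B) then
      (ArithmeticFunction.moebius m : ℝ) / (m : ℝ) ^ 2 else 0) * Jsum A B 4 ν x0 y0 (d * m) ≤
      72 * ((A : ℝ) / B) := by
    intro d
    calc _ ≤ ∑ m ∈ Icc 1 A, 1 / (m : ℝ) ^ 2 * (36 * ((A : ℝ) / B)) := by
          apply sum_le_sum
          intro m _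
          refine le_trans (le_abs_self _) ?_
          rw [abs_mul]
          apply mul_le_mul _ (hJ _) (abs_nonneg _) (by positivity)
          split_ifs
          · rw [abs_div, abs_of_nonneg (by positivity : (0 : ℝ) ≤ (m : ℝ) ^ 2)]
            apply div_le_div_of_nonneg_right _ (by positivity)
            exact_mod_cast ArithmeticFunction.abs_moebius_le_one
          · rw [abs_zero]; positivity
      _ = (∑ m ∈ Icc 1 A, 1 / (m : ℝ) ^ 2) * (36 * ((A : ℝ) / B)) := by rw [sum_mul]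
      _ ≤ 2 * (36 * ((A : ℝ) / B)) := mul_le_mul_of_nonneg_right (sum_inv_sq_le A) (by positivity)
      _ = _ := by ring
  calc _ ≤ ∑ d ∈ A.divisors.filter (fun d ↦ Nat.Coprime d (4 * B)), 1 / (d : ℝ) *
        (72 * ((A : ℝ) / B)) := by
        apply sum_le_sum
        intro d _
        exact mul_le_mul_of_nonneg_left (hin d) (by positivity)
    _ = DD (4 * B) A * (72 * ((A : ℝ) / B)) := by rw [← sum_mul]; rfl
    _ ≤ DD 2 A * (72 * ((A : ℝ) / B)) := by
        apply mul_le_mul_of_nonneg_right _ (by positivity)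
        exact DD_anti (Dvd.dvd.mul_right (by norm_num) B)
    _ = _ := by ring

theorem B_le_A {A B : ℕ} (hB : 1 ≤ B) (h : (B : ℝ) ≤ (A : ℝ) ^ ((1 : ℝ) / 100)) : B ≤ A ∧ 1 ≤ A := by
  have hA : 1 ≤ A := by
    rcases Nat.eq_zero_or_pos A with h0 | h0
    · subst h0
      have h1 : (1 : ℝ) ≤ B := by exact_mod_cast hB
      rw [Nat.cast_zero, Real.zero_rpow (by norm_num)] at h
      linarith
    · exact h0
  have ha : (1 : ℝ) ≤ A := by exact_mod_cast hA
  refine ⟨?_, hA⟩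
  have h1 : (A : ℝ) ^ ((1 : ℝ) / 100) ≤ (A : ℝ) ^ (1 : ℝ) :=
    Real.rpow_le_rpow_of_exponent_le ha (by norm_num)
  rw [Real.rpow_one] at h1
  exact_mod_cast le_trans h h1

theorem upper_II : ∃ C : ℝ, 0 < C ∧ ∀ (A B ν : ℕ) (x0 y0 : ℤ), Hyp A B 4 ν x0 y0 →
    (B : ℝ) ≤ (A : ℝ) ^ ((1 : ℝ) / 100) → B.primeFactors.card ≤ 1 →
    (Nrep A B 4 x0 y0 : ℝ) ≤ 576 * ((A : ℝ) / B) * DD 2 A + C * (A : ℝ) ^ ((99 : ℝ) / 100) := by
  obtain ⟨C, hC, h⟩ := S3 4 (by norm_num)
  refine ⟨C, hC, ?_⟩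
  intro A B ν x0 y0 H hBA hB1
  have h1 := h A B ν x0 y0 H hBA
  have h2 := Smain_upper (ν := ν) H.hB (B_le_A H.hB hBA).1 hB1 x0 y0
  rw [abs_le] at h1
  linarith [h1.2]

theorem Dset_lower {n w : ℕ} (hw : 1 ≤ w) (x0 y0 : ℤ) :
    (n : ℝ) / (2 * (w : ℝ) ^ 2) - 2 * Real.sqrt n ≤ ((Dset 1 w x0 y0 n).card : ℝ) := by
  have hw' : (1 : ℝ) ≤ w := by exact_mod_cast hw
  have hw0 : (0 : ℤ) < w := by exact_mod_cast hw
  set R := Real.sqrt ((n : ℝ) / 2) with hR
  have hR0 : 0 ≤ R := Real.sqrt_nonneg _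
  have hR2 : R ^ 2 = n / 2 := Real.sq_sqrt (by positivity)
  have hRn : R ≤ Real.sqrt n := Real.sqrt_le_sqrt (by
    have : (0 : ℝ) ≤ n := by positivity
    linarith)
  set m := ⌊R / w⌋₊ with hm
  have hm1 : (m : ℝ) ≤ R / w := Nat.floor_le (by positivity)
  have hm2 : R / w < m + 1 := Nat.lt_floor_add_one _
  have hmR : (w : ℝ) * m ≤ R := by
    rw [le_div_iff₀ (by linarith)] at hm1
    linarith
  have h1 : (range m ×ˢ range m).card ≤ (Dset 1 w x0 y0 n).card := by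
    apply card_le_card_of_injOn (fun u ↦ (x0 % w + w * (u.1 : ℤ), y0 % w + w * (u.2 : ℤ)))
    · intro u hu
      rw [mem_coe, mem_product, mem_range, mem_range] at hu
      rw [mem_coe, mem_Dset le_rfl]
      have hb : ∀ (x : ℤ) (i : ℕ), i < m → 0 ≤ x % w + w * (i : ℤ) ∧
          ((x % w + w * (i : ℤ) : ℤ) : ℝ) ^ 2 < n / 2 := by
        intro x i hi
        have h2 := Int.emod_nonneg x hw0.ne'
        have h3 := Int.emod_lt_of_pos x hw0
        have h4 : 0 ≤ x % w + w * (i : ℤ) := by positivity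
        refine ⟨h4, ?_⟩
        have h5 : x % w + w * (i : ℤ) < w * m := by
          have : (i : ℤ) + 1 ≤ m := by exact_mod_cast hi
          nlinarith
        have h6 : ((x % w + w * (i : ℤ) : ℤ) : ℝ) < w * m := by exact_mod_cast h5
        have h7 : (0 : ℝ) ≤ ((x % w + w * (i : ℤ) : ℤ) : ℝ) := by exact_mod_cast h4
        rw [← hR2]
        exact pow_lt_pow_left₀ (by linarith) h7 (by norm_num)
      obtain ⟨_, h3⟩ := hb x0 u.1 hu.1
      obtain ⟨_, h5⟩ := hb y0 u.2 hu.2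
      refine ⟨?_, ?_, ?_⟩
      · have h6 : x0 % w + w * (u.1 : ℤ) - x0 = w * ((u.1 : ℤ) - x0 / w) := by
          have := Int.mul_ediv_add_emod x0 w
          linear_combination this
        exact ⟨_, h6⟩
      · have h6 : y0 % w + w * (u.2 : ℤ) - y0 = w * ((u.2 : ℤ) - y0 / w) := by
          have := Int.mul_ediv_add_emod y0 w
          linear_combination this
        exact ⟨_, h6⟩
      · push_cast at h3 h5 ⊢
        linarith
    · intro u _ u' _ h
      simp only [Prod.mk.injEq, add_right_inj] at h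
      have h1 := mul_left_cancel₀ hw0.ne' h.1
      have h2 := mul_left_cancel₀ hw0.ne' h.2
      exact Prod.ext (by exact_mod_cast h1) (by exact_mod_cast h2)
  rw [card_product, card_range] at h1
  have h2 : (m : ℝ) * m ≤ ((Dset 1 w x0 y0 n).card : ℝ) := by exact_mod_cast h1
  have h3 : (n : ℝ) / (2 * (w : ℝ) ^ 2) = (R / w) ^ 2 := by
    rw [div_pow, hR2]; field_simp
  rw [h3]
  have h4 : R / w ≤ R := div_le_self hR0 hw'
  have h5 : 0 ≤ R / w := by positivity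
  have h6 : (0 : ℝ) ≤ m := by positivity
  nlinarith

theorem sum_inv_lin (T : Finset ℕ) (hT : ∀ d ∈ T, 0 < d) (a b : ℝ) :
    ∑ d ∈ T, 1 / (d : ℝ) * (a - b * d) = a * ∑ d ∈ T, 1 / (d : ℝ) - b * (T.card : ℝ) := by
  rw [mul_sum, card_eq_sum_ones]
  push_cast
  rw [mul_sum, ← sum_sub_distrib]
  apply sum_congr rfl
  intro d hd
  have hd0' : (0 : ℝ) < d := by exact_mod_cast hT d hd
  field_simp

theorem lower_I (w : ℕ) (hw : 2 ∣ w) (hw1 : 1 ≤ w) : ∃ C : ℝ, 0 < C ∧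
    ∀ (n ν : ℕ) (x0 y0 : ℤ), 1 ≤ n → Hyp n 1 w ν x0 y0 →
    (4 / 3) * (∏ p ∈ w.primeFactors, (1 - 1 / (p : ℝ))) * ((n : ℝ) / (w : ℝ) ^ 2) * DD w n -
      C * (n : ℝ) ^ ((99 : ℝ) / 100) ≤ Nrep n 1 w x0 y0 := by
  obtain ⟨C, hC, h⟩ := S3 w hw1
  obtain ⟨C1, hC1, hdiv⟩ := divisor_bound (1 / 1000) (by norm_num)
  have hSp : ∀ q ∈ w.primeFactors, q.Prime := fun q hq ↦ Nat.prime_of_mem_primeFactors hq
  obtain ⟨L, hL1, hL⟩ := exists_L w.primeFactors hSp
  set S := w.primeFactors with hS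
  set C2 : ℝ := 18 + 36 * 2 ^ S.card with hC2
  have hprod : 0 ≤ ∏ p ∈ S, (1 - 1 / (p : ℝ)) := by
    apply prod_nonneg
    intro q hq
    have h1 : (1 : ℝ) ≤ q := by exact_mod_cast (hSp q hq).one_lt.le
    have h2 : 1 / (q : ℝ) ≤ 1 := by rw [div_le_one (by linarith)]; exact h1
    linarith
  have hL0 : 0 ≤ L := le_trans (by positivity) hL1
  refine ⟨C + 8 * L * C1 + 8 * (C2 * C1 * 1001), by positivity, ?_⟩
  intro n ν x0 y0 hn H
  have hn' : (1 : ℝ) ≤ n := by exact_mod_cast hn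
  have hn0 : (0 : ℝ) < n := by linarith
  have hw' : (1 : ℝ) ≤ w := by exact_mod_cast hw1
  set δ : ℝ := (n : ℝ) ^ ((1 : ℝ) / 1000) with hδ
  have hδ1 : 1 ≤ δ := Real.one_le_rpow hn' (by norm_num)
  have h1 := h n 1 ν x0 y0 H (by
    rw [Nat.cast_one]; exact Real.one_le_rpow hn' (by norm_num))
  have h2 := Smain_eq (A := n) (ν := ν) (w := w) (B := 1) le_rfl hw x0 y0
  simp only [← mul_sum] at h2
  rw [sum_DD (w * 1) n (by omega), mul_one] at h2
  set V := Ilev n 1 w ν x0 y0 0 with hV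
  have hV0 : 0 ≤ V := Ilev_nonneg _ _ _ _ _ _ _
  -- the inner sums
  have hmob : (1 / 2 : ℝ) ≤ ∑ m ∈ Icc 1 n, (if Nat.Coprime m w then
      (ArithmeticFunction.moebius m : ℝ) / (m : ℝ) ^ 2 else 0) := by
    have h3 : Icc 1 n = insert 1 (Ioc 1 n) := by
      ext x; rw [mem_insert, mem_Icc, mem_Ioc]; omega
    rw [h3, sum_insert (by simp)]
    have h4 : (if Nat.Coprime 1 w then
      (ArithmeticFunction.moebius 1 : ℝ) / ((1 : ℕ) : ℝ) ^ 2 else 0) = 1 := by
      rw [if_pos (Nat.coprime_one_left w)]; simp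
    rw [h4]
    have h5 : -(1 / 2 : ℝ) ≤ ∑ m ∈ Ioc 1 n, (if Nat.Coprime m w then
      (ArithmeticFunction.moebius m : ℝ) / (m : ℝ) ^ 2 else 0) := by
      rcases Nat.lt_or_ge n 2 with hn2 | hn2
      · have : n = 1 := by omega
        subst this
        simp
      · have h6 : Ioc 1 n = insert 2 (Ioc 2 n) := by
          ext x; rw [mem_insert, mem_Ioc, mem_Ioc]; omega
        rw [h6, sum_insert (by simp)]
        have h7 : ¬ Nat.Coprime 2 w := by
          intro hc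
          have h8 := Nat.dvd_gcd (dvd_refl 2) hw
          rw [hc.gcd_eq_one] at h8
          omega
        rw [if_neg h7, zero_add]
        have h8 := sum_Ioc_inv_sq_le_sub (α := ℝ) (k := 2) (n := n) (by norm_num) hn2
        have h9 : ∑ m ∈ Ioc 2 n, -(((m : ℝ) ^ 2)⁻¹) ≤ ∑ m ∈ Ioc 2 n, (if Nat.Coprime m w then
      (ArithmeticFunction.moebius m : ℝ) / (m : ℝ) ^ 2 else 0) := by
          apply sum_le_sum
          intro m _
          have h10 : (0 : ℝ) ≤ ((m : ℝ) ^ 2)⁻¹ := by positivity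
          split_ifs
          · have h11 : |(ArithmeticFunction.moebius m : ℝ)| ≤ 1 := by
              exact_mod_cast ArithmeticFunction.abs_moebius_le_one
            rw [abs_le] at h11
            rw [div_eq_mul_inv]
            nlinarith [h11.1]
          · linarith
        rw [sum_neg_distrib] at h9
        have h10 : (0 : ℝ) ≤ ((n : ℝ))⁻¹ := by positivity
        push_cast at h8
        linarith
    linarith
  set Mo : ℝ := ∑ m ∈ Icc 1 n, (if Nat.Coprime m w then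
      (ArithmeticFunction.moebius m : ℝ) / (m : ℝ) ^ 2 else 0) with hMo
  have hlog : ∑ m ∈ Icc 1 n, (1 : ℝ) / m ≤ 1001 * δ := by
    have h3 := harmonic_le_one_add_log n
    rw [harmonic_eq_sum_Icc] at h3
    push_cast at h3
    have h4 : ∑ m ∈ Icc 1 n, (1 : ℝ) / m ≤ 1 + Real.log n := by simpa [one_div] using h3
    exact le_trans h4 (one_add_log_le n hn')
  have hin : ∀ d ∈ n.divisors.filter (fun d ↦ Nat.Coprime d w), L * V * Mo -
      C2 * (n : ℝ) ^ ((3 : ℝ) / 4) * (1001 * δ) * d ≤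
      ∑ m ∈ Icc 1 n, (if Nat.Coprime m w then
      (ArithmeticFunction.moebius m : ℝ) / (m : ℝ) ^ 2 else 0) * Jsum n 1 w ν x0 y0 (d * m) := by
    intro d hd
    rw [mem_filter] at hd
    have hd0 : 0 < d := Nat.pos_of_mem_divisors hd.1
    have hd0' : (0 : ℝ) < d := by exact_mod_cast hd0
    have h3 : L * V * Mo - C2 * (n : ℝ) ^ ((3 : ℝ) / 4) * (∑ m ∈ Icc 1 n, (1 : ℝ) / m) * d ≤
      ∑ m ∈ Icc 1 n, (if Nat.Coprime m w then
      (ArithmeticFunction.moebius m : ℝ) / (m : ℝ) ^ 2 else 0) * Jsum n 1 w ν x0 y0 (d * m) := by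
      rw [hMo, mul_sum, mul_sum, sum_mul, ← sum_sub_distrib]
      apply sum_le_sum
      intro m hm
      rw [mem_Icc] at hm
      have hm0 : (0 : ℝ) < m := by exact_mod_cast (show 0 < m by omega)
      have h4 := Jsum_approx hw1 L hL hn H.nu x0 y0 (d * m) (Nat.mul_pos hd0 (by omega))
      by_cases hc : Nat.Coprime m w
      · rw [if_pos hc]
        have h5 : |(ArithmeticFunction.moebius m : ℝ) / (m : ℝ) ^ 2| ≤ 1 / (m : ℝ) ^ 2 := by
          rw [abs_div, abs_of_nonneg (by positivity : (0 : ℝ) ≤ (m : ℝ) ^ 2)]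
          apply div_le_div_of_nonneg_right _ (by positivity)
          exact_mod_cast ArithmeticFunction.abs_moebius_le_one
        have h6 : |(ArithmeticFunction.moebius m : ℝ) / (m : ℝ) ^ 2 *
            (Jsum n 1 w ν x0 y0 (d * m) - L * V)| ≤
            C2 * (n : ℝ) ^ ((3 : ℝ) / 4) * (1 / m) * d := by
          rw [abs_mul]
          calc _ ≤ 1 / (m : ℝ) ^ 2 * (C2 * (n : ℝ) ^ ((3 : ℝ) / 4) * ((d * m : ℕ) : ℝ)) :=
                mul_le_mul h5 h4 (abs_nonneg _) (by positivity)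
            _ = _ := by push_cast; field_simp
        rw [abs_le] at h6
        have h7 := h6.1
        have h8 : (ArithmeticFunction.moebius m : ℝ) / (m : ℝ) ^ 2 *
            (Jsum n 1 w ν x0 y0 (d * m) - L * V) = (ArithmeticFunction.moebius m : ℝ) /
            (m : ℝ) ^ 2 * Jsum n 1 w ν x0 y0 (d * m) -
            L * V * ((ArithmeticFunction.moebius m : ℝ) / (m : ℝ) ^ 2) := by ring
        rw [h8] at h7
        linarith
      · rw [if_neg hc]
        have h5 : 0 ≤ C2 * (n : ℝ) ^ ((3 : ℝ) / 4) * (1 / m) * d := by positivity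
        linarith
    refine le_trans ?_ h3
    have h4 : C2 * (n : ℝ) ^ ((3 : ℝ) / 4) * (∑ m ∈ Icc 1 n, (1 : ℝ) / m) * d ≤
      C2 * (n : ℝ) ^ ((3 : ℝ) / 4) * (1001 * δ) * d := by gcongr
    linarith
  -- sum over d
  have hS1 : L * V * Mo * DD w n - C2 * (n : ℝ) ^ ((3 : ℝ) / 4) * (1001 * δ) * (C1 * δ) ≤
      Smain n 1 w ν x0 y0 := by
    rw [h2]
    have h3 : ∑ d ∈ n.divisors.filter (fun d ↦ Nat.Coprime d w), 1 / (d : ℝ) * (L * V * Mo -
      C2 * (n : ℝ) ^ ((3 : ℝ) / 4) * (1001 * δ) * d) ≤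
      ∑ d ∈ n.divisors.filter (fun d ↦ Nat.Coprime d w), 1 / (d : ℝ) *
      ∑ m ∈ Icc 1 n, (if Nat.Coprime m w then
      (ArithmeticFunction.moebius m : ℝ) / (m : ℝ) ^ 2 else 0) * Jsum n 1 w ν x0 y0 (d * m) := by
      apply sum_le_sum
      intro d hd
      exact mul_le_mul_of_nonneg_left (hin d hd) (by positivity)
    refine le_trans ?_ h3
    have h4 : ∑ d ∈ n.divisors.filter (fun d ↦ Nat.Coprime d w), 1 / (d : ℝ) * (L * V * Mo -
      C2 * (n : ℝ) ^ ((3 : ℝ) / 4) * (1001 * δ) * d) = L * V * Mo * DD w n -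
      C2 * (n : ℝ) ^ ((3 : ℝ) / 4) * (1001 * δ) *
        ((n.divisors.filter (fun d ↦ Nat.Coprime d w)).card : ℝ) := by
      unfold DD
      apply sum_inv_lin
      intro d hd
      rw [mem_filter] at hd
      exact Nat.pos_of_mem_divisors hd.1
    rw [h4]
    have h5 : ((n.divisors.filter (fun d ↦ Nat.Coprime d w)).card : ℝ) ≤ C1 * δ := by
      refine le_trans ?_ (hdiv n (by omega))
      exact_mod_cast card_filter_le _ _
    have h6 := mul_le_mul_of_nonneg_left h5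
      (by positivity : 0 ≤ C2 * (n : ℝ) ^ ((3 : ℝ) / 4) * (1001 * δ))
    linarith
  have hDD0 := DD_nonneg w n
  have hDD1 : DD w n ≤ C1 * δ := le_trans (DD_le_card w n) (hdiv n (by omega))
  have hVlow : (n : ℝ) / (2 * (w : ℝ) ^ 2) - 2 * Real.sqrt n ≤ V := by
    rw [hV]
    unfold Ilev
    have h2 : (n : ℝ) - 2 ^ ν * ((0 : ℕ) : ℝ) ^ 2 = n := by simp
    rw [h2]
    exact Dset_lower hw1 x0 y0
  have h3 : L * V * Mo * DD w n ≥ L * V * (1 / 2) * DD w n := by
    have : L * V * (1 / 2) * DD w n ≤ L * V * Mo * DD w n := by gcongr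
    exact this
  have h4 : L * ((n : ℝ) / (2 * (w : ℝ) ^ 2) - 2 * Real.sqrt n) * (1 / 2) * DD w n ≤
      L * V * (1 / 2) * DD w n := by gcongr
  have h5 : (2 / 3) * (∏ p ∈ S, (1 - 1 / (p : ℝ))) * ((n : ℝ) / (w : ℝ) ^ 2) * DD w n ≤
      L * ((n : ℝ) / (w : ℝ) ^ 2) * DD w n := by gcongr
  have h6 : L * ((n : ℝ) / (2 * (w : ℝ) ^ 2) - 2 * Real.sqrt n) * (1 / 2) * DD w n =
      (1 / 4) * (L * ((n : ℝ) / (w : ℝ) ^ 2) * DD w n) - L * Real.sqrt n * DD w n := by
    field_simp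
    ring
  have h7 : L * Real.sqrt n * DD w n ≤ L * C1 * (n : ℝ) ^ ((99 : ℝ) / 100) := by
    calc L * Real.sqrt n * DD w n ≤ L * Real.sqrt n * (C1 * δ) := by gcongr
      _ = L * C1 * (Real.sqrt n * δ) := by ring
      _ ≤ L * C1 * (n : ℝ) ^ ((99 : ℝ) / 100) := by
        apply mul_le_mul_of_nonneg_left _ (by positivity)
        rw [Real.sqrt_eq_rpow, hδ, ← Real.rpow_add hn0]
        exact Real.rpow_le_rpow_of_exponent_le hn' (by norm_num)
  have h8 : C2 * (n : ℝ) ^ ((3 : ℝ) / 4) * (1001 * δ) * (C1 * δ) ≤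
      C2 * C1 * 1001 * (n : ℝ) ^ ((99 : ℝ) / 100) := by
    calc C2 * (n : ℝ) ^ ((3 : ℝ) / 4) * (1001 * δ) * (C1 * δ) =
        C2 * C1 * 1001 * ((n : ℝ) ^ ((3 : ℝ) / 4) * δ * δ) := by ring
      _ ≤ _ := by
        apply mul_le_mul_of_nonneg_left _ (by positivity)
        rw [hδ, ← Real.rpow_add hn0, ← Real.rpow_add hn0]
        exact Real.rpow_le_rpow_of_exponent_le hn' (by norm_num)
  rw [abs_le] at h1
  have h9 := h1.1
  linarith

end Pool.Agent.Lib.MP_0e0027_nt
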