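import Mathlib
import Pool.Agent.Lib.MP_0e0027_nt.MainTerm

set_option autoImplicit false

open Finset

namespace Pool.Agent.Lib.MP_0e0027_nt

theorem R2_pp {p : ℕ} (hp : p.Prime) (v : ℕ) : R2 (p ^ (v + 2)) ≤ 3 * R2 (p ^ v) := by
  rw [R2_prime_pow hp, R2_prime_pow hp]
  have h1 : ∑ i ∈ range (v + 2 + 1), c4 p ^ i = ∑ i ∈ range (v + 1), c4 p ^ i +
      (c4 p ^ (v + 1) + c4 p ^ (v + 2)) := by
    rw [show v + 2 + 1 = (v + 1) + 1 + 1 by ring, sum_range_succ, sum_range_succ]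
    ring
  rw [h1]
  have : p % 2 = 0 ∨ p % 4 = 1 ∨ p % 4 = 3 := by omega
  rcases this with h | h | h
  · rw [c4_even h]
    have h3 : ∑ i ∈ range (v + 1), (0 : ℤ) ^ i = 1 := by
      rw [sum_range_succ']; simp
    rw [h3]
    simp
  · rw [c4_of_one h]
    simp
    have : (0 : ℤ) ≤ v := by positivity
    linarith
  · rw [c4_of_three h, neg_one_geom_sum]
    have h3 : (-1 : ℤ) ^ (v + 1) + (-1) ^ (v + 2) = 0 := by ring
    rw [h3]
    split_ifs <;> norm_num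

theorem r2_pp_le {p : ℕ} (hp : p.Prime) (l : ℕ) (hl : 0 < l) :
    (r2set (p ^ 2 * l)).card ≤ 3 * (r2set l).card := by
  obtain ⟨v, m, hm, hlm⟩ := Nat.exists_eq_pow_mul_and_not_dvd hl.ne' p hp.ne_one
  have h1 := r2_prime_pow_mul hp m hm (v + 2)
  have h2 := r2_prime_pow_mul hp m hm v
  have h3 : p ^ 2 * l = p ^ (v + 2) * m := by rw [hlm]; ring
  have h4 := R2_pp hp v
  have h5 : (0 : ℤ) ≤ (r2set m).card := by positivity
  have h6 : ((r2set (p ^ 2 * l)).card : ℤ) ≤ 3 * ((r2set l).card : ℤ) := by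
    rw [h3, h1, hlm, h2]
    nlinarith
  exact_mod_cast h6

theorem r2_p_le {p : ℕ} (hp : p.Prime) (l : ℕ) (hl : ¬ p ∣ l) :
    (r2set (p * l)).card ≤ 3 * (r2set l).card := by
  have h1 := r2_prime_pow_mul hp l hl 1
  rw [pow_one] at h1
  have h2 : R2 p ≤ 2 := by
    have := R2_prime_pow hp 1
    rw [pow_one] at this
    rw [this, sum_range_succ, sum_range_succ]
    simp
    have := abs_c4_le p
    rw [abs_le] at this
    linarith [this.2]
  have h5 : (0 : ℤ) ≤ (r2set l).card := by positivity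
  have h6 : ((r2set (p * l)).card : ℤ) ≤ 3 * ((r2set l).card : ℤ) := by
    rw [h1]; nlinarith
  exact_mod_cast h6

theorem sq_sub_dvd_eight {x a : ℤ} (h : (4 : ℤ) ∣ x - a) : (8 : ℤ) ∣ x ^ 2 - a ^ 2 := by
  obtain ⟨k, hk⟩ := h
  have hx : x = a + 4 * k := by linarith
  exact ⟨a * k + 2 * k ^ 2, by rw [hx]; ring⟩

theorem odd_sq_mod8 {x : ℤ} (h : x % 2 = 1) : x ^ 2 % 8 = 1 := by
  have : x % 8 = 1 ∨ x % 8 = 3 ∨ x % 8 = 5 ∨ x % 8 = 7 := by omega
  rw [sq, Int.mul_emod]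
  rcases this with h | h | h | h <;> rw [h] <;> norm_num

theorem even_sq_mod8 {x : ℤ} (h : x % 2 = 0) : x ^ 2 % 8 = 0 ∨ x ^ 2 % 8 = 4 := by
  have : x % 8 = 0 ∨ x % 8 = 2 ∨ x % 8 = 4 ∨ x % 8 = 6 := by omega
  rw [sq, Int.mul_emod]
  rcases this with h | h | h | h <;> rw [h] <;> norm_num

theorem hyp_of_mod8 {A B : ℕ} (hB : 1 ≤ B) (cop : Nat.Coprime A B) (x0 y0 : ℤ)
    (h : ((A : ℤ) - B * (x0 ^ 2 + y0 ^ 2)) % 8 = 1 ∨ ((A : ℤ) - B * (x0 ^ 2 + y0 ^ 2)) % 8 = 5 ∨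
      ((A : ℤ) - B * (x0 ^ 2 + y0 ^ 2)) % 8 = 2) : ∃ ν : ℕ, Hyp A B 4 ν x0 y0 := by
  have key : ∀ z : ℤ × ℤ, ((4 : ℕ) : ℤ) ∣ z.1 - x0 → ((4 : ℕ) : ℤ) ∣ z.2 - y0 → ∀ l : ℕ, 0 < l →
    (A : ℤ) - B * (z.1 ^ 2 + z.2 ^ 2) = l →
    (l : ℤ) % 8 = ((A : ℤ) - B * (x0 ^ 2 + y0 ^ 2)) % 8 := by
    intro z h1 h2 l _ hl
    obtain ⟨u, hu⟩ := sq_sub_dvd_eight (by exact_mod_cast h1 : (4 : ℤ) ∣ z.1 - x0)
    obtain ⟨v, hv⟩ := sq_sub_dvd_eight (by exact_mod_cast h2 : (4 : ℤ) ∣ z.2 - y0)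
    rw [← hl]
    have h3 : (A : ℤ) - B * (z.1 ^ 2 + z.2 ^ 2) = (A : ℤ) - B * (x0 ^ 2 + y0 ^ 2) +
        8 * (-(B * (u + v))) := by linear_combination (-(B : ℤ)) * hu - B * hv
    rw [h3, Int.add_mul_emod_self_left]
  by_cases h2 : ((A : ℤ) - B * (x0 ^ 2 + y0 ^ 2)) % 8 = 2
  · refine ⟨1, hB, by norm_num, cop, le_rfl, ?_⟩
    intro z h3 h4 l hl0 hl
    have h5 := key z h3 h4 l hl0 hl
    rw [h2] at h5
    refine ⟨l / 2, by omega, by omega, ?_⟩
    have : Nat.Coprime (l / 2) (2 ^ 2) := by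
      apply Nat.Coprime.pow_right
      rw [Nat.coprime_two_right]
      exact Nat.odd_iff.mpr (by omega)
    simpa using this
  · refine ⟨0, hB, by norm_num, cop, by norm_num, ?_⟩
    intro z h3 h4 l hl0 hl
    have h5 := key z h3 h4 l hl0 hl
    have h6 : (l : ℤ) % 8 = 1 ∨ (l : ℤ) % 8 = 5 := by
      rcases h with h | h | h
      · left; rw [h5]; exact h
      · right; rw [h5]; exact h
      · exact absurd h h2
    refine ⟨l, by simp, by omega, ?_⟩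
    have : Nat.Coprime l (2 ^ 2) := by
      apply Nat.Coprime.pow_right
      rw [Nat.coprime_two_right]
      exact Nat.odd_iff.mpr (by omega)
    simpa using this

/-- primes up to `P` -/
def PP (P : ℕ) : Finset ℕ := (range (P + 1)).filter Nat.Prime

theorem mem_PP {P p : ℕ} : p ∈ PP P ↔ p.Prime ∧ p ≤ P := by
  unfold PP
  rw [mem_filter, mem_range]
  constructor
  · rintro ⟨h1, h2⟩; exact ⟨h2, by omega⟩
  · rintro ⟨h1, h2⟩; exact ⟨by omega, h1⟩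

/-- the modulus -/
def Mw (P : ℕ) : ℕ := 2 * ∏ p ∈ PP P, p

/-- admissible residue classes -/
def goodc (n P a b : ℕ) : Prop :=
  a % 2 = 1 ∧ b % 2 = 1 ∧ ∀ p ∈ PP P, p ≠ 2 → ¬ p ∣ a ∧ ¬ p ∣ b ∧
    ¬ (p : ℤ) ∣ (n : ℤ) - (a : ℤ) ^ 2 - (b : ℤ) ^ 2

theorem prime_dvd_Mw {P q : ℕ} (hq : q.Prime) (h : q ∣ Mw P) : q = 2 ∨ q ∈ PP P := by
  unfold Mw at h
  rcases hq.dvd_mul.mp h with h | h
  · left; exact (Nat.prime_dvd_prime_iff_eq hq Nat.prime_two).mp h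
  · right
    rw [Prime.dvd_finsetProd_iff (Nat.prime_iff.mp hq)] at h
    obtain ⟨p, hp, hqp⟩ := h
    have := (Nat.prime_dvd_prime_iff_eq hq (mem_PP.mp hp).1).mp hqp
    rw [this]; exact hp

theorem dvd_Mw {P p : ℕ} (hp : p ∈ PP P) : p ∣ Mw P := by
  unfold Mw
  exact Dvd.dvd.mul_left (dvd_prod_of_mem _ hp) _

theorem Mw_pos (P : ℕ) : 1 ≤ Mw P := by
  unfold Mw
  have : 0 < ∏ p ∈ PP P, p := prod_pos (fun p hp ↦ (mem_PP.mp hp).1.pos)
  omega

theorem two_dvd_Mw (P : ℕ) : 2 ∣ Mw P := by unfold Mw; exact dvd_mul_right _ _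

theorem class_facts {n P a b : ℕ} (hg : goodc n P a b)
    {x y : ℤ} (hx : (Mw P : ℤ) ∣ x - a) (hy : (Mw P : ℤ) ∣ y - b) :
    x % 2 = 1 ∧ y % 2 = 1 ∧ ∀ p ∈ PP P, p ≠ 2 → ¬ (p : ℤ) ∣ x ∧ ¬ (p : ℤ) ∣ y ∧
    ¬ (p : ℤ) ∣ (n : ℤ) - x ^ 2 - y ^ 2 := by
  obtain ⟨h1, h2, h3⟩ := hg
  have e2 : (2 : ℤ) ∣ (Mw P : ℤ) := by exact_mod_cast two_dvd_Mw P
  have hx2 := dvd_trans e2 hx
  have hy2 := dvd_trans e2 hy
  refine ⟨by omega, by omega, ?_⟩
  intro p hp hp2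
  obtain ⟨h4, h5, h6⟩ := h3 p hp hp2
  have hpM : (p : ℤ) ∣ (Mw P : ℤ) := by exact_mod_cast dvd_Mw hp
  have hxp := dvd_trans hpM hx
  have hyp := dvd_trans hpM hy
  refine ⟨?_, ?_, ?_⟩
  · intro h
    apply h4
    have : (p : ℤ) ∣ (a : ℤ) := by
      have h7 := dvd_sub h hxp
      simpa using h7
    exact_mod_cast this
  · intro h
    apply h5
    have : (p : ℤ) ∣ (b : ℤ) := by
      have h7 := dvd_sub h hyp
      simpa using h7
    exact_mod_cast this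
  · intro h
    apply h6
    have h7 : (n : ℤ) - (a : ℤ) ^ 2 - (b : ℤ) ^ 2 = ((n : ℤ) - x ^ 2 - y ^ 2) +
        (x - a) * (x + a) + (y - b) * (y + b) := by ring
    rw [h7]
    exact dvd_add (dvd_add h (Dvd.dvd.mul_right hxp _)) (Dvd.dvd.mul_right hyp _)

theorem hyp_M {n P a b : ℕ} (h8 : n % 8 = 3 ∨ n % 8 = 4 ∨ n % 8 = 7) (hg : goodc n P a b) :
    ∃ ν : ℕ, Hyp n 1 (Mw P) ν a b := by
  have key : ∀ z : ℤ × ℤ, (Mw P : ℤ) ∣ z.1 - a → (Mw P : ℤ) ∣ z.2 - b → ∀ l : ℕ, 0 < l →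
      (n : ℤ) - ((1 : ℕ) : ℤ) * (z.1 ^ 2 + z.2 ^ 2) = l →
      (l : ℤ) % 8 = ((n : ℤ) - 2) % 8 ∧ ∀ l' : ℕ, l' ∣ l → l' % 2 = 1 → Nat.Coprime l' (Mw P) := by
    intro z hz1 hz2 l _ hl
    obtain ⟨h1, h2, h3⟩ := class_facts hg hz1 hz2
    have h4 := odd_sq_mod8 h1
    have h5 := odd_sq_mod8 h2
    push_cast at hl
    refine ⟨by omega, ?_⟩
    intro l' hl' hodd
    by_contra hcon
    obtain ⟨q, hq, hql, hqM⟩ := Nat.Prime.not_coprime_iff_dvd.mp hcon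
    by_cases hq2 : q = 2
    · subst hq2; omega
    · rcases prime_dvd_Mw hq hqM with h | h
      · exact hq2 h
      · apply (h3 q h hq2).2.2
        have h6 : (q : ℤ) ∣ (l : ℤ) := by exact_mod_cast dvd_trans hql hl'
        have h7 : (n : ℤ) - z.1 ^ 2 - z.2 ^ 2 = l := by linarith
        rw [h7]; exact h6
  rcases h8 with h8 | h8 | h8
  · refine ⟨0, le_rfl, Mw_pos P, Nat.coprime_one_right n, by norm_num, ?_⟩
    intro z h3 h4 l hl0 hl
    obtain ⟨h5, h6⟩ := key z h3 h4 l hl0 hl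
    exact ⟨l, by simp, by omega, h6 l dvd_rfl (by omega)⟩
  · refine ⟨1, le_rfl, Mw_pos P, Nat.coprime_one_right n, le_rfl, ?_⟩
    intro z h3 h4 l hl0 hl
    obtain ⟨h5, h6⟩ := key z h3 h4 l hl0 hl
    exact ⟨l / 2, by omega, by omega, h6 (l / 2) (Nat.div_dvd_of_dvd (by omega)) (by omega)⟩
  · refine ⟨0, le_rfl, Mw_pos P, Nat.coprime_one_right n, by norm_num, ?_⟩
    intro z h3 h4 l hl0 hl
    obtain ⟨h5, h6⟩ := key z h3 h4 l hl0 hl
    exact ⟨l, by simp, by omega, h6 l dvd_rfl (by omega)⟩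

end Pool.Agent.Lib.MP_0e0027_nt

namespace Pool.Agent.Lib.MP_0e0027_nt

/-- quadruples, not all even, whose squares sum to `n` -/
noncomputable def Qset (n : ℕ) : Finset ((ℤ × ℤ) × (ℤ × ℤ)) :=
  ((Icc (-(n : ℤ)) n ×ˢ Icc (-(n : ℤ)) n) ×ˢ (Icc (-(n : ℤ)) n ×ˢ Icc (-(n : ℤ)) n)).filter
    (fun u ↦ (u.1.1 ^ 2 + u.1.2 ^ 2) + (u.2.1 ^ 2 + u.2.2 ^ 2) = (n : ℤ) ∧
      (u.1.1 % 2 = 1 ∨ u.1.2 % 2 = 1 ∨ u.2.1 % 2 = 1 ∨ u.2.2 % 2 = 1))

theorem mem_Icc_of_sq {n : ℕ} {x : ℤ} (h : x ^ 2 ≤ n) : x ∈ Icc (-(n : ℤ)) n := by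
  rw [mem_Icc]
  constructor <;> nlinarith [sq_nonneg (x - 1), sq_nonneg (x + 1), sq_nonneg x]

theorem mem_Qset {n : ℕ} {u : (ℤ × ℤ) × (ℤ × ℤ)} : u ∈ Qset n ↔
    (u.1.1 ^ 2 + u.1.2 ^ 2) + (u.2.1 ^ 2 + u.2.2 ^ 2) = (n : ℤ) ∧
      (u.1.1 % 2 = 1 ∨ u.1.2 % 2 = 1 ∨ u.2.1 % 2 = 1 ∨ u.2.2 % 2 = 1) := by
  unfold Qset
  rw [mem_filter, mem_product, mem_product, mem_product]
  constructor
  · rintro ⟨_, h⟩; exact h
  · intro h
    refine ⟨⟨⟨?_, ?_⟩, ?_, ?_⟩, h⟩ <;> apply mem_Icc_of_sq <;>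
      nlinarith [sq_nonneg u.1.1, sq_nonneg u.1.2, sq_nonneg u.2.1, sq_nonneg u.2.2, h.1]

theorem sq_cases (x : ℤ) : (x % 2 = 1 ∧ x ^ 2 % 8 = 1) ∨ (x % 2 = 0 ∧ x ^ 2 % 8 = 0) ∨
    (x % 2 = 0 ∧ x ^ 2 % 8 = 4) := by
  have : x % 2 = 0 ∨ x % 2 = 1 := by omega
  rcases this with h | h
  · rcases even_sq_mod8 h with h1 | h1
    · right; left; exact ⟨h, h1⟩
    · right; right; exact ⟨h, h1⟩
  · left; exact ⟨h, odd_sq_mod8 h⟩

theorem parity_Q {n : ℕ} (h8 : n % 8 = 3 ∨ n % 8 = 4 ∨ n % 8 = 7) {u : (ℤ × ℤ) × (ℤ × ℤ)}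
    (hu : u ∈ Qset n) : (u.2.1 ^ 2 + u.2.2 ^ 2) % 8 = 1 ∨ (u.2.1 ^ 2 + u.2.2 ^ 2) % 8 = 5 ∨
    (u.2.1 ^ 2 + u.2.2 ^ 2) % 8 = 2 := by
  rw [mem_Qset] at hu
  obtain ⟨h1, h2⟩ := hu
  have a1 := sq_cases u.1.1
  have a2 := sq_cases u.1.2
  have a3 := sq_cases u.2.1
  have a4 := sq_cases u.2.2
  rcases a3 with a3 | a3 | a3 <;> rcases a4 with a4 | a4 | a4 <;> omega

/-- quadruples with `p` dividing the first two entries -/
noncomputable def Bad (n p : ℕ) : Finset ((ℤ × ℤ) × (ℤ × ℤ)) :=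
  (Qset n).filter (fun u ↦ (p : ℤ) ∣ u.1.1 ∧ (p : ℤ) ∣ u.1.2)

/-- the part of `Bad` in a residue class -/
noncomputable def BadC (n p : ℕ) (x0 y0 : ℤ) : Finset ((ℤ × ℤ) × (ℤ × ℤ)) :=
  (Bad n p).filter (fun u ↦ (4 : ℤ) ∣ u.1.1 / p - x0 ∧ (4 : ℤ) ∣ u.1.2 / p - y0)

theorem BadC_data {n p A B c : ℕ} (h8 : n % 8 = 3 ∨ n % 8 = 4 ∨ n % 8 = 7) (hp : p.Prime)
    (hn : n = c * A) (hpc : p ^ 2 = c * B) (hB : 1 ≤ B) (x0 y0 : ℤ)
    {u : (ℤ × ℤ) × (ℤ × ℤ)} (hu : u ∈ BadC n p x0 y0) :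
    ((u.1.1 / p, u.1.2 / p) : ℤ × ℤ) ∈ Dset B 4 x0 y0 A ∧
    u.2 ∈ r2set (c * lz A B (u.1.1 / p, u.1.2 / p)) ∧
    ((c * lz A B (u.1.1 / p, u.1.2 / p) : ℕ) : ℤ) = u.2.1 ^ 2 + u.2.2 ^ 2 := by
  unfold BadC Bad at hu
  rw [mem_filter, mem_filter] at hu
  obtain ⟨⟨hQ, hp1, hp2⟩, hc1, hc2⟩ := hu
  have hpar := parity_Q h8 hQ
  rw [mem_Qset] at hQ
  have hsum := hQ.1
  obtain ⟨v1, hv1⟩ := hp1
  obtain ⟨v2, hv2⟩ := hp2
  have hp0 : (p : ℤ) ≠ 0 := by exact_mod_cast hp.ne_zero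
  have e1 : u.1.1 / p = v1 := by rw [hv1]; exact Int.mul_ediv_cancel_left v1 hp0
  have e2 : u.1.2 / p = v2 := by rw [hv2]; exact Int.mul_ediv_cancel_left v2 hp0
  rw [e1] at hc1
  rw [e2] at hc2
  rw [e1, e2]
  have hc0 : (0 : ℤ) < c := by
    have : 0 < c := by
      rcases Nat.eq_zero_or_pos c with h | h
      · rw [h, zero_mul] at hpc
        exact absurd hpc (pow_ne_zero 2 hp.ne_zero)
      · exact h
    exact_mod_cast this
  have hpc' : (p : ℤ) ^ 2 = c * B := by exact_mod_cast hpc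
  have hn' : (n : ℤ) = c * A := by exact_mod_cast hn
  have hpos : 0 < u.2.1 ^ 2 + u.2.2 ^ 2 := by
    have : 0 ≤ u.2.1 ^ 2 + u.2.2 ^ 2 := by positivity
    omega
  have hkey : (c : ℤ) * ((A : ℤ) - B * (v1 ^ 2 + v2 ^ 2)) = u.2.1 ^ 2 + u.2.2 ^ 2 := by
    rw [hv1, hv2] at hsum
    linear_combination -hsum - hn' + (v1 ^ 2 + v2 ^ 2) * hpc'
  have hpos2 : 0 < (A : ℤ) - B * (v1 ^ 2 + v2 ^ 2) := by
    by_contra hcon
    push Not at hcon
    nlinarith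
  have hD : ((v1, v2) : ℤ × ℤ) ∈ Dset B 4 x0 y0 A := by
    rw [mem_Dset hB]
    refine ⟨by exact_mod_cast hc1, by exact_mod_cast hc2, ?_⟩
    have h1 : (B : ℤ) * (v1 ^ 2 + v2 ^ 2) < A := by linarith
    exact_mod_cast h1
  have hlz := (lz_cast hB hD).1
  refine ⟨hD, ?_, ?_⟩
  · rw [mem_r2set]
    push_cast
    rw [← hlz]
    exact hkey.symm
  · push_cast
    rw [← hlz]
    exact hkey

theorem BadC_card {n p A B c : ℕ} (h8 : n % 8 = 3 ∨ n % 8 = 4 ∨ n % 8 = 7) (hp : p.Prime)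
    (hn : n = c * A) (hpc : p ^ 2 = c * B) (hB : 1 ≤ B) (x0 y0 : ℤ)
    (hr : ∀ v : ℤ × ℤ, v ∈ Dset B 4 x0 y0 A →
      (r2set (c * lz A B v)).card ≤ 3 * (r2set (lz A B v)).card) :
    (BadC n p x0 y0).card ≤ 3 * Nrep A B 4 x0 y0 := by
  have hp0 : (p : ℤ) ≠ 0 := by exact_mod_cast hp.ne_zero
  have h1 : (BadC n p x0 y0).card ≤
      ((Dset B 4 x0 y0 A).sigma (fun v ↦ r2set (c * lz A B v))).card := by
    apply card_le_card_of_injOn (fun u ↦ ⟨(u.1.1 / p, u.1.2 / p), u.2⟩)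
    · intro u hu
      obtain ⟨h2, h3, _⟩ := BadC_data h8 hp hn hpc hB x0 y0 hu
      rw [mem_coe, mem_sigma]
      exact ⟨h2, h3⟩
    · intro u hu u' hu' h
      simp only [Sigma.mk.injEq, Prod.mk.injEq, heq_eq_eq] at h
      obtain ⟨⟨h2, h3⟩, h4⟩ := h
      have hu1 := hu
      have hu2 := hu'
      unfold BadC Bad at hu1 hu2
      rw [mem_coe, mem_filter, mem_filter] at hu1 hu2
      obtain ⟨⟨_, a1, a2⟩, _⟩ := hu1
      obtain ⟨⟨_, b1, b2⟩, _⟩ := hu2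
      have e1 : u.1.1 = u'.1.1 := by
        rw [← Int.mul_ediv_cancel' a1, ← Int.mul_ediv_cancel' b1, h2]
      have e2 : u.1.2 = u'.1.2 := by
        rw [← Int.mul_ediv_cancel' a2, ← Int.mul_ediv_cancel' b2, h3]
      exact Prod.ext (Prod.ext e1 e2) h4
  refine le_trans h1 ?_
  rw [card_sigma]
  unfold Nrep
  rw [mul_sum]
  exact sum_le_sum (fun v hv ↦ hr v hv)

theorem Bad_le_sum (n p : ℕ) :
    (Bad n p).card ≤ ∑ x ∈ range 4, ∑ y ∈ range 4, (BadC n p (x : ℤ) (y : ℤ)).card := by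
  classical
  have h1 : Bad n p ⊆ (range 4 ×ˢ range 4).biUnion (fun w ↦ BadC n p (w.1 : ℤ) (w.2 : ℤ)) := by
    intro u hu
    rw [mem_biUnion]
    refine ⟨(((u.1.1 / p) % 4).toNat, ((u.1.2 / p) % 4).toNat), ?_, ?_⟩
    · rw [mem_product, mem_range, mem_range]
      constructor
      · have := Int.emod_lt_of_pos (u.1.1 / p) (by norm_num : (0 : ℤ) < 4)
        simp only
        omega
      · have := Int.emod_lt_of_pos (u.1.2 / p) (by norm_num : (0 : ℤ) < 4)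
        simp only
        omega
    · unfold BadC
      rw [mem_filter]
      refine ⟨hu, ?_, ?_⟩
      · have := Int.emod_nonneg (u.1.1 / p) (by norm_num : (4 : ℤ) ≠ 0)
        simp only
        omega
      · have := Int.emod_nonneg (u.1.2 / p) (by norm_num : (4 : ℤ) ≠ 0)
        simp only
        omega
  refine le_trans (card_le_card h1) (le_trans card_biUnion_le ?_)
  rw [sum_product]

/-- the three kinds of reduction -/
theorem reduce_exists {n p : ℕ} (hn0 : 0 < n) (hp : p.Prime) (hp2 : p ≠ 2)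
    (hpn : (p : ℝ) ≤ (n : ℝ) ^ ((1 : ℝ) / 200)) :
    ∃ A B c : ℕ, n = c * A ∧ p ^ 2 = c * B ∧ 1 ≤ B ∧ 1 ≤ c ∧ Nat.Coprime A B ∧
      B.primeFactors.card ≤ 1 ∧ (B : ℝ) ≤ (A : ℝ) ^ ((1 : ℝ) / 100) ∧
      (∀ (x0 y0 : ℤ) (v : ℤ × ℤ), v ∈ Dset B 4 x0 y0 A →
        (r2set (c * lz A B v)).card ≤ 3 * (r2set (lz A B v)).card) ∧
      (∀ (x0 y0 : ℤ) (v : ℤ × ℤ), v ∈ Dset B 4 x0 y0 A → (r2set (c * lz A B v)).Nonempty →
        ((c * lz A B v) % 8 = 1 ∨ (c * lz A B v) % 8 = 5 ∨ (c * lz A B v) % 8 = 2) →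
        ((lz A B v) % 8 = 1 ∨ (lz A B v) % 8 = 5 ∨ (lz A B v) % 8 = 2)) := by
  have hn1 : (1 : ℝ) ≤ n := by exact_mod_cast hn0
  have hn0' : (0 : ℝ) < n := by linarith
  have hp1 : (1 : ℝ) < p := by exact_mod_cast hp.one_lt
  have hp0' : (0 : ℝ) < p := by linarith
  have hodd : p % 2 = 1 := hp.eq_two_or_odd.resolve_left hp2
  by_cases h1 : p ∣ n
  · by_cases h2 : p ^ 2 ∣ n
    · obtain ⟨m, hm⟩ := h2
      refine ⟨m, 1, p ^ 2, hm, by ring, le_rfl, Nat.one_le_pow _ _ hp.pos,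
        Nat.coprime_one_right m, by simp, ?_, ?_, ?_⟩
      · have hm0 : 1 ≤ m := by
          rcases Nat.eq_zero_or_pos m with h | h
          · rw [h, mul_zero] at hm; omega
          · exact h
        rw [Nat.cast_one]
        exact Real.one_le_rpow (by exact_mod_cast hm0) (by norm_num)
      · intro x0 y0 v hv
        exact r2_pp_le hp _ (lz_cast le_rfl hv).2
      · intro x0 y0 v hv _ h
        have h3 : p ^ 2 % 8 = 1 := by
          have h4 := odd_sq_mod8 (x := (p : ℤ)) (by omega)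
          exact_mod_cast h4
        have h4 : (p ^ 2 * lz m 1 v) % 8 = (lz m 1 v) % 8 := by
          rw [Nat.mul_mod, h3, one_mul, Nat.mod_mod]
        rw [h4] at h
        exact h
    · obtain ⟨m, hm⟩ := h1
      have hpm : ¬ p ∣ m := by
        rintro ⟨k, hk⟩
        apply h2
        exact ⟨k, by rw [hm, hk]; ring⟩
      have hpl : ∀ (x0 y0 : ℤ) (v : ℤ × ℤ), v ∈ Dset p 4 x0 y0 m → ¬ p ∣ lz m p v := by
        intro x0 y0 v hv h3
        have h4 := (lz_cast hp.pos hv).1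
        apply hpm
        have h5 : (p : ℤ) ∣ (m : ℤ) := by
          have h6 : (m : ℤ) = (lz m p v : ℤ) + p * (v.1 ^ 2 + v.2 ^ 2) := by linarith
          rw [h6]
          exact dvd_add (by exact_mod_cast h3) (dvd_mul_right _ _)
        exact_mod_cast h5
      refine ⟨m, p, p, hm, by ring, hp.pos, hp.pos,
        ((Nat.Prime.coprime_iff_not_dvd hp).mpr hpm).symm, ?_, ?_, ?_, ?_⟩
      · rw [Nat.Prime.primeFactors hp, card_singleton]
      · have hm0 : (0 : ℝ) < m := by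
          have : 0 < m := by
            rcases Nat.eq_zero_or_pos m with h | h
            · rw [h, mul_zero] at hm; omega
            · exact h
          exact_mod_cast this
        have h3 : (n : ℝ) = p * m := by exact_mod_cast hm
        have h4 : (p : ℝ) ^ 100 ≤ m := by
          have h5 : (p : ℝ) ^ 101 ≤ n := by
            calc (p : ℝ) ^ 101 ≤ ((n : ℝ) ^ ((1 : ℝ) / 200)) ^ 101 :=
                  pow_le_pow_left₀ hp0'.le hpn 101
              _ = (n : ℝ) ^ ((1 : ℝ) / 200 * 101) := by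
                  rw [Real.rpow_mul hn0'.le]; norm_cast
              _ ≤ (n : ℝ) ^ (1 : ℝ) := Real.rpow_le_rpow_of_exponent_le hn1 (by norm_num)
              _ = n := Real.rpow_one _
          rw [h3, pow_succ] at h5
          have h6 : (p : ℝ) ^ 100 * p ≤ m * p := by linarith
          exact le_of_mul_le_mul_right h6 hp0'
        calc (p : ℝ) = ((p : ℝ) ^ 100) ^ ((1 : ℝ) / 100) := by
              rw [← Real.rpow_natCast, ← Real.rpow_mul hp0'.le]; norm_num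
          _ ≤ _ := Real.rpow_le_rpow (by positivity) h4 (by norm_num)
      · intro x0 y0 v hv
        exact r2_p_le hp _ (hpl x0 y0 v hv)
      · intro x0 y0 v hv hne h
        have h3 := hpl x0 y0 v hv
        have h4 : p % 4 = 1 := by
          by_contra hcon
          have h5 : p % 4 = 3 := by omega
          have h6 := r2_three_not hp h5 _ h3
          rw [card_eq_zero] at h6
          rw [h6] at hne
          exact absurd hne (by simp)
        have h5 : p % 8 = 1 ∨ p % 8 = 5 := by omega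
        have h6 : (lz m p v) % 8 < 8 := Nat.mod_lt _ (by norm_num)
        rw [Nat.mul_mod] at h
        rcases h5 with h5 | h5 <;> rw [h5] at h <;>
          interval_cases (lz m p v) % 8 <;> simp at h ⊢
  · refine ⟨n, p ^ 2, 1, by ring, by ring, Nat.one_le_pow _ _ hp.pos, le_rfl, ?_, ?_, ?_, ?_, ?_⟩
    · exact Nat.Coprime.pow_right 2 ((Nat.Prime.coprime_iff_not_dvd hp).mpr h1).symm
    · rw [Nat.primeFactors_prime_pow (by norm_num) hp, card_singleton]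
    · push_cast
      calc (p : ℝ) ^ 2 ≤ ((n : ℝ) ^ ((1 : ℝ) / 200)) ^ 2 := pow_le_pow_left₀ hp0'.le hpn 2
        _ = (n : ℝ) ^ ((1 : ℝ) / 200 * 2) := by
            rw [Real.rpow_mul hn0'.le]; norm_cast
        _ = _ := by norm_num
    · intro x0 y0 v _
      rw [one_mul]
      omega
    · intro x0 y0 v _ _ h
      rw [one_mul] at h
      exact h

end Pool.Agent.Lib.MP_0e0027_nt

namespace Pool.Agent.Lib.MP_0e0027_nt

theorem bad_small : ∃ C : ℝ, 0 < C ∧ ∀ (n p : ℕ), (n % 8 = 3 ∨ n % 8 = 4 ∨ n % 8 = 7) →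
    p.Prime → p ≠ 2 → (p : ℝ) ≤ (n : ℝ) ^ ((1 : ℝ) / 200) →
    ((Bad n p).card : ℝ) ≤ 48 * (576 * ((n : ℝ) / (p : ℝ) ^ 2) * DD 2 n +
      C * (n : ℝ) ^ ((99 : ℝ) / 100)) := by
  obtain ⟨C, hC, hU⟩ := upper_II
  refine ⟨C, hC, ?_⟩
  intro n p h8 hp hp2 hpn
  have hn0 : 0 < n := by omega
  obtain ⟨A, B, c, hnc, hpc, hB, hc, hcop, hBp, hBA, hr, hmod⟩ := reduce_exists hn0 hp hp2 hpn
  have hDDn : 0 ≤ DD 2 n := DD_nonneg 2 n
  have hp0 : (0 : ℝ) < p := by exact_mod_cast hp.pos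
  have hclass : ∀ x y : ℕ, ((BadC n p (x : ℤ) (y : ℤ)).card : ℝ) ≤
      3 * (576 * ((n : ℝ) / (p : ℝ) ^ 2) * DD 2 n + C * (n : ℝ) ^ ((99 : ℝ) / 100)) := by
    intro x y
    rcases (BadC n p (x : ℤ) (y : ℤ)).eq_empty_or_nonempty with he | ⟨u, hu⟩
    · rw [he, card_empty, Nat.cast_zero]; positivity
    · obtain ⟨h1, h2, h3⟩ := BadC_data h8 hp hnc hpc hB _ _ hu
      have hne : (r2set (c * lz A B (u.1.1 / p, u.1.2 / p))).Nonempty := ⟨_, h2⟩
      have hu' := hu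
      unfold BadC Bad at hu'
      rw [mem_filter, mem_filter] at hu'
      obtain ⟨⟨hQ, _⟩, hc1, hc2⟩ := hu'
      have hpar := parity_Q h8 hQ
      rw [← h3] at hpar
      have h4 := hmod _ _ _ h1 hne (by omega)
      have h5 := (lz_cast hB h1).1
      obtain ⟨s, hs⟩ := sq_sub_dvd_eight hc1
      obtain ⟨t, ht⟩ := sq_sub_dvd_eight hc2
      have h6 : (A : ℤ) - B * ((x : ℤ) ^ 2 + (y : ℤ) ^ 2) =
          (lz A B (u.1.1 / p, u.1.2 / p) : ℤ) + 8 * (B * (s + t)) := by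
        rw [← h5]
        linear_combination (B : ℤ) * hs + B * ht
      have h7 : ((A : ℤ) - B * ((x : ℤ) ^ 2 + (y : ℤ) ^ 2)) % 8 = 1 ∨
          ((A : ℤ) - B * ((x : ℤ) ^ 2 + (y : ℤ) ^ 2)) % 8 = 5 ∨
          ((A : ℤ) - B * ((x : ℤ) ^ 2 + (y : ℤ) ^ 2)) % 8 = 2 := by
        rw [h6, Int.add_mul_emod_self_left]
        omega
      obtain ⟨ν, H⟩ := hyp_of_mod8 hB hcop (x : ℤ) (y : ℤ) h7
      have h8' := hU A B ν (x : ℤ) (y : ℤ) H hBA hBp
      have h9 := BadC_card h8 hp hnc hpc hB (x : ℤ) (y : ℤ) (fun v hv ↦ hr _ _ v hv)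
      have h10 : ((BadC n p (x : ℤ) (y : ℤ)).card : ℝ) ≤ 3 * (Nrep A B 4 (x : ℤ) (y : ℤ) : ℝ) := by
        exact_mod_cast h9
      refine le_trans h10 ?_
      apply mul_le_mul_of_nonneg_left _ (by norm_num)
      refine le_trans h8' ?_
      have hc0 : (0 : ℝ) < c := by exact_mod_cast hc
      have hB0 : (0 : ℝ) < B := by exact_mod_cast hB
      have h11 : (A : ℝ) / B = (n : ℝ) / (p : ℝ) ^ 2 := by
        have e1 : (n : ℝ) = c * A := by exact_mod_cast hnc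
        have e2 : (p : ℝ) ^ 2 = c * B := by exact_mod_cast hpc
        rw [e1, e2, mul_div_mul_left _ _ hc0.ne']
      rw [h11]
      have hAn : A ∣ n := ⟨c, by rw [hnc]; ring⟩
      have h12 : DD 2 A ≤ DD 2 n := DD_mono hAn (by omega)
      have h13 : (A : ℝ) ^ ((99 : ℝ) / 100) ≤ (n : ℝ) ^ ((99 : ℝ) / 100) := by
        apply Real.rpow_le_rpow (by positivity) _ (by norm_num)
        exact_mod_cast Nat.le_of_dvd hn0 hAn
      have h14 : 0 ≤ 576 * ((n : ℝ) / (p : ℝ) ^ 2) := by positivity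
      have h15 := mul_le_mul_of_nonneg_left h12 h14
      have h16 := mul_le_mul_of_nonneg_left h13 hC.le
      linarith
  have h1 : ((Bad n p).card : ℝ) ≤ ∑ x ∈ range 4, ∑ y ∈ range 4,
      ((BadC n p (x : ℤ) (y : ℤ)).card : ℝ) := by
    exact_mod_cast Bad_le_sum n p
  refine le_trans h1 ?_
  refine le_trans (sum_le_sum (fun x _ ↦ sum_le_sum (fun y _ ↦ hclass x y))) ?_
  simp only [sum_const, card_range, nsmul_eq_mul]
  push_cast
  linarith

theorem bad_large (C : ℝ) (hC : 1 ≤ C)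
    (hdiv : ∀ n : ℕ, n ≠ 0 → ((Nat.divisors n).card : ℝ) ≤ C * (n : ℝ) ^ ((1 : ℝ) / 1000))
    {n p : ℕ} (h8 : n % 8 = 3 ∨ n % 8 = 4 ∨ n % 8 = 7) (hp : p.Prime) (hpn : p ^ 2 ≤ n) :
    ((Bad n p).card : ℝ) ≤ 36 * C * (n : ℝ) ^ ((1 : ℝ) / 1000) * ((n : ℝ) * (1 / (p : ℝ) ^ 2)) := by
  have hp0 : (p : ℤ) ≠ 0 := by exact_mod_cast hp.ne_zero
  have hpp : 1 ≤ p ^ 2 := Nat.one_le_pow _ _ hp.pos
  have h1 : (Bad n p).card ≤
      ((Dset (p ^ 2) 1 0 0 n).sigma (fun v ↦ r2set (lz n (p ^ 2) v))).card := by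
    apply card_le_card_of_injOn (fun u ↦ ⟨(u.1.1 / p, u.1.2 / p), u.2⟩)
    · intro u hu
      unfold Bad at hu
      rw [mem_coe, mem_filter] at hu
      obtain ⟨hQ, hp1, hp2⟩ := hu
      have hpar := parity_Q h8 hQ
      rw [mem_Qset] at hQ
      have hsum := hQ.1
      obtain ⟨v1, hv1⟩ := hp1
      obtain ⟨v2, hv2⟩ := hp2
      have e1 : u.1.1 / p = v1 := by rw [hv1]; exact Int.mul_ediv_cancel_left v1 hp0
      have e2 : u.1.2 / p = v2 := by rw [hv2]; exact Int.mul_ediv_cancel_left v2 hp0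
      rw [mem_coe, mem_sigma]
      simp only
      rw [e1, e2]
      have hpos : 0 < u.2.1 ^ 2 + u.2.2 ^ 2 := by
        have : 0 ≤ u.2.1 ^ 2 + u.2.2 ^ 2 := by positivity
        omega
      rw [hv1, hv2] at hsum
      have hD : ((v1, v2) : ℤ × ℤ) ∈ Dset (p ^ 2) 1 0 0 n := by
        rw [mem_Dset hpp]
        refine ⟨one_dvd _, one_dvd _, ?_⟩
        have h2 : ((p ^ 2 : ℕ) : ℤ) * (v1 ^ 2 + v2 ^ 2) < n := by
          push_cast
          linarith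
        exact_mod_cast h2
      refine ⟨hD, ?_⟩
      rw [mem_r2set, ← (lz_cast hpp hD).1]
      push_cast
      linarith
    · intro u hu u' hu' h
      simp only [Sigma.mk.injEq, Prod.mk.injEq, heq_eq_eq] at h
      obtain ⟨⟨h2, h3⟩, h4⟩ := h
      unfold Bad at hu hu'
      rw [mem_coe, mem_filter] at hu hu'
      obtain ⟨_, a1, a2⟩ := hu
      obtain ⟨_, b1, b2⟩ := hu'
      have e1 : u.1.1 = u'.1.1 := by
        rw [← Int.mul_ediv_cancel' a1, ← Int.mul_ediv_cancel' b1, h2]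
      have e2 : u.1.2 = u'.1.2 := by
        rw [← Int.mul_ediv_cancel' a2, ← Int.mul_ediv_cancel' b2, h3]
      exact Prod.ext (Prod.ext e1 e2) h4
  rw [card_sigma] at h1
  have hn0 : 0 < n := by omega
  have hp0' : (0 : ℝ) < p := by exact_mod_cast hp.pos
  have h2 : ((Bad n p).card : ℝ) ≤ ∑ v ∈ Dset (p ^ 2) 1 0 0 n,
      ((r2set (lz n (p ^ 2) v)).card : ℝ) := by exact_mod_cast h1
  refine le_trans h2 ?_
  have h3 : ∀ v ∈ Dset (p ^ 2) 1 0 0 n, ((r2set (lz n (p ^ 2) v)).card : ℝ) ≤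
      4 * C * (n : ℝ) ^ ((1 : ℝ) / 1000) := by
    intro v hv
    obtain ⟨h4, h5⟩ := lz_cast hpp hv
    have h6 := r2_le_div _ h5
    have h7 := hdiv _ h5.ne'
    have h8 : lz n (p ^ 2) v ≤ n := by
      have : (lz n (p ^ 2) v : ℤ) ≤ n := by
        rw [← h4]
        have : 0 ≤ ((p ^ 2 : ℕ) : ℤ) * (v.1 ^ 2 + v.2 ^ 2) := by positivity
        linarith
      exact_mod_cast this
    have h9 : (lz n (p ^ 2) v : ℝ) ^ ((1 : ℝ) / 1000) ≤ (n : ℝ) ^ ((1 : ℝ) / 1000) :=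
      Real.rpow_le_rpow (by positivity) (by exact_mod_cast h8) (by norm_num)
    have h10 := mul_le_mul_of_nonneg_left h9 (by linarith : 0 ≤ C)
    linarith
  refine le_trans (sum_le_sum h3) ?_
  rw [sum_const, nsmul_eq_mul]
  have h4 := card_Dset_le (w := 1) hpp 0 0 (n : ℝ) (by positivity)
  have h5 : (1 : ℝ) ≤ (n : ℝ) / ((p ^ 2 : ℕ) : ℝ) := by
    rw [le_div_iff₀ (by positivity), one_mul]; exact_mod_cast hpn
  have h6 : 1 ≤ Real.sqrt ((n : ℝ) / ((p ^ 2 : ℕ) : ℝ)) := Real.one_le_sqrt.mpr h5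
  have h7 := Real.sq_sqrt (by linarith : 0 ≤ (n : ℝ) / ((p ^ 2 : ℕ) : ℝ))
  have h8 : ((Dset (p ^ 2) 1 0 0 n).card : ℝ) ≤ 9 * ((n : ℝ) / ((p ^ 2 : ℕ) : ℝ)) := by
    refine le_trans h4 ?_
    nlinarith
  have h9 : (n : ℝ) / ((p ^ 2 : ℕ) : ℝ) = (n : ℝ) * (1 / (p : ℝ) ^ 2) := by
    push_cast; ring
  rw [h9] at h8
  have h10 := mul_le_mul_of_nonneg_right h8
    (by positivity : 0 ≤ 4 * C * (n : ℝ) ^ ((1 : ℝ) / 1000))
  linarith

end Pool.Agent.Lib.MP_0e0027_nt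

namespace Pool.Agent.Lib.MP_0e0027_nt

noncomputable instance (n P : ℕ) : DecidablePred (fun ab : ℕ × ℕ ↦ goodc n P ab.1 ab.2) :=
  Classical.decPred _

/-- admissible classes -/
noncomputable def classes (n P : ℕ) : Finset (ℕ × ℕ) :=
  (range (Mw P) ×ˢ range (Mw P)).filter (fun ab ↦ goodc n P ab.1 ab.2)

theorem mem_classes {n P : ℕ} {ab : ℕ × ℕ} :
    ab ∈ classes n P ↔ ab.1 < Mw P ∧ ab.2 < Mw P ∧ goodc n P ab.1 ab.2 := by
  unfold classes
  rw [mem_filter, mem_product, mem_range, mem_range, and_assoc]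

/-- quadruples whose first two entries lie in a given class -/
noncomputable def Tab (n P : ℕ) (ab : ℕ × ℕ) : Finset ((ℤ × ℤ) × (ℤ × ℤ)) :=
  (Qset n).filter (fun u ↦ (Mw P : ℤ) ∣ u.1.1 - ab.1 ∧ (Mw P : ℤ) ∣ u.1.2 - ab.2)

theorem Nrep_le_Tab {n P : ℕ} {ab : ℕ × ℕ} (hab : ab ∈ classes n P) :
    Nrep n 1 (Mw P) ab.1 ab.2 ≤ (Tab n P ab).card := by
  rw [mem_classes] at hab
  unfold Nrep
  rw [← card_sigma]
  apply card_le_card_of_injOn (fun s ↦ (s.1, s.2))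
  · intro s hs
    rw [mem_coe, mem_sigma, mem_r2set] at hs
    obtain ⟨h1, h2⟩ := hs
    have h3 := (lz_cast le_rfl h1).1
    have h4 := h1
    rw [mem_Dset le_rfl] at h4
    unfold Tab
    rw [mem_coe, mem_filter, mem_Qset]
    have h5 := class_facts hab.2.2 h4.1 h4.2.1
    refine ⟨⟨?_, ?_⟩, h4.1, h4.2.1⟩
    · simp only
      rw [h2, ← h3]
      push_cast; ring
    · left; exact h5.1
  · intro s _ s' _ h
    simp only [Prod.mk.injEq] at h
    exact Sigma.ext h.1 (heq_of_eq h.2)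

theorem sum_Tab {n P : ℕ} :
    ∑ ab ∈ classes n P, (Tab n P ab).card = ((classes n P).biUnion (Tab n P)).card := by
  rw [card_biUnion]
  intro ab hab ab' hab' hne
  change Disjoint (Tab n P ab) (Tab n P ab')
  rw [disjoint_left]
  intro u hu hu'
  apply hne
  rw [mem_coe, mem_classes] at hab hab'
  unfold Tab at hu hu'
  rw [mem_filter] at hu hu'
  obtain ⟨_, h1, h2⟩ := hu
  obtain ⟨_, h3, h4⟩ := hu'
  have key : ∀ (x : ℤ) (a a' : ℕ), a < Mw P → a' < Mw P → (Mw P : ℤ) ∣ x - a →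
      (Mw P : ℤ) ∣ x - a' → a = a' := by
    intro x a a' ha ha' hx hx'
    have h5 : (Mw P : ℤ) ∣ (a' : ℤ) - a := by
      have := dvd_sub hx hx'
      have e : x - (a : ℤ) - (x - a') = a' - a := by ring
      rw [e] at this
      exact this
    have h6 : a ≡ a' [MOD (Mw P)] := (Nat.modEq_iff_dvd).mpr h5
    exact Nat.ModEq.eq_of_lt_of_lt h6 ha ha'
  exact Prod.ext (key _ _ _ hab.1 hab'.1 h1 h3) (key _ _ _ hab.2.1 hab'.2.1 h2 h4)

/-- rearrangements of a quadruple -/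
def pm (k : Fin 6) (u : (ℤ × ℤ) × (ℤ × ℤ)) : (ℤ × ℤ) × (ℤ × ℤ) :=
  match k with
  | 0 => ((u.1.1, u.1.2), (u.2.1, u.2.2))
  | 1 => ((u.1.1, u.2.1), (u.1.2, u.2.2))
  | 2 => ((u.1.1, u.2.2), (u.1.2, u.2.1))
  | 3 => ((u.1.2, u.2.1), (u.1.1, u.2.2))
  | 4 => ((u.1.2, u.2.2), (u.1.1, u.2.1))
  | 5 => ((u.2.1, u.2.2), (u.1.1, u.1.2))

theorem pm_inj (k : Fin 6) : Function.Injective (pm k) := by
  intro u v h
  obtain ⟨⟨a, b⟩, ⟨c, d⟩⟩ := u
  obtain ⟨⟨a', b'⟩, ⟨c', d'⟩⟩ := v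
  fin_cases k <;> simp [pm] at h ⊢ <;> tauto

theorem pm_Q {n : ℕ} (k : Fin 6) {u : (ℤ × ℤ) × (ℤ × ℤ)} (hu : u ∈ Qset n) : pm k u ∈ Qset n := by
  rw [mem_Qset] at hu ⊢
  obtain ⟨h1, h2⟩ := hu
  fin_cases k <;> simp only [pm] <;> refine ⟨by linarith, by tauto⟩

/-- all pairs of entries are coprime -/
def PC (u : (ℤ × ℤ) × (ℤ × ℤ)) : Prop :=
  ∀ k : Fin 6, Int.gcd (pm k u).1.1 (pm k u).1.2 = 1

theorem exists_prime_of_gcd {x y : ℤ} (h : Int.gcd x y ≠ 1) :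
    ∃ p : ℕ, p.Prime ∧ (p : ℤ) ∣ x ∧ (p : ℤ) ∣ y := by
  obtain ⟨p, hp, hpd⟩ := Nat.exists_prime_and_dvd h
  have h1 : (p : ℤ) ∣ (Int.gcd x y : ℤ) := by exact_mod_cast hpd
  exact ⟨p, hp, dvd_trans h1 (Int.gcd_dvd_left _ _), dvd_trans h1 (Int.gcd_dvd_right _ _)⟩

/-- the primes at which a non-coprime quadruple can fail -/
theorem bad_prime {n P : ℕ} (h8 : n % 8 = 3 ∨ n % 8 = 4 ∨ n % 8 = 7) {ab : ℕ × ℕ}
    (hab : ab ∈ classes n P) {u : (ℤ × ℤ) × (ℤ × ℤ)} (hu : u ∈ Tab n P ab) (k : Fin 6)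
    (h : Int.gcd (pm k u).1.1 (pm k u).1.2 ≠ 1) :
    ∃ p : ℕ, p.Prime ∧ p ≠ 2 ∧ P < p ∧ p ^ 2 ≤ n ∧ pm k u ∈ Bad n p := by
  obtain ⟨p, hp, hp1, hp2⟩ := exists_prime_of_gcd h
  rw [mem_classes] at hab
  unfold Tab at hu
  rw [mem_filter] at hu
  obtain ⟨hQ, h1, h2⟩ := hu
  obtain ⟨c1, c2, c3⟩ := class_facts hab.2.2 h1 h2
  have hpar := parity_Q h8 hQ
  have hQ' := pm_Q k hQ
  have hQ1 := (mem_Qset.mp hQ).1
  have hQ2 := (mem_Qset.mp hQ').1
  have hbad : pm k u ∈ Bad n p := by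
    unfold Bad
    rw [mem_filter]
    exact ⟨hQ', hp1, hp2⟩
  -- the last two entries
  have hlast : (p : ℤ) ∣ u.2.1 → (p : ℤ) ∣ u.2.2 → (p : ℤ) ∣ (n : ℤ) - u.1.1 ^ 2 - u.1.2 ^ 2 := by
    rintro ⟨s, hs⟩ ⟨t, ht⟩
    refine ⟨p * (s ^ 2 + t ^ 2), ?_⟩
    have : (n : ℤ) - u.1.1 ^ 2 - u.1.2 ^ 2 = u.2.1 ^ 2 + u.2.2 ^ 2 := by linarith
    rw [this, hs, ht]; ring
  have hp2' : p ≠ 2 := by
    rintro rfl
    have hev : ∀ x : ℤ, ((2 : ℕ) : ℤ) ∣ x → x % 2 = 0 := by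
      intro x hx; push_cast at hx; omega
    have a1 := hev _ hp1
    have a2 := hev _ hp2
    have hsq3 := sq_cases u.2.1
    have hsq4 := sq_cases u.2.2
    fin_cases k <;> simp only [pm] at a1 a2 <;> omega
  have hPp : P < p := by
    by_contra hcon
    push Not at hcon
    have hpP : p ∈ PP P := mem_PP.mpr ⟨hp, hcon⟩
    obtain ⟨d1, d2, d3⟩ := c3 p hpP hp2'
    fin_cases k <;> simp only [pm] at hp1 hp2
    · exact d1 hp1
    · exact d1 hp1
    · exact d1 hp1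
    · exact d2 hp1
    · exact d2 hp1
    · exact d3 (hlast hp1 hp2)
  have hnz : (pm k u).1.1 ≠ 0 ∨ (pm k u).1.2 ≠ 0 := by
    by_contra hcon
    push Not at hcon
    obtain ⟨b1, b2⟩ := hcon
    fin_cases k <;> simp only [pm] at b1 b2
    · rw [b1] at c1; omega
    · rw [b1] at c1; omega
    · rw [b1] at c1; omega
    · rw [b1] at c2; omega
    · rw [b1] at c2; omega
    · rw [b1, b2] at hpar; norm_num at hpar
  have hpn : p ^ 2 ≤ n := by
    have hsq : ∀ x : ℤ, x ≠ 0 → (p : ℤ) ∣ x → (p : ℤ) ^ 2 ≤ x ^ 2 := by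
      intro x hx hpx
      obtain ⟨s, hs⟩ := hpx
      have hs0 : s ≠ 0 := by rintro rfl; rw [mul_zero] at hs; exact hx hs
      have hs1 : 1 ≤ s ^ 2 := by
        have : 0 < s ^ 2 := by positivity
        linarith
      rw [hs, mul_pow]
      nlinarith [sq_nonneg (p : ℤ)]
    have hfin : (p : ℤ) ^ 2 ≤ n := by
      rcases hnz with h3 | h3
      · have h4 := hsq _ h3 hp1
        nlinarith [sq_nonneg (pm k u).1.2, sq_nonneg (pm k u).2.1, sq_nonneg (pm k u).2.2]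
      · have h4 := hsq _ h3 hp2
        nlinarith [sq_nonneg (pm k u).1.1, sq_nonneg (pm k u).2.1, sq_nonneg (pm k u).2.2]
    exact_mod_cast hfin
  exact ⟨p, hp, hp2', hPp, hpn, hbad⟩

/-- odd primes in `(P, √n]` -/
def Pr (n P : ℕ) : Finset ℕ := (Ioc P (Nat.sqrt n)).filter (fun p ↦ p.Prime ∧ p ≠ 2)

noncomputable instance : DecidablePred PC := Classical.decPred _

theorem union_bound {n P : ℕ} (h8 : n % 8 = 3 ∨ n % 8 = 4 ∨ n % 8 = 7) :
    ∑ ab ∈ classes n P, Nrep n 1 (Mw P) ab.1 ab.2 ≤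
      ((Qset n).filter PC).card + 6 * ∑ p ∈ Pr n P, (Bad n p).card := by
  classical
  refine le_trans (sum_le_sum (fun ab hab ↦ Nrep_le_Tab hab)) ?_
  rw [sum_Tab]
  have h1 : (classes n P).biUnion (Tab n P) ⊆ (Qset n).filter PC ∪ (Pr n P).biUnion (fun p ↦
      (univ : Finset (Fin 6)).biUnion (fun k ↦ (Qset n).filter (fun u ↦ pm k u ∈ Bad n p))) := by
    intro u hu
    rw [mem_biUnion] at hu
    obtain ⟨ab, hab, hu⟩ := hu
    have hQ : u ∈ Qset n := by unfold Tab at hu; exact (mem_filter.mp hu).1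
    rw [mem_union]
    by_cases h2 : PC u
    · left
      exact mem_filter.mpr ⟨hQ, h2⟩
    · right
      unfold PC at h2
      push Not at h2
      obtain ⟨k, hk⟩ := h2
      obtain ⟨p, hp, hp2, hPp, hpn, hb⟩ := bad_prime h8 hab hu k hk
      rw [mem_biUnion]
      refine ⟨p, ?_, ?_⟩
      · unfold Pr
        rw [mem_filter, mem_Ioc]
        refine ⟨⟨hPp, ?_⟩, hp, hp2⟩
        rw [Nat.le_sqrt, ← sq]; exact hpn
      · rw [mem_biUnion]
        exact ⟨k, mem_univ _, mem_filter.mpr ⟨hQ, hb⟩⟩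
  refine le_trans (card_le_card h1) (le_trans (card_union_le _ _) ?_)
  apply Nat.add_le_add_left
  refine le_trans card_biUnion_le ?_
  rw [mul_sum]
  apply sum_le_sum
  intro p _
  refine le_trans card_biUnion_le ?_
  have h2 : ∀ k ∈ (univ : Finset (Fin 6)), ((Qset n).filter (fun u ↦ pm k u ∈ Bad n p)).card ≤
      (Bad n p).card := by
    intro k _
    apply card_le_card_of_injOn (pm k)
    · intro u hu
      rw [mem_coe, mem_filter] at hu
      exact hu.2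
    · exact (pm_inj k).injOn
  refine le_trans (sum_le_sum h2) ?_
  rw [sum_const, card_univ, Fintype.card_fin, smul_eq_mul]

end Pool.Agent.Lib.MP_0e0027_nt

namespace Pool.Agent.Lib.MP_0e0027_nt

theorem sum_Ioc_sq_le (P N : ℕ) (hP : 1 ≤ P) : ∑ p ∈ Ioc P N, 1 / (p : ℝ) ^ 2 ≤ 1 / (P : ℝ) := by
  rcases Nat.lt_or_ge N P with h | h
  · rw [Ioc_eq_empty (by omega), sum_empty]; positivity
  · have h1 := sum_Ioc_inv_sq_le_sub (α := ℝ) (k := P) (n := N) (by omega) h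
    simp only [one_div]
    have h2 : (0 : ℝ) ≤ ((N : ℝ))⁻¹ := by positivity
    linarith

theorem bad_total : ∃ C : ℝ, 0 < C ∧ ∀ (n P : ℕ), (n % 8 = 3 ∨ n % 8 = 4 ∨ n % 8 = 7) → 1 ≤ P →
    ((∑ p ∈ Pr n P, (Bad n p).card : ℕ) : ℝ) ≤ 27648 * ((n : ℝ) / P) * DD 2 n +
      C * (n : ℝ) ^ ((999 : ℝ) / 1000) := by
  obtain ⟨C, hC, hsmall⟩ := bad_small
  obtain ⟨C1, hC1, hdiv⟩ := divisor_bound (1 / 1000) (by norm_num)
  refine ⟨48 * C + 72 * C1, by positivity, ?_⟩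
  intro n P h8 hP
  have hn : 1 ≤ n := by omega
  have hn' : (1 : ℝ) ≤ n := by exact_mod_cast hn
  have hn0 : (0 : ℝ) < n := by linarith
  have hP' : (1 : ℝ) ≤ P := by exact_mod_cast hP
  have hDD := DD_nonneg 2 n
  set y : ℝ := (n : ℝ) ^ ((1 : ℝ) / 200) with hy
  have hy1 : 1 ≤ y := Real.one_le_rpow hn' (by norm_num)
  set Y := ⌊y⌋₊ with hY
  have hY1 : (Y : ℝ) ≤ y := Nat.floor_le (by linarith)
  have hY2 : y < Y + 1 := Nat.lt_floor_add_one _
  have hY0 : 1 ≤ Y := (Nat.one_le_floor_iff y).mpr hy1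
  have hY0' : (1 : ℝ) ≤ Y := by exact_mod_cast hY0
  set S1 := (Pr n P).filter (fun p ↦ p ≤ Y) with hS1
  set S2 := (Pr n P).filter (fun p ↦ ¬ p ≤ Y) with hS2
  have hsplit : ((∑ p ∈ Pr n P, (Bad n p).card : ℕ) : ℝ) =
      ∑ p ∈ S1, ((Bad n p).card : ℝ) + ∑ p ∈ S2, ((Bad n p).card : ℝ) := by
    push_cast
    rw [hS1, hS2, sum_filter_add_sum_filter_not]
  rw [hsplit]
  have hA : ∑ p ∈ S1, ((Bad n p).card : ℝ) ≤ 27648 * ((n : ℝ) / P) * DD 2 n +
      48 * C * (n : ℝ) ^ ((999 : ℝ) / 1000) := by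
    have h1 : ∀ p ∈ S1, ((Bad n p).card : ℝ) ≤ 27648 * (n * DD 2 n) * (1 / (p : ℝ) ^ 2) +
        48 * C * (n : ℝ) ^ ((99 : ℝ) / 100) := by
      intro p hp
      rw [hS1, mem_filter] at hp
      obtain ⟨hp1, hp2⟩ := hp
      unfold Pr at hp1
      rw [mem_filter] at hp1
      have h2 := hsmall n p h8 hp1.2.1 hp1.2.2 (le_trans (by exact_mod_cast hp2) hY1)
      refine le_trans h2 (le_of_eq ?_)
      ring
    refine le_trans (sum_le_sum h1) ?_
    rw [sum_add_distrib, ← mul_sum, sum_const, nsmul_eq_mul]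
    have h3 : ∑ p ∈ S1, 1 / (p : ℝ) ^ 2 ≤ 1 / (P : ℝ) := by
      refine le_trans (sum_le_sum_of_subset_of_nonneg ?_ (fun _ _ _ ↦ by positivity))
        (sum_Ioc_sq_le P (Nat.sqrt n) hP)
      intro p hp
      rw [hS1, mem_filter] at hp
      unfold Pr at hp
      exact (mem_filter.mp hp.1).1
    have h4 : (S1.card : ℝ) ≤ y := by
      have h5 : S1 ⊆ Icc 1 Y := by
        intro p hp
        rw [hS1, mem_filter] at hp
        unfold Pr at hp
        have := (mem_filter.mp hp.1).1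
        rw [mem_Ioc] at this
        rw [mem_Icc]
        exact ⟨by omega, hp.2⟩
      have h6 := card_le_card h5
      rw [Nat.card_Icc] at h6
      have h7 : (S1.card : ℝ) ≤ Y := by exact_mod_cast (by omega : S1.card ≤ Y)
      linarith
    have h5 : 27648 * ((n : ℝ) * DD 2 n) * ∑ p ∈ S1, 1 / (p : ℝ) ^ 2 ≤
        27648 * ((n : ℝ) / P) * DD 2 n := by
      calc _ ≤ 27648 * ((n : ℝ) * DD 2 n) * (1 / P) :=
            mul_le_mul_of_nonneg_left h3 (by positivity)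
        _ = _ := by ring
    have h6 : (S1.card : ℝ) * (48 * C * (n : ℝ) ^ ((99 : ℝ) / 100)) ≤
        48 * C * (n : ℝ) ^ ((999 : ℝ) / 1000) := by
      calc (S1.card : ℝ) * (48 * C * (n : ℝ) ^ ((99 : ℝ) / 100)) ≤
            y * (48 * C * (n : ℝ) ^ ((99 : ℝ) / 100)) :=
            mul_le_mul_of_nonneg_right h4 (by positivity)
        _ = 48 * C * (y * (n : ℝ) ^ ((99 : ℝ) / 100)) := by ring
        _ ≤ _ := by
            apply mul_le_mul_of_nonneg_left _ (by positivity)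
            rw [hy, ← Real.rpow_add hn0]
            exact Real.rpow_le_rpow_of_exponent_le hn' (by norm_num)
    linarith
  have hB : ∑ p ∈ S2, ((Bad n p).card : ℝ) ≤ 72 * C1 * (n : ℝ) ^ ((999 : ℝ) / 1000) := by
    have h1 : ∀ p ∈ S2, ((Bad n p).card : ℝ) ≤
        36 * C1 * (n : ℝ) ^ ((1 : ℝ) / 1000) * n * (1 / (p : ℝ) ^ 2) := by
      intro p hp
      rw [hS2, mem_filter] at hp
      obtain ⟨hp1, _⟩ := hp
      unfold Pr at hp1
      rw [mem_filter, mem_Ioc] at hp1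
      have h2 : p ^ 2 ≤ n := by
        have := hp1.1.2
        rw [Nat.le_sqrt, ← sq] at this
        exact this
      refine le_trans (bad_large C1 hC1 hdiv h8 hp1.2.1 h2) (le_of_eq ?_)
      ring
    refine le_trans (sum_le_sum h1) ?_
    rw [← mul_sum]
    have h3 : ∑ p ∈ S2, 1 / (p : ℝ) ^ 2 ≤ 1 / (Y : ℝ) := by
      refine le_trans (sum_le_sum_of_subset_of_nonneg ?_ (fun _ _ _ ↦ by positivity))
        (sum_Ioc_sq_le Y (Nat.sqrt n) hY0)
      intro p hp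
      rw [hS2, mem_filter] at hp
      unfold Pr at hp
      have := (mem_filter.mp hp.1).1
      rw [mem_Ioc] at this ⊢
      exact ⟨by omega, this.2⟩
    have h4 : 1 / (Y : ℝ) ≤ 2 / y := by
      rw [div_le_div_iff₀ (by linarith) (by linarith)]
      linarith
    calc 36 * C1 * (n : ℝ) ^ ((1 : ℝ) / 1000) * n * ∑ p ∈ S2, 1 / (p : ℝ) ^ 2 ≤
        36 * C1 * (n : ℝ) ^ ((1 : ℝ) / 1000) * n * (2 / y) :=
          mul_le_mul_of_nonneg_left (le_trans h3 h4) (by positivity)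
      _ = 72 * C1 * ((n : ℝ) ^ ((1 : ℝ) / 1000) * n / y) := by ring
      _ ≤ _ := by
          apply mul_le_mul_of_nonneg_left _ (by positivity)
          rw [div_le_iff₀ (by linarith), hy, ← Real.rpow_add hn0]
          have h5 : (n : ℝ) ^ ((1 : ℝ) / 1000) * n = (n : ℝ) ^ ((1 : ℝ) / 1000 + 1) := by
            rw [Real.rpow_add hn0, Real.rpow_one]
          rw [h5]
          exact Real.rpow_le_rpow_of_exponent_le hn' (by norm_num)
  linarith

end Pool.Agent.Lib.MP_0e0027_nt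

namespace Pool.Agent.Lib.MP_0e0027_nt

/-- local condition at `p` -/
def locp (n p a b : ℕ) : Prop :=
  ¬ p ∣ a ∧ ¬ p ∣ b ∧ ¬ (p : ℤ) ∣ (n : ℤ) - (a : ℤ) ^ 2 - (b : ℤ) ^ 2

noncomputable instance (n p : ℕ) : DecidablePred (fun ab : ℕ × ℕ ↦ locp n p ab.1 ab.2) :=
  Classical.decPred _

/-- the modulus attached to a set of primes -/
def Wd (S : Finset ℕ) : ℕ := 4 * ∏ p ∈ S, p

/-- classes attached to a set of primes -/
def glc (n : ℕ) (S : Finset ℕ) (ab : ℕ × ℕ) : Prop :=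
  ab.1 % 2 = 1 ∧ ab.2 % 2 = 1 ∧ ∀ p ∈ S, locp n p ab.1 ab.2

noncomputable instance (n : ℕ) (S : Finset ℕ) : DecidablePred (glc n S) := Classical.decPred _

noncomputable def clS (n : ℕ) (S : Finset ℕ) : Finset (ℕ × ℕ) :=
  (range (Wd S) ×ˢ range (Wd S)).filter (glc n S)

noncomputable def clp (n p : ℕ) : Finset (ℕ × ℕ) :=
  (range p ×ˢ range p).filter (fun ab ↦ locp n p ab.1 ab.2)

theorem mem_clS {n : ℕ} {S : Finset ℕ} {ab : ℕ × ℕ} : ab ∈ clS n S ↔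
    (ab.1 < Wd S ∧ ab.2 < Wd S) ∧ glc n S ab := by
  unfold clS
  rw [mem_filter, mem_product, mem_range, mem_range]

theorem mem_clp {n p : ℕ} {ab : ℕ × ℕ} : ab ∈ clp n p ↔
    (ab.1 < p ∧ ab.2 < p) ∧ locp n p ab.1 ab.2 := by
  unfold clp
  rw [mem_filter, mem_product, mem_range, mem_range]

theorem roots_le_two {p : ℕ} (hp : p.Prime) (c : ℤ) :
    ((range p).filter (fun b : ℕ ↦ (p : ℤ) ∣ c - (b : ℤ) ^ 2)).card ≤ 2 := by
  rcases ((range p).filter (fun b : ℕ ↦ (p : ℤ) ∣ c - (b : ℤ) ^ 2)).eq_empty_or_nonempty with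
    h | ⟨b0, hb0⟩
  · rw [h]; simp
  · rw [mem_filter, mem_range] at hb0
    have hsub : (range p).filter (fun b : ℕ ↦ (p : ℤ) ∣ c - (b : ℤ) ^ 2) ⊆ {b0, (p - b0) % p} := by
      intro b hb
      rw [mem_filter, mem_range] at hb
      rw [mem_insert, mem_singleton]
      have h1 : (p : ℤ) ∣ ((b : ℤ) - b0) * (b + b0) := by
        have := dvd_sub hb0.2 hb.2
        have e : c - (b0 : ℤ) ^ 2 - (c - (b : ℤ) ^ 2) = ((b : ℤ) - b0) * (b + b0) := by ring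
        rw [e] at this
        exact this
      have hpI : Prime (p : ℤ) := Nat.prime_iff_prime_int.mp hp
      rcases hpI.dvd_or_dvd h1 with h2 | h2
      · left
        have h3 : b0 ≡ b [MOD p] := (Nat.modEq_iff_dvd).mpr h2
        exact (Nat.ModEq.eq_of_lt_of_lt h3 hb0.1 hb.1).symm
      · right
        have h3 : p ∣ b + b0 := by exact_mod_cast h2
        obtain ⟨k, hk⟩ := h3
        have hk2 : k < 2 := by
          by_contra hcon
          push Not at hcon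
          have : p * 2 ≤ p * k := Nat.mul_le_mul_left p hcon
          omega
        interval_cases k
        · have hb00 : b = 0 := by omega
          have hb01 : b0 = 0 := by omega
          rw [hb00, hb01]; simp
        · rcases Nat.eq_zero_or_pos b0 with h4 | h4
          · omega
          · rw [Nat.mod_eq_of_lt (by omega)]
            omega
    refine le_trans (card_le_card hsub) ?_
    exact card_le_two

theorem clp_ge {n p : ℕ} (hp : p.Prime) : p ^ 2 ≤ (clp n p).card + 4 * p := by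
  classical
  have h1 : range p ×ˢ range p ⊆ clp n p ∪ (({0} ×ˢ range p) ∪ ((range p ×ˢ {0}) ∪
      ((range p).sigma (fun a : ℕ ↦ (range p).filter
        (fun b : ℕ ↦ (p : ℤ) ∣ ((n : ℤ) - (a : ℤ) ^ 2) - (b : ℤ) ^ 2))).image
          (fun s ↦ (s.1, s.2)))) := by
    intro ab hab
    rw [mem_product, mem_range, mem_range] at hab
    by_cases ha : p ∣ ab.1
    · have : ab.1 = 0 := Nat.eq_zero_of_dvd_of_lt ha hab.1
      rw [mem_union, mem_union]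
      right; left
      rw [mem_product, mem_singleton, mem_range]
      exact ⟨this, hab.2⟩
    · by_cases hb : p ∣ ab.2
      · have : ab.2 = 0 := Nat.eq_zero_of_dvd_of_lt hb hab.2
        rw [mem_union, mem_union, mem_union]
        right; right; left
        rw [mem_product, mem_singleton, mem_range]
        exact ⟨hab.1, this⟩
      · by_cases hc : (p : ℤ) ∣ (n : ℤ) - (ab.1 : ℤ) ^ 2 - (ab.2 : ℤ) ^ 2
        · rw [mem_union, mem_union, mem_union]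
          right; right; right
          rw [mem_image]
          refine ⟨⟨ab.1, ab.2⟩, ?_, rfl⟩
          rw [mem_sigma, mem_filter, mem_range, mem_range]
          exact ⟨hab.1, hab.2, hc⟩
        · rw [mem_union]
          left
          rw [mem_clp]
          exact ⟨hab, ha, hb, hc⟩
  have h2 := card_le_card h1
  have h3 := card_union_le (clp n p) (({0} ×ˢ range p) ∪ ((range p ×ˢ {0}) ∪
      ((range p).sigma (fun a : ℕ ↦ (range p).filter
        (fun b : ℕ ↦ (p : ℤ) ∣ ((n : ℤ) - (a : ℤ) ^ 2) - (b : ℤ) ^ 2))).image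
          (fun s ↦ (s.1, s.2))))
  have h4 := card_union_le ({0} ×ˢ range p) ((range p ×ˢ {0}) ∪
      ((range p).sigma (fun a : ℕ ↦ (range p).filter
        (fun b : ℕ ↦ (p : ℤ) ∣ ((n : ℤ) - (a : ℤ) ^ 2) - (b : ℤ) ^ 2))).image
          (fun s ↦ (s.1, s.2)))
  have h5 := card_union_le (range p ×ˢ {0}) (((range p).sigma (fun a : ℕ ↦ (range p).filter
        (fun b : ℕ ↦ (p : ℤ) ∣ ((n : ℤ) - (a : ℤ) ^ 2) - (b : ℤ) ^ 2))).image
          (fun s ↦ (s.1, s.2)))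
  have h6 : (((range p).sigma (fun a : ℕ ↦ (range p).filter
        (fun b : ℕ ↦ (p : ℤ) ∣ ((n : ℤ) - (a : ℤ) ^ 2) - (b : ℤ) ^ 2))).image
          (fun s ↦ (s.1, s.2))).card ≤ 2 * p := by
    refine le_trans card_image_le ?_
    rw [card_sigma]
    refine le_trans (sum_le_sum (fun a _ ↦ roots_le_two hp ((n : ℤ) - (a : ℤ) ^ 2))) ?_
    rw [sum_const, card_range, smul_eq_mul]
    omega
  rw [card_product, card_range] at h2
  rw [card_product, card_singleton, card_range] at h4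
  rw [card_product, card_singleton, card_range] at h5
  rw [sq]
  omega

theorem clp_three {n : ℕ} (h3 : n % 3 ≠ 2) : 4 ≤ (clp n 3).card := by
  have h1 : ({(1, 1), (1, 2), (2, 1), (2, 2)} : Finset (ℕ × ℕ)) ⊆ clp n 3 := by
    intro ab hab
    simp only [mem_insert, mem_singleton] at hab
    rw [mem_clp]
    unfold locp
    rcases hab with h | h | h | h <;> subst h <;> simp <;> omega
  exact card_le_card h1

theorem clp_exp {n p : ℕ} (hp : p.Prime) (hp2 : p ≠ 2) (h3 : n % 3 ≠ 2) :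
    (p : ℝ) ^ 2 * Real.exp (-(20 / (p : ℝ))) ≤ ((clp n p).card : ℝ) := by
  rcases Nat.lt_or_ge p 5 with h | h
  · have hp3 : p = 3 := by
      have := hp.two_le
      have h4 : p ≠ 4 := by rintro rfl; revert hp; norm_num
      omega
    subst hp3
    have h4 := clp_three h3
    have h5 : (4 : ℝ) ≤ ((clp n 3).card : ℝ) := by exact_mod_cast h4
    refine le_trans ?_ h5
    rw [Real.exp_neg]
    have h6 : (20 : ℝ) / ((3 : ℕ) : ℝ) + 1 ≤ Real.exp (20 / ((3 : ℕ) : ℝ)) := Real.add_one_le_exp _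
    push_cast at h6 ⊢
    rw [← div_eq_mul_inv, div_le_iff₀ (Real.exp_pos _)]
    linarith
  · have h1 := clp_ge (n := n) hp
    have h2 : (p : ℝ) ^ 2 - 4 * p ≤ ((clp n p).card : ℝ) := by
      have : (p : ℝ) ^ 2 ≤ (clp n p).card + 4 * p := by exact_mod_cast h1
      linarith
    refine le_trans ?_ h2
    have hp5 : (5 : ℝ) ≤ p := by exact_mod_cast h
    have hp0 : (0 : ℝ) < p := by linarith
    have hp4 : (0 : ℝ) < p - 4 := by linarith
    have h3 : (4 : ℝ) / (p - 4) + 1 ≤ Real.exp (4 / (p - 4)) := Real.add_one_le_exp _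
    have h4 : (4 : ℝ) / (p - 4) ≤ 20 / p := by
      rw [div_le_div_iff₀ hp4 hp0]
      linarith
    have h5 : Real.exp (4 / ((p : ℝ) - 4)) ≤ Real.exp (20 / p) := Real.exp_le_exp.mpr h4
    have h6 : (p : ℝ) / (p - 4) ≤ Real.exp (20 / p) := by
      have : (p : ℝ) / (p - 4) = 4 / (p - 4) + 1 := by field_simp; ring
      rw [this]; linarith
    rw [Real.exp_neg, ← div_eq_mul_inv, div_le_iff₀ (Real.exp_pos _)]
    rw [div_le_iff₀ hp4] at h6
    nlinarith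

theorem clS_insert {n : ℕ} {S : Finset ℕ} (hS : ∀ q ∈ S, q.Prime ∧ q ≠ 2) {p : ℕ} (hp : p.Prime)
    (hp2 : p ≠ 2) (hpS : p ∉ S) :
    (clS n S).card * (clp n p).card ≤ (clS n (insert p S)).card := by
  have hWp : Wd (insert p S) = Wd S * p := by
    unfold Wd
    rw [prod_insert hpS]; ring
  have hcop : Nat.Coprime (Wd S) p := by
    rw [Nat.coprime_comm, Nat.Prime.coprime_iff_not_dvd hp]
    unfold Wd
    intro h
    rcases hp.dvd_mul.mp h with h | h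
    · have h4 : p ∣ 2 ^ 2 := by simpa using h
      exact hp2 ((Nat.prime_dvd_prime_iff_eq hp Nat.prime_two).mp (hp.dvd_of_dvd_pow h4))
    · rw [Prime.dvd_finsetProd_iff (Nat.prime_iff.mp hp)] at h
      obtain ⟨q, hq, hpq⟩ := h
      have := (Nat.prime_dvd_prime_iff_eq hp (hS q hq).1).mp hpq
      exact hpS (this ▸ hq)
  have hW0 : Wd S ≠ 0 := by
    unfold Wd
    have : ∏ p ∈ S, p ≠ 0 := prod_ne_zero_iff.mpr (fun q hq ↦ (hS q hq).1.ne_zero)
    positivity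
  rw [← card_product]
  let cr : ℕ → ℕ → ℕ := fun a b ↦ (Nat.chineseRemainder hcop a b : ℕ)
  have hcr1 : ∀ a b, cr a b ≡ a [MOD Wd S] := fun a b ↦ (Nat.chineseRemainder hcop a b).2.1
  have hcr2 : ∀ a b, cr a b ≡ b [MOD p] := fun a b ↦ (Nat.chineseRemainder hcop a b).2.2
  have hcr3 : ∀ a b, cr a b < Wd S * p := fun a b ↦
    Nat.chineseRemainder_lt_mul hcop a b hW0 hp.ne_zero
  have hloc : ∀ (q a b a' b' : ℕ), a' ≡ a [MOD q] → b' ≡ b [MOD q] → locp n q a b →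
      locp n q a' b' := by
    intro q a b a' b' ha hb h
    obtain ⟨h1, h2, h3⟩ := h
    refine ⟨?_, ?_, ?_⟩
    · intro h; exact h1 ((Nat.ModEq.dvd_iff ha dvd_rfl).mp h)
    · intro h; exact h2 ((Nat.ModEq.dvd_iff hb dvd_rfl).mp h)
    · intro h
      apply h3
      have ha' : (q : ℤ) ∣ (a : ℤ) - a' := (Nat.modEq_iff_dvd).mp ha
      have hb' : (q : ℤ) ∣ (b : ℤ) - b' := (Nat.modEq_iff_dvd).mp hb
      have e : (n : ℤ) - (a : ℤ) ^ 2 - (b : ℤ) ^ 2 = ((n : ℤ) - (a' : ℤ) ^ 2 - (b' : ℤ) ^ 2) -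
          ((a : ℤ) - a') * (a + a') - ((b : ℤ) - b') * (b + b') := by ring
      rw [e]
      exact dvd_sub (dvd_sub h (Dvd.dvd.mul_right ha' _)) (Dvd.dvd.mul_right hb' _)
  apply card_le_card_of_injOn (fun x ↦ (cr x.1.1 x.2.1, cr x.1.2 x.2.2))
  · intro x hx
    rw [mem_coe, mem_product] at hx
    obtain ⟨hx1, hx2⟩ := hx
    rw [mem_clS] at hx1
    rw [mem_clp] at hx2
    obtain ⟨_, h1, h2, h3⟩ := hx1
    obtain ⟨_, h4⟩ := hx2
    rw [mem_coe, mem_clS, hWp]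
    have h2W : 2 ∣ Wd S := by unfold Wd; exact Dvd.dvd.mul_right (by norm_num) _
    refine ⟨⟨hcr3 _ _, hcr3 _ _⟩, ?_, ?_, ?_⟩
    · have := (hcr1 x.1.1 x.2.1).of_dvd h2W
      unfold Nat.ModEq at this
      simp only
      omega
    · have := (hcr1 x.1.2 x.2.2).of_dvd h2W
      unfold Nat.ModEq at this
      simp only
      omega
    · intro q hq
      rcases mem_insert.mp hq with h5 | h5
      · subst h5
        exact hloc _ _ _ _ _ (hcr2 _ _) (hcr2 _ _) h4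
      · have hqW : q ∣ Wd S := by
          unfold Wd
          exact Dvd.dvd.mul_left (dvd_prod_of_mem _ h5) _
        exact hloc _ _ _ _ _ ((hcr1 _ _).of_dvd hqW) ((hcr1 _ _).of_dvd hqW) (h3 q h5)
  · intro x hx x' hx' h
    rw [mem_coe, mem_product] at hx hx'
    obtain ⟨hx1, hx2⟩ := hx
    obtain ⟨hy1, hy2⟩ := hx'
    rw [mem_clS] at hx1 hy1
    rw [mem_clp] at hx2 hy2
    simp only [Prod.mk.injEq] at h
    have key : ∀ a b a' b' : ℕ, a < Wd S → a' < Wd S → b < p → b' < p → cr a b = cr a' b' →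
        a = a' ∧ b = b' := by
      intro a b a' b' ha ha' hb hb' he
      constructor
      · have h1 : a ≡ a' [MOD Wd S] := (hcr1 a b).symm.trans (he ▸ hcr1 a' b')
        exact Nat.ModEq.eq_of_lt_of_lt h1 ha ha'
      · have h1 : b ≡ b' [MOD p] := (hcr2 a b).symm.trans (he ▸ hcr2 a' b')
        exact Nat.ModEq.eq_of_lt_of_lt h1 hb hb'
    obtain ⟨e1, e2⟩ := key _ _ _ _ hx1.1.1 hy1.1.1 hx2.1.1 hy2.1.1 h.1
    obtain ⟨e3, e4⟩ := key _ _ _ _ hx1.1.2 hy1.1.2 hx2.1.2 hy2.1.2 h.2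
    exact Prod.ext (Prod.ext e1 e3) (Prod.ext e2 e4)

theorem clS_ge {n : ℕ} (h3 : n % 3 ≠ 2) (S : Finset ℕ) (hS : ∀ q ∈ S, q.Prime ∧ q ≠ 2) :
    4 * ∏ p ∈ S, ((p : ℝ) ^ 2 * Real.exp (-(20 / (p : ℝ)))) ≤ ((clS n S).card : ℝ) := by
  induction S using Finset.induction_on with
  | empty =>
    have h1 : ({(1, 1), (1, 3), (3, 1), (3, 3)} : Finset (ℕ × ℕ)) ⊆ clS n ∅ := by
      intro ab hab
      simp only [mem_insert, mem_singleton] at hab
      rw [mem_clS]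
      unfold glc Wd
      rcases hab with h | h | h | h <;> subst h <;> simp
    have h2 := card_le_card h1
    have h3 : ({(1, 1), (1, 3), (3, 1), (3, 3)} : Finset (ℕ × ℕ)).card = 4 := rfl
    rw [h3] at h2
    rw [prod_empty, mul_one]
    exact_mod_cast h2
  | insert p S hp ih =>
    have hS' : ∀ q ∈ S, q.Prime ∧ q ≠ 2 := fun q hq ↦ hS q (mem_insert_of_mem hq)
    obtain ⟨hpp, hp2⟩ := hS p (mem_insert_self _ _)
    have h1 := clS_insert (n := n) hS' hpp hp2 hp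
    have h2 := ih hS'
    have h4 := clp_exp (n := n) hpp hp2 h3
    rw [prod_insert hp]
    calc 4 * ((p : ℝ) ^ 2 * Real.exp (-(20 / (p : ℝ))) * ∏ p ∈ S, ((p : ℝ) ^ 2 *
          Real.exp (-(20 / (p : ℝ))))) = (4 * ∏ p ∈ S, ((p : ℝ) ^ 2 *
          Real.exp (-(20 / (p : ℝ))))) * ((p : ℝ) ^ 2 * Real.exp (-(20 / (p : ℝ)))) := by ring
      _ ≤ ((clS n S).card : ℝ) * ((clp n p).card : ℝ) := by
          apply mul_le_mul h2 h4 (by positivity) (by positivity)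
      _ ≤ _ := by exact_mod_cast h1

theorem Mw_eq {P : ℕ} (hP : 2 ≤ P) : Mw P = Wd ((PP P).erase 2) := by
  unfold Mw Wd
  have h2 : 2 ∈ PP P := mem_PP.mpr ⟨Nat.prime_two, hP⟩
  rw [← mul_prod_erase _ _ h2]
  ring

theorem classes_ge {n P : ℕ} (h3 : n % 3 ≠ 2) (hP : 2 ≤ P) :
    (1 / 4) * Real.exp (-(20 * ∑ p ∈ PP P, 1 / (p : ℝ))) * (Mw P : ℝ) ^ 2 ≤
      ((classes n P).card : ℝ) := by
  have h2 : 2 ∈ PP P := mem_PP.mpr ⟨Nat.prime_two, hP⟩
  have hS : ∀ q ∈ (PP P).erase 2, q.Prime ∧ q ≠ 2 := by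
    intro q hq
    rw [mem_erase] at hq
    exact ⟨(mem_PP.mp hq.2).1, hq.1⟩
  have h4 := clS_ge (n := n) h3 ((PP P).erase 2) hS
  have h5 : clS n ((PP P).erase 2) ⊆ classes n P := by
    intro ab hab
    rw [mem_clS] at hab
    rw [mem_classes, Mw_eq hP]
    refine ⟨hab.1.1, hab.1.2, hab.2.1, hab.2.2.1, ?_⟩
    intro p hp hp2
    exact hab.2.2.2 p (mem_erase.mpr ⟨hp2, hp⟩)
  have h6 : ((clS n ((PP P).erase 2)).card : ℝ) ≤ ((classes n P).card : ℝ) := by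
    exact_mod_cast card_le_card h5
  refine le_trans ?_ (le_trans h4 h6)
  rw [Mw_eq hP]
  unfold Wd
  push_cast
  rw [prod_mul_distrib, prod_pow, ← Real.exp_sum, mul_pow]
  have h7 : -(20 * ∑ p ∈ PP P, 1 / (p : ℝ)) ≤ ∑ x ∈ (PP P).erase 2, -(20 / (x : ℝ)) := by
    rw [sum_neg_distrib, neg_le_neg_iff, mul_sum]
    calc ∑ x ∈ (PP P).erase 2, 20 / (x : ℝ) ≤ ∑ x ∈ PP P, 20 / (x : ℝ) :=
          sum_le_sum_of_subset_of_nonneg (erase_subset _ _) (fun _ _ _ ↦ by positivity)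
      _ = _ := by
          refine sum_congr rfl (fun x _ ↦ ?_)
          ring
  have h8 := Real.exp_le_exp.mpr h7
  have h9 : (0 : ℝ) ≤ (∏ i ∈ (PP P).erase 2, (i : ℝ)) ^ 2 := by positivity
  nlinarith [mul_le_mul_of_nonneg_right h8 h9]

end Pool.Agent.Lib.MP_0e0027_nt

namespace Pool.Agent.Lib.MP_0e0027_nt

/-- sum of reciprocals of primes -/
noncomputable def sP (P : ℕ) : ℝ := ∑ p ∈ PP P, 1 / (p : ℝ)

theorem dyadic_count (j : ℕ) :
    j * ((PP (2 ^ (j + 1))).filter (fun p ↦ 2 ^ j < p)).card ≤ 2 ^ (j + 2) := by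
  set U := (PP (2 ^ (j + 1))).filter (fun p ↦ 2 ^ j < p) with hU
  have h1 : (2 ^ j) ^ U.card ≤ ∏ p ∈ U, p := by
    rw [← prod_const]
    apply prod_le_prod' 
    intro p hp
    rw [hU, mem_filter] at hp
    exact hp.2.le
  have h2 : ∏ p ∈ U, p ≤ primorial (2 ^ (j + 1)) := by
    unfold primorial
    apply prod_le_prod_of_subset_of_one_le'
    · intro p hp
      rw [hU, mem_filter] at hp
      exact hp.1
    · intro p hp _
      rw [mem_filter] at hp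
      exact hp.2.one_lt.le
  have h3 := primorial_le_four_pow (2 ^ (j + 1))
  have h4 : (4 : ℕ) ^ (2 ^ (j + 1)) = 2 ^ (2 ^ (j + 2)) := by
    rw [show (4 : ℕ) = 2 ^ 2 by norm_num, ← pow_mul]
    congr 1
    ring
  have h5 : 2 ^ (j * U.card) ≤ 2 ^ (2 ^ (j + 2)) := by
    rw [pow_mul, ← h4]
    exact le_trans h1 (le_trans h2 h3)
  exact (Nat.pow_le_pow_iff_right (by norm_num)).mp h5

theorem sP_step (j : ℕ) (hj : 1 ≤ j) : sP (2 ^ (j + 1)) ≤ sP (2 ^ j) + 4 * (1 / (j : ℝ)) := by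
  have hj0 : (0 : ℝ) < j := by exact_mod_cast hj
  set U := (PP (2 ^ (j + 1))).filter (fun p ↦ 2 ^ j < p) with hU
  have h1 : sP (2 ^ (j + 1)) = ∑ p ∈ (PP (2 ^ (j + 1))).filter (fun p ↦ ¬ 2 ^ j < p), 1 / (p : ℝ) +
      ∑ p ∈ U, 1 / (p : ℝ) := by
    have h := sum_filter_add_sum_filter_not (PP (2 ^ (j + 1))) (fun p ↦ 2 ^ j < p)
      (fun p ↦ 1 / (p : ℝ))
    unfold sP
    rw [hU]
    linarith
  have h2 : ∑ p ∈ (PP (2 ^ (j + 1))).filter (fun p ↦ ¬ 2 ^ j < p), 1 / (p : ℝ) ≤ sP (2 ^ j) := by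
    unfold sP
    apply sum_le_sum_of_subset_of_nonneg
    · intro p hp
      rw [mem_filter, mem_PP] at hp
      rw [mem_PP]
      exact ⟨hp.1.1, by omega⟩
    · intro _ _ _; positivity
  have h3 : ∑ p ∈ U, 1 / (p : ℝ) ≤ (U.card : ℝ) * (1 / (2 : ℝ) ^ j) := by
    rw [← nsmul_eq_mul, ← sum_const]
    apply sum_le_sum
    intro p hp
    rw [hU, mem_filter] at hp
    apply one_div_le_one_div_of_le (by positivity)
    exact_mod_cast hp.2.le
  have h4 : (U.card : ℝ) * (1 / (2 : ℝ) ^ j) ≤ 4 * (1 / (j : ℝ)) := by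
    have h5 : (j : ℝ) * U.card ≤ 2 ^ (j + 2) := by exact_mod_cast dyadic_count j
    rw [mul_one_div, mul_one_div, div_le_div_iff₀ (by positivity) hj0]
    have h6 : (2 : ℝ) ^ (j + 2) = 4 * 2 ^ j := by ring
    linarith
  linarith

theorem sP_bound (k : ℕ) : sP (2 ^ (k + 1)) ≤ 1 / 2 + 4 * ∑ j ∈ Icc 1 k, 1 / (j : ℝ) := by
  induction k with
  | zero =>
    have : PP (2 ^ (0 + 1)) = {2} := by
      ext p
      rw [mem_PP, mem_singleton]
      constructor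
      · rintro ⟨h1, h2⟩
        have := h1.two_le
        omega
      · rintro rfl
        exact ⟨Nat.prime_two, by norm_num⟩
    unfold sP
    rw [this]
    simp
  | succ k ih =>
    have h1 := sP_step (k + 1) (by omega)
    rw [sum_Icc_succ_top (by omega)]
    linarith

theorem exists_P (R : ℝ) : ∃ P : ℕ, 2 ≤ P ∧ R < P * Real.exp (-(24 * sP P)) := by
  have h1 := tendsto_pow_const_div_const_pow_of_one_lt 96 (by norm_num : (1 : ℝ) < 2)
  have hR : (0 : ℝ) < Real.exp (-108) / (|R| + 1) := by positivity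
  have h2 := (h1.eventually (gt_mem_nhds hR)).and (Filter.eventually_ge_atTop 1)
  obtain ⟨k, hk, hk1⟩ := h2.exists
  have hk0 : (1 : ℝ) ≤ k := by exact_mod_cast hk1
  refine ⟨2 ^ (k + 1), ?_, ?_⟩
  · calc 2 = 2 ^ 1 := by norm_num
      _ ≤ 2 ^ (k + 1) := Nat.pow_le_pow_right (by norm_num) (by omega)
  · have h3 := sP_bound k
    have h4 : ∑ j ∈ Icc 1 k, (1 : ℝ) / j ≤ 1 + Real.log k := by
      have h := harmonic_le_one_add_log k
      rw [harmonic_eq_sum_Icc] at h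
      push_cast at h
      simpa [one_div] using h
    have h5 : -(24 * sP (2 ^ (k + 1))) ≥ -108 + (-(96 * Real.log k)) := by linarith
    have h6 : Real.exp (-108) * ((k : ℝ) ^ 96)⁻¹ ≤ Real.exp (-(24 * sP (2 ^ (k + 1)))) := by
      have h7 : Real.exp (-(96 * Real.log k)) = ((k : ℝ) ^ 96)⁻¹ := by
        rw [Real.exp_neg]
        congr 1
        have : (96 : ℝ) * Real.log k = ((96 : ℕ) : ℝ) * Real.log k := by norm_num
        rw [this, Real.exp_nat_mul, Real.exp_log (by linarith)]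
      rw [← h7, ← Real.exp_add]
      exact Real.exp_le_exp.mpr h5
    have hk96 : (0 : ℝ) < (k : ℝ) ^ 96 := by positivity
    rw [div_lt_div_iff₀ (by positivity) (by positivity)] at hk
    have h8 : R < 2 ^ k * (Real.exp (-108) * ((k : ℝ) ^ 96)⁻¹) := by
      have h9 : |R| + 1 < 2 ^ k * (Real.exp (-108) * ((k : ℝ) ^ 96)⁻¹) := by
        rw [← mul_assoc, ← div_eq_mul_inv, lt_div_iff₀ hk96]
        linarith
      linarith [le_abs_self R]
    refine lt_of_lt_of_le h8 ?_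
    have h10 : (2 : ℝ) ^ k ≤ ((2 ^ (k + 1) : ℕ) : ℝ) := by
      push_cast
      exact pow_le_pow_right₀ (by norm_num) (by omega)
    exact mul_le_mul h10 h6 (by positivity) (by positivity)

theorem DD_mul_prime (G n p : ℕ) (hp : p.Prime) :
    (1 - 1 / (p : ℝ)) * DD G n ≤ DD (G * p) n := by
  have hp0 : (0 : ℝ) < p := by exact_mod_cast hp.pos
  set T := n.divisors.filter (fun d ↦ Nat.Coprime d G) with hT
  have h1 : DD G n = ∑ d ∈ T.filter (fun d ↦ p ∣ d), 1 / (d : ℝ) +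
      ∑ d ∈ T.filter (fun d ↦ ¬ p ∣ d), 1 / (d : ℝ) := by
    unfold DD
    rw [sum_filter_add_sum_filter_not]
  have h2 : T.filter (fun d ↦ ¬ p ∣ d) = n.divisors.filter (fun d ↦ Nat.Coprime d (G * p)) := by
    ext d
    rw [hT, mem_filter, mem_filter, mem_filter]
    constructor
    · rintro ⟨⟨h3, h4⟩, h5⟩
      exact ⟨h3, Nat.Coprime.mul_right h4 ((Nat.Prime.coprime_iff_not_dvd hp).mpr h5).symm⟩
    · rintro ⟨h3, h4⟩
      exact ⟨⟨h3, Nat.Coprime.coprime_mul_right_right h4⟩,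
        (Nat.Prime.coprime_iff_not_dvd hp).mp (Nat.Coprime.coprime_mul_left_right h4).symm⟩
  have h3 : ∑ d ∈ T.filter (fun d ↦ p ∣ d), 1 / (d : ℝ) ≤ 1 / p * DD G n := by
    have h4 : ∑ d ∈ T.filter (fun d ↦ p ∣ d), 1 / (d : ℝ) =
        ∑ m ∈ (T.filter (fun d ↦ p ∣ d)).image (fun d ↦ d / p), 1 / (p : ℝ) * (1 / m) := by
      rw [sum_image]
      · refine sum_congr rfl (fun d hd ↦ ?_)
        rw [mem_filter] at hd
        rw [Nat.cast_div hd.2 hp0.ne']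
        have hd0 : (0 : ℝ) < d := by
          have h5 := hd.1
          rw [hT, mem_filter] at h5
          exact_mod_cast Nat.pos_of_mem_divisors h5.1
        field_simp
      · intro d hd d' hd' h
        rw [mem_coe, mem_filter] at hd hd'
        simp only at h
        rw [← Nat.div_mul_cancel hd.2, ← Nat.div_mul_cancel hd'.2, h]
    rw [h4, ← mul_sum]
    apply mul_le_mul_of_nonneg_left _ (by positivity)
    unfold DD
    apply sum_le_sum_of_subset_of_nonneg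
    · intro m hm
      rw [mem_image] at hm
      obtain ⟨d, hd, rfl⟩ := hm
      rw [mem_filter, hT, mem_filter, Nat.mem_divisors] at hd
      rw [mem_filter, Nat.mem_divisors]
      refine ⟨⟨dvd_trans (Nat.div_dvd_of_dvd hd.2) hd.1.1.1, hd.1.1.2⟩, ?_⟩
      exact Nat.Coprime.coprime_dvd_left (Nat.div_dvd_of_dvd hd.2) hd.1.2
    · intro _ _ _; positivity
  have h5 : DD (G * p) n = ∑ d ∈ T.filter (fun d ↦ ¬ p ∣ d), 1 / (d : ℝ) := by
    rw [h2]; rfl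
  rw [h5]
  linarith

theorem DD_mul_prod (G n : ℕ) (S : Finset ℕ) (hS : ∀ q ∈ S, q.Prime) :
    (∏ p ∈ S, (1 - 1 / (p : ℝ))) * DD G n ≤ DD (G * ∏ p ∈ S, p) n := by
  induction S using Finset.induction_on with
  | empty => simp
  | insert p S hp ih =>
    have hS' : ∀ q ∈ S, q.Prime := fun q hq ↦ hS q (mem_insert_of_mem hq)
    have hpp := hS p (mem_insert_self _ _)
    rw [prod_insert hp, prod_insert hp]
    have h1 := DD_mul_prime (G * ∏ p ∈ S, p) n p hpp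
    have h2 := ih hS'
    have hp1 : (1 : ℝ) ≤ p := by exact_mod_cast hpp.one_lt.le
    have h3 : 0 ≤ 1 - 1 / (p : ℝ) := by
      have : 1 / (p : ℝ) ≤ 1 := by rw [div_le_one (by linarith)]; exact hp1
      linarith
    have e : G * (p * ∏ p ∈ S, p) = G * (∏ p ∈ S, p) * p := by ring
    rw [e]
    calc (1 - 1 / (p : ℝ)) * (∏ p ∈ S, (1 - 1 / (p : ℝ))) * DD G n =
          (1 - 1 / (p : ℝ)) * ((∏ p ∈ S, (1 - 1 / (p : ℝ))) * DD G n) := by ring
      _ ≤ (1 - 1 / (p : ℝ)) * DD (G * ∏ p ∈ S, p) n := mul_le_mul_of_nonneg_left h2 h3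
      _ ≤ _ := h1

theorem prod_ge_exp (S : Finset ℕ) (hS : ∀ q ∈ S, q.Prime) :
    Real.exp (-(2 * ∑ p ∈ S, 1 / (p : ℝ))) ≤ ∏ p ∈ S, (1 - 1 / (p : ℝ)) := by
  have h1 : Real.exp (-(2 * ∑ p ∈ S, 1 / (p : ℝ))) = ∏ p ∈ S, Real.exp (-(2 * (1 / (p : ℝ)))) := by
    rw [← Real.exp_sum, sum_neg_distrib, mul_sum]
  rw [h1]
  apply prod_le_prod
  · intro p _; positivity
  · intro p hp
    have hp2 : (2 : ℝ) ≤ p := by exact_mod_cast (hS p hp).two_le
    have hp0 : (0 : ℝ) < p := by linarith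
    have hp1 : (0 : ℝ) < p - 1 := by linarith
    have h2 : (1 : ℝ) / (p - 1) + 1 ≤ Real.exp (1 / (p - 1)) := Real.add_one_le_exp _
    have h3 : (1 : ℝ) / (p - 1) ≤ 2 * (1 / p) := by
      rw [mul_one_div, div_le_div_iff₀ hp1 hp0]
      linarith
    have h4 := Real.exp_le_exp.mpr h3
    have h5 : (p : ℝ) / (p - 1) ≤ Real.exp (2 * (1 / p)) := by
      have : (p : ℝ) / (p - 1) = 1 / (p - 1) + 1 := by field_simp; ring
      rw [this]; linarith
    rw [Real.exp_neg, inv_eq_one_div, div_le_iff₀ (Real.exp_pos _)]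
    rw [div_le_iff₀ hp1] at h5
    have h6 : (1 - 1 / (p : ℝ)) = (p - 1) / p := by field_simp
    rw [h6, div_mul_eq_mul_div, le_div_iff₀ hp0]
    linarith

theorem primeFactors_Mw {P : ℕ} (hP : 2 ≤ P) : (Mw P).primeFactors = PP P := by
  ext q
  rw [Nat.mem_primeFactors]
  constructor
  · rintro ⟨h1, h2, _⟩
    rcases prime_dvd_Mw h1 h2 with h | h
    · rw [h]; exact mem_PP.mpr ⟨Nat.prime_two, hP⟩
    · exact h
  · intro h
    have := Mw_pos P
    exact ⟨(mem_PP.mp h).1, dvd_Mw h, by omega⟩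

end Pool.Agent.Lib.MP_0e0027_nt

namespace Pool.Agent.Lib.MP_0e0027_nt

theorem one_le_DD (n : ℕ) (hn : 1 ≤ n) : 1 ≤ DD 2 n := by
  unfold DD
  have h1 : 1 ∈ n.divisors.filter (fun d ↦ Nat.Coprime d 2) := by
    rw [mem_filter]
    exact ⟨Nat.one_mem_divisors.mpr (by omega), Nat.coprime_one_left 2⟩
  have h2 := single_le_sum (f := fun d : ℕ ↦ 1 / (d : ℝ)) (fun d _ ↦ by positivity) h1
  simpa using h2

/-- many pairwise coprime quadruples -/
theorem main_count : ∃ c : ℝ, 0 < c ∧ ∃ N0 : ℕ, ∀ n : ℕ, N0 ≤ n →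
    (n % 8 = 3 ∨ n % 8 = 4 ∨ n % 8 = 7) → n % 3 ≠ 2 →
    c * (n : ℝ) ≤ (((Qset n).filter PC).card : ℝ) := by
  obtain ⟨P, hP2, hP⟩ := exists_P 497664
  set E : ℝ := Real.exp (-(24 * sP P)) with hE
  have hE0 : 0 < E := Real.exp_pos _
  have hP0 : (0 : ℝ) < P := by
    have : 0 < P := by omega
    exact_mod_cast this
  set δ : ℝ := E / 3 - 165888 / P with hδ
  have hδ0 : 0 < δ := by
    rw [hδ, sub_pos, div_lt_div_iff₀ hP0 (by norm_num)]
    linarith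
  set M := Mw P with hM
  have hM1 : 1 ≤ M := Mw_pos P
  have hM0 : (0 : ℝ) < M := by exact_mod_cast hM1
  obtain ⟨C1, hC1, hlow⟩ := lower_I M (two_dvd_Mw P) hM1
  obtain ⟨C2, hC2, hbad⟩ := bad_total
  set C3 : ℝ := (M : ℝ) ^ 2 * C1 + 6 * C2 with hC3
  have hC30 : 0 < C3 := by positivity
  have hev : ∀ᶠ n : ℕ in Filter.atTop, 2 * C3 / δ ≤ (n : ℝ) ^ ((1 : ℝ) / 1000) :=
    ((tendsto_rpow_atTop (by norm_num : (0 : ℝ) < 1 / 1000)).comp
      tendsto_natCast_atTop_atTop).eventually_ge_atTop (2 * C3 / δ)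
  obtain ⟨N1, hN1⟩ := Filter.eventually_atTop.mp hev
  refine ⟨δ / 2, by positivity, N1, ?_⟩
  intro n hn h8 h3
  have hn1 : 1 ≤ n := by omega
  have hn' : (1 : ℝ) ≤ n := by exact_mod_cast hn1
  have hn0 : (0 : ℝ) < n := by linarith
  have hbig := hN1 n hn
  -- lower bound of the total
  set D := DD 2 n with hD
  have hD1 : 1 ≤ D := one_le_DD n hn1
  set Pi1 : ℝ := ∏ p ∈ PP P, (1 - 1 / (p : ℝ)) with hPid
  have hPPp : ∀ q ∈ PP P, q.Prime := fun q hq ↦ (mem_PP.mp hq).1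
  have hPiE : Real.exp (-(2 * sP P)) ≤ Pi1 := prod_ge_exp (PP P) hPPp
  have hPiP : 0 < Pi1 := lt_of_lt_of_le (Real.exp_pos _) hPiE
  have hDD : Pi1 * D ≤ DD M n := by
    have := DD_mul_prod 2 n (PP P) hPPp
    exact this
  have hcl := classes_ge (n := n) h3 hP2
  rw [← hM] at hcl
  have hclu : ((classes n P).card : ℝ) ≤ (M : ℝ) ^ 2 := by
    have h1 : (classes n P).card ≤ (range M ×ˢ range M).card := by
      apply card_le_card
      intro ab hab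
      rw [mem_classes] at hab
      rw [mem_product, mem_range, mem_range]
      exact ⟨hab.1, hab.2.1⟩
    rw [card_product, card_range] at h1
    rw [sq]
    exact_mod_cast h1
  have hsum : (E / 3) * n * D - (M : ℝ) ^ 2 * C1 * (n : ℝ) ^ ((99 : ℝ) / 100) ≤
      ((∑ ab ∈ classes n P, Nrep n 1 M ab.1 ab.2 : ℕ) : ℝ) := by
    push_cast
    have h1 : ∀ ab ∈ classes n P, (4 / 3) * Pi1 * ((n : ℝ) / (M : ℝ) ^ 2) * DD M n -
        C1 * (n : ℝ) ^ ((99 : ℝ) / 100) ≤ (Nrep n 1 M ab.1 ab.2 : ℝ) := by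
      intro ab hab
      obtain ⟨ν, H⟩ := hyp_M h8 (mem_classes.mp hab).2.2
      have h2 := hlow n ν ab.1 ab.2 hn1 H
      rw [hM, primeFactors_Mw hP2] at h2
      exact h2
    have h2 := sum_le_sum h1
    rw [sum_const, nsmul_eq_mul] at h2
    refine le_trans ?_ h2
    have h4 : E = Real.exp (-(20 * sP P)) * Real.exp (-(2 * sP P)) * Real.exp (-(2 * sP P)) := by
      rw [hE, ← Real.exp_add, ← Real.exp_add]
      congr 1
      ring
    have h5 : (E / 3) * n * D ≤ ((classes n P).card : ℝ) *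
        ((4 / 3) * Pi1 * ((n : ℝ) / (M : ℝ) ^ 2) * DD M n) := by
      have h6 : Real.exp (-(2 * sP P)) * Real.exp (-(2 * sP P)) * D ≤ Pi1 * DD M n := by
        calc Real.exp (-(2 * sP P)) * Real.exp (-(2 * sP P)) * D ≤ Pi1 * Pi1 * D := by gcongr
          _ = Pi1 * (Pi1 * D) := by ring
          _ ≤ Pi1 * DD M n := mul_le_mul_of_nonneg_left hDD hPiP.le
      have h7 : (0 : ℝ) ≤ Real.exp (-(2 * sP P)) * Real.exp (-(2 * sP P)) * D := by positivity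
      calc (E / 3) * n * D = ((1 / 4) * Real.exp (-(20 * sP P)) * (M : ℝ) ^ 2) *
            ((4 / 3) * ((n : ℝ) / (M : ℝ) ^ 2) *
              (Real.exp (-(2 * sP P)) * Real.exp (-(2 * sP P)) * D)) := by
            rw [h4]; field_simp; try ring
        _ ≤ ((classes n P).card : ℝ) * ((4 / 3) * ((n : ℝ) / (M : ℝ) ^ 2) * (Pi1 * DD M n)) := by
            apply mul_le_mul hcl _ (by positivity) (by positivity)
            exact mul_le_mul_of_nonneg_left h6 (by positivity)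
        _ = _ := by ring
    have h6 : ((classes n P).card : ℝ) * (C1 * (n : ℝ) ^ ((99 : ℝ) / 100)) ≤
        (M : ℝ) ^ 2 * (C1 * (n : ℝ) ^ ((99 : ℝ) / 100)) :=
      mul_le_mul_of_nonneg_right hclu (by positivity)
    linarith
  have hub : ((∑ ab ∈ classes n P, Nrep n 1 M ab.1 ab.2 : ℕ) : ℝ) ≤
      (((Qset n).filter PC).card : ℝ) + 6 * ((∑ p ∈ Pr n P, (Bad n p).card : ℕ) : ℝ) := by
    exact_mod_cast union_bound (P := P) h8
  have hbd := hbad n P h8 (by omega)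
  -- powers of n
  have h99 : (n : ℝ) ^ ((99 : ℝ) / 100) ≤ (n : ℝ) ^ ((999 : ℝ) / 1000) :=
    Real.rpow_le_rpow_of_exponent_le hn' (by norm_num)
  have hfin : C3 * (n : ℝ) ^ ((999 : ℝ) / 1000) ≤ δ / 2 * n := by
    have h1 : (n : ℝ) = (n : ℝ) ^ ((1 : ℝ) / 1000) * (n : ℝ) ^ ((999 : ℝ) / 1000) := by
      rw [← Real.rpow_add hn0]; norm_num
    have h2 : 2 * C3 ≤ δ * (n : ℝ) ^ ((1 : ℝ) / 1000) := by
      rw [div_le_iff₀ hδ0] at hbig
      linarith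
    have h3 : (0 : ℝ) < (n : ℝ) ^ ((999 : ℝ) / 1000) := by positivity
    have h4 := mul_le_mul_of_nonneg_right h2 h3.le
    calc C3 * (n : ℝ) ^ ((999 : ℝ) / 1000) = (1 / 2) * (2 * C3 * (n : ℝ) ^ ((999 : ℝ) / 1000)) := by
          ring
      _ ≤ (1 / 2) * (δ * (n : ℝ) ^ ((1 : ℝ) / 1000) * (n : ℝ) ^ ((999 : ℝ) / 1000)) := by linarith
      _ = δ / 2 * ((n : ℝ) ^ ((1 : ℝ) / 1000) * (n : ℝ) ^ ((999 : ℝ) / 1000)) := by ring
      _ = δ / 2 * n := by rw [← h1]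
  have hmul : (M : ℝ) ^ 2 * C1 * (n : ℝ) ^ ((99 : ℝ) / 100) ≤
      (M : ℝ) ^ 2 * C1 * (n : ℝ) ^ ((999 : ℝ) / 1000) :=
    mul_le_mul_of_nonneg_left h99 (by positivity)
  have hδn : δ * n ≤ δ * n * D := le_mul_of_one_le_right (by positivity) hD1
  have hexp : δ * n * D = (E / 3) * n * D - 6 * (27648 * ((n : ℝ) / P) * D) := by
    rw [hδ]; ring
  have hC3e : C3 * (n : ℝ) ^ ((999 : ℝ) / 1000) = (M : ℝ) ^ 2 * C1 *
      (n : ℝ) ^ ((999 : ℝ) / 1000) + 6 * (C2 * (n : ℝ) ^ ((999 : ℝ) / 1000)) := by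
    rw [hC3]; ring
  linarith

end Pool.Agent.Lib.MP_0e0027_nt
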